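import Pool.Agent.CMK.St4

/-!
# CMK: a large connected matching gives a cycle of length `k + 1` (`St_Alpha`)
-/

set_option autoImplicit false

namespace Pool.CMK

open Finset
open scoped Classical

variable {V : Type}

/-- a vertex with many neighbours in the adjacent cluster -/
private theorem Alpha_vertex (G : SimpleGraph V) {t s : ℕ} {Vs : Fin t → Finset V}
    {Γ : SimpleGraph (Fin t)} {d γ : ℝ} (hBl : Bl G s Vs Γ d γ) (hγ1 : γ ≤ 1) (hs : 0 < s)
    {i j : Fin t} (hij : Γ.Adj i j) : ∃ v ∈ Vs i, d * s ≤ ((nbs G v (Vs j)).card : ℝ) := by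
  by_contra hcon
  push Not at hcon
  have hs' : (0 : ℝ) < s := by exact_mod_cast hs
  have hγs : γ * s ≤ (s : ℝ) := by nlinarith
  have h1 := hBl.low i j hij (Vs i) (Vs j) (Finset.Subset.refl _) (Finset.Subset.refl _)
    (by rw [hBl.card]; exact hγs) (by rw [hBl.card]; exact hγs)
  rw [hBl.card, hBl.card] at h1
  have hsum : ad G (Vs i) (Vs j) = ∑ x ∈ Vs i, (nbs G x (Vs j)).card := by
    unfold ad nbs
    rw [Finset.card_filter, Finset.sum_product]
    refine Finset.sum_congr rfl (fun x _ => ?_)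
    rw [Finset.card_filter]
  have hne : (Vs i).Nonempty := by
    rw [← Finset.card_pos, hBl.card]; exact hs
  have h2 : ((ad G (Vs i) (Vs j) : ℕ) : ℝ) < ∑ _x ∈ Vs i, d * s := by
    rw [hsum]
    push_cast
    exact Finset.sum_lt_sum_of_nonempty hne (fun x hx => hcon x hx)
  rw [Finset.sum_const, hBl.card, nsmul_eq_mul] at h2
  nlinarith

theorem thm_Alpha (hExpM : St_ExpM) (hWalkE : St_WalkE) (hEmb : St_Emb) : St_Alpha := by
  intro V _ G t s Vs Γ d γ K M k u g hBl hγ h8 hd1 hs hM hM1 hcon hu hg hus hugs hodd hk3 huk hk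
  have hd : 0 < d := by linarith
  obtain ⟨e₀, he₀⟩ := List.exists_mem_of_length_pos hM1
  obtain ⟨hadj₀, ha'K, haK⟩ := hM.adj e₀ he₀
  obtain ⟨v₀, hv₀, hv₀n⟩ := Alpha_vertex G hBl (by linarith) hs hadj₀.symm
  obtain ⟨w, hwc, hwh, hwl, hwK, hwodd, hwlen, hwM⟩ := hWalkE (Fin t) Γ K M e₀.1 hM ha'K hcon
  -- the length of the walk
  have hKt : K.card ≤ t := by
    have := Finset.card_le_univ K
    rwa [Fintype.card_fin] at this
  have hw3 : 3 ≤ w.length := by
    obtain ⟨l₁, l₂, hl⟩ := hwM e₀ he₀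
    rw [hl]
    simp only [List.length_append, List.length_cons, List.length_nil]
    omega
  have hwlen' : w.length ≤ 1 + M.length * (2 * t + 2) := by
    refine hwlen.trans ?_
    have : M.length * (2 * K.card + 2) ≤ M.length * (2 * t + 2) :=
      Nat.mul_le_mul_left _ (by omega)
    omega
  have hwu : w.length + 1 ≤ u := by omega
  have hwus : (w.length : ℝ) + (({v₀} : Finset V).card : ℝ) ≤ d * s / 4 := by
    rw [Finset.card_singleton]
    have : ((w.length + 1 : ℕ) : ℝ) ≤ u := by exact_mod_cast hwu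
    push_cast at this
    push_cast
    linarith
  obtain ⟨z, hzw, hzc, hznd, hzV, ⟨x, hx, hzh⟩, ⟨y, hy, hzl⟩⟩ :=
    hEmb V G t s Vs Γ d γ hBl hγ h8 hd1 w e₀.1 e₀.1 (nbs G v₀ (Vs e₀.1)) (nbs G v₀ (Vs e₀.1)) {v₀}
      hwc (by omega) hwh hwl (Finset.filter_subset _ _) (Finset.filter_subset _ _) hv₀n hv₀n hwus
  have hxa : G.Adj v₀ x := (Finset.mem_filter.1 hx).2
  have hya : G.Adj v₀ y := (Finset.mem_filter.1 hy).2
  have hzlen : (z.map Prod.fst).length = w.length := by rw [← hzw]; simp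
  -- the cycle
  have hchain : (z.map Prod.fst).IsChain G.Adj := by
    rw [List.isChain_map]
    exact hzc.imp (fun a b h => h.1)
  have hcyc : CycL G (v₀ :: z.map Prod.fst) := by
    refine ⟨?_, ?_, ?_, v₀, y, rfl, ?_, hya.symm⟩
    · rw [List.length_cons, hzlen]; omega
    · rw [List.nodup_cons]
      refine ⟨?_, hznd⟩
      intro hmem
      obtain ⟨q, hq, hqv⟩ := List.mem_map.1 hmem
      exact (hzV q hq).2 (by rw [hqv]; exact Finset.mem_singleton_self _)
    · rw [List.isChain_cons]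
      refine ⟨?_, hchain⟩
      intro b hb
      rw [hzh, Option.mem_def, Option.some.injEq] at hb
      rw [← hb]
      exact hxa
    · rw [List.getLast?_cons, hzl]; rfl
  have hClen : (v₀ :: z.map Prod.fst).length = w.length + 1 := by
    rw [List.length_cons, hzlen]
  obtain ⟨C, hC⟩ : ∃ C, C = v₀ :: z.map Prod.fst := ⟨_, rfl⟩
  rw [← hC] at hcyc hClen
  have hu2 : C.length + C.length ≤ u := by
    rw [hClen]; omega
  -- few vertices in each cluster
  have hfew : ∀ i ∈ K, ((Vs i).filter (fun v => v ∈ C)).card +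
      ((Vs i).filter (fun v => v ∈ C)).card ≤ u := by
    intro i _
    have h1 : (Vs i).filter (fun v => v ∈ C) ⊆ C.toFinset := by
      intro v hv
      rw [List.mem_toFinset]
      exact (Finset.mem_filter.1 hv).2
    have h2 := (Finset.card_le_card h1).trans (List.toFinset_card_le C)
    omega
  -- the edges of the matching
  have hedge : ∀ e ∈ M, ∃ x y : V, (∃ l₁ l₂ : List V, C = l₁ ++ [x, y] ++ l₂) ∧
    ((x ∈ Vs e.1 ∧ y ∈ Vs e.2 ∧ d * s ≤ ((nbs G x (Vs e.2)).card : ℝ) ∧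
        d * s ≤ ((nbs G y (Vs e.1)).card : ℝ)) ∨
      (x ∈ Vs e.2 ∧ y ∈ Vs e.1 ∧ d * s ≤ ((nbs G x (Vs e.1)).card : ℝ) ∧
        d * s ≤ ((nbs G y (Vs e.2)).card : ℝ))) := by
    intro e he
    obtain ⟨l₁, l₂, hl⟩ := hwM e he
    rw [hl] at hzw
    rw [List.map_eq_append_iff] at hzw
    obtain ⟨z₁, z₂, hz12, hz1, hz2⟩ := hzw
    rw [List.map_eq_append_iff] at hz1
    obtain ⟨z₃, z₄, hz34, hz3, hz4⟩ := hz1
    rw [List.map_eq_cons_iff] at hz4
    obtain ⟨q₁, r₁, hr₁, hq₁, hr₁'⟩ := hz4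
    rw [List.map_eq_cons_iff] at hr₁'
    obtain ⟨q₂, r₂, hr₂, hq₂, hr₂'⟩ := hr₁'
    rw [List.map_eq_cons_iff] at hr₂'
    obtain ⟨q₃, r₃, hr₃, hq₃, hr₃'⟩ := hr₂'
    rw [List.map_eq_nil_iff] at hr₃'
    subst hr₃'
    subst hr₃
    subst hr₂
    subst hr₁
    subst hz34
    subst hz12
    have hmem1 : q₁ ∈ z₃ ++ [q₁, q₂, q₃] ++ z₂ := by simp
    have hmem2 : q₂ ∈ z₃ ++ [q₁, q₂, q₃] ++ z₂ := by simp
    have hch := (List.isChain_append.1 (List.isChain_append.1 hzc).1).2.1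
    rw [List.isChain_cons_cons, List.isChain_cons_cons] at hch
    obtain ⟨hE1, hE2, -⟩ := hch
    refine ⟨q₁.1, q₂.1, ⟨v₀ :: z₃.map Prod.fst, q₃.1 :: z₂.map Prod.fst, ?_⟩, Or.inl ⟨?_, ?_, ?_, ?_⟩⟩
    · rw [hC]
      simp
    · have := (hzV q₁ hmem1).1
      rwa [hq₁] at this
    · have := (hzV q₂ hmem2).1
      rwa [hq₂] at this
    · have := hE1.2
      rwa [hq₂] at this
    · have := hE2.2
      rwa [hq₃] at this
  -- the total length
  have hEven : Even (k + 1 - C.length) := by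
    rw [hClen]
    rw [Nat.odd_iff] at hodd hwodd
    rw [Nat.even_iff]
    omega
  obtain ⟨C', hC', hC'l⟩ := hExpM V G t s Vs Γ d γ K M C u g (k + 1 - C.length) hBl hγ hd hs hM
    hcyc hg hugs hfew hedge hEven (by omega) (by omega)
  refine ⟨C', hC', ?_⟩
  rw [hC'l]
  omega

end Pool.CMK
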