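import Pool.Agent.CMK.St1

/-!
# CMK: ALT, a long alternating path in a pair without holes
-/

set_option autoImplicit false

namespace Pool.CMK

open Finset
open scoped Classical

private theorem Alt_count {S : Type} (c : S → Bool) :
    ∀ (n : ℕ) (l : List S), l.length ≤ n → l.IsChain (fun u v => c u = !c v) →
      l.countP c ≤ l.countP (fun u => !c u) + 1 ∧
      l.countP (fun u => !c u) ≤ l.countP c + 1 := by
  intro n
  induction n using Nat.strong_induction_on with
  | _ n ih =>
    intro l hl hc
    match l, hl, hc with
    | [], _, _ => simp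
    | [x], _, _ =>
      cases hx : c x <;> simp [hx]
    | x :: y :: l', hl, hc =>
      have hxy : c x = !c y := by
        have := hc
        rw [List.isChain_cons_cons] at this
        exact this.1
      have hc' : l'.IsChain (fun u v => c u = !c v) := by
        have := hc
        rw [List.isChain_cons_cons] at this
        exact this.2.tail
      have hlen : l'.length < n := by
        simp only [List.length_cons] at hl
        omega
      have h := ih l'.length hlen l' le_rfl hc'
      cases hy : c y
      · have hx : c x = true := by rw [hxy, hy]; rfl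
        simp only [List.countP_cons, hx, hy, Bool.not_true, Bool.not_false, if_true,
          Bool.false_eq_true, if_false]
        omega
      · have hx : c x = false := by rw [hxy, hy]; rfl
        simp only [List.countP_cons, hx, hy, Bool.not_true, Bool.not_false, if_true,
          Bool.false_eq_true, if_false]
        omega

theorem thm_Alt (hDfs : St_Dfs) : St_Alt := by
  intro V _ G A B m g hAB hA hB hP1
  by_cases hmg : m < 2 * g
  · exact ⟨[], by simp, by simp, by simp, by simp; omega⟩
  let S := {v : V // v ∈ A ∪ B}
  have hS : ∀ v : S, (v.1 ∈ A ↔ v.1 ∉ B) := by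
    intro v
    constructor
    · intro h h'
      exact (Finset.disjoint_left.1 hAB) h h'
    · intro h
      have := v.2
      rw [Finset.mem_union] at this
      tauto
  let H : SimpleGraph S :=
    { Adj := fun u v => G.Adj u.1 v.1 ∧ (u.1 ∈ A ↔ v.1 ∈ B)
      symm := ⟨by
        intro u v h
        refine ⟨h.1.symm, ?_⟩
        have h1 := hS u
        have h2 := hS v
        have h3 := h.2
        tauto⟩
      loopless := ⟨fun u h => G.loopless.irrefl _ h.1⟩ }
  obtain ⟨P0, W, T, hnd, hch, hWT, hmem, hcard, hno⟩ := hDfs S H
  -- counts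
  have hcl : (P0.toFinset.filter (fun u : S => u.1 ∈ A)).card =
      P0.countP (fun u => decide (u.1 ∈ A)) := by
    rw [List.countP_eq_length_filter, ← List.toFinset_card_of_nodup (hnd.filter _),
      List.toFinset_filter]
    congr 1
    ext u
    simp
  have hclB : (P0.toFinset.filter (fun u : S => u.1 ∈ B)).card =
      P0.countP (fun u => !decide (u.1 ∈ A)) := by
    rw [List.countP_eq_length_filter, ← List.toFinset_card_of_nodup (hnd.filter _),
      List.toFinset_filter]
    congr 1
    ext u
    have := hS u
    simp only [Finset.mem_filter, List.mem_toFinset, Bool.not_eq_true', decide_eq_false_iff_not]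
    tauto
  have halt := Alt_count (fun u : S => decide (u.1 ∈ A)) P0.length P0 le_rfl (by
    refine hch.imp ?_
    intro u v huv
    have h1 := hS u
    have h2 := hS v
    have h3 := huv.2
    by_cases h4 : u.1 ∈ A <;> by_cases h5 : v.1 ∈ A <;> simp only [h4, h5] <;> first | rfl | tauto)
  have hlen : P0.length = (P0.toFinset.filter (fun u : S => u.1 ∈ A)).card +
      (P0.toFinset.filter (fun u : S => u.1 ∈ B)).card := by
    rw [← List.toFinset_card_of_nodup hnd, ← Finset.card_filter_add_card_filter_not
      (fun u : S => u.1 ∈ A)]
    congr 2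
    ext u
    have := hS u
    simp only [Finset.mem_filter, List.mem_toFinset]
    tauto
  have hspl : ∀ X : Finset S, X.card = (X.filter (fun u : S => u.1 ∈ A)).card +
      (X.filter (fun u : S => u.1 ∈ B)).card := by
    intro X
    rw [← Finset.card_filter_add_card_filter_not (s := X) (fun u : S => u.1 ∈ A)]
    congr 2
    ext u
    have := hS u
    simp only [Finset.mem_filter]
    tauto
  have htot : ∀ C : Finset V, C ⊆ A ∪ B → C.card =
      (P0.toFinset.filter (fun u : S => u.1 ∈ C)).card +
      (W.filter (fun u : S => u.1 ∈ C)).card + (T.filter (fun u : S => u.1 ∈ C)).card := by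
    intro C hC
    have h1 : C = ((Finset.univ : Finset S).filter (fun u : S => u.1 ∈ C)).image
        (fun u : S => u.1) := by
      ext v
      simp only [Finset.mem_image, Finset.mem_filter, Finset.mem_univ, true_and]
      constructor
      · intro hv
        exact ⟨⟨v, hC hv⟩, hv, rfl⟩
      · rintro ⟨u, hu, rfl⟩
        exact hu
    have h2 : C.card = ((Finset.univ : Finset S).filter (fun u : S => u.1 ∈ C)).card := by
      conv_lhs => rw [h1]
      exact Finset.card_image_of_injective _ Subtype.val_injective
    have h3 : (Finset.univ : Finset S).filter (fun u : S => u.1 ∈ C) =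
        (P0.toFinset.filter (fun u : S => u.1 ∈ C) ∪ W.filter (fun u : S => u.1 ∈ C)) ∪
          T.filter (fun u : S => u.1 ∈ C) := by
      ext u
      have := hmem u
      simp only [Finset.mem_union, Finset.mem_filter, Finset.mem_univ, true_and,
        List.mem_toFinset]
      tauto
    rw [h2, h3, Finset.card_union_of_disjoint, Finset.card_union_of_disjoint]
    · rw [Finset.disjoint_left]
      intro u hu hu'
      simp only [Finset.mem_filter, List.mem_toFinset] at hu hu'
      exact ((hmem u).1 hu.1).1 hu'.1
    · rw [Finset.disjoint_left]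
      intro u hu hu'
      simp only [Finset.mem_filter, List.mem_toFinset, Finset.mem_union] at hu hu'
      rcases hu with hu | hu
      · exact ((hmem u).1 hu.1).2 hu'.1
      · exact (Finset.disjoint_left.1 hWT) hu.1 hu'.1
  have hAt := htot A Finset.subset_union_left
  have hBt := htot B Finset.subset_union_right
  have hci : ∀ (X : Finset S) (C : Finset V),
      ((X.filter (fun u : S => u.1 ∈ C)).image (fun u : S => u.1)).card =
        (X.filter (fun u : S => u.1 ∈ C)).card := fun X C =>
    Finset.card_image_of_injective _ Subtype.val_injective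
  have hsub : ∀ (X : Finset S) (C : Finset V),
      (X.filter (fun u : S => u.1 ∈ C)).image (fun u : S => u.1) ⊆ C := by
    intro X C v hv
    simp only [Finset.mem_image, Finset.mem_filter] at hv
    obtain ⟨u, ⟨_, hu⟩, rfl⟩ := hv
    exact hu
  have hk1 : (W.filter (fun u : S => u.1 ∈ A)).card < g ∨
      (T.filter (fun u : S => u.1 ∈ B)).card < g := by
    by_contra hcon
    push Not at hcon
    obtain ⟨x, hx, y, hy, hxy⟩ := hP1
      ((W.filter (fun u : S => u.1 ∈ A)).image (fun u : S => u.1))
      ((T.filter (fun u : S => u.1 ∈ B)).image (fun u : S => u.1))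
      (hsub _ _) (hsub _ _) (by rw [hci]; exact hcon.1) (by rw [hci]; exact hcon.2)
    simp only [Finset.mem_image, Finset.mem_filter] at hx hy
    obtain ⟨u, ⟨hu1, hu2⟩, rfl⟩ := hx
    obtain ⟨v, ⟨hv1, hv2⟩, rfl⟩ := hy
    exact hno u hu1 v hv1 ⟨hxy, ⟨fun _ => hv2, fun _ => hu2⟩⟩
  have hk2 : (T.filter (fun u : S => u.1 ∈ A)).card < g ∨
      (W.filter (fun u : S => u.1 ∈ B)).card < g := by
    by_contra hcon
    push Not at hcon
    obtain ⟨x, hx, y, hy, hxy⟩ := hP1
      ((T.filter (fun u : S => u.1 ∈ A)).image (fun u : S => u.1))
      ((W.filter (fun u : S => u.1 ∈ B)).image (fun u : S => u.1))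
      (hsub _ _) (hsub _ _) (by rw [hci]; exact hcon.1) (by rw [hci]; exact hcon.2)
    simp only [Finset.mem_image, Finset.mem_filter] at hx hy
    obtain ⟨u, ⟨hu1, hu2⟩, rfl⟩ := hx
    obtain ⟨v, ⟨hv1, hv2⟩, rfl⟩ := hy
    refine hno v hv1 u hu1 ⟨hxy.symm, ?_⟩
    have h1 := hS u
    have h2 := hS v
    tauto
  refine ⟨P0.map Subtype.val, hnd.map Subtype.val_injective, ?_, ?_, ?_⟩
  · rw [List.isChain_map]
    exact hch
  · intro v hv
    rw [List.mem_map] at hv
    obtain ⟨u, _, rfl⟩ := hv
    exact u.2
  · rw [List.length_map]
    have hW := hspl W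
    have hT := hspl T
    rw [← hcl, ← hclB] at halt
    rw [hA] at hAt
    rw [hB] at hBt
    rw [hW, hT] at hcard
    rw [hlen]
    omega

end Pool.CMK
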