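import Pool.Agent.CMK.StS

/-!
# CMK: case (β) of `St_BOne`, two small closed components of the reduced graph (`St_BOnB`)
-/

set_option autoImplicit false

namespace Pool.CMK

open Finset
open scoped Classical

private theorem BOnB_len {t : ℕ} (Γ : SimpleGraph (Fin t)) (K : Finset (Fin t))
    (M : List (Fin t × Fin t)) (hM : MatL Γ K M) : 2 * M.length ≤ t := by
  have h1 : (M.flatMap (fun e => [e.1, e.2])).length = 2 * M.length := by
    clear hM
    induction M with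
    | nil => rfl
    | cons a M ih =>
      rw [List.flatMap_cons, List.length_append, ih]
      simp only [List.length_cons, List.length_nil]
      ring
  have h2 := hM.nod.length_le_card
  rw [h1, Fintype.card_fin] at h2
  exact h2

/-- the matching inside one closed component -/
private theorem BOnB_one (hMatch : St_Match) {ε : ℝ} {k s t : ℕ} (hε : 0 < ε) (hs : 0 < s)
    (Γ : SimpleGraph (Fin t)) (K : Finset (Fin t))
    (hdeg : ∀ i, (1 / 2 + ε / 2) * k ≤ (s : ℝ) * (nbs Γ i univ).card) (hK : K.Nonempty)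
    (hcl : ∀ i ∈ K, ∀ j, Γ.Adj i j → j ∈ K) :
    ∃ M : List (Fin t × Fin t), MatL Γ K M ∧ (1 / 2 + ε / 2) * k ≤ 2 * s * (M.length : ℝ) := by
  have hs' : (0 : ℝ) < s := by exact_mod_cast hs
  have hnb : ∀ i ∈ K, nbs Γ i K = nbs Γ i univ := by
    intro i hi
    ext j
    simp only [nbs, mem_filter, mem_univ, true_and]
    exact ⟨fun h => h.2, fun h => ⟨hcl i hi j h, h⟩⟩
  obtain ⟨M, hM, hM2⟩ := hMatch (Fin t) Γ K ⌈(1 / 2 + ε / 2) * k / s⌉₊ (by
    intro v hv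
    rw [hnb v hv]
    refine Nat.ceil_le.mpr ?_
    rw [div_le_iff₀ hs']
    have := hdeg v
    linarith)
  refine ⟨M, hM, ?_⟩
  rcases hM2 with h | h
  · have h1 : (1 / 2 + ε / 2) * k / s ≤ (M.length : ℝ) :=
      (Nat.le_ceil _).trans (by exact_mod_cast h)
    rw [div_le_iff₀ hs'] at h1
    have h2 : (0 : ℝ) ≤ (M.length : ℝ) * s := by positivity
    linarith
  · obtain ⟨i, hi⟩ := hK
    have h1 : nbs Γ i univ ⊆ K.erase i := by
      intro j hj
      have hj' : Γ.Adj i j := by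
        simpa only [nbs, mem_filter, mem_univ, true_and] using hj
      exact mem_erase.mpr ⟨hj'.ne', hcl i hi j hj'⟩
    have h2 := card_le_card h1
    rw [card_erase_of_mem hi] at h2
    have h3 : (nbs Γ i univ).card ≤ 2 * M.length := by omega
    have h4 : ((nbs Γ i univ).card : ℝ) ≤ 2 * (M.length : ℝ) := by exact_mod_cast h3
    have h5 := hdeg i
    have h6 : (s : ℝ) * (nbs Γ i univ).card ≤ s * (2 * (M.length : ℝ)) :=
      mul_le_mul_of_nonneg_left h4 hs'.le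
    linarith

private theorem BOnB_small {ε : ℝ} {k s t : ℕ} (hε : 0 < ε) (hs : 0 < s)
    (Γ : SimpleGraph (Fin t)) (K : Finset (Fin t))
    (hdeg : ∀ i, (1 / 2 + ε / 2) * k ≤ (s : ℝ) * (nbs Γ i univ).card)
    (hsm : (s : ℝ) * K.card < (1 + ε / 4) * k) :
    ∀ i ∈ K, K.card < 2 * (nbs Γ i univ).card := by
  intro i _
  have hs' : (0 : ℝ) < s := by exact_mod_cast hs
  have hk : (0 : ℝ) ≤ k := by positivity
  have h1 := hdeg i
  have h2 : (s : ℝ) * K.card < s * (2 * (nbs Γ i univ).card) := by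
    have h3 : (1 + ε / 4) * k ≤ 2 * ((1 / 2 + ε / 2) * k) := by
      have : 0 ≤ ε * (k : ℝ) := by positivity
      nlinarith
    linarith
  have h4 := lt_of_mul_lt_mul_left h2 hs'.le
  exact_mod_cast h4

/-- The module BONB. -/
theorem thm_BOnB (hMatch : St_Match) (hBeta : St_Beta) : St_BOnB := by
  intro ε d γ T hε hε1 hd hd1 hγ hγd hγε
  obtain ⟨u₀, hu₀⟩ : ∃ u₀ : ℕ, u₀ = 2 * (12 + T * (2 * T + 2)) := ⟨_, rfl⟩
  refine ⟨⌈2 * (16 * T + 2 * u₀ * T : ℝ) / ε⌉₊ + ⌈4 * T * (u₀ + 4 : ℝ) / d⌉₊ + 3, ?_⟩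
  intro k hk hodd V _ G t s Vs Γ K₁ K₂ hBl htT hkT hsk hSC hdeg hdis hK₁ hK₂ hcl₁ hcl₂ hsm₁ hsm₂
  have hk3 : 3 ≤ k := by omega
  have hTs : 0 < T * s := by omega
  have hT : 0 < T := Nat.pos_of_mul_pos_right hTs
  have hs : 0 < s := Nat.pos_of_mul_pos_left hTs
  have hT' : (0 : ℝ) < T := by exact_mod_cast hT
  have hs' : (0 : ℝ) < s := by exact_mod_cast hs
  have hk' : (0 : ℝ) < k := by exact_mod_cast (by omega : 0 < k)
  have hkA : 2 * (16 * T + 2 * u₀ * T : ℝ) ≤ ε * k := by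
    have h1 : 2 * (16 * T + 2 * u₀ * T : ℝ) / ε ≤ k :=
      (Nat.le_ceil _).trans (Nat.cast_le.mpr (by omega))
    rw [div_le_iff₀ hε] at h1
    linarith
  have hds : (u₀ + 4 : ℝ) ≤ d * s / 4 := by
    have h1 : 4 * T * (u₀ + 4 : ℝ) / d ≤ k :=
      (Nat.le_ceil _).trans (Nat.cast_le.mpr (by omega))
    rw [div_le_iff₀ hd] at h1
    have h2 : (k : ℝ) ≤ T * s := by exact_mod_cast hkT
    have h3 : (k : ℝ) * d ≤ T * s * d := mul_le_mul_of_nonneg_right h2 hd.le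
    have h4 : (T : ℝ) * (4 * (u₀ + 4)) ≤ T * (s * d) := by linarith
    have h5 := le_of_mul_le_mul_left h4 hT'
    linarith
  obtain ⟨M₁, hM₁, hb₁⟩ := BOnB_one hMatch hε hs Γ K₁ hdeg hK₁ hcl₁
  obtain ⟨M₂, hM₂, hb₂⟩ := BOnB_one hMatch hε hs Γ K₂ hdeg hK₂ hcl₂
  have hl₁ := BOnB_len Γ K₁ M₁ hM₁
  have hl₂ := BOnB_len Γ K₂ M₂ hM₂
  have hpos : 0 < (1 / 2 + ε / 2) * (k : ℝ) := by positivity
  have hone : ∀ n : ℕ, (1 / 2 + ε / 2) * (k : ℝ) ≤ 2 * s * (n : ℝ) → 1 ≤ n := by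
    intro n hn
    rcases Nat.eq_zero_or_pos n with h | h
    · subst h
      simp only [Nat.cast_zero, mul_zero] at hn
      linarith
    · exact h
  obtain ⟨m, hm⟩ : ∃ m : ℕ, m = M₁.length + M₂.length := ⟨_, rfl⟩
  have hmT : m ≤ T := by omega
  have hmT' : (m : ℝ) ≤ T := by exact_mod_cast hmT
  have hm0 : (0 : ℝ) ≤ m := Nat.cast_nonneg m
  obtain ⟨u, hu⟩ : ∃ u : ℕ, u = 2 * (12 + m * (2 * t + 2)) := ⟨_, rfl⟩
  have huu : u ≤ u₀ := by
    rw [hu, hu₀]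
    have h1 : m * (2 * t + 2) ≤ T * (2 * T + 2) := Nat.mul_le_mul hmT (by omega)
    omega
  have huu' : (u : ℝ) ≤ u₀ := by exact_mod_cast huu
  obtain ⟨g, hg⟩ : ∃ g : ℕ, g = ⌈γ * s⌉₊ := ⟨_, rfl⟩
  have hg1 : (g : ℝ) ≤ γ * s + 1 := by
    rw [hg]
    exact (Nat.ceil_lt_add_one (by positivity)).le
  have hγs : γ * s ≤ d / 50 * s := mul_le_mul_of_nonneg_right hγd hs'.le
  have hds0 : 0 < d * s := by positivity
  have hb : (1 + ε) * k ≤ 2 * s * (m : ℝ) := by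
    rw [hm]
    push_cast
    linarith
  have hbig : 4 * m + k + m * (2 * u + 12 * g) ≤ m * (2 * s) := by
    have h1 : (m : ℝ) * g ≤ m * (γ * s + 1) := mul_le_mul_of_nonneg_left hg1 hm0
    have h2 : (m : ℝ) * u ≤ T * u₀ := mul_le_mul hmT' huu' (Nat.cast_nonneg _) hT'.le
    have h3 : γ * (2 * s * m) ≤ ε / 200 * (2 * s * m) :=
      mul_le_mul_of_nonneg_right hγε (by positivity)
    have h4 : (1 + ε / 2) * k ≤ (1 - 6 * (ε / 200)) * (2 * s * m) := by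
      have h5 : (1 - 6 * (ε / 200)) * ((1 + ε) * k) ≤ (1 - 6 * (ε / 200)) * (2 * s * m) :=
        mul_le_mul_of_nonneg_left hb (by linarith)
      have h6 : (1 + ε / 2) * (k : ℝ) ≤ (1 - 6 * (ε / 200)) * ((1 + ε) * k) := by
        have h7 : (1 + ε / 2) ≤ (1 - 6 * (ε / 200)) * (1 + ε) := by nlinarith
        calc (1 + ε / 2) * (k : ℝ) ≤ ((1 - 6 * (ε / 200)) * (1 + ε)) * k :=
              mul_le_mul_of_nonneg_right h7 hk'.le
          _ = _ := by ring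
      linarith
    have h8 : (4 * m + k + m * (2 * u + 12 * g) : ℝ) ≤ m * (2 * s) := by
      nlinarith
    exact_mod_cast h8
  refine hBeta V G t s Vs Γ d γ K₁ K₂ M₁ M₂ k u g hBl hγ (by linarith) hd1 hSC hdis hcl₁ hcl₂
    (BOnB_small hε hs Γ K₁ hdeg hsm₁) (BOnB_small hε hs Γ K₂ hdeg hsm₂) hM₁ hM₂ (hone _ hb₁)
    (hone _ hb₂) (by rw [hu, hm]) hg (by linarith) (by linarith) hodd hk3 ?_
  rw [← hm]
  exact hbig

end Pool.CMK
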