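import Pool.Agent.CMK.StS

/-!
# CMK: case (b1), the graph has at most `C k` vertices (`St_BOne`)

Case (α) (one large component of the reduced graph) is `St_BOnA`, case (β) (two small ones) is `St_BOnB`.
-/

set_option autoImplicit false

namespace Pool.CMK

open Finset
open scoped Classical

/-- the component of `i` in the reduced graph -/
private noncomputable def BOne_K {t : ℕ} (Γ : SimpleGraph (Fin t)) (i : Fin t) : Finset (Fin t) :=
  univ.filter (fun j => Γ.Reachable i j)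

private theorem BOne_memK {t : ℕ} (Γ : SimpleGraph (Fin t)) (i j : Fin t) :
    j ∈ BOne_K Γ i ↔ Γ.Reachable i j := by
  simp [BOne_K]

private theorem BOne_closed {t : ℕ} (Γ : SimpleGraph (Fin t)) (i : Fin t) :
    ∀ x ∈ BOne_K Γ i, ∀ j, Γ.Adj x j → j ∈ BOne_K Γ i := by
  intro x hx j hj
  rw [BOne_memK] at hx ⊢
  exact hx.trans hj.reachable

private theorem BOne_nbs {t : ℕ} (Γ : SimpleGraph (Fin t)) (i : Fin t) :
    ∀ x ∈ BOne_K Γ i, nbs Γ x (BOne_K Γ i) = nbs Γ x univ := by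
  intro x hx
  ext j
  simp only [nbs, mem_filter, mem_univ, true_and]
  exact ⟨fun h => h.2, fun h => ⟨BOne_closed Γ i x hx j h, h⟩⟩

private theorem BOne_conn {t : ℕ} (Γ : SimpleGraph (Fin t)) (i : Fin t) :
    ∀ x ∈ BOne_K Γ i, ∀ y ∈ BOne_K Γ i, ∃ l : List (Fin t), l.IsChain Γ.Adj ∧ l.head? = some x ∧
      l.getLast? = some y ∧ ∀ z ∈ l, z ∈ BOne_K Γ i := by
  intro x hx y hy
  rw [BOne_memK] at hx hy
  obtain ⟨p⟩ := hx.symm.trans hy
  refine ⟨p.support, p.isChain_adj_support, ?_, ?_, ?_⟩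
  · rw [List.head?_eq_some_head p.support_ne_nil, p.head_support]
  · rw [List.getLast?_eq_some_getLast p.support_ne_nil, p.getLast_support]
  · intro z hz
    rw [BOne_memK]
    exact hx.trans (p.takeUntil z hz).reachable

/-- The module BONE. -/
theorem thm_BOne (hReg : St_Reg) (hBOnA : St_BOnA) (hBOnB : St_BOnB) : St_BOne := by
  intro ε C hε hε1 hC
  obtain ⟨d, γ, hd, hd1, hγ, hγd, hγε, T, k₁, hR⟩ := hReg ε C hε hε1 hC
  obtain ⟨k₂, hA⟩ := hBOnA ε d γ T hε hε1 hd hd1 hγ hγd hγε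
  obtain ⟨k₃, hB⟩ := hBOnB ε d γ T hε hε1 hd hd1 hγ hγd hγε
  refine ⟨k₁ + k₂ + k₃ + 2, ?_⟩
  intro k hk hodd V _ G hV1 hV2 hdeg hSC
  obtain ⟨t, s, Vs, Γ, hBl, htT, hkT, hsk, hdegΓ, hst⟩ := hR k (by omega) V G hV1 hV2 hdeg
  have hk2 : (2 : ℝ) ≤ k := by exact_mod_cast (by omega : 2 ≤ k)
  by_cases hbig : ∃ i, (1 + ε / 4) * k ≤ (s : ℝ) * (BOne_K Γ i).card
  · obtain ⟨i, hi⟩ := hbig
    obtain ⟨l, hl, hlen⟩ := hA k (by omega) hodd V G t s Vs Γ (BOne_K Γ i) hBl htT hkT hsk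
      (by
        intro x hx
        rw [BOne_nbs Γ i x hx]
        exact hdegΓ x)
      (BOne_conn Γ i) hi
    refine ⟨l, hl, ?_⟩
    rw [hlen, Nat.add_mod_left]
    exact Nat.mod_eq_of_lt (by omega)
  · push Not at hbig
    have ht : 0 < t := by
      rcases Nat.eq_zero_or_pos t with h | h
      · exfalso
        rw [h] at hst
        simp only [Nat.cast_zero, zero_mul] at hst
        nlinarith
      · exact h
    have hex : ∃ j, j ∉ BOne_K Γ ⟨0, ht⟩ := by
      by_contra hcon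
      push Not at hcon
      have hu : BOne_K Γ ⟨0, ht⟩ = univ := by
        ext j
        simp [hcon j]
      have h1 := hbig ⟨0, ht⟩
      rw [hu, card_univ, Fintype.card_fin] at h1
      have h2 : (t : ℝ) * s = (s : ℝ) * t := mul_comm _ _
      nlinarith
    obtain ⟨j, hj⟩ := hex
    refine hB k (by omega) hodd V G t s Vs Γ (BOne_K Γ ⟨0, ht⟩) (BOne_K Γ j) hBl htT hkT hsk hSC
      hdegΓ ?_ ⟨⟨0, ht⟩, ?_⟩ ⟨j, ?_⟩ (BOne_closed Γ _) (BOne_closed Γ _) (hbig _) (hbig _)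
    · rw [Finset.disjoint_left]
      intro x hx hx'
      rw [BOne_memK] at hx hx' hj
      exact hj (hx.trans hx'.symm)
    · rw [BOne_memK]
    · rw [BOne_memK]

end Pool.CMK
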