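import Pool.Agent.CMK.St2

/-!
# CMK: BTWO, a very unbalanced bipartite graph has a cycle of length `k + 1`
-/

set_option autoImplicit false

namespace Pool.CMK

open Finset
open scoped Classical

/-- the number of common neighbours in `R` -/
private noncomputable def BTwo_cod {V : Type} (G : SimpleGraph V) (R : Finset V) (a b : V) : ℕ :=
  (R.filter (fun v => G.Adj v a ∧ G.Adj v b)).card

private lemma BTwo_greedy {V : Type} (G : SimpleGraph V) (Q R Z : Finset V) (k c : ℕ) (β : ℝ)
    (hQR : Disjoint Q R) (hZQ : Z ⊆ Q) (hkc : k + 1 = 2 * c) (hc : 2 ≤ c) (hβ0 : 0 ≤ β)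
    (hβ : ∀ z ∈ Z, ((Z.filter (fun w => BTwo_cod G R z w < k)).card : ℝ) ≤ β)
    (hZ : (c : ℝ) - 1 + 2 * β < (Z.card : ℝ)) :
    ∃ l, CycL G l ∧ l.length = k + 1 := by
  have hQRn : ∀ v ∈ Q, v ∉ R := fun v h1 h2 => Finset.disjoint_left.1 hQR h1 h2
  have hc2 : (2 : ℝ) ≤ (c : ℝ) := by exact_mod_cast hc
  have hZne : Z.Nonempty := by
    rw [← Finset.card_pos]
    have h0 : (0 : ℝ) < (Z.card : ℝ) := by linarith
    exact_mod_cast h0
  obtain ⟨z1, hz1⟩ := hZne
  have key : ∀ n : ℕ, n + 1 ≤ c → ∃ (z : V) (t : List V) (s : Finset V),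
      (z :: t).length = 2 * n + 1 ∧ (z :: t).getLast? = some z1 ∧ (z :: t).Nodup ∧
      (z :: t).IsChain G.Adj ∧ (∀ v ∈ z :: t, v ∈ s ∨ v ∈ R) ∧ s.card ≤ n + 1 ∧ z ∈ Z ∧
      z1 ∈ s ∧ (1 ≤ n → k ≤ BTwo_cod G R z1 z) := by
    intro n
    induction n with
    | zero =>
      intro _
      refine ⟨z1, [], {z1}, rfl, rfl, List.nodup_singleton _, List.isChain_singleton _, ?_, ?_,
        hz1, Finset.mem_singleton_self _, fun h => absurd h (by omega)⟩
      · intro v hv
        rw [List.mem_singleton] at hv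
        exact Or.inl (by rw [hv]; exact Finset.mem_singleton_self _)
      · rw [Finset.card_singleton]
    | succ n ih =>
      intro hn
      obtain ⟨z, t, s, h1, h2, h3, h4, h5, h6, h7, h8, _⟩ := ih (by omega)
      have hcount : (s ∪ (Z.filter (fun w => BTwo_cod G R z w < k) ∪
          Z.filter (fun w => BTwo_cod G R z1 w < k))).card < Z.card := by
        have e1 := Finset.card_union_le s (Z.filter (fun w => BTwo_cod G R z w < k) ∪
          Z.filter (fun w => BTwo_cod G R z1 w < k))
        have e2 := Finset.card_union_le (Z.filter (fun w => BTwo_cod G R z w < k))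
          (Z.filter (fun w => BTwo_cod G R z1 w < k))
        have e3 := hβ z h7
        have e4 := hβ z1 hz1
        have e5 : ((s ∪ (Z.filter (fun w => BTwo_cod G R z w < k) ∪
            Z.filter (fun w => BTwo_cod G R z1 w < k))).card : ℝ) ≤ (s.card : ℝ) +
            (((Z.filter (fun w => BTwo_cod G R z w < k)).card : ℝ) +
            ((Z.filter (fun w => BTwo_cod G R z1 w < k)).card : ℝ)) := by
          have := e1.trans (Nat.add_le_add_left e2 _)
          exact_mod_cast this
        have e6 : (s.card : ℝ) ≤ (c : ℝ) - 1 := by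
          have : s.card + 1 ≤ c := by omega
          have h0 : (s.card : ℝ) + 1 ≤ (c : ℝ) := by exact_mod_cast this
          linarith
        have e7 : ((s ∪ (Z.filter (fun w => BTwo_cod G R z w < k) ∪
            Z.filter (fun w => BTwo_cod G R z1 w < k))).card : ℝ) < (Z.card : ℝ) := by
          linarith
        exact_mod_cast e7
      obtain ⟨z', hz', hz's⟩ := Finset.exists_mem_notMem_of_card_lt_card hcount
      rw [Finset.mem_union, Finset.mem_union, Finset.mem_filter, Finset.mem_filter, not_or,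
        not_or] at hz's
      obtain ⟨hs', hg1, hg2⟩ := hz's
      have hg1' : k ≤ BTwo_cod G R z z' := by
        by_contra h0
        exact hg1 ⟨hz', not_le.1 h0⟩
      have hg2' : k ≤ BTwo_cod G R z1 z' := by
        by_contra h0
        exact hg2 ⟨hz', not_le.1 h0⟩
      have hcount2 : (z :: t).toFinset.card < (R.filter (fun v => G.Adj v z ∧ G.Adj v z')).card := by
        have e1 := List.toFinset_card_le (z :: t)
        unfold BTwo_cod at hg1'
        omega
      obtain ⟨r, hr, hrl⟩ := Finset.exists_mem_notMem_of_card_lt_card hcount2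
      rw [Finset.mem_filter] at hr
      rw [List.mem_toFinset] at hrl
      have hz'R : z' ∉ R := hQRn z' (hZQ hz')
      refine ⟨z', r :: z :: t, insert z' s, ?_, ?_, ?_, ?_, ?_, ?_, hz',
        Finset.mem_insert_of_mem h8, fun _ => hg2'⟩
      · simp only [List.length_cons] at h1 ⊢
        omega
      · rw [List.getLast?_cons_cons, List.getLast?_cons_cons]
        exact h2
      · refine List.nodup_cons.2 ⟨?_, List.nodup_cons.2 ⟨hrl, h3⟩⟩
        intro h0
        rcases List.mem_cons.1 h0 with h0 | h0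
        · exact hz'R (by rw [h0]; exact hr.1)
        · rcases h5 z' h0 with h9 | h9
          · exact hs' h9
          · exact hz'R h9
      · rw [List.isChain_cons_cons, List.isChain_cons_cons]
        exact ⟨hr.2.2.symm, hr.2.1, h4⟩
      · intro v hv
        rcases List.mem_cons.1 hv with h0 | h0
        · exact Or.inl (by rw [h0]; exact Finset.mem_insert_self _ _)
        · rcases List.mem_cons.1 h0 with h9 | h9
          · exact Or.inr (by rw [h9]; exact hr.1)
          · rcases h5 v h9 with h10 | h10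
            · exact Or.inl (Finset.mem_insert_of_mem h10)
            · exact Or.inr h10
      · exact (Finset.card_insert_le _ _).trans (by omega)
  obtain ⟨z, t, s, h1, h2, h3, h4, h5, h6, h7, h8, h9⟩ := key (c - 1) (by omega)
  have hg := h9 (by omega)
  have hz1R : z1 ∉ R := hQRn z1 (hZQ hz1)
  have hz1l : z1 ∈ z :: t := List.mem_of_getLast? h2
  have hcount : ((z :: t).toFinset.erase z1).card <
      (R.filter (fun v => G.Adj v z1 ∧ G.Adj v z)).card := by
    have e1 := List.toFinset_card_le (z :: t)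
    rw [Finset.card_erase_of_mem (List.mem_toFinset.2 hz1l)]
    unfold BTwo_cod at hg
    omega
  obtain ⟨r, hr, hrl⟩ := Finset.exists_mem_notMem_of_card_lt_card hcount
  rw [Finset.mem_filter] at hr
  have hrz1 : r ≠ z1 := fun h0 => hz1R (by rw [← h0]; exact hr.1)
  have hrl' : r ∉ z :: t := by
    intro h0
    exact hrl (Finset.mem_erase.2 ⟨hrz1, List.mem_toFinset.2 h0⟩)
  refine ⟨r :: z :: t, ⟨?_, ?_, ?_, ?_⟩, ?_⟩
  · simp only [List.length_cons] at h1 ⊢
    omega
  · exact List.nodup_cons.2 ⟨hrl', h3⟩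
  · rw [List.isChain_cons_cons]
    exact ⟨hr.2.2, h4⟩
  · refine ⟨r, z1, rfl, ?_, hr.2.1.symm⟩
    rw [List.getLast?_cons_cons]
    exact h2
  · simp only [List.length_cons] at h1 ⊢
    omega

theorem thm_BTwo : St_BTwo := by
  intro ε hε hε1
  refine ⟨2304 / ε ^ 2, ?_, 5, ?_⟩
  · rw [le_div_iff₀ (by positivity)]
    nlinarith
  intro k hk hodd V G Q R hQR hQ hR hdeg
  have hkR : (5 : ℝ) ≤ (k : ℝ) := by exact_mod_cast hk
  have hk0 : (0 : ℝ) < (k : ℝ) := by linarith
  obtain ⟨c, hc⟩ : ∃ c, k + 1 = 2 * c := by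
    obtain ⟨m, hm⟩ := hodd
    exact ⟨m + 1, by omega⟩
  have hcR : (k : ℝ) + 1 = 2 * (c : ℝ) := by exact_mod_cast hc
  -- the bad pairs
  set P : Finset (V × V) := (Q ×ˢ Q).filter (fun p => BTwo_cod G R p.1 p.2 < k) with hP
  have hPcard : P.card ≤ (3 * k) * (3 * k) := by
    refine (Finset.card_filter_le _ _).trans ?_
    rw [Finset.card_product]
    exact Nat.mul_le_mul hQ hQ
  have hsum : ∑ v ∈ R, (P.filter (fun p => G.Adj v p.1 ∧ G.Adj v p.2)).card ≤
      (3 * k) * (3 * k) * k := by
    have e1 : ∑ v ∈ R, (P.filter (fun p => G.Adj v p.1 ∧ G.Adj v p.2)).card =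
        ∑ p ∈ P, BTwo_cod G R p.1 p.2 := by
      unfold BTwo_cod
      simp only [Finset.card_filter]
      rw [Finset.sum_comm]
    rw [e1]
    calc ∑ p ∈ P, BTwo_cod G R p.1 p.2 ≤ ∑ _p ∈ P, k := by
          apply Finset.sum_le_sum
          intro p hp
          rw [hP, Finset.mem_filter] at hp
          exact hp.2.le
      _ = P.card * k := by rw [Finset.sum_const, smul_eq_mul]
      _ ≤ (3 * k) * (3 * k) * k := Nat.mul_le_mul_right _ hPcard
  have hRpos : (0 : ℝ) < (R.card : ℝ) := lt_of_lt_of_le (by positivity) hR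
  have hRne : R.Nonempty := by
    rw [← Finset.card_pos]
    exact_mod_cast hRpos
  obtain ⟨v, hvR, hv⟩ : ∃ v ∈ R, (((P.filter (fun p => G.Adj v p.1 ∧ G.Adj v p.2)).card : ℕ) : ℝ) ≤
      ε ^ 2 * k ^ 2 / 256 := by
    apply Finset.exists_le_of_sum_le hRne
    have e1 : ∑ v ∈ R, (((P.filter (fun p => G.Adj v p.1 ∧ G.Adj v p.2)).card : ℕ) : ℝ) ≤
        9 * (k : ℝ) ^ 3 := by
      have e2 : ((∑ v ∈ R, (P.filter (fun p => G.Adj v p.1 ∧ G.Adj v p.2)).card : ℕ) : ℝ) ≤
          (((3 * k) * (3 * k) * k : ℕ) : ℝ) := by exact_mod_cast hsum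
      push_cast at e2
      nlinarith [e2]
    refine e1.trans ?_
    rw [Finset.sum_const, nsmul_eq_mul]
    calc 9 * (k : ℝ) ^ 3 = (2304 / ε ^ 2 * k) * (ε ^ 2 * k ^ 2 / 256) := by
          field_simp
          ring
      _ ≤ (R.card : ℝ) * (ε ^ 2 * k ^ 2 / 256) :=
          mul_le_mul_of_nonneg_right hR (by positivity)
  set Z0 : Finset V := nbs G v Q with hZ0
  have hZ0c : (1 / 2 + ε / 2) * k ≤ (Z0.card : ℝ) := hdeg v hvR
  have hZ0Q : Z0 ⊆ Q := by
    rw [hZ0]
    exact Finset.filter_subset _ _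
  have hsum2 : ∑ z ∈ Z0, ((Z0.filter (fun w => BTwo_cod G R z w < k)).card : ℝ) ≤
      ε ^ 2 * k ^ 2 / 256 := by
    refine le_trans ?_ hv
    have e1 : ∑ z ∈ Z0, (Z0.filter (fun w => BTwo_cod G R z w < k)).card ≤
        (P.filter (fun p => G.Adj v p.1 ∧ G.Adj v p.2)).card := by
      have e2 : ∑ z ∈ Z0, (Z0.filter (fun w => BTwo_cod G R z w < k)).card =
          ((Z0 ×ˢ Z0).filter (fun p => BTwo_cod G R p.1 p.2 < k)).card := by
        rw [Finset.card_filter, Finset.sum_product]
        apply Finset.sum_congr rfl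
        intro z _
        rw [Finset.card_filter]
      rw [e2]
      apply Finset.card_le_card
      rintro ⟨x, y⟩ hxy
      rw [Finset.mem_filter, Finset.mem_product] at hxy
      obtain ⟨⟨hx, hy⟩, hc'⟩ := hxy
      simp only at hx hy hc'
      rw [hZ0] at hx hy
      unfold nbs at hx hy
      rw [Finset.mem_filter] at hx hy
      rw [Finset.mem_filter, hP, Finset.mem_filter, Finset.mem_product]
      exact ⟨⟨⟨hx.1, hy.1⟩, hc'⟩, hx.2, hy.2⟩
    exact_mod_cast e1
  set Y : Finset V := Z0.filter (fun z => ε * k / 16 <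
    ((Z0.filter (fun w => BTwo_cod G R z w < k)).card : ℝ)) with hY
  have hYc : (Y.card : ℝ) ≤ ε * k / 16 := by
    have e1 : (Y.card : ℝ) * (ε * k / 16) ≤ ε ^ 2 * k ^ 2 / 256 := by
      calc (Y.card : ℝ) * (ε * k / 16) = ∑ _z ∈ Y, ε * k / 16 := by
            rw [Finset.sum_const, nsmul_eq_mul]
        _ ≤ ∑ z ∈ Y, ((Z0.filter (fun w => BTwo_cod G R z w < k)).card : ℝ) := by
            apply Finset.sum_le_sum
            intro z hz
            rw [hY, Finset.mem_filter] at hz
            exact hz.2.le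
        _ ≤ ∑ z ∈ Z0, ((Z0.filter (fun w => BTwo_cod G R z w < k)).card : ℝ) := by
            apply Finset.sum_le_sum_of_subset_of_nonneg (Finset.filter_subset _ _)
            intro z _ _
            positivity
        _ ≤ _ := hsum2
    have e2 : ε ^ 2 * (k : ℝ) ^ 2 / 256 = (ε * k / 16) * (ε * k / 16) := by ring
    rw [e2] at e1
    exact le_of_mul_le_mul_right e1 (by positivity)
  have hZc : (1 / 2 + 7 * ε / 16) * k ≤ ((Z0 \ Y).card : ℝ) := by
    have e1 : Z0.card ≤ (Z0 \ Y).card + Y.card := by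
      have := Finset.card_le_card_sdiff_add_card (s := Z0) (t := Y)
      omega
    have e2 : (Z0.card : ℝ) ≤ ((Z0 \ Y).card : ℝ) + (Y.card : ℝ) := by exact_mod_cast e1
    linarith
  refine BTwo_greedy G Q R (Z0 \ Y) k c (ε * k / 16) hQR (Finset.sdiff_subset.trans hZ0Q) hc
    (by omega) (by positivity) ?_ ?_
  · intro z hz
    rw [Finset.mem_sdiff] at hz
    have h1 : ((Z0.filter (fun w => BTwo_cod G R z w < k)).card : ℝ) ≤ ε * k / 16 := by
      by_contra h0
      exact hz.2 (by rw [hY, Finset.mem_filter]; exact ⟨hz.1, not_le.1 h0⟩)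
    refine le_trans ?_ h1
    have h2 : ((Z0 \ Y).filter (fun w => BTwo_cod G R z w < k)).card ≤
        (Z0.filter (fun w => BTwo_cod G R z w < k)).card :=
      Finset.card_le_card (Finset.filter_subset_filter _ Finset.sdiff_subset)
    exact_mod_cast h2
  · have h1 : 0 < ε * k := by positivity
    nlinarith

end Pool.CMK
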