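import Pool.Agent.CMK.StS

/-!
# CMK: the part of the cycle of `St_Beta` inside one component (module BETE)
-/

set_option autoImplicit false

namespace Pool.CMK

open Finset
open scoped Classical

/-- two elements of `K` have a common neighbour -/
private theorem BetE_common {t : ℕ} (Γ : SimpleGraph (Fin t)) (K : Finset (Fin t))
    (hcl : ∀ i ∈ K, ∀ j, Γ.Adj i j → j ∈ K)
    (hdeg : ∀ i ∈ K, K.card < 2 * (nbs Γ i univ).card) (x y : Fin t) (hx : x ∈ K) (hy : y ∈ K) :
    ∃ c ∈ K, Γ.Adj x c ∧ Γ.Adj c y := by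
  have h1 := hdeg x hx
  have h2 := hdeg y hy
  have hsx : nbs Γ x univ ⊆ K := by
    intro j hj
    simp only [nbs, mem_filter, mem_univ, true_and] at hj
    exact hcl x hx j hj
  have hsy : nbs Γ y univ ⊆ K := by
    intro j hj
    simp only [nbs, mem_filter, mem_univ, true_and] at hj
    exact hcl y hy j hj
  have hne : (nbs Γ x univ ∩ nbs Γ y univ).Nonempty := by
    by_contra hemp
    rw [not_nonempty_iff_eq_empty] at hemp
    have hd : Disjoint (nbs Γ x univ) (nbs Γ y univ) := disjoint_iff_inter_eq_empty.2 hemp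
    have h3 : (nbs Γ x univ ∪ nbs Γ y univ).card ≤ K.card := card_le_card (union_subset hsx hsy)
    rw [card_union_of_disjoint hd] at h3
    omega
  obtain ⟨c, hc⟩ := hne
  have hc1 := (mem_inter.1 hc).1
  have hc2 := (mem_inter.1 hc).2
  refine ⟨c, hsx hc1, ?_, ?_⟩
  · simpa only [nbs, mem_filter, mem_univ, true_and] using hc1
  · have : Γ.Adj y c := by simpa only [nbs, mem_filter, mem_univ, true_and] using hc2
    exact this.symm

/-- a typical vertex has many neighbours in a cluster of the same closed set -/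
private theorem BetE_typ {V : Type} [Fintype V] {G : SimpleGraph V} {t s : ℕ}
    {Vs : Fin t → Finset V} {Γ : SimpleGraph (Fin t)} {d γ : ℝ} (hBl : Bl G s Vs Γ d γ)
    (K : Finset (Fin t)) (hcl : ∀ i ∈ K, ∀ j, Γ.Adj i j → j ∈ K) (p : V)
    (hp : ∃ i ∈ K, p ∈ Vs i) : ∃ a ∈ K, d * s ≤ ((nbs G p (Vs a)).card : ℝ) := by
  obtain ⟨i, hi, hpi⟩ := hp
  obtain ⟨j, hj, hd⟩ := hBl.typ i p hpi
  exact ⟨j, hcl i hi j hj, hd⟩

theorem thm_BetE (hWalkE : St_WalkE) (hEmb : St_Emb) : St_BetE := by
  intro V _ G t s Vs Γ d γ K M p q par hBl hγ hγd hd1 hcl hdeg hM hsz hpq hp hq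
  obtain ⟨a, ha, hda⟩ := BetE_typ hBl K hcl p hp
  obtain ⟨b, hb, hdb⟩ := BetE_typ hBl K hcl q hq
  have hcom := BetE_common Γ K hcl hdeg
  have hcon : ∀ x ∈ K, ∀ y ∈ K, ∃ l : List (Fin t), l.IsChain Γ.Adj ∧ l.head? = some x ∧
      l.getLast? = some y ∧ ∀ z ∈ l, z ∈ K := by
    intro x hx y hy
    obtain ⟨c, hc, h1, h2⟩ := hcom x y hx hy
    refine ⟨[x, c, y], ?_, rfl, rfl, ?_⟩
    · simp [h1, h2]
    · intro z hz
      simp only [List.mem_cons, List.not_mem_nil, or_false] at hz
      rcases hz with rfl | rfl | rfl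
      · exact hx
      · exact hc
      · exact hy
  obtain ⟨w, hwc, hwh, hwl, hwK, hwodd, hwlen, hwM⟩ := hWalkE (Fin t) Γ K M a hM ha hcon
  have hKt : K.card ≤ t := by
    have := card_le_univ K
    simpa using this
  have hlen0 : M.length * (2 * K.card + 2) ≤ M.length * (2 * t + 2) :=
    Nat.mul_le_mul_left _ (by omega)
  -- the extension of the walk
  have hext : ∃ x : List (Fin t), (w ++ x).IsChain Γ.Adj ∧ (∀ z ∈ x, z ∈ K) ∧
      (w ++ x).getLast? = some b ∧ x.length ≤ 3 ∧ 2 ≤ x.length ∧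
      (if par then Odd (w ++ x).length else Even (w ++ x).length) := by
    obtain ⟨c, hc, hc1, hc2⟩ := hcom a b ha hb
    cases par with
    | true =>
      refine ⟨[c, b], ?_, ?_, ?_, by simp, by simp, ?_⟩
      · rw [List.isChain_append]
        refine ⟨hwc, by simp [hc2], ?_⟩
        intro x hx y hy
        rw [hwl] at hx
        simp only [Option.mem_def, Option.some.injEq] at hx
        simp only [List.head?_cons, Option.mem_def, Option.some.injEq] at hy
        rw [← hx, ← hy]
        exact hc1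
      · intro z hz
        simp only [List.mem_cons, List.not_mem_nil, or_false] at hz
        rcases hz with rfl | rfl
        · exact hc
        · exact hb
      · simp [List.getLast?_append]
      · simp only [if_true, List.length_append, List.length_cons, List.length_nil]
        rcases hwodd with ⟨m, hm⟩
        exact ⟨m + 1, by omega⟩
    | false =>
      obtain ⟨c', hc', hc1', -⟩ := hcom a a ha ha
      obtain ⟨c₂, hc₂, hc3, hc4⟩ := hcom c' b hc' hb
      refine ⟨[c', c₂, b], ?_, ?_, ?_, by simp, by simp, ?_⟩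
      · rw [List.isChain_append]
        refine ⟨hwc, by simp [hc3, hc4], ?_⟩
        intro x hx y hy
        rw [hwl] at hx
        simp only [Option.mem_def, Option.some.injEq] at hx
        simp only [List.head?_cons, Option.mem_def, Option.some.injEq] at hy
        rw [← hx, ← hy]
        exact hc1'
      · intro z hz
        simp only [List.mem_cons, List.not_mem_nil, or_false] at hz
        rcases hz with rfl | rfl | rfl
        · exact hc'
        · exact hc₂
        · exact hb
      · simp [List.getLast?_append]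
      · simp only [Bool.false_eq_true, if_false, List.length_append, List.length_cons,
          List.length_nil]
        rcases hwodd with ⟨m, hm⟩
        exact ⟨m + 2, by omega⟩
  obtain ⟨x, hxc, hxK, hxl, hx3, hx2, hpar⟩ := hext
  have hwne : w ≠ [] := by
    intro h
    rw [h] at hwh
    simp at hwh
  have hwpos : 1 ≤ w.length := List.length_pos_iff.2 hwne
  have hwh' : (w ++ x).head? = some a := by
    rw [List.head?_append, hwh]
    rfl
  have hlen1 : (w ++ x).length ≤ 4 + M.length * (2 * t + 2) := by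
    rw [List.length_append]
    omega
  have hUc : (({p, q} : Finset V).card : ℝ) ≤ 2 := by
    exact_mod_cast card_le_two
  have hfit : (((w ++ x).length : ℕ) : ℝ) + (({p, q} : Finset V).card : ℝ) ≤ d * s / 4 := by
    have h1 : (((w ++ x).length : ℕ) : ℝ) ≤ ((4 + M.length * (2 * t + 2) : ℕ) : ℝ) := by
      exact_mod_cast hlen1
    have h2 : ((6 + M.length * (2 * t + 2) : ℕ) : ℝ) =
        ((4 + M.length * (2 * t + 2) : ℕ) : ℝ) + 2 := by
      push_cast
      ring
    rw [h2] at hsz
    linarith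
  obtain ⟨z, hzs, hzc, hznd, hzm, ⟨x₀, hx₀, hzh⟩, ⟨y₀, hy₀, hzl⟩⟩ :=
    hEmb V G t s Vs Γ d γ hBl hγ hγd hd1 (w ++ x) a b (nbs G p (Vs a)) (nbs G q (Vs b)) {p, q}
      hxc (by rw [List.length_append]; omega) hwh' hxl (filter_subset _ _) (filter_subset _ _)
      hda hdb hfit
  have hzlen : z.length = (w ++ x).length := by
    rw [← hzs, List.length_map]
  refine ⟨z.map Prod.fst, ⟨?_, hznd, ?_⟩, ⟨x₀, hzh, ?_⟩, ⟨y₀, hzl, ?_⟩, ?_, ?_, ?_, ?_⟩
  · intro h
    rw [h] at hzh
    simp at hzh
  · rw [List.isChain_map]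
    exact hzc.imp (fun u v h => h.1)
  · exact (mem_filter.1 hx₀).2
  · exact (mem_filter.1 hy₀).2.symm
  · intro v hv
    obtain ⟨c, hc, rfl⟩ := List.mem_map.1 hv
    obtain ⟨h1, h2⟩ := hzm c hc
    have h3 : c.2 ∈ w ++ x := by
      rw [← hzs]
      exact List.mem_map_of_mem hc
    have h4 : c.2 ∈ K := by
      rcases List.mem_append.1 h3 with h | h
      · exact hwK _ h
      · exact hxK _ h
    simp only [mem_insert, mem_singleton, not_or] at h2
    exact ⟨h2.1, h2.2, c.2, h4, h1⟩
  · rw [List.length_map, hzlen]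
    exact hpar
  · rw [List.length_map, hzlen]
    exact hlen1
  · intro e he
    obtain ⟨l₁, l₂, hl⟩ := hwM e he
    have hz' : z.map Prod.snd = l₁ ++ ([e.1, e.2, e.1] ++ (l₂ ++ x)) := by
      rw [hzs, hl]
      simp
    obtain ⟨z₁, z₂, hz12, hz1, hz2⟩ := List.map_eq_append_iff.1 hz'
    obtain ⟨z₃, z₄, hz34, hz3, hz4⟩ := List.map_eq_append_iff.1 hz2
    rcases z₃ with _ | ⟨u₁, _ | ⟨u₂, _ | ⟨u₃, _ | ⟨u₄, r⟩⟩⟩⟩
    · simp at hz3
    · simp at hz3
    · simp at hz3
    · simp only [List.map_cons, List.map_nil, List.cons.injEq, and_true] at hz3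
      obtain ⟨hu1, hu2, hu3⟩ := hz3
      have hzz : z = z₁ ++ (u₁ :: u₂ :: u₃ :: z₄) := by
        rw [hz12, hz34]
        rfl
      have hch := hzc
      rw [hzz] at hch
      have hch2 := (List.isChain_append.1 hch).2.1
      simp only [List.isChain_cons_cons] at hch2
      have hE1 : EmR G s Vs d u₁ u₂ := hch2.1
      have hE2 : EmR G s Vs d u₂ u₃ := hch2.2.1
      have hm1 : u₁ ∈ z := by rw [hzz]; simp
      have hm2 : u₂ ∈ z := by rw [hzz]; simp
      refine ⟨u₁.1, u₂.1, ⟨z₁.map Prod.fst, (u₃ :: z₄).map Prod.fst, ?_⟩, ?_, ?_, ?_, ?_⟩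
      · rw [hzz]
        simp
      · rw [← hu1]
        exact (hzm u₁ hm1).1
      · rw [← hu2]
        exact (hzm u₂ hm2).1
      · rw [← hu2]
        exact hE1.2
      · rw [← hu3]
        exact hE2.2
    · simp at hz3

end Pool.CMK
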