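import Pool.Agent.CMK.StS

/-!
# CMK: two Dirac type components joined by two disjoint paths (`St_Beta`)
-/

set_option autoImplicit false

namespace Pool.CMK

open Finset
open scoped Classical

variable {V : Type}

/-- joining four paths to a cycle -/
private theorem Beta_cyc (G : SimpleGraph V) (P Q E₁ E₂ : List V) (p₁ p₂ q₁ q₂ a₁ a₂ b₁ b₂ : V)
    (hP : PathL G P) (hQ : PathL G Q) (hE₁ : PathL G E₁) (hE₂ : PathL G E₂)
    (hPh : P.head? = some p₁) (hPl : P.getLast? = some p₂) (hQh : Q.head? = some q₁)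
    (hQl : Q.getLast? = some q₂) (h1h : E₁.head? = some a₁) (h1l : E₁.getLast? = some b₁)
    (h2h : E₂.head? = some a₂) (h2l : E₂.getLast? = some b₂) (c1 : G.Adj p₂ a₂)
    (c2 : G.Adj b₂ q₂) (c3 : G.Adj p₁ a₁) (c4 : G.Adj b₁ q₁)
    (d1 : ∀ v ∈ P, v ∉ Q) (d2 : ∀ v ∈ E₂, v ∉ P) (d3 : ∀ v ∈ E₁, v ∉ P) (d4 : ∀ v ∈ E₂, v ∉ Q)
    (d5 : ∀ v ∈ E₁, v ∉ Q) (d6 : ∀ v ∈ E₁, v ∉ E₂) :
    CycL G (P ++ (E₂ ++ (Q.reverse ++ E₁.reverse))) := by
  have hrev : ∀ l : List V, l.IsChain G.Adj → l.reverse.IsChain G.Adj := fun l hl =>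
    List.isChain_reverse.2 (hl.imp fun a b h => h.symm)
  refine ⟨?_, ?_, ?_, p₁, a₁, ?_, ?_, c3.symm⟩
  · have h1 := List.length_pos_of_ne_nil hP.1
    have h2 := List.length_pos_of_ne_nil hQ.1
    have h3 := List.length_pos_of_ne_nil hE₁.1
    have h4 := List.length_pos_of_ne_nil hE₂.1
    simp only [List.length_append, List.length_reverse]
    omega
  · rw [List.nodup_append', List.nodup_append', List.nodup_append', List.nodup_reverse,
      List.nodup_reverse]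
    refine ⟨hP.2.1, ⟨hE₂.2.1, ⟨hQ.2.1, hE₁.2.1, ?_⟩, ?_⟩, ?_⟩
    · intro v h1 h2
      exact d5 v (List.mem_reverse.1 h2) (List.mem_reverse.1 h1)
    · intro v h1 h2
      rcases List.mem_append.1 h2 with h2 | h2
      · exact d4 v h1 (List.mem_reverse.1 h2)
      · exact d6 v (List.mem_reverse.1 h2) h1
    · intro v h1 h2
      rcases List.mem_append.1 h2 with h2 | h2
      · exact d2 v h2 h1
      · rcases List.mem_append.1 h2 with h2 | h2
        · exact d1 v h1 (List.mem_reverse.1 h2)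
        · exact d3 v (List.mem_reverse.1 h2) h1
  · rw [List.isChain_append, List.isChain_append, List.isChain_append]
    refine ⟨hP.2.2, ⟨hE₂.2.2, ⟨hrev _ hQ.2.2, hrev _ hE₁.2.2, ?_⟩, ?_⟩, ?_⟩
    · intro x hx y hy
      rw [List.getLast?_reverse, hQh] at hx
      rw [List.head?_reverse, h1l] at hy
      simp only [Option.mem_def, Option.some.injEq] at hx hy
      subst hx; subst hy
      exact c4.symm
    · intro x hx y hy
      rw [List.head?_append, List.head?_reverse, hQl] at hy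
      rw [h2l] at hx
      simp only [Option.mem_def, Option.some.injEq, Option.some_or] at hx hy
      subst hx; subst hy
      exact c2
    · intro x hx y hy
      rw [List.head?_append, h2h] at hy
      rw [hPl] at hx
      simp only [Option.mem_def, Option.some.injEq, Option.some_or] at hx hy
      subst hx; subst hy
      exact c1
  · rw [List.head?_append, hPh]; rfl
  · rw [List.getLast?_append, List.getLast?_append, List.getLast?_append, List.getLast?_reverse,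
      h1h]
    rfl

/-- few vertices of the cycle in a cluster -/
private theorem Beta_few (X : Finset V) (C E : List V) (p q : V) (c : ℕ)
    (h : ∀ v ∈ X, v ∈ C → v = p ∨ v = q ∨ v ∈ E) (hE : E.length ≤ c) :
    (X.filter (fun v => v ∈ C)).card ≤ c + 2 := by
  have h1 : X.filter (fun v => v ∈ C) ⊆ insert p (insert q E.toFinset) := by
    intro v hv
    rw [Finset.mem_filter] at hv
    rw [Finset.mem_insert, Finset.mem_insert, List.mem_toFinset]
    exact h v hv.1 hv.2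
  have h2 := Finset.card_le_card h1
  have h3 := Finset.card_insert_le p (insert q E.toFinset)
  have h4 := Finset.card_insert_le q E.toFinset
  have h5 := List.toFinset_card_le E
  omega

theorem thm_Beta (hTwo : St_Two) (hExpM : St_ExpM) (hBetE : St_BetE) : St_Beta := by
  intro V _ G t s Vs Γ d γ K₁ K₂ M₁ M₂ k u g hBl hγ h8 hd1 hSC hdis hc₁ hc₂ hD₁ hD₂ hM₁ hM₂
    hl₁ hl₂ hu hg hus hugs hodd hk3 hk
  have hd : 0 < d := by linarith
  have hs2 : 2 ≤ s := by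
    by_contra hcon
    push Not at hcon
    have h1 : (s : ℝ) ≤ 1 := by exact_mod_cast Nat.lt_succ_iff.1 hcon
    have h2 : d * s ≤ 1 * 1 := mul_le_mul hd1 h1 (by positivity) zero_le_one
    have h3 : (0 : ℝ) ≤ u := by positivity
    have h4 : (0 : ℝ) ≤ g := by positivity
    linarith
  -- the two sets
  have hX : ∀ (K : Finset (Fin t)) (M : List (Fin t × Fin t)), MatL Γ K M → 1 ≤ M.length →
      2 ≤ (K.biUnion Vs).card := by
    intro K M hM hl
    obtain ⟨e, he⟩ := List.exists_mem_of_length_pos hl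
    have h1 : Vs e.1 ⊆ K.biUnion Vs := Finset.subset_biUnion_of_mem Vs (hM.adj e he).2.1
    have h2 := Finset.card_le_card h1
    rw [hBl.card] at h2
    omega
  have hVd : ∀ i ∈ K₁, ∀ j ∈ K₂, ∀ v ∈ Vs i, v ∉ Vs j := by
    intro i hi j hj v hv hv'
    have hij : i ≠ j := by
      rintro rfl
      exact Finset.disjoint_left.1 hdis hi hj
    exact Finset.disjoint_left.1 (hBl.disj i j hij) hv hv'
  have hXd : Disjoint (K₁.biUnion Vs) (K₂.biUnion Vs) := by
    rw [Finset.disjoint_left]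
    intro v hv hv'
    rw [Finset.mem_biUnion] at hv hv'
    obtain ⟨i, hi, hvi⟩ := hv
    obtain ⟨j, hj, hvj⟩ := hv'
    exact hVd i hi j hj v hvi hvj
  obtain ⟨P, Q, hP, hQ, hPQ, ⟨p₁, hp₁, hPh, hP1⟩, ⟨p₂, hp₂, hPl, hP2⟩, ⟨q₁, hq₁, hQh, hQ1⟩,
    ⟨q₂, hq₂, hQl, hQ2⟩⟩ := hTwo V G (K₁.biUnion Vs) (K₂.biUnion Vs) hSC hXd
      (hX K₁ M₁ hM₁ hl₁) (hX K₂ M₂ hM₂ hl₂)
  have hpq₁ : p₁ ≠ q₁ := by
    rintro rfl
    exact hPQ p₁ (List.mem_of_mem_head? hPh) (List.mem_of_mem_head? hQh)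
  have hpq₂ : p₂ ≠ q₂ := by
    rintro rfl
    exact hPQ p₂ (List.mem_of_mem_getLast? hPl) (List.mem_of_mem_getLast? hQl)
  have hbd : ∀ m : ℕ, m ≤ M₁.length + M₂.length → ((6 + m * (2 * t + 2) : ℕ) : ℝ) ≤ d * s / 4 := by
    intro m hm
    refine le_trans ?_ hus
    have h1 : 6 + m * (2 * t + 2) ≤ u := by
      have h2 := Nat.mul_le_mul_right (2 * t + 2) hm
      rw [hu]
      omega
    exact_mod_cast h1
  rw [Finset.mem_biUnion] at hp₁ hp₂ hq₁ hq₂
  -- the two versions of the part in the first component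
  have hE₁ := fun par => hBetE V G t s Vs Γ d γ K₁ M₁ p₁ q₁ par hBl hγ h8 hd1 hc₁ hD₁ hM₁
    (hbd _ (by omega)) hpq₁ hp₁ hq₁
  obtain ⟨E₂, hE₂, ⟨a₂, h2h, c1⟩, ⟨b₂, h2l, c2⟩, hE₂s, -, hE₂l, hE₂e⟩ :=
    hBetE V G t s Vs Γ d γ K₂ M₂ p₂ q₂ true hBl hγ h8 hd1 hc₂ hD₂ hM₂
      (hbd _ (by omega)) hpq₂ hp₂ hq₂
  choose E₁ hE₁ h1h h1l hE₁s hE₁p hE₁l hE₁e using hE₁
  obtain ⟨W, hW⟩ : ∃ W, W = 2 * t + 2 := ⟨_, rfl⟩
  rw [← hW] at hE₁l hE₂l hu
  obtain ⟨m₁, hm₁⟩ : ∃ m, m = M₁.length := ⟨_, rfl⟩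
  obtain ⟨m₂, hm₂⟩ : ∃ m, m = M₂.length := ⟨_, rfl⟩
  rw [← hm₁] at hE₁l hu hl₁ hk
  rw [← hm₂] at hE₂l hu hl₂ hk
  -- the target
  obtain ⟨B, hB⟩ : ∃ B, B = P.length + E₂.length + Q.length + (4 + m₁ * W) := ⟨_, rfl⟩
  obtain ⟨n, hn1, hn2, hn3⟩ : ∃ n, B + 4 * (m₁ + m₂) ≤ n ∧ n < B + 4 * (m₁ + m₂) + k ∧
      n % k = 1 := by
    obtain ⟨N, hN⟩ : ∃ N, N = B + 4 * (m₁ + m₂) := ⟨_, rfl⟩
    rw [← hN]
    have hkpos : 0 < k := by omega
    refine ⟨N + (k + 1 - N % k) % k, by omega, ?_, ?_⟩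
    · have := Nat.mod_lt (k + 1 - N % k) hkpos
      omega
    · have h1 := Nat.mod_lt N hkpos
      have h2 : (N + (k + 1 - N % k) % k) % k = (N % k + (k + 1 - N % k)) % k := by
        rw [Nat.add_mod_mod, ← Nat.mod_add_mod]
      rw [h2]
      have h3 : N % k + (k + 1 - N % k) = k + 1 := by omega
      rw [h3, Nat.add_mod_left, Nat.mod_eq_of_lt (by omega)]
  obtain ⟨par, hpar⟩ : ∃ par, Even (n - (P.length + E₂.length + Q.length + (E₁ par).length)) := by
    have hle : ∀ par, P.length + E₂.length + Q.length + (E₁ par).length ≤ n := fun par => by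
      have := hE₁l par
      omega
    have ht := hE₁p true
    have hf := hE₁p false
    simp only [if_true, Bool.false_eq_true, if_false] at ht hf
    rcases Nat.even_or_odd (n - (P.length + E₂.length + Q.length + (E₁ true).length)) with h | h
    · exact ⟨true, h⟩
    · refine ⟨false, ?_⟩
      have h1 := hle true
      have h2 := hle false
      rw [Nat.even_iff] at hf ⊢
      rw [Nat.odd_iff] at ht h
      omega
  obtain ⟨a₁, h1h, c3⟩ := h1h par
  obtain ⟨b₁, h1l, c4⟩ := h1l par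
  have hE₁ := hE₁ par
  have hE₁s := hE₁s par
  have hE₁l := hE₁l par
  have hE₁e := hE₁e par
  obtain ⟨F, hF⟩ : ∃ F, F = E₁ par := ⟨_, rfl⟩
  rw [← hF] at h1h h1l hE₁ hE₁s hE₁l hE₁e hpar
  have hFpos := List.length_pos_of_ne_nil hE₁.1
  have m1 : ∀ v ∈ F, v ∈ K₁.biUnion Vs := fun v hv => by
    obtain ⟨i, hi, hvi⟩ := (hE₁s v hv).2.2
    exact Finset.mem_biUnion.2 ⟨i, hi, hvi⟩
  have m2 : ∀ v ∈ E₂, v ∈ K₂.biUnion Vs := fun v hv => by
    obtain ⟨i, hi, hvi⟩ := (hE₂s v hv).2.2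
    exact Finset.mem_biUnion.2 ⟨i, hi, hvi⟩
  have hcyc : CycL G (P ++ (E₂ ++ (Q.reverse ++ F.reverse))) := by
    refine Beta_cyc G P Q F E₂ p₁ p₂ q₁ q₂ a₁ a₂ b₁ b₂ hP hQ hE₁ hE₂ hPh hPl hQh hQl h1h h1l
      h2h h2l c1 c2 c3 c4 hPQ ?_ ?_ ?_ ?_ ?_
    · exact fun v hv hv' => (hE₂s v hv).1 (hP2 v hv' (m2 v hv))
    · exact fun v hv hv' => (hE₁s v hv).1 (hP1 v hv' (m1 v hv))
    · exact fun v hv hv' => (hE₂s v hv).2.1 (hQ2 v hv' (m2 v hv))
    · exact fun v hv hv' => (hE₁s v hv).2.1 (hQ1 v hv' (m1 v hv))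
    · exact fun v hv hv' => Finset.disjoint_left.1 hXd (m1 v hv) (m2 v hv')
  have hmem : ∀ v, v ∈ P ++ (E₂ ++ (Q.reverse ++ F.reverse)) ↔ v ∈ P ∨ v ∈ E₂ ∨ v ∈ Q ∨ v ∈ F := by
    intro v
    simp only [List.mem_append, List.mem_reverse]
  have hlen : (P ++ (E₂ ++ (Q.reverse ++ F.reverse))).length =
      P.length + E₂.length + Q.length + F.length := by
    simp only [List.length_append, List.length_reverse]
    omega
  have hMl : (M₁ ++ M₂).length = m₁ + m₂ := by rw [List.length_append, ← hm₁, ← hm₂]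
  have hmax1 : m₁ * W ≤ max m₁ m₂ * W := Nat.mul_le_mul_right _ (le_max_left _ _)
  have hmax2 : m₂ * W ≤ max m₁ m₂ * W := Nat.mul_le_mul_right _ (le_max_right _ _)
  have hmm : max m₁ m₂ * W + W ≤ (m₁ + m₂) * W := by
    have h1 : max m₁ m₂ + 1 ≤ m₁ + m₂ := by omega
    have h2 := Nat.mul_le_mul_right W h1
    rw [Nat.add_mul, one_mul] at h2
    exact h2
  have hu' : 2 * (6 + max m₁ m₂ * W) + 2 * (6 + W) ≤ u := by
    rw [hu]
    omega
  have hMat : MatL Γ (K₁ ∪ K₂) (M₁ ++ M₂) := by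
    refine ⟨?_, ?_⟩
    · intro e he
      rcases List.mem_append.1 he with he | he
      · obtain ⟨h1, h2, h3⟩ := hM₁.adj e he
        exact ⟨h1, Finset.mem_union_left _ h2, Finset.mem_union_left _ h3⟩
      · obtain ⟨h1, h2, h3⟩ := hM₂.adj e he
        exact ⟨h1, Finset.mem_union_right _ h2, Finset.mem_union_right _ h3⟩
    · rw [List.flatMap_append, List.nodup_append']
      refine ⟨hM₁.nod, hM₂.nod, ?_⟩
      intro x hx hx'
      rw [List.mem_flatMap] at hx hx'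
      obtain ⟨e, he, hxe⟩ := hx
      obtain ⟨e', he', hxe'⟩ := hx'
      have h1 : x ∈ K₁ := by
        obtain ⟨-, h2, h3⟩ := hM₁.adj e he
        rcases List.mem_cons.1 hxe with rfl | hxe
        · exact h2
        · rw [List.mem_singleton.1 hxe]
          exact h3
      have h2 : x ∈ K₂ := by
        obtain ⟨-, h2, h3⟩ := hM₂.adj e' he'
        rcases List.mem_cons.1 hxe' with rfl | hxe'
        · exact h2
        · rw [List.mem_singleton.1 hxe']
          exact h3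
      exact Finset.disjoint_left.1 hdis h1 h2
  have hN1 : ((2 * (6 + max m₁ m₂ * W) : ℕ) : ℝ) + 2 * g + 2 ≤ d * s := by
    refine le_trans ?_ hugs
    have h1 : ((2 * (6 + max m₁ m₂ * W) : ℕ) : ℝ) ≤ u := by
      exact_mod_cast (by omega : 2 * (6 + max m₁ m₂ * W) ≤ u)
    linarith
  have hN2 : ∀ i ∈ K₁ ∪ K₂,
      ((Vs i).filter (fun v => v ∈ P ++ (E₂ ++ (Q.reverse ++ F.reverse)))).card +
      ((Vs i).filter (fun v => v ∈ P ++ (E₂ ++ (Q.reverse ++ F.reverse)))).card ≤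
        2 * (6 + max m₁ m₂ * W) := by
    intro i hi
    have hfew : ((Vs i).filter (fun v => v ∈ P ++ (E₂ ++ (Q.reverse ++ F.reverse)))).card ≤
        6 + max m₁ m₂ * W := by
      rcases Finset.mem_union.1 hi with hi | hi
      · have h1 := Beta_few (Vs i) (P ++ (E₂ ++ (Q.reverse ++ F.reverse))) F p₁ q₁
          (4 + m₁ * W) (fun v hv hvC => by
            have hvX : v ∈ K₁.biUnion Vs := Finset.mem_biUnion.2 ⟨i, hi, hv⟩
            rcases (hmem v).1 hvC with h | h | h | h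
            · exact Or.inl (hP1 v h hvX)
            · exact absurd (m2 v h) (Finset.disjoint_left.1 hXd hvX)
            · exact Or.inr (Or.inl (hQ1 v h hvX))
            · exact Or.inr (Or.inr h)) hE₁l
        omega
      · have h1 := Beta_few (Vs i) (P ++ (E₂ ++ (Q.reverse ++ F.reverse))) E₂ p₂ q₂
          (4 + m₂ * W) (fun v hv hvC => by
            have hvX : v ∈ K₂.biUnion Vs := Finset.mem_biUnion.2 ⟨i, hi, hv⟩
            rcases (hmem v).1 hvC with h | h | h | h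
            · exact Or.inl (hP2 v h hvX)
            · exact Or.inr (Or.inr h)
            · exact Or.inr (Or.inl (hQ2 v h hvX))
            · exact absurd hvX (Finset.disjoint_left.1 hXd (m1 v h))) hE₂l
        omega
    omega
  have hN3 : ∀ e ∈ M₁ ++ M₂, ∃ x y : V,
      (∃ l₁ l₂ : List V, P ++ (E₂ ++ (Q.reverse ++ F.reverse)) = l₁ ++ [x, y] ++ l₂) ∧
      ((x ∈ Vs e.1 ∧ y ∈ Vs e.2 ∧ d * s ≤ ((nbs G x (Vs e.2)).card : ℝ) ∧
        d * s ≤ ((nbs G y (Vs e.1)).card : ℝ)) ∨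
      (x ∈ Vs e.2 ∧ y ∈ Vs e.1 ∧ d * s ≤ ((nbs G x (Vs e.1)).card : ℝ) ∧
        d * s ≤ ((nbs G y (Vs e.2)).card : ℝ))) := by
    intro e he
    rcases List.mem_append.1 he with he | he
    · obtain ⟨x, y, ⟨l₁, l₂, hl⟩, hx, hy, hbx, hby⟩ := hE₁e e he
      refine ⟨y, x, ⟨P ++ (E₂ ++ (Q.reverse ++ l₂.reverse)), l₁.reverse, ?_⟩,
        Or.inr ⟨hy, hx, hby, hbx⟩⟩
      rw [hl]
      simp
    · obtain ⟨x, y, ⟨l₁, l₂, hl⟩, hx, hy, hbx, hby⟩ := hE₂e e he
      refine ⟨x, y, ⟨P ++ l₁, l₂ ++ (Q.reverse ++ F.reverse), ?_⟩, Or.inl ⟨hx, hy, hbx, hby⟩⟩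
      rw [hl]
      simp
  have hN4 : 4 * (M₁ ++ M₂).length ≤ n - (P.length + E₂.length + Q.length + F.length) := by
    rw [hMl]
    omega
  have hN5 : n - (P.length + E₂.length + Q.length + F.length) +
      (M₁ ++ M₂).length * (2 * (2 * (6 + max m₁ m₂ * W)) + 12 * g) ≤
        (M₁ ++ M₂).length * (2 * s) := by
    rw [hMl]
    have h1 : n - (P.length + E₂.length + Q.length + F.length) ≤
        4 * (m₁ + m₂) + k + (3 + m₁ * W) := by omega
    have h2 : (m₁ + m₂) * (2 * (2 * (6 + max m₁ m₂ * W)) + 12 * g) +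
        (m₁ + m₂) * (4 * (6 + W)) ≤ (m₁ + m₂) * (2 * u + 12 * g) := by
      rw [← Nat.mul_add]
      apply Nat.mul_le_mul_left
      omega
    have h3 : 3 + m₁ * W ≤ (m₁ + m₂) * (4 * (6 + W)) := by
      have h4 : m₁ * W ≤ (m₁ + m₂) * W := Nat.mul_le_mul_right _ (by omega)
      have h5 : (m₁ + m₂) * (4 * (6 + W)) = 24 * (m₁ + m₂) + 4 * ((m₁ + m₂) * W) := by ring
      omega
    omega
  obtain ⟨C', hC', hC'l⟩ := hExpM V G t s Vs Γ d γ (K₁ ∪ K₂) (M₁ ++ M₂)
    (P ++ (E₂ ++ (Q.reverse ++ F.reverse))) (2 * (6 + max m₁ m₂ * W)) g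
    (n - (P.length + E₂.length + Q.length + F.length)) hBl hγ hd (by omega)
    hMat hcyc hg hN1 hN2 hN3 hpar hN4 hN5
  refine ⟨C', hC', ?_⟩
  rw [hC'l, hlen]
  have h1 : P.length + E₂.length + Q.length + F.length +
      (n - (P.length + E₂.length + Q.length + F.length)) = n := by omega
  rw [h1]
  exact hn3

end Pool.CMK
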