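import Pool.Agent.CMK.St4

/-!
# CMK: module CASEA
-/

set_option autoImplicit false

namespace Pool.CMK

open Finset
open scoped Classical

private theorem CaseA_num (ρ γ c : ℝ) (R k r m : ℕ) (hρ : 0 < ρ) (hγ : 0 < γ)
    (h256 : 256 * γ ≤ ρ) (hρ1 : ρ ≤ 1)
    (hr : r ≤ R) (hm : c * k ≤ (m : ℝ)) (h1 : 6 * (R : ℝ) + 4 ≤ ρ / 32 * (c * k))
    (h2 : 16 + 12 * (R : ℝ) ≤ c * k) :
    1 ≤ ⌈4 * γ * m⌉₊ ∧ 6 * r + 2 * ⌈4 * γ * m⌉₊ + 2 ≤ ⌈ρ / 16 * m⌉₊ ∧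
      4 + 12 * r + 12 * ⌈4 * γ * m⌉₊ ≤ 2 * m ∧ 6 * r + 6 * ⌈4 * γ * m⌉₊ + 2 ≤ m := by
  have hR0 : (0 : ℝ) ≤ R := Nat.cast_nonneg R
  have hmpos : (0 : ℝ) < m := by linarith
  have hg0 : 0 < 4 * γ * (m : ℝ) := by positivity
  have hgl : (⌈4 * γ * (m : ℝ)⌉₊ : ℝ) < 4 * γ * m + 1 := Nat.ceil_lt_add_one hg0.le
  have hrR : (r : ℝ) ≤ R := by exact_mod_cast hr
  have hγm : 256 * (γ * m) ≤ ρ * m := by nlinarith
  have hρm : ρ * m ≤ m := by nlinarith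
  have hρck : ρ / 32 * (c * k) ≤ ρ / 32 * m := by
    apply mul_le_mul_of_nonneg_left hm; positivity
  have hw : ρ / 16 * (m : ℝ) ≤ ⌈ρ / 16 * (m : ℝ)⌉₊ := Nat.le_ceil _
  refine ⟨Nat.ceil_pos.2 hg0, ?_, ?_, ?_⟩
  · have : (6 * (r : ℝ) + 2 * (⌈4 * γ * (m : ℝ)⌉₊ : ℝ) + 2) ≤ (⌈ρ / 16 * (m : ℝ)⌉₊ : ℝ) := by
      linarith
    exact_mod_cast this
  · have : (4 + 12 * (r : ℝ) + 12 * (⌈4 * γ * (m : ℝ)⌉₊ : ℝ)) ≤ 2 * (m : ℝ) := by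
      linarith
    exact_mod_cast this
  · have : (6 * (r : ℝ) + 6 * (⌈4 * γ * (m : ℝ)⌉₊ : ℝ) + 2) ≤ (m : ℝ) := by
      linarith
    exact_mod_cast this

private theorem CaseA_sum (ε γ : ℝ) (R k r : ℕ) (m : Fin r → ℕ) (hε : 0 < ε) (hε1 : ε ≤ 1 / 10)
    (hγ : 0 < γ) (h240 : 240 * γ ≤ ε) (hr : r ≤ R)
    (h3 : (R : ℝ) * (6 * R + 8) ≤ ε / 4 * k)
    (hs : (2 + ε) * k ≤ ∑ j, 2 * ((m j : ℕ) : ℝ)) :
    k + ∑ j, (6 * r + 6 * ⌈4 * γ * (m j : ℝ)⌉₊ + 2) ≤ ∑ j, m j := by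
  have hR0 : (0 : ℝ) ≤ R := Nat.cast_nonneg R
  have hk0 : (0 : ℝ) ≤ k := Nat.cast_nonneg k
  have hrR : (r : ℝ) ≤ R := by exact_mod_cast hr
  have hr0 : (0 : ℝ) ≤ r := Nat.cast_nonneg r
  have hS : ∑ j, 2 * ((m j : ℕ) : ℝ) = 2 * ∑ j, (m j : ℝ) := by rw [Finset.mul_sum]
  have hb : ∀ j : Fin r, (6 * (r : ℝ) + 6 * (⌈4 * γ * (m j : ℝ)⌉₊ : ℝ) + 2)
      ≤ (6 * R + 8) + 24 * γ * (m j : ℝ) := by
    intro j
    have h0 : 0 ≤ 4 * γ * (m j : ℝ) := by positivity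
    have := Nat.ceil_lt_add_one h0
    linarith
  have hsum : ∑ j : Fin r, (6 * (r : ℝ) + 6 * (⌈4 * γ * (m j : ℝ)⌉₊ : ℝ) + 2)
      ≤ R * (6 * R + 8) + 24 * γ * ∑ j, (m j : ℝ) := by
    refine (Finset.sum_le_sum fun j _ => hb j).trans ?_
    rw [Finset.sum_add_distrib, ← Finset.mul_sum, Finset.sum_const, Finset.card_univ,
      Fintype.card_fin, nsmul_eq_mul]
    have : (r : ℝ) * (6 * R + 8) ≤ R * (6 * R + 8) := by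
      apply mul_le_mul_of_nonneg_right hrR; positivity
    linarith
  have hSm : (1 + ε / 2) * k ≤ ∑ j, (m j : ℝ) := by
    rw [hS] at hs; linarith
  have hSm0 : (0 : ℝ) ≤ ∑ j, (m j : ℝ) := Finset.sum_nonneg fun j _ => Nat.cast_nonneg _
  have key : (k : ℝ) + ∑ j : Fin r, (6 * (r : ℝ) + 6 * (⌈4 * γ * (m j : ℝ)⌉₊ : ℝ) + 2)
      ≤ ∑ j, (m j : ℝ) := by
    have h24 : 24 * γ * ∑ j, (m j : ℝ) ≤ ε / 10 * ∑ j, (m j : ℝ) :=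
      mul_le_mul_of_nonneg_right (by linarith) hSm0
    have h5 : (1 - ε / 10) * ((1 + ε / 2) * k) ≤ (1 - ε / 10) * ∑ j, (m j : ℝ) :=
      mul_le_mul_of_nonneg_left hSm (by linarith)
    have h6 : (1 + ε / 4) * (k : ℝ) ≤ (1 - ε / 10) * ((1 + ε / 2) * k) := by
      have : 1 + ε / 4 ≤ (1 - ε / 10) * (1 + ε / 2) := by nlinarith
      calc (1 + ε / 4) * (k : ℝ) ≤ ((1 - ε / 10) * (1 + ε / 2)) * k :=
            mul_le_mul_of_nonneg_right this hk0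
        _ = _ := by ring
    linarith
  have key2 : ((k + ∑ j, (6 * r + 6 * ⌈4 * γ * (m j : ℝ)⌉₊ + 2) : ℕ) : ℝ)
      ≤ ((∑ j, m j : ℕ) : ℝ) := by
    push_cast
    exact key
  exact_mod_cast key2

theorem thm_CaseA (hLink : St_Link) (hShrt : St_Shrt) (hCycA : St_CycA) : St_CaseA := by
  intro ε ρ γ c δ R hε hε1 hρ hρ1 hγ h256 h240 hc hδ hδc
  obtain ⟨n1, hn1⟩ := exists_nat_ge ((6 * (R : ℝ) + 4) / (ρ / 32 * c))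
  obtain ⟨n2, hn2⟩ := exists_nat_ge ((16 + 12 * (R : ℝ)) / c)
  obtain ⟨n3, hn3⟩ := exists_nat_ge (((R : ℝ) * (6 * R + 8)) / (ε / 4))
  obtain ⟨n4, hn4⟩ := exists_nat_ge (((R : ℝ) + 2) / δ)
  refine ⟨n1 + n2 + n3 + n4 + 3, fun k hk hodd V _ G r A B hr1 hrR hSC hPr hdis hsum => ?_⟩
  have hR0 : (0 : ℝ) ≤ R := Nat.cast_nonneg R
  have hk1 : (n1 : ℝ) ≤ k := by exact_mod_cast (by omega : n1 ≤ k)
  have hk2 : (n2 : ℝ) ≤ k := by exact_mod_cast (by omega : n2 ≤ k)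
  have hk3 : (n3 : ℝ) ≤ k := by exact_mod_cast (by omega : n3 ≤ k)
  have hk4 : (n4 : ℝ) ≤ k := by exact_mod_cast (by omega : n4 ≤ k)
  have e1 : 6 * (R : ℝ) + 4 ≤ ρ / 32 * (c * k) := by
    have := (div_le_iff₀ (by positivity)).1 (hn1.trans hk1)
    linarith
  have e2 : 16 + 12 * (R : ℝ) ≤ c * k := by
    have := (div_le_iff₀ hc).1 (hn2.trans hk2)
    linarith
  have e3 : (R : ℝ) * (6 * R + 8) ≤ ε / 4 * k := by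
    have := (div_le_iff₀ (by positivity)).1 (hn3.trans hk3)
    linarith
  have e4 : (R : ℝ) + 2 ≤ δ * k := by
    have := (div_le_iff₀ hδ).1 (hn4.trans hk4)
    linarith
  have hk0 : (0 : ℝ) ≤ k := Nat.cast_nonneg k
  have hceil : δ * (k : ℝ) ≤ ⌈δ * (k : ℝ)⌉₊ := Nat.le_ceil _
  have hc2 : 2 ≤ ⌈δ * (k : ℝ)⌉₊ := by
    have : (2 : ℝ) ≤ (⌈δ * (k : ℝ)⌉₊ : ℝ) := by linarith
    exact_mod_cast this
  have hcR : r ≤ ⌈δ * (k : ℝ)⌉₊ := by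
    have h' : (r : ℝ) ≤ R := by exact_mod_cast hrR
    have : (r : ℝ) ≤ (⌈δ * (k : ℝ)⌉₊ : ℝ) := by linarith
    exact_mod_cast this
  have hcD : ∀ j, ⌈δ * (k : ℝ)⌉₊ ≤ (A j ∪ B j).card := by
    intro j
    refine le_trans (Nat.ceil_le.2 ?_) (Finset.card_le_card Finset.subset_union_left)
    exact le_trans (mul_le_mul_of_nonneg_right hδc hk0) (hPr j).2
  obtain ⟨σ, p, hp⟩ := hLink V G ⌈δ * (k : ℝ)⌉₊ r (fun j => A j ∪ B j) hSC hc2 hr1 hcR hdis hcD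
  have hnum := fun j => CaseA_num ρ γ c R k r (A j).card hρ hγ h256 hρ1 hrR (hPr j).2 e1 e2
  obtain ⟨p', hp', hcard⟩ := hShrt V G r A B (fun j => (A j).card)
    (fun j => ⌈4 * γ * ((A j).card : ℝ)⌉₊) (fun j => ⌈ρ / 16 * ((A j).card : ℝ)⌉₊) σ p
    (fun j => ⟨(hPr j).1.disj, rfl, (hPr j).1.card.symm, (hnum j).1, (hPr j).1.p1,
      fun a ha => Nat.ceil_le.2 ((hPr j).1.dA a ha), fun b hb => Nat.ceil_le.2 ((hPr j).1.dB b hb),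
      (hnum j).2.1, (hnum j).2.2.1⟩) hdis hp
  exact hCycA V G r k A B (fun j => (A j).card)
    (fun j => ⌈4 * γ * ((A j).card : ℝ)⌉₊) (fun j => ⌈ρ / 16 * ((A j).card : ℝ)⌉₊) σ p' hr1 hodd
    (by omega)
    (fun j => ⟨(hPr j).1.disj, rfl, (hPr j).1.card.symm, (hnum j).1, (hPr j).1.p1,
      fun a ha => Nat.ceil_le.2 ((hPr j).1.dA a ha), fun b hb => Nat.ceil_le.2 ((hPr j).1.dB b hb),
      (hnum j).2.1, (hnum j).2.2.2⟩) hdis hp' hcard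
    (CaseA_sum ε γ R k r (fun j => (A j).card) hε hε1 hγ h240 hrR e3 hsum)

end Pool.CMK
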