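import Pool.Agent.CMK.St2

set_option autoImplicit false

namespace Pool.CMK

open Finset
open scoped Classical

theorem Cut_ad_eq_sum {V : Type} (G : SimpleGraph V) (X Y : Finset V) :
    ad G X Y = ∑ v ∈ X, (nbs G v Y).card := by
  unfold ad nbs
  rw [Finset.card_filter, Finset.sum_product]
  apply Finset.sum_congr rfl
  intro v _
  rw [Finset.card_filter]

theorem Cut_ad_comm {V : Type} (G : SimpleGraph V) (X Y : Finset V) :
    ad G X Y = ad G Y X := by
  unfold ad
  apply Finset.card_bij (fun p _ => (p.2, p.1))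
  · rintro ⟨a, b⟩ h
    simp only [mem_filter, mem_product] at h ⊢
    exact ⟨⟨h.1.2, h.1.1⟩, h.2.symm⟩
  · rintro ⟨a, b⟩ _ ⟨c, d⟩ _ h
    simp only [Prod.mk.injEq] at h ⊢
    exact ⟨h.2, h.1⟩
  · rintro ⟨a, b⟩ h
    simp only [mem_filter, mem_product] at h
    refine ⟨(b, a), ?_, rfl⟩
    simp only [mem_filter, mem_product]
    exact ⟨⟨h.1.2, h.1.1⟩, h.2.symm⟩

private theorem nbs_disj_union {V : Type} (G : SimpleGraph V) (v : V) (A S : Finset V)
    (hA : A ⊆ S) : (nbs G v S).card = (nbs G v A).card + (nbs G v (S \ A)).card := by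
  unfold nbs
  rw [← Finset.card_union_of_disjoint]
  · congr 1
    rw [← Finset.filter_union, Finset.union_sdiff_of_subset hA]
  · apply Finset.disjoint_filter_filter
    exact Finset.disjoint_sdiff

private theorem nbs_insert_self {V : Type} (G : SimpleGraph V) (v : V) (X : Finset V) :
    nbs G v (insert v X) = nbs G v X := by
  unfold nbs
  ext w
  simp only [mem_filter, mem_insert]
  constructor
  · rintro ⟨h | h, h2⟩
    · subst h
      exact absurd h2 (G.loopless.irrefl _)
    · exact ⟨h, h2⟩
  · rintro ⟨h, h2⟩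
    exact ⟨Or.inr h, h2⟩

theorem thm_Cut : St_Cut := by
  intro V G S
  obtain ⟨A, hA, hmax⟩ := Finset.exists_max_image S.powerset (fun A => ad G A (S \ A))
    ⟨∅, Finset.empty_mem_powerset S⟩
  rw [Finset.mem_powerset] at hA
  refine ⟨A, hA, ?_⟩
  have key : ∀ B : Finset V, B ⊆ S → ∀ v ∈ S, v ∉ B →
      ad G B (S \ B) + (nbs G v (S \ B)).card = ad G (insert v B) (S \ insert v B) + (nbs G v B).card := by
    intro B hB v hv hvB
    have e1 : S \ B = insert v (S \ insert v B) := by
      ext w
      simp only [mem_sdiff, mem_insert, not_or]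
      constructor
      · rintro ⟨h1, h2⟩
        by_cases h : w = v
        · exact Or.inl h
        · exact Or.inr ⟨h1, h, h2⟩
      · rintro (h | ⟨h1, _, h3⟩)
        · subst h
          exact ⟨hv, hvB⟩
        · exact ⟨h1, h3⟩
    have hvT : v ∉ S \ insert v B := by
      simp
    have e2 : ad G B (S \ B) = ad G B (S \ insert v B) + (nbs G v B).card := by
      rw [Cut_ad_comm G B (S \ B), Cut_ad_comm G B (S \ insert v B), e1, Cut_ad_eq_sum,
        Finset.sum_insert hvT, Cut_ad_eq_sum, add_comm]
    have e3 : ad G (insert v B) (S \ insert v B) =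
        (nbs G v (S \ insert v B)).card + ad G B (S \ insert v B) := by
      rw [Cut_ad_eq_sum, Finset.sum_insert hvB, ← Cut_ad_eq_sum]
    have e4 : (nbs G v (S \ B)).card = (nbs G v (S \ insert v B)).card := by
      rw [e1, nbs_insert_self]
    omega
  have hin : ∀ v ∈ A, (nbs G v A).card ≤ (nbs G v (S \ A)).card := by
    intro v hv
    have hvS : v ∈ S := hA hv
    have hve : v ∉ A.erase v := Finset.notMem_erase v A
    have hsub : A.erase v ⊆ S := (Finset.erase_subset v A).trans hA
    have h1 := key (A.erase v) hsub v hvS hve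
    rw [Finset.insert_erase hv] at h1
    have h2 := hmax (A.erase v) (Finset.mem_powerset.mpr hsub)
    have h3 : (nbs G v A).card = (nbs G v (A.erase v)).card := by
      conv_lhs => rw [← Finset.insert_erase hv]
      rw [nbs_insert_self]
    have h4 : (nbs G v (S \ A.erase v)).card = (nbs G v (S \ A)).card := by
      have : S \ A.erase v = insert v (S \ A) := by
        ext w
        simp only [mem_sdiff, mem_erase, mem_insert, not_and]
        constructor
        · rintro ⟨h1, h2⟩
          by_cases h : w = v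
          · exact Or.inl h
          · exact Or.inr ⟨h1, h2 h⟩
        · rintro (h | ⟨h1, h2⟩)
          · subst h
            exact ⟨hvS, fun h => absurd rfl h⟩
          · exact ⟨h1, fun _ => h2⟩
      rw [this, nbs_insert_self]
    omega
  have hout : ∀ v ∈ S \ A, (nbs G v (S \ A)).card ≤ (nbs G v A).card := by
    intro v hv
    rw [Finset.mem_sdiff] at hv
    have h1 := key A hA v hv.1 hv.2
    have h2 := hmax (insert v A) (Finset.mem_powerset.mpr (Finset.insert_subset hv.1 hA))
    omega
  have hsum : ad G S S = ∑ v ∈ A, (nbs G v S).card + ∑ v ∈ S \ A, (nbs G v S).card := by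
    rw [Cut_ad_eq_sum, add_comm, Finset.sum_sdiff hA]
  have hs1 : ∑ v ∈ A, (nbs G v S).card ≤ 2 * ad G A (S \ A) := by
    rw [Cut_ad_eq_sum, Finset.mul_sum]
    apply Finset.sum_le_sum
    intro v hv
    have h1 := hin v hv
    have h2 := nbs_disj_union G v A S hA
    omega
  have hs2 : ∑ v ∈ S \ A, (nbs G v S).card ≤ 2 * ad G A (S \ A) := by
    rw [Cut_ad_comm G A (S \ A), Cut_ad_eq_sum, Finset.mul_sum]
    apply Finset.sum_le_sum
    intro v hv
    have h1 := hout v hv
    have h2 := nbs_disj_union G v A S hA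
    omega
  omega

end Pool.CMK
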