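import Pool.Agent.CMK.StS

/-!
# CMK: the cycle in case (a)
-/

set_option autoImplicit false

namespace Pool.CMK

open Finset
open scoped Classical

/-- a sum of bounded natural numbers takes all values up to the sum of the bounds -/
private theorem CycA_sum {r : ℕ} (T : Fin r → ℕ) (s : ℕ) (hs : s ≤ ∑ i, T i) :
    ∃ t : Fin r → ℕ, (∀ i, t i ≤ T i) ∧ ∑ i, t i = s := by
  induction s with
  | zero => exact ⟨fun _ => 0, fun i => Nat.zero_le _, by simp⟩
  | succ s ih =>
    obtain ⟨t, ht, hts⟩ := ih (by omega)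
    have hlt : ∑ i, t i < ∑ i, T i := by omega
    obtain ⟨i, -, hi⟩ := Finset.exists_lt_of_sum_lt hlt
    refine ⟨Function.update t i (t i + 1), ?_, ?_⟩
    · intro j
      by_cases h : j = i
      · subst h
        simpa using hi
      · rw [Function.update_of_ne h]
        exact ht j
    · rw [Finset.sum_update_of_mem (Finset.mem_univ i)]
      have := Finset.add_sum_erase Finset.univ t (Finset.mem_univ i)
      rw [Finset.sdiff_singleton_eq_erase]
      omega

/-- the residue `1` is reached -/
private theorem CycA_mod (k b : ℕ) (hk : Odd k) (h3 : 3 ≤ k) :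
    ∃ s, s ≤ k ∧ (b + 2 * s) % k = 1 := by
  obtain ⟨h, rfl⟩ := hk
  have hc : b % (2 * h + 1) < 2 * h + 1 := Nat.mod_lt _ (by omega)
  have hb := Nat.div_add_mod b (2 * h + 1)
  set c := b % (2 * h + 1) with hcdef
  set e := b / (2 * h + 1) with hedef
  rcases Nat.even_or_odd c with ⟨d, hd⟩ | ⟨d, hd⟩
  · refine ⟨h + 1 - d, by omega, ?_⟩
    have h1 : b + 2 * (h + 1 - d) = 1 + (2 * h + 1) * (e + 1) := by
      have : 2 * (h + 1 - d) + c = 2 * h + 2 := by omega
      rw [← hb]
      have h2 : (2 * h + 1) * (e + 1) = (2 * h + 1) * e + (2 * h + 1) := by ring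
      rw [h2]
      omega
    rw [h1, Nat.add_mul_mod_self_left]
    exact Nat.mod_eq_of_lt (by omega)
  · refine ⟨2 * h + 1 - d, by omega, ?_⟩
    have h1 : b + 2 * (2 * h + 1 - d) = 1 + (2 * h + 1) * (e + 2) := by
      have : 2 * (2 * h + 1 - d) + c = 4 * h + 3 := by omega
      rw [← hb]
      have h2 : (2 * h + 1) * (e + 2) = (2 * h + 1) * e + 2 * (2 * h + 1) := by ring
      rw [h2]
      omega
    rw [h1, Nat.add_mul_mod_self_left]
    exact Nat.mod_eq_of_lt (by omega)

theorem thm_CycA (hPP : St_PP) (hCycJ : St_CycJ) : St_CycA := by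
  intro V _ G r k A B m g w σ p hr hk hk3 hpair hdisD hL hfew hsum
  obtain ⟨hLp, hLh, hLl, hLd⟩ := hL
  -- the ends
  choose y hyD hyh using hLh
  choose x hxD hxl using hLl
  set U : Finset V := Finset.univ.filter (fun v => ∃ i, v ∈ p i) with hU
  have hymem : ∀ i, y i ∈ p i := fun i => List.mem_of_mem_head? (hyh i)
  have hxmem : ∀ i, x i ∈ p i := fun i => List.mem_of_mem_getLast? (hxl i)
  have hxy : ∀ i, x i ≠ y (finRotate r i) := by
    intro i
    by_cases h : finRotate r i = i
    · rw [h]
      intro hxy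
      obtain ⟨⟨h1, h2, h3⟩, h4⟩ := hLp i
      have ha := hyh i
      have hb := hxl i
      rw [List.head?_eq_getElem?, List.getElem?_eq_getElem (by omega)] at ha
      rw [List.getLast?_eq_getElem?, List.getElem?_eq_getElem (by omega)] at hb
      have ha' := Option.some.inj ha
      have hb' := Option.some.inj hb
      rw [← ha', ← hb'] at hxy
      have := (List.Nodup.getElem_inj_iff h2).1 hxy
      omega
    · intro hxy
      exact hLd i (finRotate r i) (fun h' => h h'.symm) (x i) (hxmem i) (hxy ▸ hymem _)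
  -- the connecting lists
  have key : ∀ i : Fin r, ∃ a : ℕ, ∀ t : ℕ,
      t + (6 * r + 6 * g (σ (finRotate r i)) + 2) ≤ m (σ (finRotate r i)) →
      ∃ q : List V, q.length = a + 2 * t ∧ 3 ≤ q.length ∧ q.Nodup ∧ q.IsChain G.Adj ∧
        (∀ v ∈ q, v ∈ A (σ (finRotate r i)) ∪ B (σ (finRotate r i)) ∧ v ∉ U) ∧
        (∃ a, q.head? = some a ∧ G.Adj (x i) a) ∧
        (∃ b, q.getLast? = some b ∧ G.Adj b (y (finRotate r i))) := by
    intro i
    set j := σ (finRotate r i) with hj
    obtain ⟨h1, h2, h3, h4, h5, h6, h7, h8, h9⟩ := hpair j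
    set sx : Bool := decide (x i ∈ B j) with hsx
    set sy : Bool := decide (y (finRotate r i) ∈ B j) with hsy
    have hside : ∀ v : V, v ∈ A j ∪ B j →
        6 * r + 2 * g j + 2 ≤ (nbs G v (if decide (v ∈ B j) then A j else B j)).card := by
      intro v hv
      by_cases h : v ∈ B j
      · simp only [h, decide_true, if_true]
        exact h8.trans (h7 v h)
      · have hA : v ∈ A j := by
          rcases Finset.mem_union.1 hv with h' | h'
          · exact h'
          · exact absurd h' h
        simp only [h, decide_false, Bool.false_eq_true, if_false]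
        exact h8.trans (h6 v hA)
    have hUc : (U ∩ (A j ∪ B j)).card ≤ 6 * r := by
      refine le_trans (Finset.card_le_card ?_) (hfew j)
      intro v hv
      rw [Finset.mem_inter, hU, Finset.mem_filter] at hv
      rw [Finset.mem_filter]
      exact ⟨hv.2, hv.1.2⟩
    refine ⟨if sx = sy then 3 else 4, ?_⟩
    intro t ht
    obtain ⟨q, q1, q2, q3, q4, q5, q6⟩ := hPP V G (A j) (B j) (m j) (g j) (6 * r) U (x i)
      (y (finRotate r i)) sx sy ((if sx = sy then 3 else 4) + 2 * t) h1 h2 h3 h4 h5 hUc (hxy i)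
      (hside (x i) (hxD i)) (hside (y (finRotate r i)) (hyD _))
      (by split_ifs <;> omega)
      (by
        split_ifs
        · exact ⟨t + 1, by ring⟩
        · exact ⟨t + 2, by ring⟩)
      (by split_ifs <;> omega)
    refine ⟨q, q1, ?_, q2, q3, fun v hv => ⟨(q4 v hv).1, (q4 v hv).2.1⟩, q5, q6⟩
    rw [q1]
    split_ifs <;> omega
  choose a ha using key
  -- the numbers
  obtain ⟨s, hs, hsm⟩ := CycA_mod k (∑ i, ((p i).length + a i)) hk hk3
  have hT : s ≤ ∑ i, (m (σ (finRotate r i)) - (6 * r + 6 * g (σ (finRotate r i)) + 2)) := by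
    have e1 : ∑ i, (m (σ (finRotate r i)) - (6 * r + 6 * g (σ (finRotate r i)) + 2)) =
        ∑ j, (m j - (6 * r + 6 * g j + 2)) :=
      Equiv.sum_comp ((finRotate r).trans σ) (fun j => m j - (6 * r + 6 * g j + 2))
    have e2 : ∑ j, (m j - (6 * r + 6 * g j + 2)) + ∑ j, (6 * r + 6 * g j + 2) = ∑ j, m j := by
      rw [← Finset.sum_add_distrib]
      refine Finset.sum_congr rfl (fun j _ => ?_)
      exact Nat.sub_add_cancel (hpair j).2.2.2.2.2.2.2.2
    rw [e1]
    omega
  obtain ⟨t, ht, hts⟩ := CycA_sum _ s hT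
  have hq : ∀ i : Fin r, ∃ q : List V, q.length = a i + 2 * t i ∧ 3 ≤ q.length ∧ q.Nodup ∧
      q.IsChain G.Adj ∧
      (∀ v ∈ q, v ∈ A (σ (finRotate r i)) ∪ B (σ (finRotate r i)) ∧ v ∉ U) ∧
      (∃ a, q.head? = some a ∧ G.Adj (x i) a) ∧
      (∃ b, q.getLast? = some b ∧ G.Adj b (y (finRotate r i))) := by
    intro i
    apply ha i (t i)
    have h1 := ht i
    have h2 := (hpair (σ (finRotate r i))).2.2.2.2.2.2.2.2
    omega
  choose q q1 q2 q3 q4 q5 q6 q7 using hq
  choose qa q6a q6b using q6
  choose qb q7a q7b using q7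
  have hUmem : ∀ i v, v ∈ p i → v ∈ U := by
    intro i v hv
    rw [hU, Finset.mem_filter]
    exact ⟨Finset.mem_univ _, i, hv⟩
  -- the long paths
  have hP : ∀ i, PathL G (p i ++ q i) := by
    intro i
    obtain ⟨⟨h1, h2, h3⟩, h4⟩ := hLp i
    refine ⟨by simp [h1], ?_, ?_⟩
    · rw [List.nodup_append]
      refine ⟨h2, q3 i, ?_⟩
      intro v hv v' hv' hvv
      subst hvv
      exact (q5 i v hv').2 (hUmem i v hv)
    · rw [List.isChain_append]
      refine ⟨h3, q4 i, ?_⟩
      intro u hu v hv
      rw [hxl i] at hu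
      rw [q6a i] at hv
      cases hu
      cases hv
      exact q6b i
  have hPd : ∀ i j, i ≠ j → ∀ v ∈ p i ++ q i, v ∉ p j ++ q j := by
    intro i j hij v hv hv'
    rw [List.mem_append] at hv hv'
    rcases hv with hv | hv
    · rcases hv' with hv' | hv'
      · exact hLd i j hij v hv hv'
      · exact (q5 j v hv').2 (hUmem i v hv)
    · rcases hv' with hv' | hv'
      · exact (q5 i v hv).2 (hUmem j v hv')
      · have hne : σ (finRotate r i) ≠ σ (finRotate r j) := by
          intro h
          exact hij ((finRotate r).injective (σ.injective h))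
        exact (Finset.disjoint_left.1 (hdisD _ _ hne)) (q5 i v hv).1 (q5 j v hv').1
  have hlen : ∀ i, (p i ++ q i).length = (p i).length + (a i + 2 * t i) := by
    intro i
    rw [List.length_append, q1 i]
  have hsumlen : ∑ i, (p i ++ q i).length = ∑ i, ((p i).length + a i) + 2 * s := by
    rw [← hts, Finset.mul_sum, ← Finset.sum_add_distrib]
    refine Finset.sum_congr rfl (fun i _ => ?_)
    rw [hlen i]
    ring
  obtain ⟨l, hl, hll, -⟩ := hCycJ V G r (fun i => p i ++ q i) hr hP hPd
    (by
      intro i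
      refine ⟨qb i, y (finRotate r i), ?_, ?_, q7b i⟩
      · show (p i ++ q i).getLast? = some (qb i)
        rw [List.getLast?_append, q7a i]
        rfl
      · show (p (finRotate r i) ++ q (finRotate r i)).head? = some (y (finRotate r i))
        rw [List.head?_append, hyh (finRotate r i)]
        rfl)
    (by
      have h1 : (p ⟨0, hr⟩ ++ q ⟨0, hr⟩).length ≤ ∑ i, (p i ++ q i).length :=
        Finset.single_le_sum (f := fun i => (p i ++ q i).length) (fun i _ => Nat.zero_le _)
          (Finset.mem_univ (⟨0, hr⟩ : Fin r))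
      have h2 := q2 ⟨0, hr⟩
      rw [List.length_append] at h1
      show 3 ≤ ∑ i, (p i ++ q i).length
      omega)
  refine ⟨l, hl, ?_⟩
  rw [hll]
  show (∑ i, (p i ++ q i).length) % k = 1
  rw [hsumlen]
  exact hsm

end Pool.CMK
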