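import Pool.Agent.CMK.StS

/-!
# CMK: joining disjoint paths to a cycle
-/

set_option autoImplicit false

namespace Pool.CMK

open Finset
open scoped Classical

private theorem CycJ_head {V : Type} (n : ℕ) (P : Fin (n + 1) → List V) (h : P 0 ≠ []) :
    (List.ofFn P).flatten.head? = (P 0).head? := by
  rw [List.ofFn_succ, List.flatten_cons, List.head?_append_of_ne_nil _ h]

private theorem CycJ_last {V : Type} (n : ℕ) (P : Fin (n + 1) → List V)
    (h : P (Fin.last n) ≠ []) :
    (List.ofFn P).flatten.getLast? = (P (Fin.last n)).getLast? := by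
  rw [List.ofFn_succ', List.concat_eq_append, List.flatten_append, List.flatten_cons,
    List.flatten_nil, List.append_nil, List.getLast?_append_of_ne_nil _ h]

theorem thm_CycJ : St_CycJ := by
  intro V G r P hr hP hdis hadj hlen
  obtain ⟨n, rfl⟩ : ∃ n, r = n + 1 := ⟨r - 1, by omega⟩
  have hne : ∀ i, P i ≠ [] := fun i => (hP i).1
  have hl : (List.ofFn P).flatten.length = ∑ i, (P i).length := by
    rw [List.length_flatten, List.map_ofFn, List.sum_ofFn]
    rfl
  have hmem : ∀ v, v ∈ (List.ofFn P).flatten ↔ ∃ i, v ∈ P i := by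
    intro v
    rw [List.mem_flatten]
    constructor
    · rintro ⟨l, hl1, hl2⟩
      obtain ⟨i, rfl⟩ := List.mem_ofFn.mp hl1
      exact ⟨i, hl2⟩
    · rintro ⟨i, hi⟩
      exact ⟨P i, List.mem_ofFn.mpr ⟨i, rfl⟩, hi⟩
  refine ⟨(List.ofFn P).flatten, ⟨?_, ?_, ?_, ?_⟩, hl, hmem⟩
  · rw [hl]
    exact hlen
  · rw [List.nodup_flatten]
    constructor
    · intro l hl1
      obtain ⟨i, rfl⟩ := List.mem_ofFn.mp hl1
      exact (hP i).2.1
    · rw [List.pairwise_ofFn]
      intro i j hij v h1 h2
      exact hdis i j hij.ne v h1 h2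
  · rw [List.isChain_flatten]
    · constructor
      · intro l hl1
        obtain ⟨i, rfl⟩ := List.mem_ofFn.mp hl1
        exact (hP i).2.2
      · rw [List.isChain_ofFn]
        intro i hi x hx y hy
        obtain ⟨a, b, h1, h2, h3⟩ := hadj ⟨i, by omega⟩
        have h4 : finRotate (n + 1) ⟨i, by omega⟩ = ⟨i + 1, hi⟩ :=
          finRotate_of_lt (by omega)
        rw [h4] at h2
        have hxa : x = a := by
          have h5 : (P ⟨i, by omega⟩).getLast? = some x := hx
          rw [h1] at h5
          exact (Option.some.inj h5).symm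
        have hyb : y = b := by
          have h5 : (P ⟨i + 1, hi⟩).head? = some y := hy
          rw [h2] at h5
          exact (Option.some.inj h5).symm
        rw [hxa, hyb]
        exact h3
    · intro h
      obtain ⟨i, hi⟩ := List.mem_ofFn.mp h
      exact hne i hi
  · obtain ⟨a, b, h1, h2, h3⟩ := hadj (Fin.last n)
    rw [finRotate_last] at h2
    refine ⟨b, a, ?_, ?_, h3⟩
    · rw [CycJ_head n P (hne 0), h2]
    · rw [CycJ_last n P (hne _), h1]

end Pool.CMK
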