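import Mathlib

/-!
# CMK: cycles of length 1 modulo an odd number (MP_3a51d2_co)

Architect helper38.  Target: for every `ε > 0` there is `k0` such that for every odd `k ≥ k0` every
graph on `n` vertices without a cycle of length `1` mod `k` has at most `(1/2 + ε) k n` edges.

Common definitions.  Paths and cycles are lists of vertices.
-/

set_option autoImplicit false

namespace Pool.CMK

open Finset
open scoped Classical

variable {V : Type}

/-- a path, given by the list of its vertices -/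
def PathL (G : SimpleGraph V) (l : List V) : Prop := l ≠ [] ∧ l.Nodup ∧ l.IsChain G.Adj

/-- a path from `x` to `y` -/
def PathFT (G : SimpleGraph V) (x y : V) (l : List V) : Prop :=
  PathL G l ∧ l.head? = some x ∧ l.getLast? = some y

/-- a cycle, given by the list of its vertices -/
def CycL (G : SimpleGraph V) (l : List V) : Prop :=
  3 ≤ l.length ∧ l.Nodup ∧ l.IsChain G.Adj ∧
    ∃ a b, l.head? = some a ∧ l.getLast? = some b ∧ G.Adj b a

/-- the cycle `l` has a chord -/
def Chord (G : SimpleGraph V) (l : List V) : Prop :=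
  ∃ i j : ℕ, ∃ (hi : i < l.length) (hj : j < l.length), i + 1 < j ∧ j + 1 < l.length + i ∧
    G.Adj l[i] l[j]

/-- the number of ordered pairs `(x, y)`, `x ∈ X`, `y ∈ Y`, which are adjacent; so `ad G X X` is
twice the number of edges inside `X`, and `ad G X Y` is the number of edges between `X` and `Y` if
these are disjoint -/
noncomputable def ad (G : SimpleGraph V) (X Y : Finset V) : ℕ :=
  ((X ×ˢ Y).filter (fun p => G.Adj p.1 p.2)).card

/-- the neighbours of `v` in `X` -/
noncomputable def nbs (G : SimpleGraph V) (v : V) (X : Finset V) : Finset V :=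
  X.filter (fun w => G.Adj v w)

/-- `G` is `c`-connected (separator form): more than `c` vertices, and every separator has at least
`c` vertices -/
def SC [Fintype V] (G : SimpleGraph V) (c : ℕ) : Prop :=
  c + 1 ≤ Fintype.card V ∧ ∀ A B : Finset V, A.Nonempty → B.Nonempty → Disjoint A B →
    (∀ a ∈ A, ∀ b ∈ B, ¬ G.Adj a b) → c ≤ ((A ∪ B)ᶜ).card

/-- there is no empty `g × g` pair between `A` and `B` -/
def P1 (G : SimpleGraph V) (A B : Finset V) (g : ℕ) : Prop :=
  ∀ X Y : Finset V, X ⊆ A → Y ⊆ B → g ≤ X.card → g ≤ Y.card → ∃ x ∈ X, ∃ y ∈ Y, G.Adj x y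

/-- A dense pair: `|A| = |B| = m`, no empty `⌈γ m⌉ × ⌈γ m⌉` pair, all degrees at least `ρ m`. -/
structure Pr (G : SimpleGraph V) (A B : Finset V) (γ ρ : ℝ) : Prop where
  disj : Disjoint A B
  card : A.card = B.card
  p1 : P1 G A B ⌈γ * A.card⌉₊
  dA : ∀ a ∈ A, ρ * A.card ≤ ((nbs G a B).card : ℝ)
  dB : ∀ b ∈ B, ρ * A.card ≤ ((nbs G b A).card : ℝ)

/-- A linked system: the paths `p i` are pairwise disjoint, have at least two vertices, and `p i` leads
from `D (σ i)` to `D (σ (i + 1))` (`i + 1` cyclic). -/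
structure LSys (G : SimpleGraph V) {r : ℕ} (D : Fin r → Finset V) (σ : Equiv.Perm (Fin r))
    (p : Fin r → List V) : Prop where
  path : ∀ i, PathL G (p i) ∧ 2 ≤ (p i).length
  hd : ∀ i, ∃ x ∈ D (σ i), (p i).head? = some x
  lst : ∀ i, ∃ y ∈ D (σ (finRotate r i)), (p i).getLast? = some y
  dis : ∀ i j, i ≠ j → ∀ v ∈ p i, v ∉ p j

/-- A blow-up: disjoint clusters `Vs i`, `i < t`, with `s` vertices each, reduced graph `Γ`.  `low`: the pairs
of adjacent clusters have no large sparse subpair; `typ`: every vertex has many neighbours in some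
adjacent cluster. -/
structure Bl (G : SimpleGraph V) {t : ℕ} (s : ℕ) (Vs : Fin t → Finset V) (Γ : SimpleGraph (Fin t))
    (d γ : ℝ) : Prop where
  card : ∀ i, (Vs i).card = s
  disj : ∀ i j, i ≠ j → Disjoint (Vs i) (Vs j)
  low : ∀ i j, Γ.Adj i j → ∀ X Y : Finset V, X ⊆ Vs i → Y ⊆ Vs j → γ * s ≤ (X.card : ℝ) →
    γ * s ≤ (Y.card : ℝ) → d * X.card * Y.card ≤ (ad G X Y : ℝ)
  typ : ∀ i, ∀ v ∈ Vs i, ∃ j, Γ.Adj i j ∧ d * s ≤ ((nbs G v (Vs j)).card : ℝ)

/-- A matching of `Γ` inside `K`, as a list of oriented edges. -/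
structure MatL {T : Type} (Γ : SimpleGraph T) (K : Finset T) (M : List (T × T)) : Prop where
  adj : ∀ e ∈ M, Γ.Adj e.1 e.2 ∧ e.1 ∈ K ∧ e.2 ∈ K
  nod : (M.flatMap (fun e => [e.1, e.2])).Nodup

/-- the embedding relation: adjacent in `G`, and many neighbours in the next cluster -/
def EmR (G : SimpleGraph V) {t : ℕ} (s : ℕ) (Vs : Fin t → Finset V) (d : ℝ)
    (a b : V × Fin t) : Prop :=
  G.Adj a.1 b.1 ∧ d * s ≤ ((nbs G a.1 (Vs b.2)).card : ℝ)

end Pool.CMK
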