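import Pool.Agent.CMK.St1

/-!
# CMK: the depth first search lemma
-/

set_option autoImplicit false

namespace Pool.CMK

open Finset
open scoped Classical

private theorem Dfs_aux (V : Type) [Fintype V] (G : SimpleGraph V) :
    ∀ i : ℕ, i ≤ Fintype.card V → ∃ (P : List V) (W T : Finset V),
      P.Nodup ∧ P.IsChain G.Adj ∧ Disjoint W T ∧ (∀ v, v ∈ P ↔ v ∉ W ∧ v ∉ T) ∧
      W.card + Fintype.card V = T.card + i ∧ ∀ w ∈ W, ∀ x ∈ T, ¬ G.Adj w x := by
  intro i
  induction i with
  | zero =>
    intro _
    refine ⟨[], ∅, univ, List.nodup_nil, by simp, by simp, by simp, by simp, by simp⟩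
  | succ i ih =>
    intro hi
    obtain ⟨P, W, T, hnd, hch, hd, hm, hc, he⟩ := ih (by omega)
    have hT : 0 < T.card := by omega
    rcases P with _ | ⟨x, P⟩
    · obtain ⟨t, ht⟩ := Finset.card_pos.mp hT
      have htW : t ∉ W := fun h => Finset.disjoint_left.mp hd h ht
      refine ⟨[t], W, T.erase t, List.nodup_singleton t, by simp, ?_, ?_, ?_, ?_⟩
      · exact Finset.disjoint_of_subset_right (Finset.erase_subset t T) hd
      · intro v
        have hv := hm v
        simp only [List.not_mem_nil, false_iff, not_and, not_not] at hv
        simp only [List.mem_singleton, Finset.mem_erase, not_and]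
        constructor
        · rintro rfl
          exact ⟨htW, fun h => absurd rfl h⟩
        · rintro ⟨h1, h2⟩
          by_contra hne
          exact h2 hne (hv h1)
      · rw [Finset.card_erase_of_mem ht]
        omega
      · intro w hw y hy
        exact he w hw y (Finset.mem_of_mem_erase hy)
    · have hxP : x ∉ W ∧ x ∉ T := (hm x).mp List.mem_cons_self
      by_cases hex : ∃ t ∈ T, G.Adj x t
      · obtain ⟨t, ht, hxt⟩ := hex
        have htW : t ∉ W := fun h => Finset.disjoint_left.mp hd h ht
        have htP : t ∉ x :: P := fun h => ((hm t).mp h).2 ht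
        refine ⟨t :: x :: P, W, T.erase t, List.nodup_cons.mpr ⟨htP, hnd⟩, ?_, ?_, ?_, ?_, ?_⟩
        · exact List.isChain_cons_cons.mpr ⟨hxt.symm, hch⟩
        · exact Finset.disjoint_of_subset_right (Finset.erase_subset t T) hd
        · intro v
          rw [List.mem_cons, hm v]
          simp only [Finset.mem_erase, not_and]
          constructor
          · rintro (rfl | ⟨h1, h2⟩)
            · exact ⟨htW, fun h => absurd rfl h⟩
            · exact ⟨h1, fun _ => h2⟩
          · rintro ⟨h1, h2⟩
            by_cases hvt : v = t
            · exact Or.inl hvt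
            · exact Or.inr ⟨h1, h2 hvt⟩
        · rw [Finset.card_erase_of_mem ht]
          omega
        · intro w hw y hy
          exact he w hw y (Finset.mem_of_mem_erase hy)
      · have hex' : ∀ t ∈ T, ¬ G.Adj x t := by
          intro t ht h
          exact hex ⟨t, ht, h⟩
        refine ⟨P, insert x W, T, (List.nodup_cons.mp hnd).2, ?_, ?_, ?_, ?_, ?_⟩
        · exact hch.tail
        · rw [Finset.disjoint_insert_left]
          exact ⟨hxP.2, hd⟩
        · intro v
          have hv := hm v
          rw [List.mem_cons] at hv
          rw [Finset.mem_insert]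
          constructor
          · intro h
            have h' := hv.mp (Or.inr h)
            refine ⟨?_, h'.2⟩
            rintro (rfl | h2)
            · exact (List.nodup_cons.mp hnd).1 h
            · exact h'.1 h2
          · rintro ⟨h1, h2⟩
            have h3 := hv.mpr ⟨fun h => h1 (Or.inr h), h2⟩
            rcases h3 with rfl | h3
            · exact absurd (Or.inl rfl) h1
            · exact h3
        · rw [Finset.card_insert_of_notMem hxP.1]
          omega
        · intro w hw y hy
          rcases Finset.mem_insert.mp hw with rfl | hw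
          · exact hex' y hy
          · exact he w hw y hy

theorem thm_Dfs : St_Dfs := by
  intro V _ G
  obtain ⟨P, W, T, h1, h2, h3, h4, h5, h6⟩ := Dfs_aux V G (Fintype.card V) le_rfl
  exact ⟨P, W, T, h1, h2, h3, h4, by omega, h6⟩

end Pool.CMK
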