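import Pool.Agent.CMK.StS

/-!
# CMK: Dirac's theorem on cycles through given vertices
-/

set_option autoImplicit false

namespace Pool.CMK

open Finset
open scoped Classical

private theorem Dir_SC_mono {V : Type} [Fintype V] {G : SimpleGraph V} {c c' : ℕ} (h : c' ≤ c)
    (hG : SC G c) : SC G c' :=
  ⟨le_trans (Nat.add_le_add_right h 1) hG.1,
    fun A B h1 h2 h3 h4 => le_trans h (hG.2 A B h1 h2 h3 h4)⟩

/-- swapping the two parts of a cyclic list -/
private theorem Dir_swap {V : Type} {G : SimpleGraph V} {a b : List V} (h : CycL G (a ++ b)) :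
    CycL G (b ++ a) := by
  by_cases ha : a = []
  · subst ha
    simpa using h
  by_cases hb : b = []
  · subst hb
    simpa using h
  obtain ⟨h1, h2, h3, x, y, h4, h5, h6⟩ := h
  rw [List.isChain_append] at h3
  obtain ⟨x', hx'⟩ : ∃ x', a.head? = some x' := by
    cases a with
    | nil => exact absurd rfl ha
    | cons c l => exact ⟨c, rfl⟩
  obtain ⟨w, hw⟩ : ∃ w, b.head? = some w := by
    cases b with
    | nil => exact absurd rfl hb
    | cons c l => exact ⟨c, rfl⟩
  obtain ⟨u, hu⟩ : ∃ u, a.getLast? = some u := ⟨a.getLast ha, List.getLast?_eq_some_getLast ha⟩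
  obtain ⟨y', hy'⟩ : ∃ y', b.getLast? = some y' := ⟨b.getLast hb, List.getLast?_eq_some_getLast hb⟩
  rw [List.head?_append, hx'] at h4
  rw [List.getLast?_append, hy'] at h5
  have e1 : x' = x := by simpa using h4
  have e2 : y' = y := by simpa using h5
  subst e1 e2
  refine ⟨?_, List.nodup_append_comm.1 h2, ?_, w, u, ?_, ?_, ?_⟩
  · rw [List.length_append] at h1 ⊢
    omega
  · rw [List.isChain_append]
    refine ⟨h3.2.1, h3.1, ?_⟩
    intro p hp q hq
    rw [hy'] at hp
    rw [hx'] at hq
    have e3 : y' = p := by simpa using hp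
    have e4 : x' = q := by simpa using hq
    subst e3 e4
    exact h6
  · rw [List.head?_append, hw]
    rfl
  · rw [List.getLast?_append, hu]
    rfl
  · exact h3.2.2 u (by rw [hu]; rfl) w (by rw [hw]; rfl)

/-- replacing a part of a cycle -/
private theorem Dir_repl {V : Type} {G : SimpleGraph V} {l₁ Y X l₂ : List V} {e e' : V}
    (h : CycL G (l₁ ++ (Y ++ l₂))) (hY1 : Y.head? = some e) (hY2 : Y.getLast? = some e')
    (hX1 : X.head? = some e) (hX2 : X.getLast? = some e') (hXn : X.Nodup)
    (hXc : X.IsChain G.Adj) (hd : ∀ w ∈ X, w ∉ l₁ ∧ w ∉ l₂) (hl : 3 ≤ X.length) :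
    CycL G (l₁ ++ (X ++ l₂)) := by
  have hh : (X ++ l₂).head? = (Y ++ l₂).head? := by
    rw [List.head?_append, List.head?_append, hX1, hY1]
  have hg : (X ++ l₂).getLast? = (Y ++ l₂).getLast? := by
    rw [List.getLast?_append, List.getLast?_append, hX2, hY2]
  obtain ⟨h1, h2, h3, x, y, h4, h5, h6⟩ := h
  rw [List.nodup_append, List.nodup_append] at h2
  rw [List.isChain_append, List.isChain_append] at h3
  obtain ⟨n1, ⟨-, n2, -⟩, n3⟩ := h2
  obtain ⟨c1, ⟨-, c2, c3⟩, c4⟩ := h3
  refine ⟨?_, ?_, ?_, x, y, ?_, ?_, h6⟩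
  · rw [List.length_append, List.length_append]
    omega
  · rw [List.nodup_append, List.nodup_append]
    refine ⟨n1, ⟨hXn, n2, ?_⟩, ?_⟩
    · rintro a ha b hb rfl
      exact (hd a ha).2 hb
    · rintro a ha b hb rfl
      rcases List.mem_append.1 hb with hb | hb
      · exact (hd a hb).1 ha
      · exact n3 a ha a (List.mem_append_right _ hb) rfl
  · rw [List.isChain_append, List.isChain_append]
    refine ⟨c1, ⟨hXc, c2, ?_⟩, ?_⟩
    · rw [hX2, ← hY2]
      exact c3
    · rw [hh]
      exact c4
  · rw [List.head?_append, hh, ← List.head?_append]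
    exact h4
  · rw [List.getLast?_append, hg, ← List.getLast?_append]
    exact h5

/-- inserting a vertex by means of two paths -/
private theorem Dir_ins {V : Type} {G : SimpleGraph V} {l₁ mid l₂ p p' : List V} {e e' z : V}
    (h : CycL G (l₁ ++ e :: (mid ++ e' :: l₂))) (hz : z ∉ l₁ ++ e :: (mid ++ e' :: l₂))
    (hp : PathFT G z e p) (hp' : PathFT G z e' p')
    (h1 : ∀ w ∈ p, w ∈ l₁ ++ e :: (mid ++ e' :: l₂) → w = e)
    (h2 : ∀ w ∈ p', w ∈ l₁ ++ e :: (mid ++ e' :: l₂) → w = e')
    (h3 : ∀ w ∈ p, w ∈ p' → w = z) :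
    ∃ C', CycL G C' ∧ z ∈ C' ∧ (∀ w ∈ l₁, w ∈ C') ∧ (∀ w ∈ l₂, w ∈ C') ∧ e ∈ C' ∧ e' ∈ C' := by
  obtain ⟨⟨hp1, hp2, hp3⟩, hp4, hp5⟩ := hp
  obtain ⟨⟨hq1, hq2, hq3⟩, hq4, hq5⟩ := hp'
  obtain ⟨q, rfl⟩ := List.head?_eq_some_iff.1 hp4
  obtain ⟨q', rfl⟩ := List.head?_eq_some_iff.1 hq4
  have hze : z ≠ e := by
    rintro rfl
    exact hz (by simp)
  have hze' : z ≠ e' := by
    rintro rfl
    exact hz (by simp)
  have hq0 : q ≠ [] := by
    rintro rfl
    apply hze
    simpa using hp5
  have hq0' : q' ≠ [] := by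
    rintro rfl
    apply hze'
    simpa using hq5
  have e1 : q.getLast? = some e := by
    rw [List.getLast?_cons, List.getLast?_eq_some_getLast hq0] at hp5
    rw [List.getLast?_eq_some_getLast hq0]
    simpa using hp5
  have hC : l₁ ++ e :: (mid ++ e' :: l₂) = l₁ ++ ((e :: (mid ++ [e'])) ++ l₂) := by
    simp
  have hn := h.2.1
  rw [List.nodup_append, List.nodup_cons, List.nodup_append, List.nodup_cons] at hn
  obtain ⟨n1, ⟨n2, n3, ⟨n4, n5⟩, n6⟩, n7⟩ := hn
  have he1 : e ∉ l₁ := fun h4 => n7 e h4 e (by simp) rfl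
  have he2 : e ∉ l₂ := fun h4 => n2 (by simp [h4])
  have he1' : e' ∉ l₁ := fun h4 => n7 e' h4 e' (by simp) rfl
  have he2' : e' ∉ l₂ := n4
  rw [List.nodup_cons] at hp2 hq2
  rw [List.isChain_cons] at hp3
  refine ⟨l₁ ++ ((q.reverse ++ (z :: q')) ++ l₂), ?_, ?_, ?_, ?_, ?_, ?_⟩
  · rw [hC] at h
    refine Dir_repl (e := e) (e' := e') h rfl ?_ ?_ ?_ ?_ ?_ ?_ ?_
    · have : e :: (mid ++ [e']) = (e :: mid) ++ [e'] := rfl
      rw [this, List.getLast?_append]
      rfl
    · rw [List.head?_append, List.head?_reverse, e1]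
      rfl
    · rw [List.getLast?_append, hq5]
      rfl
    · rw [List.nodup_append]
      refine ⟨List.nodup_reverse.2 hp2.2, List.nodup_cons.2 hq2, ?_⟩
      rintro a ha b hb rfl
      rw [List.mem_reverse] at ha
      have h4 := h3 a (List.mem_cons_of_mem _ ha) hb
      rw [h4] at ha
      exact hp2.1 ha
    · rw [List.isChain_append]
      refine ⟨?_, hq3, ?_⟩
      · rw [List.isChain_reverse]
        exact hp3.2.imp (fun a b hab => hab.symm)
      · intro x hx y hy
        rw [List.getLast?_reverse] at hx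
        have h4 : z = y := by simpa using hy
        rw [← h4]
        exact (hp3.1 x hx).symm
    · intro w hw
      rw [List.mem_append, List.mem_reverse] at hw
      have hwz : w = z ∨ w ∈ q ∨ w ∈ q' := by
        rcases hw with hw | hw
        · exact Or.inr (Or.inl hw)
        · rcases List.mem_cons.1 hw with hw | hw
          · exact Or.inl hw
          · exact Or.inr (Or.inr hw)
      constructor
      · intro h4
        rcases hwz with h5 | h5 | h5
        · rw [h5] at h4
          exact hz (List.mem_append_left _ h4)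
        · have h6 := h1 w (List.mem_cons_of_mem _ h5) (List.mem_append_left _ h4)
          rw [h6] at h4
          exact he1 h4
        · have h6 := h2 w (List.mem_cons_of_mem _ h5) (List.mem_append_left _ h4)
          rw [h6] at h4
          exact he1' h4
      · intro h4
        have h4' : w ∈ l₁ ++ e :: (mid ++ e' :: l₂) := by simp [h4]
        rcases hwz with h5 | h5 | h5
        · rw [h5] at h4'
          exact hz h4'
        · have h6 := h1 w (List.mem_cons_of_mem _ h5) h4'
          rw [h6] at h4
          exact he2 h4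
        · have h6 := h2 w (List.mem_cons_of_mem _ h5) h4'
          rw [h6] at h4
          exact he2' h4
    · rw [List.length_append, List.length_reverse, List.length_cons]
      have := List.length_pos_iff.2 hq0
      have := List.length_pos_iff.2 hq0'
      omega
  · simp
  · intro w hw
    exact List.mem_append_left _ hw
  · intro w hw
    exact List.mem_append_right _ (List.mem_append_right _ hw)
  · have : e ∈ q := List.mem_of_getLast? e1
    simp [this]
  · have : e' ∈ z :: q' := List.mem_of_getLast? hq5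
    exact List.mem_append_right _ (List.mem_append_left _ (List.mem_append_right _ this))

/-- pigeon hole principle for arcs -/
private theorem Dir_pig {V : Type} (E Z : Finset V) : ∀ C : List V,
    (∀ l₁ e mid e' l₂, C = l₁ ++ e :: (mid ++ e' :: l₂) → e ∈ E → e' ∈ E →
      ∃ w ∈ mid ++ [e'], w ∈ Z) →
    (C.filter (fun v => v ∈ E)).length ≤ (C.filter (fun v => v ∈ Z)).length + 1 ∧
    ((∀ mid e' l₂, C = mid ++ e' :: l₂ → e' ∈ E → ∃ w ∈ mid ++ [e'], w ∈ Z) →
      (C.filter (fun v => v ∈ E)).length ≤ (C.filter (fun v => v ∈ Z)).length) := by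
  intro C
  induction C with
  | nil =>
    intro _
    simp
  | cons d C ih =>
    intro hC
    have hC' : ∀ l₁ e mid e' l₂, C = l₁ ++ e :: (mid ++ e' :: l₂) → e ∈ E → e' ∈ E →
        ∃ w ∈ mid ++ [e'], w ∈ Z := by
      intro l₁ e mid e' l₂ h
      exact hC (d :: l₁) e mid e' l₂ (by rw [h]; rfl)
    obtain ⟨i1, i2⟩ := ih hC'
    have i3 : d ∈ E → (C.filter (fun v => v ∈ E)).length ≤ (C.filter (fun v => v ∈ Z)).length := by
      intro hd
      apply i2
      intro mid e' l₂ h he'
      exact hC [] d mid e' l₂ (by rw [h]; rfl) hd he'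
    by_cases hdE : d ∈ E
    · have j1 := i3 hdE
      have e1 : ((d :: C).filter (fun v => v ∈ E)).length =
          (C.filter (fun v => v ∈ E)).length + 1 := by
        rw [List.filter_cons_of_pos (by simpa using hdE)]
        rfl
      by_cases hdZ : d ∈ Z
      · have e2 : ((d :: C).filter (fun v => v ∈ Z)).length =
            (C.filter (fun v => v ∈ Z)).length + 1 := by
          rw [List.filter_cons_of_pos (by simpa using hdZ)]
          rfl
        rw [e1, e2]
        exact ⟨by omega, fun _ => by omega⟩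
      · have e2 : ((d :: C).filter (fun v => v ∈ Z)).length =
            (C.filter (fun v => v ∈ Z)).length := by
          rw [List.filter_cons_of_neg (by simpa using hdZ)]
        rw [e1, e2]
        refine ⟨by omega, fun h => ?_⟩
        exfalso
        obtain ⟨w, hw, hwZ⟩ := h [] d C rfl hdE
        have : w = d := by simpa using hw
        rw [this] at hwZ
        exact hdZ hwZ
    · have e1 : ((d :: C).filter (fun v => v ∈ E)).length =
          (C.filter (fun v => v ∈ E)).length := by
        rw [List.filter_cons_of_neg (by simpa using hdE)]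
      by_cases hdZ : d ∈ Z
      · have e2 : ((d :: C).filter (fun v => v ∈ Z)).length =
            (C.filter (fun v => v ∈ Z)).length + 1 := by
          rw [List.filter_cons_of_pos (by simpa using hdZ)]
          rfl
        rw [e1, e2]
        exact ⟨by omega, fun _ => by omega⟩
      · have e2 : ((d :: C).filter (fun v => v ∈ Z)).length =
            (C.filter (fun v => v ∈ Z)).length := by
          rw [List.filter_cons_of_neg (by simpa using hdZ)]
        rw [e1, e2]
        refine ⟨i1, fun h => i2 ?_⟩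
        intro mid e' l₂ h1 he'
        obtain ⟨w, hw, hwZ⟩ := h (d :: mid) e' l₂ (by rw [h1]; rfl) he'
        refine ⟨w, ?_, hwZ⟩
        rcases List.mem_cons.1 hw with hw | hw
        · rw [hw] at hwZ
          exact absurd hwZ hdZ
        · exact hw

private theorem Dir_filter_card {V : Type} (C : List V) (E : Finset V) (hn : C.Nodup)
    (hE : ∀ v ∈ E, v ∈ C) : (C.filter (fun v => v ∈ E)).length = E.card := by
  rw [← List.toFinset_card_of_nodup (hn.filter _)]
  congr 1
  ext v
  rw [List.mem_toFinset, List.mem_filter]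
  constructor
  · intro h
    simpa using h.2
  · intro h
    exact ⟨hE v h, by simpa using h⟩

/-- the ends of a fan are different -/
private theorem Dir_ends {V : Type} {G : SimpleGraph V} {c : ℕ} {z : V} {C : List V} (hz : z ∉ C)
    (p : Fin c → List V) (e : Fin c → V)
    (he : ∀ i, e i ∈ C.toFinset ∧ PathFT G z (e i) (p i) ∧ ∀ w ∈ p i, w ∈ C.toFinset → w = e i)
    (hp : ∀ i j, i ≠ j → ∀ w ∈ p i, w ∈ p j → w = z) : Function.Injective e := by
  intro i j hij
  by_contra hne
  have h1 : e i ∈ p i := List.mem_of_getLast? (he i).2.1.2.2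
  have h2 : e j ∈ p j := List.mem_of_getLast? (he j).2.1.2.2
  rw [← hij] at h2
  have h3 := hp i j hne _ h1 h2
  have h4 := (he i).1
  rw [h3, List.mem_toFinset] at h4
  exact hz h4

theorem thm_Dir (hFan : St_Fan) (hDirB : St_DirB) : St_Dir := by
  intro V _ G c Z hG hc
  induction Z using Finset.induction_on with
  | empty =>
    intro _
    have h1 := hG.1
    have h2 : 0 < Fintype.card V := by omega
    obtain ⟨z⟩ := Fintype.card_pos_iff.1 h2
    obtain ⟨l, hl, -⟩ := hDirB V G z (Dir_SC_mono hc hG)
    exact ⟨l, hl, by simp⟩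
  | insert z Z hzZ ih =>
    intro hcard
    rw [card_insert_of_notMem hzZ] at hcard
    obtain ⟨C, hC, hCZ⟩ := ih (by omega)
    rcases Z.eq_empty_or_nonempty with hZ | ⟨z₀, hz₀⟩
    · subst hZ
      obtain ⟨l, hl, hzl⟩ := hDirB V G z (Dir_SC_mono hc hG)
      exact ⟨l, hl, by simpa using hzl⟩
    by_cases hzC : z ∈ C
    · refine ⟨C, hC, ?_⟩
      intro w hw
      rcases mem_insert.1 hw with rfl | hw
      · exact hzC
      · exact hCZ w hw
    -- normalise
    obtain ⟨l₁, l₂, hCe⟩ := List.append_of_mem (hCZ z₀ hz₀)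
    have hCs : CycL G (z₀ :: l₂ ++ l₁) := Dir_swap (by rw [← hCe]; exact hC)
    have hmem : ∀ w, w ∈ z₀ :: l₂ ++ l₁ ↔ w ∈ C := by
      intro w
      rw [hCe, List.mem_append, List.mem_append, or_comm]
    obtain ⟨R, hR⟩ : ∃ R, z₀ :: l₂ ++ l₁ = z₀ :: R := ⟨l₂ ++ l₁, rfl⟩
    rw [hR] at hCs hmem
    clear hCe hR
    have hzR : z ∉ z₀ :: R := fun h => hzC ((hmem z).1 h)
    have hZR : ∀ w ∈ Z, w ∈ z₀ :: R := fun w hw => (hmem w).2 (hCZ w hw)
    clear hmem hCZ hC hzC
    -- it is enough to find the two ends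
    have key : ∀ (k : ℕ) (p : Fin k → List V) (e : Fin k → V),
        (∀ i, e i ∈ (z₀ :: R).toFinset ∧ PathFT G z (e i) (p i) ∧
          ∀ w ∈ p i, w ∈ (z₀ :: R).toFinset → w = e i) →
        (∀ i j, i ≠ j → ∀ w ∈ p i, w ∈ p j → w = z) →
        (∃ l₁ mid l₂, ∃ a b : Fin k, a ≠ b ∧ z₀ :: R = l₁ ++ e a :: (mid ++ e b :: l₂) ∧
          ∀ w ∈ mid, w ∉ Z) → ∃ l, CycL G l ∧ ∀ w ∈ insert z Z, w ∈ l := by
      intro k p e he hp ⟨l₁, mid, l₂, a, b, hab, h1, h2⟩
      rw [h1] at hCs hzR hZR
      obtain ⟨C', d1, d2, d3, d4, d5, d6⟩ := Dir_ins hCs hzR (he a).2.1 (he b).2.1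
        (fun w hw hw2 => (he a).2.2 w hw (by rw [h1, List.mem_toFinset]; exact hw2))
        (fun w hw hw2 => (he b).2.2 w hw (by rw [h1, List.mem_toFinset]; exact hw2))
        (hp a b hab)
      refine ⟨C', d1, ?_⟩
      intro w hw
      rcases mem_insert.1 hw with rfl | hw
      · exact d2
      · have h3 := hZR w hw
        rw [List.mem_append, List.mem_cons, List.mem_append, List.mem_cons] at h3
        rcases h3 with h3 | h3 | h3 | h3 | h3
        · exact d3 w h3
        · rw [h3]; exact d5
        · exact absurd hw (h2 w h3)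
        · rw [h3]; exact d6
        · exact d4 w h3
    have hzf : z ∉ (z₀ :: R).toFinset := by
      rw [List.mem_toFinset]
      exact hzR
    have hcardR : (z₀ :: R).toFinset.card = (z₀ :: R).length :=
      List.toFinset_card_of_nodup hCs.2.1
    by_cases hcase : Z.card + 1 ≤ (z₀ :: R).length
    · obtain ⟨p, hp1, hp2⟩ := hFan V G (Z.card + 1) z (z₀ :: R).toFinset
        (Dir_SC_mono hcard hG) hzf (by rw [hcardR]; exact hcase)
      choose e he using hp1
      have hinj := Dir_ends hzR p e he hp2
      refine key _ p e he hp2 ?_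
      by_contra hcon
      have h1 : ∀ l₁ x mid y l₂, z₀ :: R = l₁ ++ x :: (mid ++ y :: l₂) → x ∈ univ.image e →
          y ∈ univ.image e → ∃ w ∈ mid ++ [y], w ∈ Z := by
        intro l₁ x mid y l₂ h2 hx hy
        by_contra hno
        push Not at hno
        rw [mem_image] at hx hy
        obtain ⟨a, -, rfl⟩ := hx
        obtain ⟨b, -, rfl⟩ := hy
        apply hcon
        refine ⟨l₁, mid, l₂, a, b, ?_, h2, fun w hw => hno w (List.mem_append_left _ hw)⟩
        rintro rfl
        have h3 := hCs.2.1
        rw [h2, List.nodup_append, List.nodup_cons] at h3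
        exact h3.2.1.1 (by simp)
      have h2 := (Dir_pig (univ.image e) Z (z₀ :: R) h1).2 (by
        intro mid y l₂ h3 _
        cases mid with
        | nil =>
          rw [List.nil_append, List.cons.injEq] at h3
          exact ⟨y, by simp, by rw [← h3.1]; exact hz₀⟩
        | cons d mid =>
          rw [List.cons_append, List.cons.injEq] at h3
          exact ⟨d, by simp, by rw [← h3.1]; exact hz₀⟩)
      rw [Dir_filter_card _ _ hCs.2.1 (by
        intro v hv
        rw [mem_image] at hv
        obtain ⟨a, -, rfl⟩ := hv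
        have := (he a).1
        rwa [List.mem_toFinset] at this), Dir_filter_card _ _ hCs.2.1 hZR,
        card_image_of_injective _ hinj, card_univ, Fintype.card_fin] at h2
      omega
    · have h1 : (z₀ :: R).length ≤ Z.card := by omega
      obtain ⟨p, hp1, hp2⟩ := hFan V G (z₀ :: R).length z (z₀ :: R).toFinset
        (Dir_SC_mono (by omega) hG) hzf (by rw [hcardR])
      choose e he using hp1
      have hinj := Dir_ends hzR p e he hp2
      refine key _ p e he hp2 ?_
      have h2 : univ.image e = (z₀ :: R).toFinset := by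
        apply eq_of_subset_of_card_le
        · intro v hv
          rw [mem_image] at hv
          obtain ⟨a, -, rfl⟩ := hv
          exact (he a).1
        · rw [card_image_of_injective _ hinj, card_univ, Fintype.card_fin, hcardR]
      have h3 := hCs.1
      obtain ⟨z₁, R', rfl⟩ : ∃ z₁ R', R = z₁ :: R' := by
        cases R with
        | nil => simp at h3
        | cons d R => exact ⟨d, R, rfl⟩
      have h4 : z₀ ∈ univ.image e := by rw [h2]; simp
      have h5 : z₁ ∈ univ.image e := by rw [h2]; simp
      rw [mem_image] at h4 h5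
      obtain ⟨a, -, ha⟩ := h4
      obtain ⟨b, -, hb⟩ := h5
      refine ⟨[], [], R', a, b, ?_, by rw [ha, hb]; rfl, by simp⟩
      rintro rfl
      have h6 := hCs.2.1
      rw [← ha, ← hb] at h6
      simp at h6

end Pool.CMK
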