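import Pool.Agent.CMK.StS

/-!
# CMK: DirB, a cycle through one vertex of a 2-connected graph
-/

set_option autoImplicit false

namespace Pool.CMK

open Finset
open scoped Classical

variable {V : Type}

/-- the graph without the edges at `z` -/
private def DirB_H (G : SimpleGraph V) (z : V) : SimpleGraph V where
  Adj a b := G.Adj a b ∧ a ≠ z ∧ b ≠ z
  symm := ⟨fun _ _ h => ⟨h.1.symm, h.2.2, h.2.1⟩⟩
  loopless := ⟨fun _ h => h.1.ne rfl⟩

private theorem DirB_walk (G : SimpleGraph V) (z : V) {a b : V} (p : (DirB_H G z).Walk a b)
    (ha : a ≠ z) : ∀ v ∈ p.support, v ≠ z := by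
  induction p with
  | nil =>
    intro v hv
    rw [SimpleGraph.Walk.support_nil, List.mem_singleton] at hv
    rw [hv]; exact ha
  | cons h q ih =>
    intro v hv
    rw [SimpleGraph.Walk.support_cons, List.mem_cons] at hv
    rcases hv with hv | hv
    · rw [hv]; exact ha
    · exact ih h.2.2 v hv

theorem thm_DirB : St_DirB := by
  intro V _ G z hSC
  obtain ⟨hcard, hsep⟩ := hSC
  -- a neighbour
  have h1 : ∃ w, G.Adj z w := by
    by_contra hno
    push Not at hno
    have hB : (univ \ {z} : Finset V).Nonempty := by
      rw [← Finset.card_pos, Finset.card_sdiff_of_subset (Finset.subset_univ _),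
        Finset.card_univ, Finset.card_singleton]
      omega
    have := hsep {z} (univ \ {z}) (Finset.singleton_nonempty z) hB
      (Finset.disjoint_sdiff) (by
        intro a ha b _
        rw [Finset.mem_singleton] at ha
        rw [ha]; exact hno b)
    have he : (({z} : Finset V) ∪ univ \ {z})ᶜ = ∅ := by
      ext x
      simp only [Finset.mem_compl, Finset.mem_union, Finset.mem_singleton, Finset.mem_sdiff,
        Finset.mem_univ, true_and]
      constructor
      · intro h; exact absurd (em (x = z)) h
      · intro h; exact absurd h (Finset.notMem_empty x)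
    rw [he, Finset.card_empty] at this
    omega
  obtain ⟨w, hw⟩ := h1
  have hwz : w ≠ z := hw.ne.symm
  -- a second neighbour
  have h2 : ∃ w', w' ≠ w ∧ G.Adj z w' := by
    by_contra hno
    push Not at hno
    have hB : (univ \ {z, w} : Finset V).Nonempty := by
      rw [← Finset.card_pos, Finset.card_sdiff_of_subset (Finset.subset_univ _),
        Finset.card_univ]
      have : ({z, w} : Finset V).card ≤ 2 := Finset.card_le_two
      omega
    have := hsep {z} (univ \ {z, w}) (Finset.singleton_nonempty z) hB
      (by
        rw [Finset.disjoint_left]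
        intro a ha hb
        rw [Finset.mem_singleton] at ha
        rw [Finset.mem_sdiff] at hb
        exact hb.2 (by rw [ha]; exact Finset.mem_insert_self z {w})) (by
        intro a ha b hb
        rw [Finset.mem_singleton] at ha
        rw [Finset.mem_sdiff, Finset.mem_insert, Finset.mem_singleton] at hb
        rw [ha]
        exact hno b (fun h => hb.2 (Or.inr h)))
    have he : (({z} : Finset V) ∪ univ \ {z, w})ᶜ ⊆ {w} := by
      intro x hx
      simp only [Finset.mem_compl, Finset.mem_union, Finset.mem_singleton, Finset.mem_sdiff,
        Finset.mem_univ, true_and, Finset.mem_insert] at hx ⊢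
      by_contra hxw
      apply hx
      by_cases hxz : x = z
      · exact Or.inl hxz
      · right
        rintro (h | h)
        · exact hxz h
        · exact hxw h
    have hc := Finset.card_le_card he
    rw [Finset.card_singleton] at hc
    omega
  obtain ⟨w', hw'w, hw'⟩ := h2
  have hw'z : w' ≠ z := hw'.ne.symm
  -- `w'` is reachable from `w` without `z`
  have h3 : (DirB_H G z).Reachable w w' := by
    by_contra hno
    let A : Finset V := univ.filter (fun v => (DirB_H G z).Reachable w v)
    let B : Finset V := univ.filter (fun v => v ≠ z ∧ ¬ (DirB_H G z).Reachable w v)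
    have hAz : ∀ a ∈ A, a ≠ z := by
      intro a ha
      rw [Finset.mem_filter] at ha
      obtain ⟨p⟩ := ha.2
      exact DirB_walk G z p hwz a p.end_mem_support
    have hAne : A.Nonempty := ⟨w, by
      rw [Finset.mem_filter]
      exact ⟨Finset.mem_univ w, SimpleGraph.Reachable.refl w⟩⟩
    have hBne : B.Nonempty := ⟨w', by
      rw [Finset.mem_filter]
      exact ⟨Finset.mem_univ w', hw'z, hno⟩⟩
    have hdis : Disjoint A B := by
      rw [Finset.disjoint_left]
      intro a ha hb
      rw [Finset.mem_filter] at ha hb
      exact hb.2.2 ha.2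
    have := hsep A B hAne hBne hdis (by
      intro a ha b hb hab
      have haz := hAz a ha
      rw [Finset.mem_filter] at ha hb
      apply hb.2.2
      refine ha.2.trans ?_
      exact (show (DirB_H G z).Adj a b from ⟨hab, haz, hb.2.1⟩).reachable)
    have he : (A ∪ B)ᶜ ⊆ {z} := by
      intro x hx
      rw [Finset.mem_compl, Finset.mem_union] at hx
      rw [Finset.mem_singleton]
      by_contra hxz
      apply hx
      by_cases hr : (DirB_H G z).Reachable w x
      · left; rw [Finset.mem_filter]; exact ⟨Finset.mem_univ x, hr⟩
      · right; rw [Finset.mem_filter]; exact ⟨Finset.mem_univ x, hxz, hr⟩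
    have hc := Finset.card_le_card he
    rw [Finset.card_singleton] at hc
    omega
  obtain ⟨p, hp⟩ := h3.exists_isPath
  have hchain : p.support.IsChain (DirB_H G z).Adj := p.isChain_adj_support
  have hchainG : p.support.IsChain G.Adj := hchain.imp (fun a b h => h.1)
  refine ⟨z :: p.support, ⟨?_, ?_, ?_, ?_⟩, List.mem_cons_self⟩
  · rw [List.length_cons, SimpleGraph.Walk.length_support]
    have : p.length ≠ 0 := by
      intro h
      exact hw'w (SimpleGraph.Walk.eq_of_length_eq_zero h).symm
    omega
  · rw [List.nodup_cons]
    exact ⟨fun h => DirB_walk G z p hwz z h rfl, hp.support_nodup⟩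
  · rw [← SimpleGraph.Walk.cons_tail_support] at hchainG ⊢
    rw [List.isChain_cons_cons]
    exact ⟨hw, hchainG⟩
  · refine ⟨z, w', rfl, ?_, hw'.symm⟩
    rw [List.getLast?_cons, List.getLast?_eq_getLast_of_ne_nil p.support_ne_nil,
      SimpleGraph.Walk.getLast_support]
    rfl

end Pool.CMK
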