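import Pool.Agent.CMK.St3

/-!
# CMK: module EMB (embedding a walk of the reduced graph)
-/

set_option autoImplicit false

namespace Pool.CMK

open Finset
open scoped Classical

variable {V : Type}

private theorem Emb_ad_sum (G : SimpleGraph V) (X Y : Finset V) :
    ad G X Y = ∑ x ∈ X, (nbs G x Y).card := by
  unfold ad nbs
  rw [Finset.card_filter, Finset.sum_product]
  apply Finset.sum_congr rfl
  intro x _
  rw [Finset.card_filter]

private theorem Emb_none {G : SimpleGraph V} {t s : ℕ} {Vs : Fin t → Finset V}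
    {Γ : SimpleGraph (Fin t)} {d γ : ℝ} (hB : Bl G s Vs Γ d γ) (hγ : 0 < γ) (hd : 0 < d)
    (hs : (0 : ℝ) < s) {i j : Fin t} (hij : Γ.Adj i j) {Y : Finset V} (hY : Y ⊆ Vs j)
    (hYc : γ * s ≤ (Y.card : ℝ)) :
    (((Vs i).filter (fun x => nbs G x Y = ∅)).card : ℝ) < γ * s := by
  by_contra hcon
  push Not at hcon
  set X := (Vs i).filter (fun x => nbs G x Y = ∅) with hX
  have h1 := hB.low i j hij X Y (Finset.filter_subset _ _) hY hcon hYc
  have h2 : ad G X Y = 0 := by
    rw [Emb_ad_sum]
    apply Finset.sum_eq_zero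
    intro x hx
    rw [(Finset.mem_filter.mp hx).2, Finset.card_empty]
  rw [h2] at h1
  have hγs : 0 < γ * s := mul_pos hγ hs
  have : 0 < d * X.card * Y.card :=
    mul_pos (mul_pos hd (lt_of_lt_of_le hγs hcon)) (lt_of_lt_of_le hγs hYc)
  simp only [Nat.cast_zero] at h1
  linarith

private theorem Emb_low {G : SimpleGraph V} {t s : ℕ} {Vs : Fin t → Finset V}
    {Γ : SimpleGraph (Fin t)} {d γ : ℝ} (hB : Bl G s Vs Γ d γ) (hγ : 0 < γ) (hγ1 : γ ≤ 1)
    (hs : (0 : ℝ) < s) {i j : Fin t} (hij : Γ.Adj i j) :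
    (((Vs i).filter (fun x => ((nbs G x (Vs j)).card : ℝ) < d * s)).card : ℝ) < γ * s := by
  by_contra hcon
  push Not at hcon
  set X := (Vs i).filter (fun x => ((nbs G x (Vs j)).card : ℝ) < d * s) with hX
  have hγs : 0 < γ * s := mul_pos hγ hs
  have hc : γ * s ≤ ((Vs j).card : ℝ) := by
    rw [hB.card j]; nlinarith
  have h1 := hB.low i j hij X (Vs j) (Finset.filter_subset _ _) (Finset.Subset.refl _) hcon hc
  rw [hB.card j, Emb_ad_sum] at h1
  push_cast at h1
  have hXne : X.Nonempty := by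
    rw [← Finset.card_pos]
    have : (0 : ℝ) < X.card := lt_of_lt_of_le hγs hcon
    exact_mod_cast this
  have h2 : ∑ x ∈ X, ((nbs G x (Vs j)).card : ℝ) < ∑ _x ∈ X, d * s := by
    apply Finset.sum_lt_sum_of_nonempty hXne
    intro x hx
    exact (Finset.mem_filter.mp hx).2
  rw [Finset.sum_const, nsmul_eq_mul] at h2
  nlinarith

private theorem Emb_pick {X A B U : Finset V} {u v : ℝ} (hu : (A.card : ℝ) < u)
    (hv : (B.card : ℝ) < v) (hX : u + v + U.card ≤ (X.card : ℝ)) :
    ∃ x ∈ X, x ∉ U ∧ x ∉ A ∧ x ∉ B := by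
  by_contra hcon
  push Not at hcon
  have hsub : X ⊆ U ∪ (A ∪ B) := by
    intro x hx
    by_cases h1 : x ∈ U
    · exact Finset.mem_union_left _ h1
    · by_cases h2 : x ∈ A
      · exact Finset.mem_union_right _ (Finset.mem_union_left _ h2)
      · exact Finset.mem_union_right _ (Finset.mem_union_right _ (hcon x hx h1 h2))
  have h1 := Finset.card_le_card hsub
  have h2 := Finset.card_union_le U (A ∪ B)
  have h3 := Finset.card_union_le A B
  have h4 : (X.card : ℝ) ≤ U.card + (A.card + B.card) := by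
    exact_mod_cast h1.trans (h2.trans (Nat.add_le_add_left h3 _))
  linarith

private theorem Emb_main {G : SimpleGraph V} {t s : ℕ} {Vs : Fin t → Finset V}
    {Γ : SimpleGraph (Fin t)} {d γ : ℝ} (hB : Bl G s Vs Γ d γ) (hγ : 0 < γ) (h8 : 8 * γ ≤ d)
    (hd1 : d ≤ 1) (hs : (0 : ℝ) < s) (b : Fin t) (Y₀ : Finset V) (hY : Y₀ ⊆ Vs b)
    (hYc : d * s ≤ (Y₀.card : ℝ)) :
    ∀ (w : List (Fin t)) (a : Fin t) (X₀ U : Finset V), w.IsChain Γ.Adj → 2 ≤ w.length →
    w.head? = some a → w.getLast? = some b → X₀ ⊆ Vs a → d * s ≤ (X₀.card : ℝ) →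
    (w.length : ℝ) + U.card ≤ d * s / 4 →
    ∃ z : List (V × Fin t), z.map Prod.snd = w ∧ z.IsChain (EmR G s Vs d) ∧
      (z.map Prod.fst).Nodup ∧ (∀ q ∈ z, q.1 ∈ Vs q.2 ∧ q.1 ∉ U) ∧
      (∃ x ∈ X₀, (z.map Prod.fst).head? = some x) ∧
      (∃ y ∈ Y₀, (z.map Prod.fst).getLast? = some y) := by
  intro w
  have hd : 0 < d := by linarith
  have hγ1 : γ ≤ 1 := by linarith
  have h2γ : γ * s + γ * s ≤ d * s / 4 := by nlinarith
  induction w with
  | nil => intro a X₀ U _ h; simp at h
  | cons a' w ih =>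
    intro a X₀ U hch hlen hhd hlast hX hXc hU
    have haa : a' = a := by simpa using hhd
    subst haa
    match w, ih, hch, hlen, hlast, hU with
    | [], _, _, hlen, _, _ => simp at hlen
    | [c], _, hch, _, hlast, hU =>
      have hcb : c = b := by simpa using hlast
      subst hcb
      have hadj : Γ.Adj a' c := by simpa using hch
      simp only [List.length_cons, List.length_nil] at hU
      push_cast at hU
      have hYU : γ * s ≤ ((Y₀ \ U).card : ℝ) := by
        have h1 : (Y₀.card : ℝ) ≤ (Y₀ \ U).card + U.card := by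
          exact_mod_cast Finset.card_le_card_sdiff_add_card
        nlinarith
      have hYs : Y₀ \ U ⊆ Vs c := Finset.sdiff_subset.trans hY
      obtain ⟨x, hx, hxU, hxA, hxB⟩ := Emb_pick (X := X₀) (U := U)
        (Emb_none hB hγ hd hs hadj hYs hYU) (Emb_low hB hγ hγ1 hs hadj) (by nlinarith)
      have hxa : x ∈ Vs a' := hX hx
      have hne : nbs G x (Y₀ \ U) ≠ ∅ := fun h => hxA (Finset.mem_filter.mpr ⟨hxa, h⟩)
      have hdeg : d * s ≤ ((nbs G x (Vs c)).card : ℝ) := by
        by_contra h
        push Not at h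
        exact hxB (Finset.mem_filter.mpr ⟨hxa, h⟩)
      obtain ⟨y, hy⟩ := Finset.nonempty_iff_ne_empty.mpr hne
      obtain ⟨hy1, hy2⟩ := Finset.mem_filter.mp hy
      obtain ⟨hyY, hyU⟩ := Finset.mem_sdiff.mp hy1
      refine ⟨[(x, a'), (y, c)], by simp, ?_, ?_, ?_, ⟨x, hx, by simp⟩, ⟨y, hyY, by simp⟩⟩
      · simp only [List.isChain_cons_cons, List.isChain_singleton, and_true]
        exact ⟨hy2, hdeg⟩
      · simp only [List.map_cons, List.map_nil, List.nodup_cons, List.mem_cons, List.not_mem_nil,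
          or_false, not_false_eq_true, List.nodup_nil, and_true]
        exact hy2.ne
      · intro q hq
        simp only [List.mem_cons, List.not_mem_nil, or_false] at hq
        rcases hq with rfl | rfl
        · exact ⟨hxa, hxU⟩
        · exact ⟨hY hyY, hyU⟩
    | c :: e :: w', ih, hch, _, hlast, hU =>
      have hadj : Γ.Adj a' c := (List.isChain_cons_cons.mp hch).1
      have hch' : (c :: e :: w').IsChain Γ.Adj := (List.isChain_cons_cons.mp hch).2
      have hlow := Emb_low hB hγ hγ1 hs hadj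
      obtain ⟨x, hx, hxU, hxA, -⟩ := Emb_pick (X := X₀) (U := U) hlow hlow (by
        have : (0 : ℝ) ≤ ((a' :: c :: e :: w').length : ℝ) := Nat.cast_nonneg _
        nlinarith)
      have hxa : x ∈ Vs a' := hX hx
      have hdeg : d * s ≤ ((nbs G x (Vs c)).card : ℝ) := by
        by_contra h
        push Not at h
        exact hxA (Finset.mem_filter.mpr ⟨hxa, h⟩)
      obtain ⟨z, hz1, hz2, hz3, hz4, ⟨x', hx', hx'2⟩, hz6⟩ := ih c (nbs G x (Vs c)) (insert x U)
        hch' (by simp) (by simp) (by simpa [List.getLast?_cons_cons] using hlast)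
        (Finset.filter_subset _ _) hdeg (by
          rw [Finset.card_insert_of_notMem hxU]
          simp only [List.length_cons] at hU ⊢
          push_cast at hU ⊢
          linarith)
      match z, hz1, hz2, hz3, hz4, hx'2, hz6 with
      | [], hz1, _, _, _, _, _ => simp at hz1
      | p :: z', hz1, hz2, hz3, hz4, hx'2, hz6 =>
        have hp2 : p.2 = c := by
          have := hz1
          simp only [List.map_cons, List.cons.injEq] at this
          exact this.1
        have hp1 : p.1 = x' := by simpa using hx'2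
        refine ⟨(x, a') :: p :: z', by rw [List.map_cons, hz1], ?_, ?_, ?_,
          ⟨x, hx, by simp⟩, ?_⟩
        · rw [List.isChain_cons_cons]
          refine ⟨⟨?_, ?_⟩, hz2⟩
          · show G.Adj x p.1
            rw [hp1]
            exact (Finset.mem_filter.mp hx').2
          · show d * s ≤ ((nbs G x (Vs p.2)).card : ℝ)
            rw [hp2]
            exact hdeg
        · rw [List.map_cons, List.nodup_cons]
          refine ⟨?_, hz3⟩
          intro hmem
          obtain ⟨q, hq, hq2⟩ := List.mem_map.mp hmem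
          exact (hz4 q hq).2 (by rw [hq2]; exact Finset.mem_insert_self _ _)
        · intro q hq
          rcases List.mem_cons.mp hq with rfl | hq
          · exact ⟨hxa, hxU⟩
          · exact ⟨(hz4 q hq).1, fun h => (hz4 q hq).2 (Finset.mem_insert_of_mem h)⟩
        · obtain ⟨y, hy, hy2⟩ := hz6
          refine ⟨y, hy, ?_⟩
          rw [List.map_cons, List.map_cons, List.getLast?_cons_cons]
          simpa using hy2

theorem thm_Emb : St_Emb := by
  intro V G t s Vs Γ d γ hB hγ h8 hd1 w a b X₀ Y₀ U hch hlen hhd hlast hX hY hXc hYc hU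
  have hs : (0 : ℝ) < s := by
    have h1 : (2 : ℝ) ≤ (w.length : ℝ) := by exact_mod_cast hlen
    have h2 : (0 : ℝ) ≤ (U.card : ℝ) := Nat.cast_nonneg _
    have h3 : 0 < d * s := by linarith
    have h4 : (0 : ℝ) ≤ s := Nat.cast_nonneg _
    rcases h4.lt_or_eq with h | h
    · exact h
    · rw [← h] at h3; simp at h3
  exact Emb_main hB hγ h8 hd1 hs b Y₀ hY hYc w a X₀ U hch hlen hhd hlast hX hXc hU

end Pool.CMK
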