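import Pool.Agent.CMK.Defs

/-!
# CMK: a small library on paths and cycles given as lists

All lemma names start with `lib_`.
-/

set_option autoImplicit false

namespace Pool.CMK

open Finset
open scoped Classical

variable {V : Type}

/-- cycles by places -/
theorem lib_cyc_iff (G : SimpleGraph V) (l : List V) :
    CycL G l ↔ 3 ≤ l.length ∧ l.Nodup ∧
      ∀ (i : ℕ) (hi : i < l.length),
        G.Adj l[i] (l[(i + 1) % l.length]'(Nat.mod_lt _ (by omega))) := by
  constructor
  · rintro ⟨h3, hn, hc, a, b, ha, hb, hab⟩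
    refine ⟨h3, hn, ?_⟩
    intro i hi
    rw [List.isChain_iff_getElem] at hc
    by_cases h : i + 1 < l.length
    · have := hc i h
      have e : (i + 1) % l.length = i + 1 := Nat.mod_eq_of_lt h
      simpa [e] using this
    · have hi' : i + 1 = l.length := by omega
      have e : (i + 1) % l.length = 0 := by rw [hi', Nat.mod_self]
      have h0 : 0 < l.length := by omega
      have ha' : l[0] = a := by
        rw [List.head?_eq_getElem?, List.getElem?_eq_getElem h0] at ha
        exact Option.some.inj ha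
      have hb' : l[i] = b := by
        rw [List.getLast?_eq_getElem?] at hb
        have : l.length - 1 = i := by omega
        rw [this, List.getElem?_eq_getElem hi] at hb
        exact Option.some.inj hb
      simp only [e]
      rw [ha', hb']
      exact hab
  · rintro ⟨h3, hn, hc⟩
    refine ⟨h3, hn, ?_, ?_⟩
    · rw [List.isChain_iff_getElem]
      intro i hi
      have := hc i (by omega)
      have e : (i + 1) % l.length = i + 1 := Nat.mod_eq_of_lt (by omega)
      simpa [e] using this
    · have h0 : 0 < l.length := by omega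
      refine ⟨l[0], l[l.length - 1], ?_, ?_, ?_⟩
      · rw [List.head?_eq_getElem?, List.getElem?_eq_getElem h0]
      · rw [List.getLast?_eq_getElem?, List.getElem?_eq_getElem (by omega)]
      · have := hc (l.length - 1) (by omega)
        have e : (l.length - 1 + 1) % l.length = 0 := by
          rw [Nat.sub_add_cancel (by omega), Nat.mod_self]
        simpa [e] using this

/-- rotating a cycle -/
theorem lib_cyc_rotate {G : SimpleGraph V} {l : List V} (h : CycL G l) (n : ℕ) :
    CycL G (l.rotate n) := by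
  rw [lib_cyc_iff] at h ⊢
  obtain ⟨h3, hn, hc⟩ := h
  refine ⟨by simpa using h3, List.nodup_rotate.2 hn, ?_⟩
  intro i hi
  have hi' : i < l.length := by simpa using hi
  rw [List.getElem_rotate, List.getElem_rotate]
  have := hc ((i + n) % l.length) (Nat.mod_lt _ (by omega))
  have e : ((i + 1) % (l.rotate n).length + n) % l.length = ((i + n) % l.length + 1) % l.length := by
    rw [List.length_rotate]
    simp only [Nat.mod_add_mod]
    congr 1
    omega
  simp only [e]
  exact this

/-- reversing a cycle -/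
theorem lib_cyc_reverse {G : SimpleGraph V} {l : List V} (h : CycL G l) : CycL G l.reverse := by
  obtain ⟨h3, hn, hc, a, b, ha, hb, hab⟩ := h
  refine ⟨by simpa using h3, List.nodup_reverse.2 hn, ?_, b, a, ?_, ?_, hab.symm⟩
  · rw [List.isChain_reverse]
    exact hc.imp (fun _ _ h => h.symm)
  · rw [List.head?_reverse]; exact hb
  · rw [List.getLast?_reverse]; exact ha

/-- a cycle can be rotated such that it starts with a given vertex -/
theorem lib_cyc_start {G : SimpleGraph V} {l : List V} (h : CycL G l) {z : V} (hz : z ∈ l) :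
    ∃ (n : ℕ) (l' : List V), l.rotate n = z :: l' ∧ CycL G (z :: l') ∧
      (∀ v, v ∈ z :: l' ↔ v ∈ l) ∧ (z :: l').length = l.length := by
  obtain ⟨l₁, l₂, rfl⟩ := List.append_of_mem hz
  refine ⟨l₁.length, l₂ ++ l₁, ?_, ?_, ?_, ?_⟩
  · rw [List.rotate_append_length_eq]; simp
  · have := lib_cyc_rotate h l₁.length
    rw [List.rotate_append_length_eq] at this
    simpa using this
  · intro v; simp; tauto
  · simp; omega

/-- a path reversed -/
theorem lib_path_reverse {G : SimpleGraph V} {l : List V} (h : PathL G l) : PathL G l.reverse := by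
  obtain ⟨h1, h2, h3⟩ := h
  refine ⟨by simpa using h1, List.nodup_reverse.2 h2, ?_⟩
  rw [List.isChain_reverse]
  exact h3.imp (fun _ _ h => h.symm)

theorem lib_pathFT_reverse {G : SimpleGraph V} {x y : V} {l : List V} (h : PathFT G x y l) :
    PathFT G y x l.reverse := by
  obtain ⟨h1, h2, h3⟩ := h
  exact ⟨lib_path_reverse h1, by rw [List.head?_reverse]; exact h3,
    by rw [List.getLast?_reverse]; exact h2⟩

/-- joining two disjoint paths -/
theorem lib_path_append {G : SimpleGraph V} {x y u v : V} {p q : List V} (hp : PathFT G x y p)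
    (hq : PathFT G u v q) (hd : ∀ w ∈ p, w ∉ q) (h : G.Adj y u) : PathFT G x v (p ++ q) := by
  obtain ⟨⟨p1, p2, p3⟩, p4, p5⟩ := hp
  obtain ⟨⟨q1, q2, q3⟩, q4, q5⟩ := hq
  refine ⟨⟨by simp [p1], ?_, ?_⟩, ?_, ?_⟩
  · rw [List.nodup_append]
    exact ⟨p2, q2, fun a ha b hb hab => hd a ha (hab ▸ hb)⟩
  · rw [List.isChain_append]
    refine ⟨p3, q3, ?_⟩
    intro a ha b hb
    rw [p5] at ha
    rw [q4] at hb
    cases ha
    cases hb
    exact h
  · rw [List.head?_append, p4]; rfl
  · rw [List.getLast?_append, q5]; rfl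

/-- two disjoint paths, joined to a cycle -/
theorem lib_cyc_of_paths {G : SimpleGraph V} {x y u v : V} {p q : List V} (hp : PathFT G x y p)
    (hq : PathFT G u v q) (hd : ∀ w ∈ p, w ∉ q) (h : G.Adj y u) (h' : G.Adj v x)
    (h3 : 3 ≤ p.length + q.length) : CycL G (p ++ q) := by
  obtain ⟨⟨a1, a2, a3⟩, a4, a5⟩ := lib_path_append hp hq hd h
  exact ⟨by simpa using h3, a2, a3, x, v, a4, a5, h'⟩

/-- a path with adjacent ends is a cycle -/
theorem lib_cyc_of_path {G : SimpleGraph V} {x y : V} {p : List V} (hp : PathFT G x y p)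
    (h : G.Adj y x) (h3 : 3 ≤ p.length) : CycL G p :=
  ⟨h3, hp.1.2.1, hp.1.2.2, x, y, hp.2.1, hp.2.2, h⟩

/-- the path on a cycle `z :: l'` from `z` to its end -/
theorem lib_path_of_cyc {G : SimpleGraph V} {l : List V} (h : CycL G l) : PathL G l := by
  obtain ⟨h3, hn, hc, -⟩ := h
  exact ⟨by rintro rfl; simp at h3, hn, hc⟩

/-- an infix of a path is a path -/
theorem lib_path_infix {G : SimpleGraph V} {l₁ l l₂ : List V} (h : PathL G (l₁ ++ l ++ l₂))
    (hl : l ≠ []) : PathL G l := by
  obtain ⟨-, h2, h3⟩ := h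
  refine ⟨hl, ?_, ?_⟩
  · exact ((List.nodup_append.1 (List.nodup_append.1 h2).1).2.1)
  · exact ((List.isChain_append.1 (List.isChain_append.1 h3).1).2.1)

/-- inserting a path between two consecutive vertices of a cycle -/
theorem lib_cyc_insert {G : SimpleGraph V} {l₁ l₂ q : List V} {x y a b : V}
    (h : CycL G (l₁ ++ [x, y] ++ l₂)) (hq : PathFT G a b q) (hxa : G.Adj x a) (hby : G.Adj b y)
    (hd : ∀ w ∈ q, w ∉ l₁ ++ [x, y] ++ l₂) : CycL G (l₁ ++ [x] ++ q ++ [y] ++ l₂) := by
  obtain ⟨h3, hn, hc, c, d, hc1, hd1, hcd⟩ := h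
  have hp1 : PathL G (l₁ ++ [x]) := by
    refine ⟨by simp, ?_, ?_⟩
    · have : l₁ ++ [x, y] ++ l₂ = (l₁ ++ [x]) ++ ([y] ++ l₂) := by simp
      rw [this] at hn
      exact (List.nodup_append.1 hn).1
    · have : l₁ ++ [x, y] ++ l₂ = (l₁ ++ [x]) ++ ([y] ++ l₂) := by simp
      rw [this] at hc
      exact (List.isChain_append.1 hc).1
  have hp2 : PathL G ([y] ++ l₂) := by
    refine ⟨by simp, ?_, ?_⟩
    · have : l₁ ++ [x, y] ++ l₂ = (l₁ ++ [x]) ++ ([y] ++ l₂) := by simp
      rw [this] at hn
      exact (List.nodup_append.1 hn).2.1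
    · have : l₁ ++ [x, y] ++ l₂ = (l₁ ++ [x]) ++ ([y] ++ l₂) := by simp
      rw [this] at hc
      exact (List.isChain_append.1 hc).2.1
  have e1 : (l₁ ++ [x]).head? = some c := by
    rw [← hc1]
    cases l₁ <;> simp
  have e2 : ([y] ++ l₂).getLast? = some d := by
    have : l₁ ++ [x, y] ++ l₂ = (l₁ ++ [x]) ++ ([y] ++ l₂) := by simp
    rw [this, List.getLast?_append] at hd1
    cases hh : ([y] ++ l₂).getLast? with
    | none => simp at hh
    | some v => rw [hh] at hd1; simpa using hd1
  have f1 : PathFT G c x (l₁ ++ [x]) := ⟨hp1, e1, by simp⟩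
  have f2 : PathFT G y d ([y] ++ l₂) := ⟨hp2, by simp, e2⟩
  have hdis : ∀ w ∈ l₁ ++ [x], w ∉ [y] ++ l₂ := by
    have : l₁ ++ [x, y] ++ l₂ = (l₁ ++ [x]) ++ ([y] ++ l₂) := by simp
    rw [this] at hn
    intro w hw hw'
    exact (List.nodup_append.1 hn).2.2 w hw w hw' rfl
  have g1 : PathFT G c b (l₁ ++ [x] ++ q) := by
    refine lib_path_append f1 hq ?_ hxa
    intro w hw hw'
    apply hd w hw'
    simp only [List.mem_append, List.mem_cons, List.not_mem_nil, or_false] at hw ⊢
    tauto
  have g2 : CycL G ((l₁ ++ [x] ++ q) ++ ([y] ++ l₂)) := by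
    refine lib_cyc_of_paths g1 f2 ?_ hby hcd ?_
    · intro w hw hw'
      rw [List.mem_append] at hw
      rcases hw with hw | hw
      · exact hdis w hw hw'
      · apply hd w hw
        simp only [List.mem_append, List.mem_cons, List.not_mem_nil, or_false] at hw' ⊢
        tauto
    · simp only [List.length_append, List.length_cons, List.length_nil] at h3 ⊢
      omega
  simpa using g2

/-- degrees and `ad` -/
theorem lib_ad_eq_sum (G : SimpleGraph V) (X Y : Finset V) :
    ad G X Y = ∑ x ∈ X, (nbs G x Y).card := by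
  unfold ad nbs
  rw [Finset.card_filter, Finset.sum_product]
  refine Finset.sum_congr rfl (fun x _ => ?_)
  rw [Finset.card_filter]

theorem lib_ad_comm (G : SimpleGraph V) (X Y : Finset V) : ad G X Y = ad G Y X := by
  unfold ad
  refine Finset.card_bij' (fun p _ => (p.2, p.1)) (fun p _ => (p.2, p.1)) ?_ ?_ ?_ ?_
  · intro p hp
    simp only [Finset.mem_filter, Finset.mem_product] at hp ⊢
    exact ⟨⟨hp.1.2, hp.1.1⟩, hp.2.symm⟩
  · intro p hp
    simp only [Finset.mem_filter, Finset.mem_product] at hp ⊢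
    exact ⟨⟨hp.1.2, hp.1.1⟩, hp.2.symm⟩
  · intro p _; rfl
  · intro p _; rfl

theorem lib_ad_mono (G : SimpleGraph V) {X X' Y Y' : Finset V} (h : X ⊆ X') (h' : Y ⊆ Y') :
    ad G X Y ≤ ad G X' Y' := by
  unfold ad
  exact Finset.card_le_card (Finset.filter_subset_filter _ (Finset.product_subset_product h h'))

theorem lib_ad_le (G : SimpleGraph V) (X Y : Finset V) : ad G X Y ≤ X.card * Y.card := by
  unfold ad
  rw [← Finset.card_product]
  exact Finset.card_filter_le _ _

theorem lib_ad_union_left (G : SimpleGraph V) {X X' Y : Finset V} (h : Disjoint X X') :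
    ad G (X ∪ X') Y = ad G X Y + ad G X' Y := by
  rw [lib_ad_eq_sum, lib_ad_eq_sum, lib_ad_eq_sum, Finset.sum_union h]

theorem lib_ad_union_right (G : SimpleGraph V) {X Y Y' : Finset V} (h : Disjoint Y Y') :
    ad G X (Y ∪ Y') = ad G X Y + ad G X Y' := by
  rw [lib_ad_comm, lib_ad_union_left G h, lib_ad_comm G Y, lib_ad_comm G Y']

theorem lib_nbs_mono (G : SimpleGraph V) (v : V) {X Y : Finset V} (h : X ⊆ Y) :
    nbs G v X ⊆ nbs G v Y := Finset.filter_subset_filter _ h

theorem lib_mem_nbs {G : SimpleGraph V} {v w : V} {X : Finset V} :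
    w ∈ nbs G v X ↔ w ∈ X ∧ G.Adj v w := Finset.mem_filter

end Pool.CMK
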