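import Pool.Agent.CMK.St4
import Pool.Agent.CMK.Lib

/-!
# CMK: expanding edges of a cycle (`St_Exp`)
-/

set_option autoImplicit false

namespace Pool.CMK

open Finset
open scoped Classical

/-- two consecutive entries `a, b` of `P ++ Q` with `a` not the last entry of `P` -/
private theorem Exp_split {V : Type} {s t P Q : List V} {a b x : V} (hP : P.getLast? = some x)
    (hax : a ≠ x) (h : s ++ [a, b] ++ t = P ++ Q) :
    (∃ s' t', P = s' ++ [a, b] ++ t') ∨ (∃ s' t', Q = s' ++ [a, b] ++ t') := by
  rw [List.append_assoc] at h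
  rcases List.append_eq_append_iff.1 h with ⟨c, hc1, hc2⟩ | ⟨c, hc1, hc2⟩
  · match c, hc1, hc2 with
    | [], hc1, hc2 =>
      right
      exact ⟨[], t, by simpa using hc2.symm⟩
    | [d], hc1, hc2 =>
      exfalso
      simp only [List.cons_append, List.nil_append, List.cons.injEq] at hc2
      rw [hc1, List.getLast?_append] at hP
      simp only [List.getLast?_singleton, Option.some_or, Option.some.injEq] at hP
      exact hax (hc2.1.trans hP)
    | d :: e :: c', hc1, hc2 =>
      left
      simp only [List.cons_append, List.nil_append, List.cons.injEq] at hc2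
      refine ⟨s, c', ?_⟩
      rw [hc1, hc2.1, hc2.2.1]
      simp
  · right
    exact ⟨c, t, by rw [hc2]; simp⟩

/-- EXP -/
theorem thm_Exp (hPP : St_PP) : St_Exp := by
  intro V _ G C r m g u x y A B L hC hg hall hdis hL
  have claim : ∀ J : Finset (Fin r), ∃ C' : List V, CycL G C' ∧
      C'.length = C.length + ∑ j ∈ J, L j ∧
      (∀ j, j ∉ J → ∃ l₁ l₂ : List V, C' = l₁ ++ [x j, y j] ++ l₂) ∧
      (∀ j, j ∉ J → ∀ v ∈ A j ∪ B j, (v ∈ C' ↔ v ∈ C)) := by
    intro J
    induction J using Finset.induction_on with
    | empty =>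
      refine ⟨C, hC, by simp, ?_, ?_⟩
      · intro j _
        exact (hall j).2.2.2.2.2.2.1
      · intro j _ v _
        exact Iff.rfl
    | insert i J hi ih =>
      obtain ⟨CJ, hCJ, hlen, hcon, hmem⟩ := ih
      obtain ⟨l₁, l₂, hl⟩ := hcon i hi
      obtain ⟨hAB, hAm, hBm, hP1, hxA, hyB, -, hnx, hny, hu⟩ := hall i
      obtain ⟨hLe, hL4, hLm⟩ := hL i
      have hxy : x i ≠ y i := by
        intro h
        exact (Finset.disjoint_left.1 hAB) hxA (h ▸ hyB)
      have hU : (CJ.toFinset ∩ (A i ∪ B i)).card ≤ u := by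
        refine le_trans (Finset.card_le_card ?_) hu
        intro v hv
        rw [Finset.mem_inter, List.mem_toFinset] at hv
        rw [Finset.mem_filter]
        exact ⟨hv.2, (hmem i hi v hv.2).1 hv.1⟩
      obtain ⟨q, hq1, hq2, hq3, hq4, ⟨a, ha1, ha2⟩, ⟨b, hb1, hb2⟩⟩ :=
        hPP V G (A i) (B i) m g u CJ.toFinset (x i) (y i) false true (L i) hAB hAm hBm hg hP1 hU
          hxy (by simpa using hnx) (by simpa using hny) (by omega) (by simpa using hLe) hLm
      have hqne : q ≠ [] := by
        intro h
        rw [h] at hq1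
        simp at hq1
        omega
      have hqp : PathFT G a b q := ⟨⟨hqne, hq2, hq3⟩, ha1, hb1⟩
      have hqd : ∀ w ∈ q, w ∉ l₁ ++ [x i, y i] ++ l₂ := by
        intro w hw hw'
        rw [← hl] at hw'
        exact (hq4 w hw).2.1 (List.mem_toFinset.2 hw')
      have hcyc : CycL G (l₁ ++ [x i] ++ q ++ [y i] ++ l₂) := by
        refine lib_cyc_insert ?_ hqp ha2 hb2 hqd
        rw [← hl]
        exact hCJ
      refine ⟨l₁ ++ [x i] ++ q ++ [y i] ++ l₂, hcyc, ?_, ?_, ?_⟩
      · rw [Finset.sum_insert hi, ← hq1]
        have h1 : CJ.length = l₁.length + 2 + l₂.length := by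
          rw [hl]
          simp only [List.length_append, List.length_cons, List.length_nil]
        simp only [List.length_append, List.length_cons, List.length_nil]
        omega
      · intro j hj
        rw [Finset.mem_insert, not_or] at hj
        obtain ⟨s, t, hst⟩ := hcon j hj.2
        have hxj : x j ≠ x i := by
          intro h
          have h1 := (hall j).2.2.2.2.1
          rw [h] at h1
          exact (Finset.disjoint_left.1 (hdis j i hj.1)) (Finset.mem_union_left _ h1)
            (Finset.mem_union_left _ hxA)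
        have heq : s ++ [x j, y j] ++ t = (l₁ ++ [x i]) ++ ([y i] ++ l₂) := by
          rw [← hst, hl]
          simp
        rcases Exp_split (by simp) hxj heq with ⟨s', t', h⟩ | ⟨s', t', h⟩
        · refine ⟨s', t' ++ q ++ [y i] ++ l₂, ?_⟩
          rw [h]
          simp
        · refine ⟨l₁ ++ [x i] ++ q ++ s', t', ?_⟩
          have h2 : l₁ ++ [x i] ++ q ++ [y i] ++ l₂ = l₁ ++ [x i] ++ q ++ ([y i] ++ l₂) := by simp
          rw [h2, h]
          simp
      · intro j hj v hv
        rw [Finset.mem_insert, not_or] at hj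
        rw [← hmem j hj.2 v hv, hl]
        have hvq : v ∉ q := by
          intro h
          exact (Finset.disjoint_left.1 (hdis j i hj.1)) hv (hq4 v h).1
        simp only [List.mem_append, List.mem_cons, List.not_mem_nil, or_false]
        tauto
  obtain ⟨C', h1, h2, -, -⟩ := claim Finset.univ
  exact ⟨C', h1, h2⟩

end Pool.CMK
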