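import Pool.Agent.CMK.St4

/-!
# CMK: expanding the edges of a matching, with prescribed total length
-/

set_option autoImplicit false

namespace Pool.CMK

open Finset
open scoped Classical

private theorem ExpM_split (T : ℕ) (hT : Even T) : ∀ (r E : ℕ), Even E → 4 * r ≤ E → E ≤ r * T →
    ∃ L : Fin r → ℕ, (∀ j, Even (L j) ∧ 4 ≤ L j ∧ L j ≤ T) ∧ ∑ j, L j = E := by
  intro r
  induction r with
  | zero =>
    intro E _ _ h2
    refine ⟨fun _ => 0, fun j => j.elim0, ?_⟩
    rw [zero_mul] at h2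
    simp
    omega
  | succ r ih =>
    intro E hE h1 h2
    have hT4 : 4 ≤ T := by
      have h3 : 4 * (r + 1) ≤ (r + 1) * T := le_trans h1 h2
      rw [mul_comm 4] at h3
      exact Nat.le_of_mul_le_mul_left h3 (Nat.succ_pos r)
    have h4 : (r + 1) * T = r * T + T := by ring
    have h5 : 4 * r ≤ r * T := by
      rw [mul_comm 4]
      exact Nat.mul_le_mul_left r hT4
    obtain ⟨E', hE', hle, hle2, hev, h6⟩ : ∃ E', E' ≤ E ∧ 4 * r ≤ E' ∧ E' ≤ r * T ∧ Even E' ∧
        (4 ≤ E - E' ∧ E - E' ≤ T ∧ Even (E - E')) := by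
      by_cases hc : T ≤ E - 4 * r
      · refine ⟨E - T, by omega, by omega, by omega, ?_, ?_, ?_, ?_⟩
        · exact (Nat.even_sub (by omega)).2 (by simp [hE, hT])
        · omega
        · omega
        · have : E - (E - T) = T := by omega
          rw [this]; exact hT
      · refine ⟨4 * r, by omega, le_refl _, h5, ?_, ?_, ?_, ?_⟩
        · exact ⟨2 * r, by ring⟩
        · omega
        · omega
        · have h7 : Even (4 * r) := ⟨2 * r, by ring⟩
          exact (Nat.even_sub (by omega)).2 (by simp [hE, h7])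
    obtain ⟨L, hL1, hL2⟩ := ih E' hev hle hle2
    refine ⟨Fin.cons (E - E') L, ?_, ?_⟩
    · intro j
      refine Fin.cases ?_ ?_ j
      · exact ⟨h6.2.2, h6.1, h6.2.1⟩
      · intro i
        simpa using hL1 i
    · rw [Fin.sum_univ_succ]
      simp only [Fin.cons_zero, Fin.cons_succ]
      rw [hL2]
      omega

private theorem ExpM_P1 {V : Type} [Fintype V] {G : SimpleGraph V} {t s : ℕ}
    {Vs : Fin t → Finset V} {Γ : SimpleGraph (Fin t)} {d γ : ℝ} (hB : Bl G s Vs Γ d γ)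
    (hd : 0 < d) {g : ℕ} (hg : 1 ≤ g) (hg2 : γ * s ≤ (g : ℝ)) {i j : Fin t} (h : Γ.Adj i j) :
    P1 G (Vs i) (Vs j) g := by
  intro X Y hX hY h1 h2
  have h1' : (g : ℝ) ≤ X.card := by exact_mod_cast h1
  have h2' : (g : ℝ) ≤ Y.card := by exact_mod_cast h2
  have h3 := hB.low i j h X Y hX hY (le_trans hg2 h1') (le_trans hg2 h2')
  have hg' : (1 : ℝ) ≤ g := by exact_mod_cast hg
  have h4 : 0 < d * X.card * Y.card := by
    have e1 : (0 : ℝ) < X.card := by linarith
    have e2 : (0 : ℝ) < Y.card := by linarith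
    positivity
  have h5 : (0 : ℝ) < (ad G X Y : ℝ) := lt_of_lt_of_le h4 h3
  have h6 : 0 < ad G X Y := by exact_mod_cast h5
  unfold ad at h6
  rw [card_pos] at h6
  obtain ⟨p, hp⟩ := h6
  rw [mem_filter, mem_product] at hp
  exact ⟨p.1, hp.1.1, p.2, hp.1.2, hp.2⟩

theorem thm_ExpM (hExp : St_Exp) : St_ExpM := by
  intro V _ G t s Vs Γ d γ K M C u g E hB hγ hd hs hM hC hg hug hK hMC hE h4 hEs
  have hs' : (0 : ℝ) < s := by exact_mod_cast hs
  have hg1 : 1 ≤ g := by
    rw [hg]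
    exact Nat.ceil_pos.2 (mul_pos hγ hs')
  have hg2 : γ * s ≤ (g : ℝ) := by
    rw [hg]
    exact Nat.le_ceil _
  -- the lengths
  obtain ⟨L, hL1, hL2⟩ := ExpM_split (2 * s - (2 * u + 12 * g)) (by
      refine ⟨s - (u + 6 * g), ?_⟩
      omega) M.length E hE h4 (by
      rw [Nat.mul_sub]
      omega)
  have hL3 : ∀ j, L j + 2 * u + 12 * g ≤ 2 * s := by
    intro j
    have h5 := hL1 j
    omega
  -- the sets
  have hch : ∀ j : Fin M.length, ∃ (x y : V) (A B : Finset V),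
      ((A = Vs (M.get j).1 ∧ B = Vs (M.get j).2) ∨ (A = Vs (M.get j).2 ∧ B = Vs (M.get j).1)) ∧
      x ∈ A ∧ y ∈ B ∧ (∃ l₁ l₂ : List V, C = l₁ ++ [x, y] ++ l₂) ∧
      d * s ≤ ((nbs G x B).card : ℝ) ∧ d * s ≤ ((nbs G y A).card : ℝ) := by
    intro j
    obtain ⟨x, y, h5, h6 | h6⟩ := hMC (M.get j) (List.get_mem M j)
    · exact ⟨x, y, _, _, Or.inl ⟨rfl, rfl⟩, h6.1, h6.2.1, h5, h6.2.2.1, h6.2.2.2⟩
    · exact ⟨x, y, _, _, Or.inr ⟨rfl, rfl⟩, h6.1, h6.2.1, h5, h6.2.2.1, h6.2.2.2⟩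
  choose x y A B hAB hx hy hl hxB hyA using hch
  have hU : ∀ j, A j ∪ B j = Vs (M.get j).1 ∪ Vs (M.get j).2 := by
    intro j
    rcases hAB j with h5 | h5
    · rw [h5.1, h5.2]
    · rw [h5.1, h5.2, union_comm]
  have key : ∀ z : V, ∀ S : Finset V, d * s ≤ ((nbs G z S).card : ℝ) →
      u + 2 * g + 2 ≤ (nbs G z S).card := by
    intro z S hz
    have h5 : ((u + 2 * g + 2 : ℕ) : ℝ) ≤ ((nbs G z S).card : ℝ) := by
      push_cast
      exact le_trans hug hz
    exact_mod_cast h5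
  obtain ⟨C', hC1, hC2⟩ := hExp V G C M.length s g u x y A B L hC hg1 (by
    intro j
    obtain ⟨ha, hk1, hk2⟩ := hM.adj (M.get j) (List.get_mem M j)
    have hdj := hB.disj _ _ ha.ne
    refine ⟨?_, ?_, ?_, ?_, hx j, hy j, hl j, key _ _ (hxB j), key _ _ (hyA j), ?_⟩
    · rcases hAB j with h5 | h5
      · rw [h5.1, h5.2]; exact hdj
      · rw [h5.1, h5.2]; exact hdj.symm
    · rcases hAB j with h5 | h5
      · rw [h5.1]; exact hB.card _
      · rw [h5.1]; exact hB.card _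
    · rcases hAB j with h5 | h5
      · rw [h5.2]; exact hB.card _
      · rw [h5.2]; exact hB.card _
    · rcases hAB j with h5 | h5
      · rw [h5.1, h5.2]; exact ExpM_P1 hB hd hg1 hg2 ha
      · rw [h5.1, h5.2]; exact ExpM_P1 hB hd hg1 hg2 ha.symm
    · rw [hU j, filter_union]
      refine le_trans (card_union_le _ _) ?_
      have e1 := hK _ hk1
      have e2 := hK _ hk2
      omega) (by
    intro i j hij
    rw [hU i, hU j]
    have h5 := (List.nodup_flatMap.1 hM.nod).2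
    have h6 : ∀ a b : Fin M.length, a ≠ b →
        List.Disjoint [(M.get a).1, (M.get a).2] [(M.get b).1, (M.get b).2] := by
      intro a b hab
      rw [List.pairwise_iff_get] at h5
      rcases lt_or_gt_of_ne hab with h7 | h7
      · exact h5 a b h7
      · exact (h5 b a h7).symm
    have h7 := h6 i j hij
    have h8 : ∀ p ∈ [(M.get i).1, (M.get i).2], ∀ q ∈ [(M.get j).1, (M.get j).2],
        Disjoint (Vs p) (Vs q) := by
      intro p hp q hq
      apply hB.disj
      rintro rfl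
      exact h7 hp hq
    rw [disjoint_union_left, disjoint_union_right, disjoint_union_right]
    exact ⟨⟨h8 _ (by simp) _ (by simp), h8 _ (by simp) _ (by simp)⟩,
      ⟨h8 _ (by simp) _ (by simp), h8 _ (by simp) _ (by simp)⟩⟩)
    (fun j => ⟨(hL1 j).1, (hL1 j).2.1, hL3 j⟩)
  exact ⟨C', hC1, by rw [hC2, hL2]⟩

end Pool.CMK
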