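import Pool.Agent.CMK.St1
import Pool.Agent.Helper37.Mader.Menger

/-!
# CMK: the fan lemma (`St_Fan`)
-/

set_option autoImplicit false

namespace Pool.CMK

open Finset
open scoped Classical

variable {V : Type}

/-- A path which ends in `Z`, cut at its first vertex in `Z`. -/
private theorem Fan_cut (G : SimpleGraph V) (Z : Finset V) (z : V) : ∀ (n : ℕ) (L : List V),
    L.length ≤ n → L.Nodup → L.IsChain G.Adj → L.head? = some z →
    (∃ y ∈ Z, L.getLast? = some y) →
    ∃ M : List V, (∀ v ∈ M, v ∈ L) ∧
      ∃ e ∈ Z, PathFT G z e M ∧ ∀ w ∈ M, w ∈ Z → w = e := by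
  intro n
  induction n with
  | zero =>
    intro L hL _ _ hx _
    rw [List.length_eq_zero_iff.mp (Nat.le_zero.mp hL)] at hx
    exact absurd hx (by simp)
  | succ n ih =>
    intro L hL hnd hch hx hy
    obtain ⟨y, hyZ, hy⟩ := hy
    by_cases h2 : ∀ w ∈ L, w ∈ Z → w = y
    · refine ⟨L, fun v hv => hv, y, hyZ, ⟨⟨?_, hnd, hch⟩, hx, hy⟩, h2⟩
      rintro rfl
      exact absurd hx (by simp)
    · push Not at h2
      obtain ⟨w, hw, hwZ, hwy⟩ := h2
      obtain ⟨s, t, hst⟩ := List.append_of_mem hw
      have ht : t ≠ [] := by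
        rintro rfl
        rw [hst] at hy
        simp at hy
        exact hwy hy
      have hlen : (s ++ [w]).length ≤ n := by
        have h3 : 0 < t.length := List.length_pos_of_ne_nil ht
        rw [hst] at hL
        simp only [List.length_append, List.length_cons, List.length_nil] at hL ⊢
        omega
      have e : L = (s ++ [w]) ++ t := by rw [hst]; simp
      obtain ⟨M, hM1, hM2⟩ := ih (s ++ [w]) hlen
        (by rw [e] at hnd; exact (List.nodup_append.mp hnd).1)
        (by rw [e] at hch; exact (List.isChain_append.mp hch).1)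
        (by
          rw [hst] at hx
          rcases s with _ | ⟨a, s⟩
          · simpa using hx
          · simpa using hx)
        ⟨w, hwZ, by simp⟩
      exact ⟨M, fun v hv => by rw [e]; exact List.mem_append_left _ (hM1 v hv), hM2⟩

/-- The relation on `Option V`. -/
private def Fan_r (G : SimpleGraph V) (Z : Finset V) : Option V → Option V → Prop
  | some a, some b => G.Adj a b
  | some a, none => a ∈ Z
  | none, some a => a ∈ Z
  | none, none => False

private theorem Fan_lift : ∀ (Q : List (Option V)), (∀ q ∈ Q, ∃ v, q = some v) →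
    ∃ L : List V, Q = L.map some := by
  intro Q
  induction Q with
  | nil => intro _; exact ⟨[], rfl⟩
  | cons q Q ih =>
    intro h
    obtain ⟨v, hv⟩ := h q (by simp)
    obtain ⟨L, hL⟩ := ih (fun q' hq' => h q' (List.mem_cons_of_mem _ hq'))
    exact ⟨v :: L, by rw [hv, hL]; rfl⟩

private theorem Fan_inner (G : SimpleGraph V) (Z : Finset V) (z : V) (P : List (Option V))
    (h1 : P.head? = some (some z)) (h2 : P.getLast? = some none) (h3 : P.Nodup)
    (h4 : ∀ (j : ℕ) (u w : Option V), P[j]? = some u → P[j+1]? = some w → Fan_r G Z u w) :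
    ∃ M : List V, (∀ v ∈ M, some v ∈ P) ∧
      ∃ e ∈ Z, PathFT G z e M ∧ ∀ w ∈ M, w ∈ Z → w = e := by
  have hch : P.IsChain (Fan_r G Z) := by
    rw [List.isChain_iff_getElem]
    intro i hi
    exact h4 i _ _ (List.getElem?_eq_getElem (by omega)) (List.getElem?_eq_getElem hi)
  have hP : P ≠ [] := by
    rintro rfl
    simp at h1
  obtain ⟨Q, hQ⟩ : ∃ Q, P = Q ++ [none] := by
    refine ⟨P.dropLast, ?_⟩
    have h5 := List.dropLast_append_getLast hP
    have h6 : P.getLast hP = none := by
      rw [List.getLast?_eq_some_getLast hP] at h2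
      exact Option.some.inj h2
    rw [h6] at h5
    exact h5.symm
  subst hQ
  have hQ1 : ∀ q ∈ Q, ∃ v, q = some v := by
    intro q hq
    rcases q with _ | v
    · exfalso
      have h5 := (List.nodup_append.mp h3).2.2
      exact h5 _ hq _ (by simp) rfl
    · exact ⟨v, rfl⟩
  obtain ⟨L, rfl⟩ := Fan_lift Q hQ1
  have hL : L ≠ [] := by
    rintro rfl
    simp at h1
  have hLn : L.Nodup := by
    have h5 := (List.nodup_append.mp h3).1
    exact List.Nodup.of_map _ h5
  have hLc : L.IsChain G.Adj := by
    have h5 := (List.isChain_append.mp hch).1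
    rw [List.isChain_map] at h5
    exact h5
  have hhd : L.head? = some z := by
    rcases L with _ | ⟨x, L⟩
    · exact absurd rfl hL
    · simp at h1
      rw [h1]
      rfl
  have hls : ∃ y ∈ Z, L.getLast? = some y := by
    refine ⟨L.getLast hL, ?_, List.getLast?_eq_some_getLast hL⟩
    have h5 := (List.isChain_append.mp hch).2.2
    have h6 := h5 (some (L.getLast hL)) (by
      rw [List.getLast?_map, List.getLast?_eq_some_getLast hL]
      simp) none (by simp)
    exact h6
  obtain ⟨M, hM1, hM2⟩ := Fan_cut G Z z L.length L le_rfl hLn hLc hhd hls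
  refine ⟨M, fun v hv => ?_, hM2⟩
  exact List.mem_append_left _ (List.mem_map_of_mem (hM1 v hv))

theorem thm_Fan : St_Fan := by
  intro V _ G c z Z hSC hzZ hZ
  obtain ⟨hcard, hsep⟩ := hSC
  have hpaths := Pool.Agent.Helper37.Mader.paths_of_lb (r := Fan_r G Z)
    (W := (Finset.univ : Finset (Option V))) (k := c) (a := some z) (b := none)
    (by simp) (Finset.mem_univ _) (Finset.mem_univ _)
    (by
      rw [Finset.card_univ, Fintype.card_option]
      omega)
    (by
      intro A B _ _ hAB hA hB
      have hlow : ∀ S : Finset V, c ≤ S.card → (∀ v ∈ S, some v ∉ A ∧ some v ∉ B) →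
          c ≤ (Finset.univ \ (A ∪ B)).card := by
        intro S hS hSAB
        have h1 : S.map ⟨some, Option.some_injective V⟩ ⊆ Finset.univ \ (A ∪ B) := by
          intro y hy
          obtain ⟨v, hv, rfl⟩ := Finset.mem_map.mp hy
          rw [Finset.mem_sdiff, Finset.mem_union, not_or]
          exact ⟨Finset.mem_univ _, hSAB v hv⟩
        have h2 := Finset.card_le_card h1
        rw [Finset.card_map] at h2
        exact hS.trans h2
      by_cases hA0 : ∃ v : V, some v ∈ A
      · by_cases hB0 : ∃ v : V, some v ∈ B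
        · have h1 := hsep (Finset.univ.filter (fun v : V => some v ∈ A))
            (Finset.univ.filter (fun v : V => some v ∈ B))
            (by
              obtain ⟨v, hv⟩ := hA0
              exact ⟨v, Finset.mem_filter.mpr ⟨Finset.mem_univ _, hv⟩⟩)
            (by
              obtain ⟨v, hv⟩ := hB0
              exact ⟨v, Finset.mem_filter.mpr ⟨Finset.mem_univ _, hv⟩⟩)
            (by
              rw [Finset.disjoint_left]
              intro v hv hv'
              exact (hAB _ (Finset.mem_filter.mp hv).2 _ (Finset.mem_filter.mp hv').2).1 rfl)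
            (by
              intro a ha b hb hab
              exact (hAB _ (Finset.mem_filter.mp ha).2 _ (Finset.mem_filter.mp hb).2).2 hab)
          refine hlow _ h1 ?_
          intro v hv
          rw [Finset.mem_compl, Finset.mem_union, not_or] at hv
          exact ⟨fun h => hv.1 (Finset.mem_filter.mpr ⟨Finset.mem_univ _, h⟩),
            fun h => hv.2 (Finset.mem_filter.mpr ⟨Finset.mem_univ _, h⟩)⟩
        · push Not at hB0
          obtain ⟨y, hy⟩ := hB
          rcases y with _ | v
          · refine hlow Z hZ fun v hv => ⟨fun h => ?_, hB0 v⟩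
            exact (hAB _ h _ hy).2 hv
          · exact absurd hy (hB0 v)
      · push Not at hA0
        obtain ⟨y, hy⟩ := hA
        rcases y with _ | v
        · refine hlow Z hZ fun v hv => ⟨hA0 v, fun h => ?_⟩
          exact (hAB _ hy _ h).2 hv
        · exact absurd hy (hA0 v))
  obtain ⟨p, -, hp1, hp2⟩ := hpaths
  have hM : ∀ i, ∃ M : List V, (∀ v ∈ M, some v ∈ p i) ∧
      ∃ e ∈ Z, PathFT G z e M ∧ ∀ w ∈ M, w ∈ Z → w = e := by
    intro i
    obtain ⟨a1, a2, a3, -, a5⟩ := hp1 i
    exact Fan_inner G Z z (p i) a1 a2 a3 a5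
  choose M hM1 hM2 using hM
  refine ⟨M, hM2, ?_⟩
  intro i j hij w hw hw'
  rcases hp2 i j hij (some w) (hM1 i w hw) (hM1 j w hw') with h | h
  · exact Option.some.inj h
  · exact absurd h (by simp)

end Pool.CMK
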