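import Pool.Agent.CMK.St4

/-!
# CMK, module FINC: the theorem in the terms of Mathlib
-/

set_option autoImplicit false

namespace Pool.CMK

open Finset
open scoped Classical

/-- a cycle given by a list is a closed walk which is a cycle -/
private lemma FinC_walk {V : Type} (G : SimpleGraph V) (l : List V) (h : CycL G l) :
    ∃ (v : V) (c : G.Walk v v), c.IsCycle ∧ c.length = l.length := by
  obtain ⟨h3, hn, hc, a, b, ha, hb, hab⟩ := h
  have hne : l ≠ [] := by
    intro h0
    rw [h0] at h3
    simp at h3
  have ha' : l.head hne = a := by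
    have := List.head?_eq_some_head hne
    rw [this] at ha
    exact Option.some.inj ha
  have hb' : l.getLast hne = b := by
    have := List.getLast?_eq_some_getLast hne
    rw [this] at hb
    exact Option.some.inj hb
  have hadj : G.Adj (l.getLast hne) (l.head hne) := by rw [ha', hb']; exact hab
  refine ⟨l.getLast hne, SimpleGraph.Walk.cons hadj (SimpleGraph.Walk.ofSupport l hne hc), ?_, ?_⟩
  · rw [SimpleGraph.Walk.cons_isCycle_iff]
    have hp : (SimpleGraph.Walk.ofSupport l hne hc).IsPath := by
      apply SimpleGraph.Walk.IsPath.mk'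
      rw [SimpleGraph.Walk.support_ofSupport]
      exact hn
    refine ⟨hp, fun hm => ?_⟩
    rw [Sym2.eq_swap] at hm
    have h1 := hp.length_eq_one_of_mem_edges hm
    rw [SimpleGraph.Walk.length_ofSupport] at h1
    omega
  · rw [SimpleGraph.Walk.length_cons, SimpleGraph.Walk.length_ofSupport]
    omega

/-- `ad G univ univ` is twice the number of edges -/
private lemma FinC_ad {n : ℕ} (G : SimpleGraph (Fin n)) :
    ad G univ univ = 2 * G.edgeSet.ncard := by
  have h1 : G.edgeSet.ncard = G.edgeFinset.card := by
    rw [← SimpleGraph.coe_edgeFinset, Set.ncard_coe_finset]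
  have h2 : ad G univ univ = ∑ v, G.degree v := by
    unfold ad
    rw [Finset.card_filter, Finset.sum_product]
    refine Finset.sum_congr rfl fun x _ => ?_
    rw [← SimpleGraph.card_neighborFinset_eq_degree, ← Finset.card_filter]
    congr 1
    ext w
    simp
  rw [h2, h1, SimpleGraph.sum_degrees_eq_twice_card_edges]

theorem thm_FinC (hMain : St_Main) : St_FinC := by
  intro ε hε
  obtain ⟨k₀, hk₀⟩ := hMain ε hε
  refine ⟨k₀, fun k hk hodd n G hG => ?_⟩
  have h := hk₀ k hk hodd (Fin n) G (fun l hl hmod => by
    obtain ⟨v, c, hc, hlen⟩ := FinC_walk G l hl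
    exact hG v c hc (by rw [hlen]; exact hmod))
  rw [FinC_ad, Fintype.card_fin] at h
  push_cast at h
  nlinarith [h]

end Pool.CMK
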