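import Pool.Agent.CMK.StS

/-!
# CMK: the highly connected case

`thm_HC`.
-/

set_option autoImplicit false

namespace Pool.CMK

open Finset
open scoped Classical

/-- monotonicity of the connectivity -/
theorem HC_SC_mono {V : Type} [Fintype V] {G : SimpleGraph V} {c d : ℕ} (h : SC G d) (hcd : c ≤ d) :
    SC G c :=
  ⟨by have := h.1; omega, fun A B hA hB hd hn => le_trans hcd (h.2 A B hA hB hd hn)⟩

/-- the number of adjacent ordered pairs inside a set -/
theorem HC_ad_le {V : Type} (G : SimpleGraph V) (S : Finset V) :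
    (ad G S S : ℝ) ≤ (S.card : ℝ) * S.card := by
  have h : ad G S S ≤ S.card * S.card := by
    unfold ad
    refine le_trans (card_filter_le _ _) ?_
    rw [card_product]
  exact_mod_cast h

theorem thm_HC (hPair : St_Pair) (hCaseA : St_CaseA) (hHCF : St_HCF) (hHCB : St_HCB) : St_HC := by
  intro ε hε hε'
  have hρ : (0 : ℝ) < ε / 600 := by positivity
  obtain ⟨c, hc, n₀, hP⟩ := hPair (ε / 600) (ε / 600 / 256) hρ (by linarith) (by positivity)
    (by linarith)
  have hc' : (0 : ℝ) < 2 * c * (ε / 400) := by positivity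
  obtain ⟨R, hR⟩ := hHCF ε (2 * c * (ε / 400)) hε (by linarith) hc'
  have hδ : (0 : ℝ) < min (ε / 4) (2 * c * (ε / 400)) := lt_min (by positivity) hc'
  obtain ⟨k₁, hA⟩ := hCaseA ε (ε / 600) (ε / 600 / 256) (2 * c * (ε / 400))
    (min (ε / 4) (2 * c * (ε / 400))) R hε hε' hρ (by linarith) (by positivity) (by linarith)
    (by linarith) hc' hδ (min_le_right _ _)
  obtain ⟨k₂, hB⟩ := hHCB ε hε hε'
  refine ⟨min (ε / 4) (2 * c * (ε / 400)), hδ, min_le_left _ _, ?_⟩
  set δ : ℝ := min (ε / 4) (2 * c * (ε / 400)) with hδdef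
  refine ⟨max (max k₁ k₂) (max (max 1 ⌈2 / δ⌉₊) ⌈(n₀ : ℝ) / (2 * (ε / 400))⌉₊), ?_⟩
  intro k hk hodd V _ G hSC hV hdeg
  have hk1 : k₁ ≤ k := le_trans (le_trans (le_max_left _ _) (le_max_left _ _)) hk
  have hk2 : k₂ ≤ k := le_trans (le_trans (le_max_right _ _) (le_max_left _ _)) hk
  have hk3 : 1 ≤ k :=
    le_trans (le_trans (le_trans (le_max_left _ _) (le_max_left _ _)) (le_max_right _ _)) hk
  have hk4 : ⌈2 / δ⌉₊ ≤ k :=
    le_trans (le_trans (le_trans (le_max_right _ _) (le_max_left _ _)) (le_max_right _ _)) hk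
  have hk5 : ⌈(n₀ : ℝ) / (2 * (ε / 400))⌉₊ ≤ k :=
    le_trans (le_trans (le_max_right _ _) (le_max_right _ _)) hk
  have hk4' : 2 ≤ δ * k := by
    have h1 : 2 / δ ≤ k := Nat.ceil_le.1 hk4
    rw [div_le_iff₀ hδ] at h1
    linarith [mul_comm δ (k : ℝ)]
  have hk5' : (n₀ : ℝ) ≤ 2 * (ε / 400) * k := by
    have h1 : (n₀ : ℝ) / (2 * (ε / 400)) ≤ k := Nat.ceil_le.1 hk5
    rw [div_le_iff₀ (by positivity)] at h1
    linarith [mul_comm (2 * (ε / 400)) (k : ℝ)]
  have hk3' : (1 : ℝ) ≤ k := by exact_mod_cast hk3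
  rcases hR k hk3 V (fun A B => Pr G A B (4 * (ε / 600 / 256)) (ε / 600 / 16) ∧
      2 * c * (ε / 400) * k ≤ (A.card : ℝ)) (fun A B h => ⟨h.1.disj, h.1.card, h.2⟩) with
    ⟨r, A, B, hr1, hrR, hAB, hdis, hsum⟩ | ⟨Q, hQ, hnone⟩
  · exact hA k hk1 hodd V G r A B hr1 hrR hSC hAB hdis hsum
  · refine hB k hk2 hodd V G Q (HC_SC_mono hSC ?_) hV hdeg hQ ?_
    · have h2 : (2 : ℝ) ≤ (⌈δ * k⌉₊ : ℝ) := le_trans hk4' (Nat.le_ceil _)
      exact_mod_cast h2
    · intro S hSQ hSne hScard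
      by_contra hlt
      push Not at hlt
      have hSpos : (0 : ℝ) < S.card := by exact_mod_cast hSne.card_pos
      have hSk : (S.card : ℝ) ≤ 2 * k + 1 := by exact_mod_cast hScard
      have h1 : 2 * (ε / 400 * k) ≤ S.card := by
        have h2 := le_trans hlt (HC_ad_le G S)
        exact le_of_mul_le_mul_right h2 hSpos
      have hn0 : n₀ ≤ S.card := by
        have h2 : (n₀ : ℝ) ≤ S.card := by
          refine le_trans hk5' ?_
          calc 2 * (ε / 400) * (k : ℝ) = 2 * (ε / 400 * k) := by ring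
            _ ≤ S.card := h1
        exact_mod_cast h2
      have hden : ε / 600 * (S.card : ℝ) ^ 2 ≤ (ad G S S : ℝ) := by
        refine le_trans ?_ hlt
        have h3 : ε / 600 * (S.card : ℝ) ≤ 2 * (ε / 400 * k) := by
          have h4 : (S.card : ℝ) ≤ 3 * k := by linarith
          have h5 : ε / 600 * (S.card : ℝ) ≤ ε / 600 * (3 * k) :=
            mul_le_mul_of_nonneg_left h4 hρ.le
          calc ε / 600 * (S.card : ℝ) ≤ ε / 600 * (3 * k) := h5
            _ = 2 * (ε / 400 * k) := by ring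
        calc ε / 600 * (S.card : ℝ) ^ 2 = ε / 600 * (S.card : ℝ) * S.card := by ring
          _ ≤ 2 * (ε / 400 * k) * S.card := mul_le_mul_of_nonneg_right h3 hSpos.le
      obtain ⟨A, B, hAS, hBS, hpr, hcard⟩ := hP V G S hn0 hden
      refine hnone A B ⟨hpr, ?_⟩ ?_
      · refine le_trans ?_ hcard
        calc 2 * c * (ε / 400) * (k : ℝ) = c * (2 * (ε / 400 * k)) := by ring
          _ ≤ c * S.card := mul_le_mul_of_nonneg_left h1 hc.le
      · exact (union_subset hAS hBS).trans hSQ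

end Pool.CMK
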