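import Pool.Agent.CMK.StS

/-!
# CMK: no dense set outside of the pairs (helper95)
-/

set_option autoImplicit false

namespace Pool.CMK

open Finset
open scoped Classical

/-- `ad` as a sum of degrees -/
private theorem HCB_ad {V : Type} (G : SimpleGraph V) (X Y : Finset V) :
    ad G X Y = ∑ v ∈ X, (nbs G v Y).card := by
  unfold ad nbs
  rw [Finset.card_filter, Finset.sum_product]
  refine Finset.sum_congr rfl fun v _ => ?_
  rw [Finset.card_filter]

/-- the induced graph -/
private theorem HCB_ind {V : Type} (G : SimpleGraph V) (Y : Finset V) (S T : Finset {v // v ∈ Y}) :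
    ad (G.comap (Subtype.val : {v // v ∈ Y} → V)) S T =
      ad G (S.map (Function.Embedding.subtype _)) (T.map (Function.Embedding.subtype _)) := by
  rw [HCB_ad, HCB_ad, Finset.sum_map]
  refine Finset.sum_congr rfl fun v _ => ?_
  unfold nbs
  rw [Finset.filter_map, Finset.card_map]
  rfl

/-- cycles of the induced graph -/
private theorem HCB_cyc {V : Type} (G : SimpleGraph V) (Y : Finset V) {l : List {v // v ∈ Y}}
    (h : CycL (G.comap (Subtype.val : {v // v ∈ Y} → V)) l) : CycL G (l.map Subtype.val) := by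
  obtain ⟨h1, h2, h3, a, b, ha, hb, hab⟩ := h
  refine ⟨?_, ?_, ?_, a.1, b.1, ?_, ?_, hab⟩
  · rw [List.length_map]
    exact h1
  · exact h2.map Subtype.val_injective
  · rw [List.isChain_map]
    exact h3
  · rw [List.head?_map, ha]
    rfl
  · rw [List.getLast?_map, hb]
    rfl

/-- one of `k` consecutive even numbers is `1` modulo the odd number `k` -/
private theorem HCB_mod {k h : ℕ} (hk : Odd k) (hk3 : 3 ≤ k) :
    ∃ j, 1 ≤ j ∧ j ≤ k ∧ (2 * h + 2 * j) % k = 1 := by
  obtain ⟨m, hm⟩ := hk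
  have h0 : 0 < k := by omega
  have h1 : k * (h / k) + h % k = h := Nat.div_add_mod h k
  have h2 : h % k < k := Nat.mod_lt _ h0
  by_cases h3 : h % k ≤ m
  · refine ⟨m + 1 - h % k, by omega, by omega, ?_⟩
    have e : 2 * h + 2 * (m + 1 - h % k) = 1 + k * (2 * (h / k) + 1) := by
      have : k * (2 * (h / k) + 1) = 2 * (k * (h / k)) + k := by ring
      omega
    rw [e, Nat.add_mul_mod_self_left]
    exact Nat.mod_eq_of_lt (by omega)
  · refine ⟨m + 1 + k - h % k, by omega, by omega, ?_⟩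
    have e : 2 * h + 2 * (m + 1 + k - h % k) = 1 + k * (2 * (h / k) + 3) := by
      have : k * (2 * (h / k) + 3) = 2 * (k * (h / k)) + 3 * k := by ring
      omega
    rw [e, Nat.add_mul_mod_self_left]
    exact Nat.mod_eq_of_lt (by omega)

private theorem HCB_one {k : ℕ} (hk3 : 3 ≤ k) : (k + 1) % k = 1 := by
  rw [Nat.add_mod_left]
  exact Nat.mod_eq_of_lt (by omega)

theorem thm_HCB (hLsp : St_Lsp) (hBTwo : St_BTwo) (hBOne : St_BOne) : St_HCB := by
  intro ε hε hε1
  obtain ⟨C₁, hC₁, k₁, hk₁⟩ := hBTwo ε hε (by linarith)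
  obtain ⟨k₂, hk₂⟩ := hBOne ε (3 + 2 * C₁) hε hε1 (by linarith)
  refine ⟨max (max k₁ k₂) (max 3 ⌈400 / ε⌉₊), fun k hk hodd V _ G Q hSC hV hdeg hQ hS => ?_⟩
  have ka : k₁ ≤ k := (le_max_left _ _).trans ((le_max_left _ _).trans hk)
  have kb : k₂ ≤ k := (le_max_right _ _).trans ((le_max_left _ _).trans hk)
  have kc : 3 ≤ k := (le_max_left _ _).trans ((le_max_right _ _).trans hk)
  have kd : (400 / ε : ℝ) ≤ k := (Nat.le_ceil _).trans
    (by exact_mod_cast (le_max_right _ _).trans ((le_max_right _ _).trans hk))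
  have hk0 : (0 : ℝ) < k := by exact_mod_cast (by omega : 0 < k)
  have hη : 1 ≤ ε / 400 * k := by
    rw [div_le_iff₀ hε] at kd
    linarith
  by_cases hA : Qᶜ.Nonempty ∧ 48 * (ε / 400 * k) * (Qᶜ.card : ℝ) ≤ (ad G Qᶜ Qᶜ : ℝ)
  · -- the dense case
    obtain ⟨⟨y, hy⟩, hA⟩ := hA
    have hne : Nonempty {v // v ∈ Qᶜ} := ⟨⟨y, hy⟩⟩
    have hmu : (univ : Finset {v // v ∈ Qᶜ}).map (Function.Embedding.subtype _) = Qᶜ := by
      ext v
      simp
    obtain ⟨h, hh⟩ := hLsp {v // v ∈ Qᶜ} (G.comap (Subtype.val : {v // v ∈ Qᶜ} → V)) k (ε / 400 * k)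
      (by omega) hη (by
        rw [HCB_ind, hmu, Fintype.card_coe]
        exact hA) (fun S hSn hSc => by
        rw [HCB_ind]
        have h1 := hS (S.map (Function.Embedding.subtype _)) (fun v hv => by
          obtain ⟨w, -, rfl⟩ := Finset.mem_map.1 hv
          exact w.2) (by simpa using hSn) (by rw [Finset.card_map]; exact hSc)
        rw [Finset.card_map] at h1
        exact h1)
    obtain ⟨j, h1, h2, h3⟩ := HCB_mod (h := h) hodd kc
    obtain ⟨l, hl, hlen⟩ := hh j h1 h2
    refine ⟨l.map Subtype.val, HCB_cyc G _ hl, ?_⟩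
    rw [List.length_map, hlen]
    exact h3
  · have hsplit : (Q.card : ℝ) + (Qᶜ.card : ℝ) = Fintype.card V := by
      exact_mod_cast Finset.card_add_card_compl Q
    have hdeg2 : ∀ v, (nbs G v univ).card = (nbs G v Q).card + (nbs G v Qᶜ).card := by
      intro v
      unfold nbs
      rw [← Finset.card_union_of_disjoint (Finset.disjoint_filter_filter disjoint_compl_right),
        ← Finset.filter_union, Finset.union_compl]
    by_cases hB : 2 * C₁ * k ≤ (Qᶜ.card : ℝ)
    · -- many vertices outside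
      have hYpos : 0 < (Qᶜ.card : ℝ) := lt_of_lt_of_le (by positivity) hB
      have hYne : Qᶜ.Nonempty := Finset.card_pos.1 (by exact_mod_cast hYpos)
      have hAd : (ad G Qᶜ Qᶜ : ℝ) < 48 * (ε / 400 * k) * (Qᶜ.card : ℝ) := by
        by_contra hcon
        exact hA ⟨hYne, not_lt.1 hcon⟩
      set R' := Qᶜ.filter fun v => ((nbs G v Qᶜ).card : ℝ) ≤ ε / 2 * k with hR'
      set B := Qᶜ.filter fun v => ¬((nbs G v Qᶜ).card : ℝ) ≤ ε / 2 * k with hBd
      have hcard : (R'.card : ℝ) + B.card = Qᶜ.card := by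
        exact_mod_cast Finset.card_filter_add_card_filter_not (s := Qᶜ)
          (fun v => ((nbs G v Qᶜ).card : ℝ) ≤ ε / 2 * k)
      have hBs : ε / 2 * k * (B.card : ℝ) ≤ (ad G Qᶜ Qᶜ : ℝ) := by
        rw [HCB_ad]
        push_cast
        calc ε / 2 * k * (B.card : ℝ) = ∑ v ∈ B, ε / 2 * (k : ℝ) := by
              rw [Finset.sum_const, nsmul_eq_mul]
              ring
          _ ≤ ∑ v ∈ B, ((nbs G v Qᶜ).card : ℝ) :=
              Finset.sum_le_sum fun v hv => (not_le.1 (Finset.mem_filter.1 hv).2).le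
          _ ≤ ∑ v ∈ Qᶜ, ((nbs G v Qᶜ).card : ℝ) :=
              Finset.sum_le_sum_of_subset_of_nonneg (Finset.filter_subset _ _) fun _ _ _ => Nat.cast_nonneg _
      have hB4 : (B.card : ℝ) ≤ 1 / 4 * Qᶜ.card := by
        have hek : 0 < ε * k := by positivity
        have h1 : ε * k * (B.card : ℝ) ≤ ε * k * (1 / 4 * Qᶜ.card) := by nlinarith
        exact le_of_mul_le_mul_left h1 hek
      have hRc : C₁ * k ≤ (R'.card : ℝ) := by
        have : 0 < C₁ * k := by positivity
        linarith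
      obtain ⟨l, hl, hlen⟩ := hk₁ k ka hodd V G Q R'
        (disjoint_compl_right.mono_right (Finset.filter_subset _ _)) (by exact_mod_cast hQ) hRc
        (fun v hv => by
          have h1 := (Finset.mem_filter.1 hv).2
          have h2 := hdeg v
          rw [hdeg2 v] at h2
          push_cast at h2
          nlinarith)
      exact ⟨l, hl, by rw [hlen]; exact HCB_one kc⟩
    · push Not at hB
      exact hk₂ k kb hodd V G hV (by rw [← hsplit]; nlinarith) hdeg hSC

end Pool.CMK
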