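import Pool.Agent.CMK.StS

/-!
# CMK, module HCF: a maximal family of disjoint pairs
-/

set_option autoImplicit false

namespace Pool.CMK

open Finset
open scoped Classical

/-- there is a family of `r` allowed disjoint pairs of small total size -/
private def HCFam {V : Type} (Pp : Finset V → Finset V → Prop) (M : ℝ) (r : ℕ) : Prop :=
  ∃ A B : Fin r → Finset V, (∀ j, Pp (A j) (B j)) ∧
    (∀ i j, i ≠ j → Disjoint (A i ∪ B i) (A j ∪ B j)) ∧ ∑ j, 2 * ((A j).card : ℝ) < M

private lemma HCF_exists {P : ℕ → Prop} {N : ℕ} (h0 : P 0) (hN : ∀ n, P n → n ≤ N) :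
    ∃ r, P r ∧ ¬ P (r + 1) := by
  by_contra hcon
  push Not at hcon
  have hall : ∀ n, P n := by
    intro n
    induction n with
    | zero => exact h0
    | succ n ih => exact hcon n ih
  have := hN (N + 1) (hall (N + 1))
  omega

theorem thm_HCF : St_HCF := by
  intro ε c hε hε1 hc
  refine ⟨⌈2 / c⌉₊ + 1, fun k hk V _ Pp hPp => ?_⟩
  have hk0 : (1 : ℝ) ≤ (k : ℝ) := by exact_mod_cast hk
  have hM : (0 : ℝ) < (2 + ε) * k := by positivity
  have hzero : HCFam Pp ((2 + ε) * k) 0 := by
    refine ⟨fun _ => ∅, fun _ => ∅, fun j => j.elim0, fun i => i.elim0, ?_⟩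
    simpa using hM
  have hbound : ∀ r, HCFam Pp ((2 + ε) * k) r → r ≤ ⌈2 / c⌉₊ := by
    rintro r ⟨A, B, hP, -, hs⟩
    have h1 : ∑ _j : Fin r, 2 * (c * k) ≤ ∑ j, 2 * ((A j).card : ℝ) :=
      Finset.sum_le_sum fun j _ => by
        have := (hPp _ _ (hP j)).2.2
        linarith
    rw [Finset.sum_const, Finset.card_univ, Fintype.card_fin, nsmul_eq_mul] at h1
    have h2 : (r : ℝ) * (2 * (c * k)) < 3 * k := by
      have : (2 + ε) * (k : ℝ) ≤ 3 * k := by nlinarith
      linarith
    have h3 : (r : ℝ) * (2 * c) < 3 := by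
      by_contra hcon
      push Not at hcon
      have : 3 * (k : ℝ) ≤ (r : ℝ) * (2 * c) * k := by nlinarith
      nlinarith
    have h4 : (r : ℝ) ≤ 2 / c := by
      rw [le_div_iff₀ hc]
      nlinarith
    exact_mod_cast h4.trans (Nat.le_ceil _)
  obtain ⟨r, ⟨A, B, hP, hd, hs⟩, hr⟩ := HCF_exists hzero hbound
  have hrR : r ≤ ⌈2 / c⌉₊ := hbound r ⟨A, B, hP, hd, hs⟩
  by_cases hex : ∃ A' B', Pp A' B' ∧ A' ∪ B' ⊆ ((univ : Finset (Fin r)).biUnion
      (fun j => A j ∪ B j))ᶜ
  · left
    obtain ⟨A', B', hP', hsub⟩ := hex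
    have hdj : ∀ j, Disjoint (A' ∪ B') (A j ∪ B j) := by
      intro j
      rw [Finset.disjoint_left]
      intro v hv hv'
      have := hsub hv
      rw [Finset.mem_compl, Finset.mem_biUnion] at this
      exact this ⟨j, Finset.mem_univ _, hv'⟩
    have hPc : ∀ j, Pp ((Fin.cons A' A : Fin (r + 1) → Finset V) j)
        ((Fin.cons B' B : Fin (r + 1) → Finset V) j) := by
      intro j
      refine Fin.cases ?_ (fun i => ?_) j
      · simpa using hP'
      · simpa using hP i
    have hdc : ∀ i j, i ≠ j → Disjoint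
        ((Fin.cons A' A : Fin (r + 1) → Finset V) i ∪ (Fin.cons B' B : Fin (r + 1) → Finset V) i)
        ((Fin.cons A' A : Fin (r + 1) → Finset V) j ∪
          (Fin.cons B' B : Fin (r + 1) → Finset V) j) := by
      intro i j
      refine Fin.cases ?_ (fun i' => ?_) i
      · refine Fin.cases ?_ (fun j' => ?_) j
        · intro h
          exact absurd rfl h
        · intro _
          simpa using hdj j'
      · refine Fin.cases ?_ (fun j' => ?_) j
        · intro _
          simpa using (hdj i').symm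
        · intro h
          have : i' ≠ j' := fun h' => h (by rw [h'])
          simpa using hd i' j' this
    refine ⟨r + 1, Fin.cons A' A, Fin.cons B' B, by omega, by omega, hPc, hdc, ?_⟩
    by_contra hcon
    push Not at hcon
    exact hr ⟨Fin.cons A' A, Fin.cons B' B, hPc, hdc, hcon⟩
  · right
    push Not at hex
    refine ⟨(univ : Finset (Fin r)).biUnion (fun j => A j ∪ B j), ?_, hex⟩
    have h1 : (((univ : Finset (Fin r)).biUnion (fun j => A j ∪ B j)).card : ℝ) ≤
        ∑ j, 2 * ((A j).card : ℝ) := by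
      have h2 : ((univ : Finset (Fin r)).biUnion (fun j => A j ∪ B j)).card ≤
          ∑ j, 2 * (A j).card := by
        refine Finset.card_biUnion_le.trans (Finset.sum_le_sum fun j _ => ?_)
        have h3 := Finset.card_union_le (A j) (B j)
        have h4 := (hPp _ _ (hP j)).2.1
        omega
      exact_mod_cast h2
    nlinarith

end Pool.CMK
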