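import Pool.Agent.CMK.StS

/-!
# CMK: module LAY, two layers of a breadth first search tree
-/

set_option autoImplicit false

namespace Pool.CMK

open Finset
open scoped Classical

private theorem Lay_dist_succ {V : Type} (F : SimpleGraph V) {r u v : V} (hr : F.Reachable r u)
    (h : F.Adj u v) : F.dist r v ≤ F.dist r u + 1 := by
  obtain ⟨p, hp⟩ := hr.exists_walk_length_eq_dist
  have h2 := F.dist_le (p.concat h)
  rw [SimpleGraph.Walk.length_concat, hp] at h2
  exact h2

private theorem Lay_parity {V : Type} (F : SimpleGraph V) (side : V → Bool)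
    (hs : ∀ u v, F.Adj u v → side u ≠ side v) {r v : V} (p : F.Walk r v) :
    (Even p.length ↔ side r = side v) := by
  induction p with
  | nil => simp
  | @cons a b c h p ih =>
    rw [SimpleGraph.Walk.length_cons, Nat.even_add_one, ih]
    have h1 := hs _ _ h
    revert h1
    cases side a <;> cases side b <;> cases side c <;> simp

private theorem Lay_adj {V : Type} (F : SimpleGraph V) (side : V → Bool)
    (hs : ∀ u v, F.Adj u v → side u ≠ side v) {r u v : V} (hr : F.Reachable r u)
    (h : F.Adj u v) : F.dist r v = F.dist r u + 1 ∨ F.dist r u = F.dist r v + 1 := by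
  have hrv : F.Reachable r v := hr.trans h.reachable
  have h1 := Lay_dist_succ F hr h
  have h2 := Lay_dist_succ F hrv h.symm
  obtain ⟨p, hp⟩ := hr.exists_walk_length_eq_dist
  obtain ⟨q, hq⟩ := hrv.exists_walk_length_eq_dist
  have hp' := Lay_parity F side hs p
  have hq' := Lay_parity F side hs q
  rw [hp] at hp'
  rw [hq] at hq'
  have h3 := hs _ _ h
  have h4 : F.dist r u ≠ F.dist r v := by
    intro he
    rw [he] at hp'
    have h5 : (side r = side u) ↔ (side r = side v) := hp'.symm.trans hq'
    revert h5 h3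
    cases side u <;> cases side v <;> cases side r <;> simp
  omega

private theorem Lay_root {V : Type} (F : SimpleGraph V) : ∃ root : V → V,
    (∀ v, F.Reachable (root v) v) ∧ ∀ u v, F.Adj u v → root u = root v := by
  refine ⟨fun v => Classical.choose (F.connectedComponentMk v).exists_rep, ?_, ?_⟩
  · intro v
    exact SimpleGraph.ConnectedComponent.exact
      (Classical.choose_spec (F.connectedComponentMk v).exists_rep)
  · intro u v h
    have h1 : F.connectedComponentMk u = F.connectedComponentMk v :=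
      SimpleGraph.ConnectedComponent.sound h.reachable
    show Classical.choose (F.connectedComponentMk u).exists_rep
      = Classical.choose (F.connectedComponentMk v).exists_rep
    simp only [h1]

private theorem Lay_erase {V : Type} (F : SimpleGraph V) (W : Finset V) (w : V) :
    ad F W W ≤ ad F (W.erase w) (W.erase w) + 2 * (nbs F w W).card := by
  unfold ad
  have hsub : (W ×ˢ W).filter (fun p => F.Adj p.1 p.2) ⊆
      (((W.erase w) ×ˢ (W.erase w)).filter (fun p => F.Adj p.1 p.2)) ∪
        (((nbs F w W).image (fun x => (w, x))) ∪ ((nbs F w W).image (fun x => (x, w)))) := by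
    intro p hp
    obtain ⟨a, b⟩ := p
    simp only [mem_filter, mem_product] at hp
    obtain ⟨⟨ha, hb⟩, hab⟩ := hp
    simp only [mem_union, mem_filter, mem_product, mem_erase, mem_image, nbs, Prod.mk.injEq]
    by_cases h1 : a = w
    · right; left
      exact ⟨b, ⟨hb, h1 ▸ hab⟩, h1.symm, rfl⟩
    · by_cases h2 : b = w
      · right; right
        exact ⟨a, ⟨ha, h2 ▸ hab.symm⟩, rfl, h2.symm⟩
      · left
        exact ⟨⟨⟨h1, ha⟩, ⟨h2, hb⟩⟩, hab⟩
  refine (card_le_card hsub).trans ((card_union_le _ _).trans ?_)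
  refine Nat.add_le_add_left ((card_union_le _ _).trans ?_) _
  rw [two_mul]
  exact Nat.add_le_add card_image_le card_image_le

private theorem Lay_min {V : Type} (F : SimpleGraph V) (D : ℝ) : ∀ (n : ℕ)
    (W : Finset V), W.card = n → W.Nonempty → 12 * D * W.card ≤ (ad F W W : ℝ) →
    ∃ W' ⊆ W, W'.Nonempty ∧ ∀ w ∈ W', 6 * D ≤ ((nbs F w W').card : ℝ) := by
  intro n
  induction n with
  | zero =>
    intro W h0 hne _
    rw [card_eq_zero] at h0
    exact absurd h0 (Finset.nonempty_iff_ne_empty.1 hne)
  | succ n ih =>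
    intro W hc hne had
    by_cases h : ∀ w ∈ W, 6 * D ≤ ((nbs F w W).card : ℝ)
    · exact ⟨W, subset_rfl, hne, h⟩
    · push Not at h
      obtain ⟨w, hw, hlt⟩ := h
      have h1 : (ad F W W : ℝ) ≤ ad F (W.erase w) (W.erase w) + 2 * (nbs F w W).card := by
        exact_mod_cast Lay_erase F W w
      have h2 : (W.erase w).card = n := by rw [card_erase_of_mem hw, hc]; rfl
      have h3 : 12 * D * (W.erase w).card ≤ (ad F (W.erase w) (W.erase w) : ℝ) := by
        rw [h2]
        rw [hc] at had
        push_cast at had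
        nlinarith
      have h4 : (W.erase w).Nonempty := by
        rw [Finset.nonempty_iff_ne_empty]
        intro he
        have h5 : ad F (W.erase w) (W.erase w) = 0 := by rw [he]; simp [ad]
        have h6 : n = 0 := by rw [← h2, he]; rfl
        rw [hc, h6] at had
        rw [h5] at h1
        push_cast at had h1
        linarith
      obtain ⟨W', hW', hne', hW'2⟩ := ih (W.erase w) h2 h4 h3
      exact ⟨W', hW'.trans (erase_subset _ _), hne', hW'2⟩

/-- two layers with many edges -/
private theorem Lay_layers {V : Type} [Fintype V] [Nonempty V] (F : SimpleGraph V) (D : ℝ)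
    (hD : 0 < D) (root : V → V) (lev : V → ℕ)
    (h1 : ∀ u v, F.Adj u v → root u = root v ∧ (lev v = lev u + 1 ∨ lev u = lev v + 1))
    (had : 24 * D * Fintype.card V ≤ (ad F univ univ : ℝ)) :
    ∃ (r : V) (i : ℕ) (W : Finset V), W.Nonempty ∧
      (∀ v ∈ W, root v = r ∧ (lev v = i ∨ lev v = i + 1)) ∧
      12 * D * W.card ≤ (ad F W W : ℝ) := by
  classical
  by_contra hcon
  push Not at hcon
  let N : ℕ := univ.sup lev
  have hN : ∀ v, lev v ≤ N := fun v => Finset.le_sup (mem_univ v)
  let I : Finset (V × ℕ) := (univ : Finset V) ×ˢ range (N + 1)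
  let Wt : V × ℕ → Finset V := fun p =>
    univ.filter (fun v => root v = p.1 ∧ (lev v = p.2 ∨ lev v = p.2 + 1))
  have hmW : ∀ (p : V × ℕ) (v : V), v ∈ Wt p ↔ root v = p.1 ∧ (lev v = p.2 ∨ lev v = p.2 + 1) := by
    intro p v; simp [Wt]
  have hA : ad F univ univ ≤ ∑ p ∈ I, ad F (Wt p) (Wt p) := by
    have hsub : ((univ : Finset V) ×ˢ (univ : Finset V)).filter (fun p => F.Adj p.1 p.2) ⊆
        I.biUnion (fun p => ((Wt p) ×ˢ (Wt p)).filter (fun p => F.Adj p.1 p.2)) := by
      intro q hq
      obtain ⟨u, v⟩ := q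
      simp only [mem_filter, mem_product, mem_univ, true_and] at hq
      obtain ⟨hr, hl⟩ := h1 u v hq
      simp only [mem_biUnion, mem_filter, mem_product]
      rcases hl with hl | hl
      · refine ⟨(root u, lev u), ?_, ⟨(hmW _ _).2 ⟨rfl, Or.inl rfl⟩,
          (hmW _ _).2 ⟨hr.symm, Or.inr hl⟩⟩, hq⟩
        simp only [I, mem_product, mem_univ, mem_range, true_and]
        have := hN u
        omega
      · refine ⟨(root u, lev v), ?_, ⟨(hmW _ _).2 ⟨rfl, Or.inr hl⟩,
          (hmW _ _).2 ⟨hr.symm, Or.inl rfl⟩⟩, hq⟩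
        simp only [I, mem_product, mem_univ, mem_range, true_and]
        have := hN v
        omega
    exact (card_le_card hsub).trans card_biUnion_le
  have hB : ∑ p ∈ I, (Wt p).card ≤ 2 * Fintype.card V := by
    have e1 : ∑ p ∈ I, (Wt p).card = ∑ p ∈ I, ∑ v : V, (if v ∈ Wt p then 1 else 0) := by
      refine sum_congr rfl (fun p _ => ?_)
      rw [← card_filter]
      congr 1
      ext v; simp
    rw [e1, sum_comm]
    have e2 : ∀ v ∈ (univ : Finset V), ∑ p ∈ I, (if v ∈ Wt p then 1 else 0) ≤ 2 := by
      intro v _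
      rw [← card_filter]
      have hs : I.filter (fun p => v ∈ Wt p) ⊆ {(root v, lev v), (root v, lev v - 1)} := by
        intro p hp
        rw [mem_filter, hmW] at hp
        obtain ⟨_, hr, hl⟩ := hp
        simp only [mem_insert, mem_singleton]
        obtain ⟨r, i⟩ := p
        simp only [Prod.mk.injEq] at *
        rcases hl with hl | hl
        · left; exact ⟨hr.symm, hl.symm⟩
        · right; exact ⟨hr.symm, by omega⟩
      exact (card_le_card hs).trans card_le_two
    calc ∑ v : V, ∑ p ∈ I, (if v ∈ Wt p then 1 else 0) ≤ ∑ v : V, 2 := sum_le_sum e2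
      _ = 2 * Fintype.card V := by simp [mul_comm]
  have hC : ∑ p ∈ I, (ad F (Wt p) (Wt p) : ℝ) < ∑ p ∈ I, 12 * D * ((Wt p).card : ℝ) := by
    refine sum_lt_sum ?_ ?_
    · intro p _
      rcases (Wt p).eq_empty_or_nonempty with he | hne
      · rw [he]; simp [ad]
      · exact (hcon p.1 p.2 (Wt p) hne (fun v hv => (hmW p v).1 hv)).le
    · obtain ⟨v⟩ := (inferInstance : Nonempty V)
      refine ⟨(root v, lev v), ?_, ?_⟩
      · simp only [I, mem_product, mem_univ, mem_range, true_and]
        have := hN v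
        omega
      · exact hcon _ _ (Wt (root v, lev v)) ⟨v, (hmW _ _).2 ⟨rfl, Or.inl rfl⟩⟩
          (fun u hu => (hmW _ u).1 hu)
  rw [← mul_sum] at hC
  have hA' : (ad F univ univ : ℝ) ≤ ∑ p ∈ I, (ad F (Wt p) (Wt p) : ℝ) := by exact_mod_cast hA
  have hB' : ∑ p ∈ I, ((Wt p).card : ℝ) ≤ 2 * Fintype.card V := by exact_mod_cast hB
  have h12 : 0 < 12 * D := by linarith
  have := mul_le_mul_of_nonneg_left hB' h12.le
  linarith

theorem thm_Lay (hLayT : St_LayT) : St_Lay := by
  intro V _ _ F side D hD hs had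
  obtain ⟨root, hroot, hroot2⟩ := Lay_root F
  obtain ⟨r, i, W, hWne, hW, hWad⟩ := Lay_layers F D hD root (fun v => F.dist (root v) v)
    (fun u v huv => by
      have e := hroot2 u v huv
      refine ⟨e, ?_⟩
      have := Lay_adj F side hs (hroot u) huv
      show F.dist (root v) v = F.dist (root u) u + 1 ∨ F.dist (root u) u = F.dist (root v) v + 1
      rw [← e]
      exact this) had
  obtain ⟨W', hW'sub, hW'ne, hW'deg⟩ := Lay_min F D W.card W rfl hWne hWad
  have hlev : ∀ v ∈ W', F.Reachable r v ∧ (F.dist r v = i ∨ F.dist r v = i + 1) := by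
    intro v hv
    obtain ⟨e, hl⟩ := hW v (hW'sub hv)
    have e2 := hroot v
    rw [e] at e2
    refine ⟨e2, ?_⟩
    have hl' : F.dist (root v) v = i ∨ F.dist (root v) v = i + 1 := hl
    rw [e] at hl'
    exact hl'
  refine ⟨W', W'.filter (fun v => F.dist r v = i), hW'ne, filter_subset _ _, hW'deg, ?_, ?_⟩
  · intro u hu v hv huv
    simp only [mem_filter, hu, hv, true_and]
    obtain ⟨hru, hlu⟩ := hlev u hu
    obtain ⟨hrv, hlv⟩ := hlev v hv
    have := Lay_adj F side hs hru huv
    constructor
    · intro h; omega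
    · intro h; omega
  · intro X' hX' hc
    have hX'2 : ∀ x ∈ X', F.Reachable r x ∧ F.dist r x = i := by
      intro x hx
      have := hX' hx
      rw [mem_filter] at this
      exact ⟨(hlev x this.1).1, this.2⟩
    obtain ⟨h, hh, A', hA', hA'ne, hXA, hl⟩ := hLayT V F r i X' hX'2 hc
    refine ⟨h, hh, A', hA', hA'ne, hXA, ?_⟩
    intro a ha b hb
    obtain ⟨l, hp, hlen, hw⟩ := hl a ha b hb
    refine ⟨l, hp, hlen, ?_⟩
    intro w hwl
    rcases hw w hwl with h1 | h1 | ⟨_, h1⟩
    · exact Or.inl h1
    · exact Or.inr (Or.inl h1)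
    · right; right
      intro hwW
      obtain ⟨_, hlw⟩ := hlev w hwW
      omega

end Pool.CMK
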