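import Pool.Agent.CMK.StS

/-!
# CMK: LAYT

Paths in a breadth first search tree.  By induction on the layer: if all parents of the vertices of
the set are equal, a path of three vertices does it; otherwise the statement for the set of the
parents gives it.
-/

set_option autoImplicit false

namespace Pool.CMK

open Finset
open scoped Classical

/-- a parent of a vertex in the layer `n + 1` -/
private lemma LayT_parent {V : Type} (F : SimpleGraph V) (r v : V) (n : ℕ)
    (hr : F.Reachable r v) (hd : F.dist r v = n + 1) :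
    ∃ w, F.Adj v w ∧ F.Reachable r w ∧ F.dist r w = n := by
  obtain ⟨p, hp⟩ := hr.symm.exists_walk_length_eq_dist
  rw [SimpleGraph.dist_comm, hd] at hp
  cases p with
  | nil => simp at hp
  | cons h q =>
    rename_i w
    refine ⟨w, h, q.reachable.symm, ?_⟩
    have hq : q.length = n := by simpa using hp
    have h1 : F.dist r w ≤ n := by
      rw [SimpleGraph.dist_comm, ← hq]; exact SimpleGraph.dist_le q
    obtain ⟨q', hq'⟩ := q.reachable.exists_walk_length_eq_dist
    have h2 : F.dist v r ≤ (SimpleGraph.Walk.cons h q').length := SimpleGraph.dist_le _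
    rw [SimpleGraph.Walk.length_cons, hq', SimpleGraph.dist_comm, hd,
      SimpleGraph.dist_comm] at h2
    omega

/-- a vertex in front of a path -/
private lemma LayT_cons {V : Type} {G : SimpleGraph V} {x y a : V} {l : List V}
    (h : PathFT G x y l) (ha : G.Adj a x) (hn : a ∉ l) : PathFT G a y (a :: l) := by
  obtain ⟨⟨hne, hnd, hch⟩, hh, hl⟩ := h
  cases l with
  | nil => exact absurd rfl hne
  | cons z t =>
    have hz : z = x := by simpa using hh
    subst hz
    refine ⟨⟨List.cons_ne_nil _ _, List.nodup_cons.2 ⟨hn, hnd⟩, List.isChain_cons_cons.2 ⟨ha, hch⟩⟩,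
      rfl, ?_⟩
    rw [List.getLast?_cons_cons]
    exact hl

/-- the reverse of a path -/
private lemma LayT_rev {V : Type} {G : SimpleGraph V} {x y : V} {l : List V}
    (h : PathFT G x y l) : PathFT G y x l.reverse := by
  obtain ⟨⟨hne, hnd, hch⟩, hh, hl⟩ := h
  refine ⟨⟨by simpa using hne, List.nodup_reverse.2 hnd, ?_⟩, ?_, ?_⟩
  · rw [List.isChain_reverse]
    exact hch.imp (fun a b hab => hab.symm)
  · rw [List.head?_reverse]; exact hl
  · rw [List.getLast?_reverse]; exact hh

theorem thm_LayT : St_LayT := by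
  intro V F r i
  induction i with
  | zero =>
    intro X' hX hc
    exfalso
    have : X' ⊆ {r} := by
      intro x hx
      rw [mem_singleton]
      exact ((hX x hx).1.dist_eq_zero_iff.1 (hX x hx).2).symm
    have := card_le_card this
    rw [card_singleton] at this
    omega
  | succ i ih =>
    intro X' hX hc
    have hpar : ∀ x ∈ X', ∃ w, F.Adj x w ∧ F.Reachable r w ∧ F.dist r w = i := fun x hx =>
      LayT_parent F r x i (hX x hx).1 (hX x hx).2
    choose! π hπ using hpar
    have hY : ∀ y ∈ X'.image π, F.Reachable r y ∧ F.dist r y = i := by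
      intro y hy
      obtain ⟨x, hx, rfl⟩ := mem_image.1 hy
      exact (hπ x hx).2
    by_cases h2 : 2 ≤ (X'.image π).card
    · obtain ⟨h, h1, B, hB, ⟨b₀, hb₀⟩, ⟨c₀, hc₀⟩, hP⟩ := ih (X'.image π) hY h2
      refine ⟨h + 1, by omega, X'.filter (fun x => π x ∈ B), filter_subset _ _, ?_, ?_, ?_⟩
      · obtain ⟨x, hx, rfl⟩ := mem_image.1 (hB hb₀)
        exact ⟨x, mem_filter.2 ⟨hx, hb₀⟩⟩
      · rw [mem_sdiff] at hc₀
        obtain ⟨x, hx, rfl⟩ := mem_image.1 hc₀.1
        refine ⟨x, mem_sdiff.2 ⟨hx, fun hx' => hc₀.2 (mem_filter.1 hx').2⟩⟩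
      · intro a ha b hb
        rw [mem_filter] at ha
        rw [mem_sdiff, mem_filter] at hb
        have hbB : π b ∉ B := fun hh => hb.2 ⟨hb.1, hh⟩
        obtain ⟨l, hl, hlen, hw⟩ := hP (π a) ha.2 (π b)
          (mem_sdiff.2 ⟨mem_image_of_mem _ hb.1, hbB⟩)
        have hw' : ∀ w ∈ l, F.Reachable r w ∧ F.dist r w ≤ i := by
          intro w hwl
          rcases hw w hwl with h0 | h0 | h0
          · rw [h0]; exact ⟨(hπ a ha.1).2.1, le_of_eq (hπ a ha.1).2.2⟩
          · rw [h0]; exact ⟨(hπ b hb.1).2.1, le_of_eq (hπ b hb.1).2.2⟩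
          · exact ⟨h0.1, le_of_lt h0.2⟩
        have hal : a ∉ l := fun h0 => by
          have := (hw' a h0).2
          have := (hX a ha.1).2
          omega
        have hbl : b ∉ l := fun h0 => by
          have := (hw' b h0).2
          have := (hX b hb.1).2
          omega
        have hab : a ≠ b := by
          rintro rfl
          exact hbB ha.2
        have q1 := LayT_cons hl (hπ a ha.1).1 hal
        have q2 := LayT_rev q1
        have q3 := LayT_cons q2 (hπ b hb.1).1 (by
          rw [List.mem_reverse, List.mem_cons, not_or]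
          exact ⟨hab.symm, hbl⟩)
        have q4 := LayT_rev q3
        refine ⟨_, q4, ?_, ?_⟩
        · simp only [List.length_reverse, List.length_cons, hlen]
          ring
        · intro w hwq
          rw [List.mem_reverse, List.mem_cons, List.mem_reverse, List.mem_cons] at hwq
          rcases hwq with h0 | h0 | h0
          · exact Or.inr (Or.inl h0)
          · exact Or.inl h0
          · exact Or.inr (Or.inr ⟨(hw' w h0).1, Nat.lt_succ_of_le (hw' w h0).2⟩)
    · have hle : (X'.image π).card ≤ 1 := by omega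
      rw [card_le_one] at hle
      obtain ⟨a₀, ha₀, b₀, hb₀, hne⟩ := one_lt_card.1 (by omega : 1 < X'.card)
      refine ⟨1, le_rfl, {a₀}, singleton_subset_iff.2 ha₀, singleton_nonempty _,
        ⟨b₀, mem_sdiff.2 ⟨hb₀, fun h0 => hne (mem_singleton.1 h0).symm⟩⟩, ?_⟩
      intro a ha b hb
      rw [mem_singleton] at ha
      subst ha
      rw [mem_sdiff, mem_singleton] at hb
      have he : π a = π b := hle _ (mem_image_of_mem _ ha₀) _ (mem_image_of_mem _ hb.1)
      have hab : a ≠ b := fun h0 => hb.2 h0.symm
      have ea := hπ a ha₀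
      have eb := hπ b hb.1
      refine ⟨[a, π a, b], ⟨⟨List.cons_ne_nil _ _, ?_, ?_⟩, rfl, rfl⟩, rfl, ?_⟩
      · have h1 : a ≠ π a := ea.1.ne
        have h2 : π a ≠ b := by rw [he]; exact eb.1.ne.symm
        simp [h1, h2, hab]
      · have h2 : F.Adj (π a) b := by rw [he]; exact eb.1.symm
        simp [ea.1, h2]
      · intro w hw
        simp only [List.mem_cons, List.not_mem_nil, or_false] at hw
        rcases hw with h0 | h0 | h0
        · exact Or.inl h0
        · refine Or.inr (Or.inr ?_)
          rw [h0]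
          exact ⟨ea.2.1, by rw [ea.2.2]; exact Nat.lt_succ_self i⟩
        · exact Or.inr (Or.inl h0)

end Pool.CMK
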