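import Pool.Agent.CMK.StS

/-!
# CMK: cutting a cyclic list at the marked entries
-/

set_option autoImplicit false

namespace Pool.CMK

open Finset
open scoped Classical

/-- the block of a marked entry -/
private def LinC_blk {V : Type} {r : ℕ} (a : Fin r × List V) : List (V ⊕ Fin r) :=
  Sum.inr a.1 :: a.2.map Sum.inl

private theorem LinC_split {V : Type} {r : ℕ} (l : List (V ⊕ Fin r)) :
    ∃ (v : List V) (L : List (Fin r × List V)),
      l = v.map Sum.inl ++ (L.map LinC_blk).flatten := by
  induction l with
  | nil => exact ⟨[], [], rfl⟩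
  | cons x l ih =>
    obtain ⟨v, L, h⟩ := ih
    cases x with
    | inl x => exact ⟨x :: v, L, by rw [h]; rfl⟩
    | inr j =>
      refine ⟨[], (j, v) :: L, ?_⟩
      rw [h]
      simp [LinC_blk]

private theorem LinC_sub {V : Type} {r : ℕ} (L : List (Fin r × List V)) :
    List.Sublist ((L.map Prod.fst).map (Sum.inr : Fin r → V ⊕ Fin r)) (L.map LinC_blk).flatten := by
  induction L with
  | nil => simp
  | cons a L ih =>
    simp only [List.map_cons, List.flatten_cons, LinC_blk, List.cons_append]
    exact (ih.trans (List.sublist_append_right _ _)).cons_cons _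

theorem thm_LinC : St_LinC := by
  intro V r C hr hnd hall
  have j0 : Fin r := ⟨0, hr⟩
  obtain ⟨s, t, hst⟩ := List.append_of_mem (hall j0)
  have hrot : C.rotate s.length = Sum.inr j0 :: (t ++ s) := by
    rw [hst, List.rotate_append_length_eq, List.cons_append]
  obtain ⟨v, L', hL'⟩ := LinC_split (t ++ s)
  obtain ⟨L, hL⟩ : ∃ L : List (Fin r × List V), C.rotate s.length = (L.map LinC_blk).flatten := by
    refine ⟨(j0, v) :: L', ?_⟩
    rw [hrot, hL']
    simp [LinC_blk]
  have hnd' : ((L.map LinC_blk).flatten).Nodup := by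
    rw [← hL]
    exact List.nodup_rotate.2 hnd
  have hfst : (L.map Prod.fst).Nodup :=
    List.Nodup.of_map _ ((LinC_sub L).nodup hnd')
  have hmem : ∀ j : Fin r, j ∈ L.map Prod.fst := by
    intro j
    have h1 : (Sum.inr j : V ⊕ Fin r) ∈ (L.map LinC_blk).flatten := by
      rw [← hL]
      exact List.mem_rotate.2 (hall j)
    rw [List.mem_flatten] at h1
    obtain ⟨b, hb, hjb⟩ := h1
    obtain ⟨a, ha, rfl⟩ := List.mem_map.1 hb
    rcases List.mem_cons.1 hjb with h2 | h2
    · exact List.mem_map.2 ⟨a, ha, (Sum.inr_injective h2).symm⟩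
    · obtain ⟨x, -, hx⟩ := List.mem_map.1 h2
      exact absurd hx (by simp)
  have hlen : L.length = r := by
    have h1 := List.toFinset_card_of_nodup hfst
    have h2 : (L.map Prod.fst).toFinset = univ := by
      ext j
      simp only [List.mem_toFinset, mem_univ, iff_true]
      exact hmem j
    rw [h2, card_univ, Fintype.card_fin, List.length_map] at h1
    exact h1.symm
  let σ0 : Fin r → Fin r := fun i => (L[(i : ℕ)]'(by rw [hlen]; exact i.2)).1
  have hinj : Function.Injective σ0 := by
    intro i j hij
    have hi : (i : ℕ) < (L.map Prod.fst).length := by rw [List.length_map, hlen]; exact i.2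
    have hj : (j : ℕ) < (L.map Prod.fst).length := by rw [List.length_map, hlen]; exact j.2
    have h3 : (L.map Prod.fst)[(i : ℕ)] = (L.map Prod.fst)[(j : ℕ)] := by
      rw [List.getElem_map, List.getElem_map]
      exact hij
    exact Fin.ext ((hfst.getElem_inj_iff).1 h3)
  refine ⟨Equiv.ofBijective σ0 (Finite.injective_iff_bijective.1 hinj),
    fun i => (L[(i : ℕ)]'(by rw [hlen]; exact i.2)).2, s.length, ?_⟩
  rw [hL]
  congr 1
  apply List.ext_getElem
  · rw [List.length_map, List.length_ofFn, hlen]
  · intro i h1 h2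
    rw [List.getElem_map, List.getElem_ofFn]
    rfl

end Pool.CMK
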