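import Pool.Agent.CMK.StS
import Pool.Agent.CMK.Lib

/-!
# CMK: a linked system of paths
-/

set_option autoImplicit false

namespace Pool.CMK

open Finset
open scoped Classical

/-- the graph with one new vertex for every set -/
private def Link_G {V : Type} (G : SimpleGraph V) {r : ℕ} (D : Fin r → Finset V) :
    SimpleGraph (V ⊕ Fin r) where
  Adj a b := match a, b with
    | Sum.inl u, Sum.inl v => G.Adj u v
    | Sum.inl v, Sum.inr j => v ∈ D j
    | Sum.inr j, Sum.inl v => v ∈ D j
    | Sum.inr _, Sum.inr _ => False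
  symm := ⟨by
    rintro (a | a) (b | b) h
    · exact h.symm
    · exact h
    · exact h
    · exact h⟩
  loopless := ⟨by
    rintro (a | a) h
    · exact G.loopless.irrefl a h
    · exact h⟩

private theorem Link_sep {V : Type} [Fintype V] (G : SimpleGraph V) {r : ℕ} (D : Fin r → Finset V)
    (c : ℕ) (hD : ∀ j, c ≤ (D j).card) (A B : Finset (V ⊕ Fin r)) (hA : A.Nonempty)
    (h : ∀ a ∈ A, ∀ b ∈ B, ¬ (Link_G G D).Adj a b) (hA' : ∀ v : V, Sum.inl v ∉ A) :
    ∀ S : Finset (V ⊕ Fin r), (∀ x, x ∉ A → x ∉ B → x ∈ S) → c ≤ S.card := by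
  intro S hS
  obtain ⟨a, ha⟩ := hA
  cases a with
  | inl v => exact absurd ha (hA' v)
  | inr j =>
    refine (hD j).trans ?_
    rw [← Finset.card_map (⟨Sum.inl, Sum.inl_injective⟩ : V ↪ V ⊕ Fin r)]
    refine Finset.card_le_card ?_
    intro x hx
    rw [Finset.mem_map] at hx
    obtain ⟨v, hv, rfl⟩ := hx
    refine hS _ (hA' v) (fun hb => h _ ha _ hb ?_)
    exact hv

private theorem Link_SC {V : Type} [Fintype V] (G : SimpleGraph V) {r : ℕ} (D : Fin r → Finset V)
    (c : ℕ) (hG : SC G c) (hD : ∀ j, c ≤ (D j).card) : SC (Link_G G D) c := by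
  refine ⟨?_, ?_⟩
  · have := hG.1
    rw [Fintype.card_sum]
    omega
  · intro A B hA hB hdis h
    by_cases hA' : ∀ v : V, Sum.inl v ∉ A
    · exact Link_sep G D c hD A B hA h hA' _ (fun x h1 h2 => by
        simp only [Finset.mem_compl, Finset.mem_union, not_or]
        exact ⟨h1, h2⟩)
    by_cases hB' : ∀ v : V, Sum.inl v ∉ B
    · exact Link_sep G D c hD B A hB (fun a ha b hb hab => h b hb a ha hab.symm) hB' _
        (fun x h1 h2 => by
          simp only [Finset.mem_compl, Finset.mem_union, not_or]
          exact ⟨h2, h1⟩)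
    push Not at hA' hB'
    obtain ⟨v, hv⟩ := hA'
    obtain ⟨w, hw⟩ := hB'
    have key := hG.2 (univ.filter (fun v => Sum.inl v ∈ A)) (univ.filter (fun v => Sum.inl v ∈ B))
      ⟨v, by simpa using hv⟩ ⟨w, by simpa using hw⟩ ?_ ?_
    · refine key.trans ?_
      rw [← Finset.card_map (⟨Sum.inl, Sum.inl_injective⟩ : V ↪ V ⊕ Fin r)]
      refine Finset.card_le_card ?_
      intro x hx
      rw [Finset.mem_map] at hx
      obtain ⟨u, hu, rfl⟩ := hx
      simp only [Finset.mem_compl, Finset.mem_union, Finset.mem_filter, Finset.mem_univ,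
        true_and] at hu ⊢
      exact hu
    · rw [Finset.disjoint_left] at hdis ⊢
      intro u hu hu'
      simp only [Finset.mem_filter, Finset.mem_univ, true_and] at hu hu'
      exact hdis hu hu'
    · intro a ha b hb hab
      simp only [Finset.mem_filter, Finset.mem_univ, true_and] at ha hb
      exact h _ ha _ hb hab

/-- the block of a path -/
private def Link_b {V : Type} {r : ℕ} (σ : Equiv.Perm (Fin r)) (p : Fin r → List V) (i : Fin r) :
    List (V ⊕ Fin r) := Sum.inr (σ i) :: (p i).map Sum.inl

private theorem Link_chain {V : Type} (G : SimpleGraph V) {m : ℕ} (D : Fin (m + 1) → Finset V)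
    (σ : Equiv.Perm (Fin (m + 1))) (p : Fin (m + 1) → List V)
    (h : CycL (Link_G G D) (List.ofFn (Link_b σ p)).flatten) :
    (∀ i, (Link_b σ p i).IsChain (Link_G G D).Adj) ∧
    ∀ i, ∀ x ∈ (Link_b σ p i).getLast?, (Link_G G D).Adj x (Sum.inr (σ (finRotate (m + 1) i))) := by
  obtain ⟨h3, hn, hc, a, b, ha, hb, hab⟩ := h
  have hne : [] ∉ List.ofFn (Link_b σ p) := by
    intro h
    rw [List.mem_ofFn] at h
    obtain ⟨i, hi⟩ := h
    simp [Link_b] at hi
  rw [List.isChain_flatten hne] at hc
  obtain ⟨hc1, hc2⟩ := hc
  refine ⟨fun i => hc1 _ (by rw [List.mem_ofFn]; exact ⟨i, rfl⟩), ?_⟩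
  intro i x hx
  by_cases him : (i : ℕ) + 1 < m + 1
  · rw [List.isChain_iff_getElem] at hc2
    have h2 := hc2 i.1 (by simpa using him)
    simp only [List.getElem_ofFn] at h2
    have e : finRotate (m + 1) i = ⟨i.1 + 1, him⟩ := by
      rw [finRotate_of_lt (by omega)]
    rw [e]
    exact h2 x hx _ (by simp [Link_b])
  · have him' : i = Fin.last m := by
      apply Fin.ext
      have := i.2
      simp
      omega
    subst him'
    rw [finRotate_last]
    have e1 : a = Sum.inr (σ 0) := by
      rw [List.ofFn_succ] at ha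
      simp [Link_b] at ha
      exact ha.symm
    have e2 : b = x := by
      rw [List.ofFn_succ'] at hb
      simp only [List.concat_eq_append, List.flatten_append, List.flatten_cons, List.flatten_nil,
        List.append_nil] at hb
      rw [List.getLast?_append, hx] at hb
      simpa using hb.symm
    rw [← e1, ← e2]
    exact hab

theorem thm_Link (hDir : St_Dir) (hLinC : St_LinC) : St_Link := by
  intro V _ G c r D hG hc2 hr1 hrc hdis hD
  obtain ⟨C, hC, hCz⟩ := hDir (V ⊕ Fin r) (Link_G G D) c (univ.image Sum.inr)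
    (Link_SC G D c hG hD) hc2 (by
      refine Finset.card_image_le.trans ?_
      simpa using hrc)
  obtain ⟨σ, p, n, hn⟩ := hLinC V r C hr1 hC.2.1 (fun j => hCz _ (by simp))
  have hC' := lib_cyc_rotate hC n
  rw [hn] at hC'
  obtain ⟨m, rfl⟩ : ∃ m, r = m + 1 := ⟨r - 1, by omega⟩
  change CycL (Link_G G D) (List.ofFn (Link_b σ p)).flatten at hC'
  obtain ⟨k1, k2⟩ := Link_chain G D σ p hC'
  have hnod := hC'.2.1
  rw [List.nodup_flatten] at hnod
  obtain ⟨n1, n2⟩ := hnod
  rw [List.pairwise_ofFn] at n2
  have hne : ∀ i, p i ≠ [] := by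
    intro i hi
    have := k2 i (Sum.inr (σ i)) (by simp [Link_b, hi])
    exact this
  have hhd : ∀ i, ∃ x ∈ D (σ i), (p i).head? = some x := by
    intro i
    obtain ⟨x, q, hx⟩ := List.exists_cons_of_ne_nil (hne i)
    have := k1 i
    rw [Link_b, hx, List.map_cons, List.isChain_cons_cons] at this
    exact ⟨x, this.1, by rw [hx]; rfl⟩
  have hlst : ∀ i, ∃ y ∈ D (σ (finRotate (m + 1) i)), (p i).getLast? = some y := by
    intro i
    obtain ⟨y, hy⟩ : ∃ y, (p i).getLast? = some y := by
      cases h : (p i).getLast? with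
      | none => rw [List.getLast?_eq_none_iff] at h; exact absurd h (hne i)
      | some y => exact ⟨y, rfl⟩
    refine ⟨y, ?_, hy⟩
    have := k2 i (Sum.inl y) (by
      rw [Link_b, List.getLast?_cons, List.getLast?_map, hy]
      rfl)
    exact this
  refine ⟨σ, p, ?_, hhd, hlst, ?_⟩
  · intro i
    refine ⟨⟨hne i, ?_, ?_⟩, ?_⟩
    · have := n1 (Link_b σ p i) (by rw [List.mem_ofFn]; exact ⟨i, rfl⟩)
      rw [Link_b, List.nodup_cons] at this
      exact List.Nodup.of_map _ this.2
    · have := k1 i
      rw [Link_b] at this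
      have h2 := this.tail
      rw [List.tail_cons, List.isChain_map] at h2
      exact h2
    · by_contra hlt
      have hl1 : (p i).length = 1 := by
        have : (p i).length ≠ 0 := by
          intro h
          exact hne i (List.length_eq_zero_iff.1 h)
        omega
      obtain ⟨v, hv⟩ := List.length_eq_one_iff.1 hl1
      obtain ⟨x, hx, hx'⟩ := hhd i
      obtain ⟨y, hy, hy'⟩ := hlst i
      rw [hv] at hx' hy'
      simp only [List.head?_cons, Option.some.injEq, List.getLast?_singleton] at hx' hy'
      subst hx' hy'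
      by_cases hs : σ i = σ (finRotate (m + 1) i)
      · have hs' := σ.injective hs
        cases m with
        | zero =>
          have h3 := hC'.1
          rw [List.ofFn_succ] at h3
          have hi0 : i = 0 := Fin.ext (by
            have := i.2
            simp)
          subst hi0
          simp [Link_b, hv] at h3
        | succ m =>
          by_cases him : (i : ℕ) < m + 1
          · rw [finRotate_of_lt him] at hs'
            have := congrArg Fin.val hs'
            simp at this
          · have him' : i = Fin.last (m + 1) := by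
              apply Fin.ext
              have := i.2
              simp
              omega
            subst him'
            rw [finRotate_last] at hs'
            have := congrArg Fin.val hs'
            simp at this
      · exact Finset.disjoint_left.1 (hdis _ _ hs) hx hy
  · intro i j hij v hv hv'
    have hd : ∀ i j : Fin (m + 1), i < j → ∀ v ∈ p i, v ∉ p j := by
      intro i j hij v hv hv'
      have := n2 hij
      exact this (a := Sum.inl v) (by simp [Link_b, hv]) (by simp [Link_b, hv'])
    rcases lt_or_gt_of_ne hij with h | h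
    · exact hd i j h v hv hv'
    · exact hd j i h v hv' hv

end Pool.CMK
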