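import Pool.Agent.CMK.St2

/-!
# CMK: LSP, a locally sparse graph has cycles of `k` consecutive even lengths
-/

set_option autoImplicit false

namespace Pool.CMK

open Finset
open scoped Classical

/-- the bipartite subgraph of the edges between `A` and its complement -/
private def Lsp_F {V : Type} (G : SimpleGraph V) (A : Finset V) : SimpleGraph V where
  Adj u v := G.Adj u v ∧ (u ∈ A ↔ v ∉ A)
  symm := ⟨fun u v h => ⟨h.1.symm, by have := h.2; tauto⟩⟩
  loopless := ⟨fun u h => G.irrefl h.1⟩

private lemma Lsp_adF {V : Type} [Fintype V] (G : SimpleGraph V) (A : Finset V) :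
    2 * ad G A (univ \ A) ≤ ad (Lsp_F G A) univ univ := by
  unfold ad
  set P := (A ×ˢ (univ \ A)).filter (fun p => G.Adj p.1 p.2) with hP
  have h1 : (P.image Prod.swap).card = P.card :=
    Finset.card_image_of_injective _ Prod.swap_injective
  have hd : Disjoint P (P.image Prod.swap) := by
    rw [Finset.disjoint_left]
    rintro ⟨x, y⟩ hx hy
    rw [Finset.mem_image] at hy
    obtain ⟨⟨u, v⟩, huv, he⟩ := hy
    simp only [Prod.swap_prod_mk, Prod.mk.injEq] at he
    obtain ⟨rfl, rfl⟩ := he
    rw [hP, Finset.mem_filter, Finset.mem_product] at hx huv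
    exact (Finset.mem_sdiff.1 huv.1.2).2 hx.1.1
  have h2 : (P ∪ P.image Prod.swap).card = 2 * P.card := by
    rw [Finset.card_union_of_disjoint hd, h1]; ring
  rw [← h2]
  apply Finset.card_le_card
  rintro ⟨x, y⟩ hxy
  rw [Finset.mem_filter]
  refine ⟨by simp, ?_⟩
  rw [Finset.mem_union] at hxy
  rcases hxy with hx | hx
  · rw [hP, Finset.mem_filter, Finset.mem_product] at hx
    have h3 := (Finset.mem_sdiff.1 hx.1.2).2
    have h4 := hx.1.1
    exact ⟨hx.2, ⟨fun _ => h3, fun _ => h4⟩⟩
  · rw [Finset.mem_image] at hx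
    obtain ⟨⟨u, v⟩, huv, he⟩ := hx
    simp only [Prod.swap_prod_mk, Prod.mk.injEq] at he
    obtain ⟨rfl, rfl⟩ := he
    rw [hP, Finset.mem_filter, Finset.mem_product] at huv
    have h3 := (Finset.mem_sdiff.1 huv.1.2).2
    have h4 := huv.1.1
    exact ⟨huv.2.symm, ⟨fun h => absurd h h3, fun h => absurd h4 h⟩⟩

private lemma Lsp_adSum {V : Type} (G : SimpleGraph V) (X Y : Finset V) :
    ad G X Y = ∑ x ∈ X, (nbs G x Y).card := by
  unfold ad nbs
  rw [Finset.card_filter, Finset.sum_product]
  apply Finset.sum_congr rfl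
  intro x _
  rw [Finset.card_filter]

private lemma Lsp_glue {V : Type} (F : SimpleGraph V) (W : Finset V) (a b : V) (p q : List V)
    (h j : ℕ) (hh : 1 ≤ h) (hj : 1 ≤ j) (hp : PathFT F a b p) (hpl : p.length = 2 * h + 1)
    (hpW : ∀ w ∈ p, w = a ∨ w = b ∨ w ∉ W) (hq : PathFT F a b q) (hql : q.length = 2 * j + 1)
    (hqW : ∀ v ∈ q, v ∈ W) :
    ∃ l, CycL F l ∧ l.length = 2 * h + 2 * j := by
  have dec : ∀ (s : List V) (n : ℕ), 1 ≤ n → PathFT F a b s → s.length = 2 * n + 1 →
      ∃ m : List V, s = a :: (m ++ [b]) ∧ m.length + 2 = 2 * n + 1 := by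
    intro s n hn hs hl
    obtain ⟨⟨hne, hnd, hc⟩, hhd, hlst⟩ := hs
    cases s with
    | nil => exact absurd rfl hne
    | cons x t =>
      simp only [List.head?_cons, Option.some.injEq] at hhd
      subst hhd
      have ht : t ≠ [] := by
        intro h0
        subst h0
        simp at hl
        omega
      have h1 : t.getLast ht = b := by
        have h2 := hlst
        rw [List.getLast?_cons_of_ne_nil ht, List.getLast?_eq_some_getLast ht] at h2
        exact Option.some.inj h2
      refine ⟨t.dropLast, ?_, ?_⟩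
      · rw [← h1, List.dropLast_append_getLast ht]
      · rw [List.length_dropLast]
        simp only [List.length_cons] at hl
        omega
  obtain ⟨m, hm, hml⟩ := dec p h hh hp hpl
  obtain ⟨r, hr, hrl⟩ := dec q j hj hq hql
  obtain ⟨⟨_, hpn, hpc⟩, _, _⟩ := hp
  obtain ⟨⟨_, hqn, hqc⟩, _, _⟩ := hq
  subst hm hr
  have hrne : r ≠ [] := by
    intro h0
    rw [h0, List.length_nil] at hrl
    omega
  obtain ⟨c, r', rfl⟩ := List.exists_cons_of_ne_nil hrne
  have hac : F.Adj a c := by
    rw [List.cons_append, List.isChain_cons_cons] at hqc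
    exact hqc.1
  have hrev : (b :: ((c :: r').reverse ++ [a])).IsChain F.Adj := by
    have h1 : (a :: (c :: r' ++ [b])).reverse = b :: ((c :: r').reverse ++ [a]) := by
      simp
    rw [← h1, List.isChain_reverse]
    refine hqc.imp ?_
    intro x y hxy
    exact hxy.symm
  have hrev2 : (b :: (c :: r').reverse).IsChain F.Adj := by
    have h2 : b :: ((c :: r').reverse ++ [a]) = (b :: (c :: r').reverse) ++ [a] := by simp
    rw [h2] at hrev
    exact hrev.left_of_append
  refine ⟨(a :: m) ++ (b :: (c :: r').reverse), ⟨?_, ?_, ?_, ?_⟩, ?_⟩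
  · simp only [List.length_append, List.length_cons, List.length_reverse] at hml hrl ⊢
    omega
  · have e1 : a ∉ m ++ [b] := (List.nodup_cons.1 hpn).1
    have e2 : (m ++ [b]).Nodup := (List.nodup_cons.1 hpn).2
    have e3 : a ∉ (c :: r') ++ [b] := (List.nodup_cons.1 hqn).1
    have e4 : ((c :: r') ++ [b]).Nodup := (List.nodup_cons.1 hqn).2
    rw [List.nodup_append] at e2 e4
    obtain ⟨e21, _, e23⟩ := e2
    obtain ⟨e41, _, e43⟩ := e4
    rw [List.mem_append, not_or] at e1 e3
    have hab : a ≠ b := fun h0 => e1.2 (by simp [h0])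
    have hbm : b ∉ m := fun h0 => e23 b h0 b (by simp) rfl
    have hbr : b ∉ c :: r' := fun h0 => e43 b h0 b (by simp) rfl
    rw [List.nodup_append]
    refine ⟨List.nodup_cons.2 ⟨e1.1, e21⟩, List.nodup_cons.2 ⟨?_, ?_⟩, ?_⟩
    · rw [List.mem_reverse]; exact hbr
    · rw [List.nodup_reverse]; exact e41
    · intro x hx y hy hxy
      subst hxy
      rw [List.mem_cons] at hx hy
      rw [List.mem_reverse] at hy
      rcases hx with hx | hx
      · subst hx
        rcases hy with hy | hy
        · exact hab hy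
        · exact e3.1 hy
      · rcases hy with hy | hy
        · subst hy
          exact hbm hx
        · have hW : x ∈ W := hqW x (List.mem_cons_of_mem _ (List.mem_append_left _ hy))
          rcases hpW x (List.mem_cons_of_mem _ (List.mem_append_left _ hx)) with h1 | h1 | h1
          · subst h1; exact e1.1 hx
          · subst h1; exact hbm hx
          · exact h1 hW
  · rw [List.isChain_split]
    exact ⟨hpc, hrev2⟩
  · refine ⟨a, c, by simp, ?_, hac.symm⟩
    have h3 : (a :: m) ++ (b :: (c :: r').reverse) = (a :: (m ++ (b :: r'.reverse))) ++ [c] := by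
      simp
    rw [h3, List.getLast?_concat]
  · simp only [List.length_append, List.length_cons, List.length_reverse] at hml hrl ⊢
    omega

theorem thm_Lsp (hCut : St_Cut) (hPosa : St_Posa) (hTheta : St_Theta) (hLay : St_Lay) :
    St_Lsp := by
  intro V _ _ G k D hk hD hdense hsparse
  obtain ⟨A, _, hA⟩ := hCut V G univ
  have hFG : ∀ u v, (Lsp_F G A).Adj u v → G.Adj u v := fun u v h => h.1
  have hFA : ∀ u v, (Lsp_F G A).Adj u v → (u ∈ A ↔ v ∉ A) := fun u v h => h.2
  have hF0 := Lsp_adF G A
  generalize Lsp_F G A = F at hFG hFA hF0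
  have hD0 : 0 < D := by linarith
  have hbig : 24 * D * Fintype.card V ≤ (ad F univ univ : ℝ) := by
    have h1 : (ad G univ univ : ℝ) ≤ 4 * (ad G A (univ \ A) : ℝ) := by exact_mod_cast hA
    have h2 : 2 * (ad G A (univ \ A) : ℝ) ≤ (ad F univ univ : ℝ) := by exact_mod_cast hF0
    linarith
  obtain ⟨W, X, hWne, hXW, hdeg, hbip, hlay⟩ := hLay V F (fun v => decide (v ∈ A)) D hD0
    (by
      intro u v huv
      have h1 := hFA u v huv
      by_cases hu : u ∈ A
      · have hv := h1.1 hu
        simp [hu, hv]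
      · have hv : v ∈ A := by
          by_contra hv
          exact hu (h1.2 hv)
        simp [hu, hv]) hbig
  rcases hPosa V F W (2 * k + 2) hWne (by
      intro w hw
      have h1 := hdeg w hw
      have h2 : (3 : ℝ) ≤ ((nbs F w W).card : ℝ) := by linarith
      exact_mod_cast h2) with hcyc | hset
  · obtain ⟨l, hl, hlW, hlen, hch⟩ := hcyc
    have hbipl : ∀ u ∈ l, ∀ v ∈ l, F.Adj u v → (u ∈ X ↔ v ∉ X) := fun u hu v hv h =>
      hbip u (hlW u hu) v (hlW v hv) h
    have hX2 : 2 ≤ (X.filter (fun v => v ∈ l)).card := by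
      obtain ⟨_, hnd, hc, _⟩ := hl
      rw [List.isChain_iff_getElem] at hc
      have h01 := hc 0 (by omega)
      have h12 := hc 1 (by omega)
      have h23 := hc 2 (by omega)
      have m0 : l[0]'(by omega) ∈ l := List.getElem_mem _
      have m1 : l[1]'(by omega) ∈ l := List.getElem_mem _
      have m2 : l[2]'(by omega) ∈ l := List.getElem_mem _
      have m3 : l[3]'(by omega) ∈ l := List.getElem_mem _
      have b01 := hbipl _ m0 _ m1 h01
      have b12 := hbipl _ m1 _ m2 h12
      have b23 := hbipl _ m2 _ m3 h23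
      have n02 : l[0]'(by omega) ≠ l[2]'(by omega) := by
        intro h0
        have := (hnd.getElem_inj_iff).1 h0
        omega
      have n13 : l[1]'(by omega) ≠ l[3]'(by omega) := by
        intro h0
        have := (hnd.getElem_inj_iff).1 h0
        omega
      by_cases h0 : l[0]'(by omega) ∈ X
      · have h1 := b01.1 h0
        have h2 : l[2]'(by omega) ∈ X := by
          by_contra h2
          exact h1 (b12.2 h2)
        rw [← Finset.card_pair n02]
        apply Finset.card_le_card
        intro v hv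
        rw [Finset.mem_insert, Finset.mem_singleton] at hv
        rw [Finset.mem_filter]
        rcases hv with rfl | rfl
        · exact ⟨h0, m0⟩
        · exact ⟨h2, m2⟩
      · have h1 : l[1]'(by omega) ∈ X := by
          by_contra h1
          exact h0 (b01.2 h1)
        have h2 := b12.1 h1
        have h3 : l[3]'(by omega) ∈ X := by
          by_contra h3
          exact h2 (b23.2 h3)
        rw [← Finset.card_pair n13]
        apply Finset.card_le_card
        intro v hv
        rw [Finset.mem_insert, Finset.mem_singleton] at hv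
        rw [Finset.mem_filter]
        rcases hv with rfl | rfl
        · exact ⟨h1, m1⟩
        · exact ⟨h3, m3⟩
    obtain ⟨h, hh, A', hA', hAne, hBne, hpath⟩ := hlay (X.filter (fun v => v ∈ l))
      (Finset.filter_subset _ _) hX2
    refine ⟨h, ?_⟩
    intro j hj hjk
    obtain ⟨a0, ha0⟩ := hAne
    obtain ⟨b0, hb0⟩ := hBne
    have ha0' := Finset.mem_filter.1 (hA' ha0)
    rw [Finset.mem_sdiff, Finset.mem_filter] at hb0
    obtain ⟨a, b, q, hq, hql, hqin, haX, haT, hbX, hbT⟩ := hTheta V F X A' l hl hch hbipl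
      ⟨a0, ha0'.2, ha0'.1, ha0⟩ ⟨b0, hb0.1.2, hb0.1.1, hb0.2⟩ j hj (by omega)
    have hbq : b ∈ q := List.mem_of_getLast? hq.2.2
    obtain ⟨p, hp, hpl, hpW⟩ := hpath a haT b
      (Finset.mem_sdiff.2 ⟨Finset.mem_filter.2 ⟨hbX, hqin b hbq⟩, hbT⟩)
    obtain ⟨c, hc, hcl⟩ := Lsp_glue F W a b p q h j hh hj hp hpl hpW hq hql
      (fun v hv => hlW v (hqin v hv))
    refine ⟨c, ?_, hcl⟩
    obtain ⟨c1, c2, c3, x, y, c4, c5, c6⟩ := hc
    exact ⟨c1, c2, c3.imp (fun _ _ h0 => hFG _ _ h0), x, y, c4, c5, hFG _ _ c6⟩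
  · exfalso
    obtain ⟨S, hSW, hSne, h3, hL⟩ := hset
    set S' := S ∪ W.filter (fun w => ∃ s ∈ S, F.Adj s w) with hS'
    have hS'ne : S'.Nonempty := hSne.mono Finset.subset_union_left
    have h1 := hsparse S' hS'ne (by omega)
    have h2 : (ad F S' S' : ℝ) ≤ (ad G S' S' : ℝ) := by
      have : ad F S' S' ≤ ad G S' S' := by
        unfold ad
        apply Finset.card_le_card
        intro p hp
        rw [Finset.mem_filter] at hp ⊢
        exact ⟨hp.1, hFG _ _ hp.2⟩
      exact_mod_cast this
    have h4 : 6 * D * (S.card : ℝ) ≤ (ad F S' S' : ℝ) := by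
      have h5 : (ad F S' S' : ℝ) = ∑ x ∈ S', ((nbs F x S').card : ℝ) := by
        rw [Lsp_adSum]; push_cast; rfl
      rw [h5]
      calc 6 * D * (S.card : ℝ) = ∑ _x ∈ S, 6 * D := by
            rw [Finset.sum_const, nsmul_eq_mul]; ring
        _ ≤ ∑ x ∈ S, ((nbs F x S').card : ℝ) := by
            apply Finset.sum_le_sum
            intro x hx
            refine (hdeg x (hSW hx)).trans ?_
            have : (nbs F x W).card ≤ (nbs F x S').card := by
              apply Finset.card_le_card
              intro w hw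
              unfold nbs at hw ⊢
              rw [Finset.mem_filter] at hw ⊢
              refine ⟨?_, hw.2⟩
              rw [hS', Finset.mem_union, Finset.mem_filter]
              exact Or.inr ⟨hw.1, x, hx, hw.2⟩
            exact_mod_cast this
        _ ≤ ∑ x ∈ S', ((nbs F x S').card : ℝ) := by
            apply Finset.sum_le_sum_of_subset_of_nonneg Finset.subset_union_left
            intro x _ _
            positivity
    have h6 : (S'.card : ℝ) ≤ 3 * (S.card : ℝ) := by exact_mod_cast h3
    have h7 : 2 * D * (S'.card : ℝ) ≤ 2 * D * (3 * (S.card : ℝ)) :=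
      mul_le_mul_of_nonneg_left h6 (by linarith)
    linarith

end Pool.CMK
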