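import Pool.Agent.CMK.St1

/-!
# CMK, module MAD: a highly connected subgraph
-/

set_option autoImplicit false

namespace Pool.CMK

open Finset
open scoped Classical

private lemma Mad_ad_eq {V : Type} (G : SimpleGraph V) (X Y : Finset V) :
    ad G X Y = ∑ x ∈ X, (nbs G x Y).card := by
  unfold ad nbs
  rw [Finset.card_filter, Finset.sum_product]
  refine Finset.sum_congr rfl fun x _ => ?_
  rw [Finset.card_filter]

private lemma Mad_nbs_le {V : Type} (G : SimpleGraph V) (v : V) (X : Finset V) (hv : v ∈ X) :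
    (nbs G v X).card + 1 ≤ X.card := by
  have h : nbs G v X ⊆ X.erase v := by
    intro w hw
    unfold nbs at hw
    rw [Finset.mem_filter] at hw
    exact Finset.mem_erase.2 ⟨fun h => G.loopless.irrefl v (by rw [h] at hw; exact hw.2), hw.1⟩
  have h2 := Finset.card_le_card h
  have h3 := Finset.card_erase_add_one hv
  omega

private lemma Mad_ad_le {V : Type} (G : SimpleGraph V) (X : Finset V) :
    ad G X X + X.card ≤ X.card * X.card := by
  rw [Mad_ad_eq]
  have h : ∑ x ∈ X, ((nbs G x X).card + 1) ≤ ∑ _x ∈ X, X.card :=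
    Finset.sum_le_sum fun x hx => Mad_nbs_le G x X hx
  rw [Finset.sum_add_distrib] at h
  simpa using h

private lemma Mad_ad_erase {V : Type} (G : SimpleGraph V) (X : Finset V) (v : V) (hv : v ∈ X) :
    ad G X X ≤ ad G (X.erase v) (X.erase v) + 2 * (nbs G v X).card := by
  have h1 : ∀ x ∈ X.erase v, (nbs G x X).card ≤
      (nbs G x (X.erase v)).card + (if G.Adj v x then 1 else 0) := by
    intro x hx
    by_cases hvx : G.Adj v x
    · rw [if_pos hvx]
      have : nbs G x X ⊆ insert v (nbs G x (X.erase v)) := by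
        intro w hw
        unfold nbs at hw ⊢
        rw [Finset.mem_filter] at hw
        by_cases hwv : w = v
        · rw [hwv]; exact Finset.mem_insert_self _ _
        · exact Finset.mem_insert_of_mem
            (Finset.mem_filter.2 ⟨Finset.mem_erase.2 ⟨hwv, hw.1⟩, hw.2⟩)
      exact (Finset.card_le_card this).trans (Finset.card_insert_le _ _)
    · rw [if_neg hvx, Nat.add_zero]
      apply Finset.card_le_card
      intro w hw
      unfold nbs at hw ⊢
      rw [Finset.mem_filter] at hw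
      refine Finset.mem_filter.2 ⟨Finset.mem_erase.2 ⟨?_, hw.1⟩, hw.2⟩
      intro hwv
      apply hvx
      rw [← hwv]
      exact SimpleGraph.Adj.symm hw.2
  rw [Mad_ad_eq, Mad_ad_eq, ← Finset.add_sum_erase X _ hv]
  have h2 := Finset.sum_le_sum h1
  rw [Finset.sum_add_distrib] at h2
  have h3 : ∑ x ∈ X.erase v, (if G.Adj v x then 1 else 0) ≤ (nbs G v X).card := by
    rw [← Finset.card_filter]
    apply Finset.card_le_card
    intro w hw
    unfold nbs
    rw [Finset.mem_filter] at hw ⊢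
    exact ⟨Finset.mem_of_mem_erase hw.1, hw.2⟩
  omega

private lemma Mad_ad_sep {V : Type} (G : SimpleGraph V) (W A B : Finset V)
    (hd : Disjoint A B) (hAB : ∀ a ∈ A, ∀ b ∈ B, ¬ G.Adj a b) :
    ad G W W ≤ ad G (W \ B) (W \ B) + ad G (W \ A) (W \ A) := by
  have hd' : ∀ x, x ∈ A → x ∈ B → False := fun x h1 h2 => Finset.disjoint_left.1 hd h1 h2
  unfold ad
  refine (Finset.card_le_card ?_).trans (Finset.card_union_le _ _)
  rintro ⟨x, y⟩ h
  rw [Finset.mem_filter, Finset.mem_product] at h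
  obtain ⟨⟨hx, hy⟩, hxy⟩ := h
  simp only at hx hy hxy
  by_cases h1 : x ∈ B ∨ y ∈ B
  · apply Finset.mem_union_right
    rw [Finset.mem_filter, Finset.mem_product]
    refine ⟨⟨Finset.mem_sdiff.2 ⟨hx, ?_⟩, Finset.mem_sdiff.2 ⟨hy, ?_⟩⟩, hxy⟩
    · intro hxA
      rcases h1 with h1 | h1
      · exact hd' x hxA h1
      · exact hAB x hxA y h1 hxy
    · intro hyA
      rcases h1 with h1 | h1
      · exact hAB y hyA x h1 (SimpleGraph.Adj.symm hxy)
      · exact hd' y hyA h1
  · push Not at h1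
    apply Finset.mem_union_left
    rw [Finset.mem_filter, Finset.mem_product]
    exact ⟨⟨Finset.mem_sdiff.2 ⟨hx, h1.1⟩, Finset.mem_sdiff.2 ⟨hy, h1.2⟩⟩, hxy⟩

private lemma Mad_nbs_sub {V : Type} (G : SimpleGraph V) (W A B : Finset V) (hA : A ⊆ W)
    (hd : Disjoint A B) (hAB : ∀ a ∈ A, ∀ b ∈ B, ¬ G.Adj a b) (a : V) (ha : a ∈ A) :
    (nbs G a W).card + 1 ≤ (W \ B).card := by
  have h1 : nbs G a W ⊆ nbs G a (W \ B) := by
    intro w hw
    unfold nbs at hw ⊢
    rw [Finset.mem_filter] at hw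
    exact Finset.mem_filter.2 ⟨Finset.mem_sdiff.2 ⟨hw.1, fun hb => hAB a ha w hb hw.2⟩, hw.2⟩
  have h2 := Finset.card_le_card h1
  have h3 := Mad_nbs_le G a (W \ B) (Finset.mem_sdiff.2 ⟨hA ha, Finset.disjoint_left.1 hd ha⟩)
  omega

theorem thm_Mad : St_Mad := by
  intro V _ G α β hα hβ hβα hG
  obtain ⟨P, hP⟩ : ∃ P : Finset V → Prop, P = fun W => 2 * β ≤ (W.card : ℝ) ∧
    2 * α * ((W.card : ℝ) - β) < (ad G W W : ℝ) := ⟨_, rfl⟩
  have hPiff : ∀ W, P W ↔ (2 * β ≤ (W.card : ℝ) ∧
    2 * α * ((W.card : ℝ) - β) < (ad G W W : ℝ)) := by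
    intro W
    rw [hP]
  have huniv : P univ := by
    rw [hPiff]
    have h1 := Mad_ad_le G (univ : Finset V)
    have h2 : (ad G univ univ : ℝ) + ((univ : Finset V).card : ℝ) ≤
        ((univ : Finset V).card : ℝ) * ((univ : Finset V).card : ℝ) := by exact_mod_cast h1
    rw [← Finset.card_univ] at hG
    have h0 : (0 : ℝ) ≤ ((univ : Finset V).card : ℝ) := Nat.cast_nonneg _
    constructor
    · by_contra hcon
      push Not at hcon
      nlinarith
    · nlinarith
  have hex : ∃ n : ℕ, ∃ W : Finset V, P W ∧ W.card = n := ⟨_, univ, huniv, rfl⟩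
  obtain ⟨W, hPW, hWn⟩ := Nat.find_spec hex
  have hmin : ∀ W' : Finset V, W'.card < W.card → ¬ P W' := by
    intro W' hlt hPW'
    exact Nat.find_min hex (by rw [← hWn]; exact hlt) ⟨W', hPW', rfl⟩
  obtain ⟨hW1, hW2⟩ := (hPiff W).1 hPW
  have hadW : (ad G W W : ℝ) + (W.card : ℝ) ≤ (W.card : ℝ) * (W.card : ℝ) := by
    exact_mod_cast Mad_ad_le G W
  have hn0 : (0 : ℝ) ≤ (W.card : ℝ) := Nat.cast_nonneg _
  have hne : W.Nonempty := by
    rw [Finset.nonempty_iff_ne_empty]
    intro h
    rw [h] at hW2 hW1 hadW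
    simp only [Finset.card_empty, Nat.cast_zero] at hW2 hW1 hadW
    nlinarith
  have hdeg : ∀ v ∈ W, α < ((nbs G v W).card : ℝ) := by
    intro v hv
    by_contra hcon
    push Not at hcon
    have h1 := Mad_ad_erase G W v hv
    have h1' : (ad G W W : ℝ) ≤ (ad G (W.erase v) (W.erase v) : ℝ) + 2 * ((nbs G v W).card : ℝ) := by
      exact_mod_cast h1
    have h2 : ((W.erase v).card : ℝ) + 1 = (W.card : ℝ) := by
      exact_mod_cast Finset.card_erase_add_one hv
    have h3 := hmin (W.erase v) (Finset.card_erase_lt_of_mem hv)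
    rw [hPiff] at h3
    have h4 : ¬ (2 * β ≤ ((W.erase v).card : ℝ)) := by
      intro h5
      apply h3
      refine ⟨h5, ?_⟩
      nlinarith
    push Not at h4
    nlinarith
  refine ⟨W, hdeg, ?_, ?_⟩
  · obtain ⟨v, hv⟩ := hne
    have h1 : ((nbs G v W).card : ℝ) + 1 ≤ (W.card : ℝ) := by exact_mod_cast Mad_nbs_le G v W hv
    have h2 := hdeg v hv
    by_contra hcon
    push Not at hcon
    have h3 : ((W.card : ℝ) - α) * ((W.card : ℝ) - (2 * α - 2 * β)) ≤ 0 :=
      mul_nonpos_of_nonneg_of_nonpos (by linarith) (by linarith)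
    have h4 : (α - 2 * β) * ((W.card : ℝ) - 2 * α) ≤ 0 :=
      mul_nonpos_of_nonneg_of_nonpos (by linarith) (by linarith)
    nlinarith
  · intro A B hA hB hAn hBn hd hAB
    by_contra hcon
    push Not at hcon
    have hBA : ∀ b ∈ B, ∀ a ∈ A, ¬ G.Adj b a := fun b hb a ha h => hAB a ha b hb h.symm
    obtain ⟨a, ha⟩ := hAn
    obtain ⟨b, hb⟩ := hBn
    have h1 : ((nbs G a W).card : ℝ) + 1 ≤ ((W \ B).card : ℝ) := by
      exact_mod_cast Mad_nbs_sub G W A B hA hd hAB a ha
    have h2 : ((nbs G b W).card : ℝ) + 1 ≤ ((W \ A).card : ℝ) := by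
      exact_mod_cast Mad_nbs_sub G W B A hB hd.symm hBA b hb
    have h3 := hdeg a (hA ha)
    have h4 := hdeg b (hB hb)
    have h5 : (W \ B).card < W.card :=
      Finset.card_lt_card ⟨Finset.sdiff_subset, fun h => (Finset.mem_sdiff.1 (h (hB hb))).2 hb⟩
    have h6 : (W \ A).card < W.card :=
      Finset.card_lt_card ⟨Finset.sdiff_subset, fun h => (Finset.mem_sdiff.1 (h (hA ha))).2 ha⟩
    have h7 := hmin _ h5
    have h8 := hmin _ h6
    rw [hPiff] at h7 h8
    have h9 : (ad G (W \ B) (W \ B) : ℝ) ≤ 2 * α * (((W \ B).card : ℝ) - β) := by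
      by_contra hc
      push Not at hc
      exact h7 ⟨by linarith, hc⟩
    have h10 : (ad G (W \ A) (W \ A) : ℝ) ≤ 2 * α * (((W \ A).card : ℝ) - β) := by
      by_contra hc
      push Not at hc
      exact h8 ⟨by linarith, hc⟩
    have h11 : (ad G W W : ℝ) ≤ (ad G (W \ B) (W \ B) : ℝ) + (ad G (W \ A) (W \ A) : ℝ) := by
      exact_mod_cast Mad_ad_sep G W A B hd hAB
    have h12 : (W \ B).card + B.card = W.card := by
      rw [Finset.card_sdiff_of_subset hB]
      exact Nat.sub_add_cancel (Finset.card_le_card hB)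
    have h13 : (W \ A).card + A.card = W.card := by
      rw [Finset.card_sdiff_of_subset hA]
      exact Nat.sub_add_cancel (Finset.card_le_card hA)
    have h14 : (W \ (A ∪ B)).card + (A.card + B.card) = W.card := by
      rw [← Finset.card_union_of_disjoint hd, Finset.card_sdiff_of_subset (Finset.union_subset hA hB)]
      exact Nat.sub_add_cancel (Finset.card_le_card (Finset.union_subset hA hB))
    have h12' : ((W \ B).card : ℝ) + (B.card : ℝ) = (W.card : ℝ) := by exact_mod_cast h12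
    have h13' : ((W \ A).card : ℝ) + (A.card : ℝ) = (W.card : ℝ) := by exact_mod_cast h13
    have h14' : ((W \ (A ∪ B)).card : ℝ) + ((A.card : ℝ) + (B.card : ℝ)) = (W.card : ℝ) := by
      exact_mod_cast h14
    have h15 : ((W \ B).card : ℝ) + ((W \ A).card : ℝ) < (W.card : ℝ) + β := by linarith
    nlinarith

end Pool.CMK
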