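import Pool.Agent.CMK.St4

/-!
# CMK: the main theorem from Mader's theorem and the highly connected case (helper16)
-/

set_option autoImplicit false

namespace Pool.CMK

open Finset
open scoped Classical

private theorem Main_nbs {V : Type} (G : SimpleGraph V) (W : Finset V) (v : {x // x ∈ W}) :
    (nbs (G.comap (Subtype.val : {x // x ∈ W} → V)) v univ).card = (nbs G v.1 W).card := by
  rw [← Finset.card_map (Function.Embedding.subtype (fun x => x ∈ W))]
  congr 1
  ext w
  simp only [nbs, mem_map, mem_filter, mem_univ, true_and, SimpleGraph.comap_adj,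
    Function.Embedding.coe_subtype]
  constructor
  · rintro ⟨a, ha, rfl⟩
    exact ⟨a.2, ha⟩
  · rintro ⟨hw, ha⟩
    exact ⟨⟨w, hw⟩, ha, rfl⟩

private theorem Main_card {V : Type} (W T : Finset V) (S : Finset {x // x ∈ W}) (hT : T ⊆ W)
    (h : ∀ w, ∀ hw : w ∈ W, (w ∈ T ↔ (⟨w, hw⟩ : {x // x ∈ W}) ∈ S)) : T.card = S.card := by
  rw [← Finset.card_map (Function.Embedding.subtype (fun x => x ∈ W)) (s := S)]
  congr 1
  ext w
  simp only [mem_map, Function.Embedding.coe_subtype]
  constructor
  · intro hw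
    exact ⟨⟨w, hT hw⟩, (h w (hT hw)).1 hw, rfl⟩
  · rintro ⟨a, ha, rfl⟩
    exact (h a.1 a.2).2 ha

private theorem Main_cyc {V : Type} (G : SimpleGraph V) (W : Finset V)
    (l : List {x // x ∈ W}) (h : CycL (G.comap (Subtype.val : {x // x ∈ W} → V)) l) :
    CycL G (l.map Subtype.val) := by
  obtain ⟨h3, hnd, hch, a, b, ha, hb, hab⟩ := h
  refine ⟨by rw [List.length_map]; exact h3, hnd.map Subtype.val_injective, ?_, a.1, b.1, ?_, ?_, hab⟩
  · rw [List.isChain_map]
    exact hch
  · rw [List.head?_map, ha]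
    rfl
  · rw [List.getLast?_map, hb]
    rfl

theorem thm_Main (hMad : St_Mad) (hHC : St_HC) : St_Main := by
  intro ε hε
  obtain ⟨e, he, he1, hee⟩ : ∃ e : ℝ, 0 < e ∧ e ≤ 1 / 10 ∧ e ≤ ε :=
    ⟨min ε (1 / 10), lt_min hε (by norm_num), min_le_right _ _, min_le_left _ _⟩
  obtain ⟨δ, hδ, hδe, k₀, H⟩ := hHC e he he1
  refine ⟨max k₀ 3, fun k hk hodd V _ G hcyc => ?_⟩
  have hk0 : k₀ ≤ k := le_trans (le_max_left _ _) hk
  have hk3 : 3 ≤ k := le_trans (le_max_right _ _) hk
  have hkR : (3 : ℝ) ≤ k := by exact_mod_cast hk3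
  by_contra hcon
  rw [not_le] at hcon
  have hnn : (0 : ℝ) ≤ (Fintype.card V : ℝ) := Nat.cast_nonneg _
  have hbig : 2 * ((1 / 2 + e) * k) * (Fintype.card V : ℝ) < (ad G univ univ : ℝ) := by
    refine lt_of_le_of_lt ?_ hcon
    have : (e * k) * (Fintype.card V : ℝ) ≤ (ε * k) * (Fintype.card V : ℝ) :=
      mul_le_mul_of_nonneg_right (mul_le_mul_of_nonneg_right hee (by linarith)) hnn
    nlinarith [this]
  have hek : 0 < e * k := by positivity
  have hdk : 0 < δ * k := by positivity
  have hdek : 4 * (δ * k) ≤ e * k := by nlinarith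
  obtain ⟨W, hdeg, hcard, hsep⟩ := hMad V G ((1 / 2 + e) * k) (δ * k) (by positivity) hdk.le
    (by nlinarith) hbig
  set G' : SimpleGraph {x // x ∈ W} := G.comap (Subtype.val : {x // x ∈ W} → V) with hG'
  have hcW : (Fintype.card {x // x ∈ W}) = W.card := Fintype.card_coe W
  have hWk : (1 + e) * k ≤ (W.card : ℝ) := by nlinarith
  have hceil : (⌈δ * k⌉₊ : ℝ) < δ * k + 1 := Nat.ceil_lt_add_one hdk.le
  have hSC : SC G' ⌈δ * k⌉₊ := by
    refine ⟨?_, ?_⟩
    · rw [hcW]
      have h1 : (⌈δ * k⌉₊ : ℝ) + 1 ≤ (W.card : ℝ) := by nlinarith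
      exact_mod_cast h1
    · intro A B hA hB hAB hno
      rw [Nat.ceil_le]
      have h1 := hsep (A.map (Function.Embedding.subtype (fun x => x ∈ W)))
        (B.map (Function.Embedding.subtype (fun x => x ∈ W)))
        (by
          intro x hx
          rw [mem_map] at hx
          obtain ⟨a, _, rfl⟩ := hx
          exact a.2)
        (by
          intro x hx
          rw [mem_map] at hx
          obtain ⟨a, _, rfl⟩ := hx
          exact a.2)
        (hA.map) (hB.map) ((Finset.disjoint_map _).2 hAB)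
        (by
          intro a ha b hb
          rw [mem_map] at ha hb
          obtain ⟨a, ha, rfl⟩ := ha
          obtain ⟨b, hb, rfl⟩ := hb
          exact hno a ha b hb)
      refine le_trans h1 (le_of_eq ?_)
      congr 1
      refine Main_card W _ _ sdiff_subset ?_
      intro w hw
      simp only [mem_sdiff, mem_union, mem_map, mem_compl, Function.Embedding.coe_subtype]
      constructor
      · rintro ⟨_, hn⟩ h
        refine hn ?_
        rcases h with h | h
        · exact Or.inl ⟨_, h, rfl⟩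
        · exact Or.inr ⟨_, h, rfl⟩
      · intro hn
        refine ⟨hw, fun h => hn ?_⟩
        rcases h with ⟨b, hb, hba⟩ | ⟨b, hb, hba⟩
        · left
          have : b = ⟨w, hw⟩ := Subtype.ext hba
          rwa [← this]
        · right
          have : b = ⟨w, hw⟩ := Subtype.ext hba
          rwa [← this]
  obtain ⟨l, hl, hlk⟩ := H k hk0 hodd {x // x ∈ W} G' hSC (by rw [hcW]; exact hWk)
    (fun v => by rw [hG', Main_nbs]; exact (hdeg v.1 v.2).le)
  exact hcyc _ (Main_cyc G W l hl) (by rw [List.length_map]; exact hlk)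

end Pool.CMK
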