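import Pool.Agent.CMK.St3

/-!
# CMK, module MATCH: a large matching from the minimum degree (MP_3a51d2_co)
-/

set_option autoImplicit false

namespace Pool.CMK

open Finset
open scoped Classical

/-- the covered vertices, as a list -/
private def mcov {T : Type} (M : List (T × T)) : List T := M.flatMap (fun e => [e.1, e.2])

private lemma mcov_nil {T : Type} : mcov ([] : List (T × T)) = [] := rfl

private lemma mcov_cons {T : Type} (e : T × T) (M : List (T × T)) :
    mcov (e :: M) = e.1 :: e.2 :: mcov M := by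
  simp [mcov]

private lemma mcov_append {T : Type} (M N : List (T × T)) : mcov (M ++ N) = mcov M ++ mcov N := by
  simp [mcov]

private lemma mcov_length {T : Type} (M : List (T × T)) : (mcov M).length = 2 * M.length := by
  induction M with
  | nil => simp [mcov_nil]
  | cons e M ih => rw [mcov_cons]; simp only [List.length_cons, ih]; omega

private lemma mcov_sub {T : Type} {Γ : SimpleGraph T} {K : Finset T} {M : List (T × T)}
    (h : MatL Γ K M) : ∀ w ∈ mcov M, w ∈ K := by
  intro w hw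
  simp only [mcov, List.mem_flatMap, List.mem_cons, List.not_mem_nil, or_false] at hw
  obtain ⟨e, he, hw⟩ := hw
  rcases hw with rfl | rfl
  · exact (h.adj e he).2.1
  · exact (h.adj e he).2.2

private lemma mcov_card {T : Type} {Γ : SimpleGraph T} {K : Finset T} {M : List (T × T)}
    (h : MatL Γ K M) : (mcov M).toFinset.card = 2 * M.length := by
  rw [List.toFinset_card_of_nodup (by exact h.nod), mcov_length]

private lemma mcov_le {T : Type} {Γ : SimpleGraph T} {K : Finset T} {M : List (T × T)}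
    (h : MatL Γ K M) : 2 * M.length ≤ K.card := by
  rw [← mcov_card h]
  apply Finset.card_le_card
  intro w hw
  exact mcov_sub h w (List.mem_toFinset.mp hw)

private lemma count_le {T : Type} (Γ : SimpleGraph T) (u v : T) (M : List (T × T))
    (h : ∀ e ∈ M, (if Γ.Adj u e.1 then 1 else 0) + (if Γ.Adj u e.2 then 1 else 0) +
      ((if Γ.Adj v e.1 then 1 else 0) + (if Γ.Adj v e.2 then 1 else 0)) ≤ 2) :
    (mcov M).countP (fun w => decide (Γ.Adj u w)) + (mcov M).countP (fun w => decide (Γ.Adj v w)) ≤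
      2 * M.length := by
  induction M with
  | nil => simp [mcov_nil]
  | cons e M ih =>
    have h1 := h e (by simp)
    have h2 := ih (fun e he => h e (by simp [he]))
    rw [mcov_cons]
    simp only [List.countP_cons, decide_eq_true_eq, List.length_cons]
    omega

private lemma nbs_le {T : Type} (Γ : SimpleGraph T) (K : Finset T) (u : T) (M : List (T × T))
    (h : ∀ w ∈ K, Γ.Adj u w → w ∈ mcov M) :
    (nbs Γ u K).card ≤ (mcov M).countP (fun w => decide (Γ.Adj u w)) := by
  rw [List.countP_eq_length_filter]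
  refine le_trans (Finset.card_le_card ?_)
    (List.toFinset_card_le ((mcov M).filter (fun w => decide (Γ.Adj u w))))
  intro w hw
  simp only [nbs, Finset.mem_filter] at hw
  simp only [List.mem_toFinset, List.mem_filter, decide_eq_true_eq]
  exact ⟨h w hw.1 hw.2, hw.2⟩

private lemma swap_aux {T : Type} {Γ : SimpleGraph T} {K : Finset T} {M₁ M₂ : List (T × T)}
    {e : T × T} (h : MatL Γ K (M₁ ++ e :: M₂)) {u v a b : T} (hu : u ∈ K) (hv : v ∈ K)
    (huv : u ≠ v) (hu' : u ∉ mcov (M₁ ++ e :: M₂)) (hv' : v ∉ mcov (M₁ ++ e :: M₂))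
    (hab : (a = e.1 ∧ b = e.2) ∨ (a = e.2 ∧ b = e.1)) (hua : Γ.Adj u a) (hvb : Γ.Adj v b) :
    MatL Γ K ((u, a) :: (v, b) :: (M₁ ++ M₂)) := by
  have hnod : (mcov (M₁ ++ e :: M₂)).Nodup := h.nod
  have heK := (h.adj e (by simp)).2
  refine ⟨?_, ?_⟩
  · intro f hf
    simp only [List.mem_cons, List.mem_append] at hf
    rcases hf with rfl | rfl | hf
    · refine ⟨hua, hu, ?_⟩
      rcases hab with ⟨rfl, rfl⟩ | ⟨rfl, rfl⟩
      · exact heK.1
      · exact heK.2
    · refine ⟨hvb, hv, ?_⟩
      rcases hab with ⟨rfl, rfl⟩ | ⟨rfl, rfl⟩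
      · exact heK.2
      · exact heK.1
    · apply h.adj
      rcases hf with hf | hf <;> simp [hf]
  · change (mcov ((u, a) :: (v, b) :: (M₁ ++ M₂))).Nodup
    rw [mcov_append, mcov_cons] at hnod hu' hv'
    rw [mcov_cons, mcov_cons, mcov_append]
    dsimp only
    have hperm : List.Perm (u :: a :: v :: b :: (mcov M₁ ++ mcov M₂))
        (u :: v :: (mcov M₁ ++ e.1 :: e.2 :: mcov M₂)) := by
      refine List.Perm.cons u ?_
      refine List.Perm.trans (List.Perm.swap v a _) ?_
      refine List.Perm.cons v ?_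
      rcases hab with ⟨rfl, rfl⟩ | ⟨rfl, rfl⟩
      · refine List.Perm.symm ?_
        refine List.Perm.trans List.perm_middle ?_
        exact List.Perm.cons _ List.perm_middle
      · refine List.Perm.symm ?_
        refine List.Perm.trans List.perm_middle ?_
        refine List.Perm.trans (List.Perm.cons _ List.perm_middle) ?_
        exact List.Perm.swap _ _ _
    rw [hperm.nodup_iff, List.nodup_cons, List.nodup_cons]
    refine ⟨?_, hv', hnod⟩
    simp only [List.mem_cons, not_or]
    exact ⟨huv, hu'⟩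

private lemma augment {T : Type} (Γ : SimpleGraph T) (K : Finset T) (D : ℕ)
    (hD : ∀ v ∈ K, D ≤ (nbs Γ v K).card) (M : List (T × T)) (h : MatL Γ K M)
    (h1 : M.length < D) (h2 : 2 * M.length + 1 < K.card) :
    ∃ M' : List (T × T), MatL Γ K M' ∧ M'.length = M.length + 1 := by
  have hsub : (mcov M).toFinset ⊆ K := by
    intro w hw
    exact mcov_sub h w (List.mem_toFinset.mp hw)
  have hcard : 1 < (K \ (mcov M).toFinset).card := by
    rw [Finset.card_sdiff_of_subset hsub, mcov_card h]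
    omega
  obtain ⟨u, hu, v, hv, huv⟩ := Finset.one_lt_card.mp hcard
  simp only [Finset.mem_sdiff, List.mem_toFinset] at hu hv
  -- adding an edge
  have hadd : ∀ x y : T, x ∈ K → x ∉ mcov M → y ∈ K → y ∉ mcov M → Γ.Adj x y →
      ∃ M' : List (T × T), MatL Γ K M' ∧ M'.length = M.length + 1 := by
    intro x y hx hx' hy hy' hxy
    refine ⟨(x, y) :: M, ⟨?_, ?_⟩, by simp⟩
    · intro e he
      rcases List.mem_cons.mp he with rfl | he
      · exact ⟨hxy, hx, hy⟩
      · exact h.adj e he
    · change (mcov ((x, y) :: M)).Nodup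
      rw [mcov_cons]
      dsimp only
      rw [List.nodup_cons, List.nodup_cons]
      refine ⟨?_, hy', h.nod⟩
      simp only [List.mem_cons, not_or]
      exact ⟨hxy.ne, hx'⟩
  by_cases hA : ∃ w ∈ K, Γ.Adj u w ∧ w ∉ mcov M
  · obtain ⟨w, hw, hw1, hw2⟩ := hA
    exact hadd u w hu.1 hu.2 hw hw2 hw1
  by_cases hB : ∃ w ∈ K, Γ.Adj v w ∧ w ∉ mcov M
  · obtain ⟨w, hw, hw1, hw2⟩ := hB
    exact hadd v w hv.1 hv.2 hw hw2 hw1
  push Not at hA hB
  have h3 := nbs_le Γ K u M (fun w hw hw' => hA w hw hw')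
  have h4 := nbs_le Γ K v M (fun w hw hw' => hB w hw hw')
  have h5 := hD u hu.1
  have h6 := hD v hv.1
  by_cases hC : ∀ e ∈ M, (if Γ.Adj u e.1 then 1 else 0) + (if Γ.Adj u e.2 then 1 else 0) +
      ((if Γ.Adj v e.1 then 1 else 0) + (if Γ.Adj v e.2 then 1 else 0)) ≤ 2
  · have h7 := count_le Γ u v M hC
    omega
  push Not at hC
  obtain ⟨e, he, hlt⟩ := hC
  obtain ⟨M₁, M₂, rfl⟩ := List.append_of_mem he
  by_cases hc1 : Γ.Adj u e.1 ∧ Γ.Adj v e.2
  · exact ⟨_, swap_aux h hu.1 hv.1 huv hu.2 hv.2 (Or.inl ⟨rfl, rfl⟩) hc1.1 hc1.2, by simp; omega⟩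
  by_cases hc2 : Γ.Adj u e.2 ∧ Γ.Adj v e.1
  · exact ⟨_, swap_aux h hu.1 hv.1 huv hu.2 hv.2 (Or.inr ⟨rfl, rfl⟩) hc2.1 hc2.2, by simp; omega⟩
  exfalso
  by_cases a1 : Γ.Adj u e.1 <;> by_cases a2 : Γ.Adj u e.2 <;> by_cases a3 : Γ.Adj v e.1 <;>
    by_cases a4 : Γ.Adj v e.2 <;> simp [a1, a2, a3, a4] at hlt hc1 hc2

/-- MATCH: a large matching from the minimum degree. -/
theorem thm_Match : St_Match := by
  intro T Γ K D hD
  by_contra hcon
  push Not at hcon
  have hall : ∀ n : ℕ, ∃ M : List (T × T), MatL Γ K M ∧ M.length = n := by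
    intro n
    induction n with
    | zero => exact ⟨[], ⟨by simp, by simp⟩, rfl⟩
    | succ n ih =>
      obtain ⟨M, hM, rfl⟩ := ih
      have h1 := hcon M hM
      exact augment Γ K D hD M hM h1.1 h1.2
  obtain ⟨M, hM, hlen⟩ := hall (K.card + 1)
  have := mcov_le hM
  omega

end Pool.CMK
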