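import Pool.Agent.CMK.St2
import Pool.Agent.CMK.Lib

/-!
# CMK: a pair which maximises `e(A,B) m^(τ-2)` (`thm_MaxP`)
-/

set_option autoImplicit false

namespace Pool.CMK

open Finset
open scoped Classical

private theorem MaxP_avg {V : Type} (f : V → ℕ) (k : ℕ) : ∀ (j : ℕ) (Y : Finset V),
    Y.card = k + j →
    ∃ Y' ⊆ Y, Y'.card = k ∧ k * ∑ v ∈ Y, f v ≤ Y.card * ∑ v ∈ Y', f v := by
  intro j
  induction j with
  | zero =>
    intro Y hY
    exact ⟨Y, Finset.Subset.refl _, by simpa using hY, by rw [hY]; simp⟩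
  | succ j ih =>
    intro Y hY
    have hne : Y.Nonempty := Finset.card_pos.mp (by omega)
    obtain ⟨v, hv, hmin⟩ := Finset.exists_min_image Y f hne
    have hc : (Y.erase v).card = k + j := by
      rw [Finset.card_erase_of_mem hv]; omega
    obtain ⟨Y', hY', hk, hle⟩ := ih (Y.erase v) hc
    refine ⟨Y', hY'.trans (Finset.erase_subset _ _), hk, ?_⟩
    have h1 : Y.card * f v ≤ ∑ w ∈ Y, f w := by
      rw [← smul_eq_mul]
      exact Finset.card_nsmul_le_sum _ _ _ (fun w hw => hmin w hw)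
    have h2 : f v + ∑ w ∈ Y.erase v, f w = ∑ w ∈ Y, f w := Finset.add_sum_erase _ _ hv
    rw [hc] at hle
    obtain ⟨T, hT⟩ : ∃ T, T = ∑ w ∈ Y, f w := ⟨_, rfl⟩
    obtain ⟨T1, hT1⟩ : ∃ T1, T1 = ∑ w ∈ Y.erase v, f w := ⟨_, rfl⟩
    obtain ⟨T2, hT2⟩ : ∃ T2, T2 = ∑ w ∈ Y', f w := ⟨_, rfl⟩
    rw [← hT] at h1 h2
    rw [← hT1] at h2 hle
    rw [← hT2] at hle
    rw [← hT, ← hT2, hY]
    rw [hY] at h1
    rcases Nat.eq_zero_or_pos (k + j) with h0 | h0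
    · have : k = 0 := by omega
      subst this
      simp
    · have e1 : (k + j) * T ≤ (k + (j + 1)) * T1 := by nlinarith
      have e2 : k * ((k + j) * T) ≤ k * ((k + (j + 1)) * T1) := Nat.mul_le_mul_left k e1
      have e3 : (k + (j + 1)) * (k * T1) ≤ (k + (j + 1)) * ((k + j) * T2) :=
        Nat.mul_le_mul_left _ hle
      have : (k + j) * (k * T) ≤ (k + j) * ((k + (j + 1)) * T2) := by
        calc (k + j) * (k * T) = k * ((k + j) * T) := by ring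
          _ ≤ k * ((k + (j + 1)) * T1) := e2
          _ = (k + (j + 1)) * (k * T1) := by ring
          _ ≤ (k + (j + 1)) * ((k + j) * T2) := e3
          _ = (k + j) * ((k + (j + 1)) * T2) := by ring
      exact Nat.le_of_mul_le_mul_left this h0

private theorem MaxP_top {V : Type} (G : SimpleGraph V) (X Y : Finset V) (k : ℕ)
    (hk : k ≤ Y.card) : ∃ Y' ⊆ Y, Y'.card = k ∧ k * ad G X Y ≤ Y.card * ad G X Y' := by
  obtain ⟨Y', h1, h2, h3⟩ := MaxP_avg (fun v => (nbs G v X).card) k (Y.card - k) Y (by omega)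
  refine ⟨Y', h1, h2, ?_⟩
  rw [lib_ad_comm G X Y, lib_ad_comm G X Y', lib_ad_eq_sum, lib_ad_eq_sum]
  exact h3

private theorem MaxP_pow (x τ : ℝ) (hx : 0 < x) : x ^ 2 * x ^ (τ - 2) = x ^ τ := by
  rw [← Real.rpow_natCast, ← Real.rpow_add hx]
  congr 1
  push_cast
  ring

/-- the bound for a pair with `|X| ≤ |Y|` -/
private theorem MaxP_bd (x y m : ℕ) (d τ e e' : ℝ) (hx : 1 ≤ x) (hm : 1 ≤ m)
    (h1 : (x : ℝ) * e ≤ y * e') (h2 : e' * (x : ℝ) ^ (τ - 2) ≤ d * (m : ℝ) ^ τ) :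
    e ≤ d * x * y * ((m : ℝ) / x) ^ τ := by
  have hx0 : (0 : ℝ) < x := by exact_mod_cast hx
  have hm0 : (0 : ℝ) < m := by exact_mod_cast hm
  have hy0 : (0 : ℝ) ≤ y := by positivity
  have hpx : 0 < (x : ℝ) ^ τ := Real.rpow_pos_of_pos hx0 _
  have e1 : (x : ℝ) ^ (τ - 2) = (x : ℝ) ^ τ / x ^ 2 := by
    rw [Real.rpow_sub hx0]
    norm_cast
  rw [e1] at h2
  rw [Real.div_rpow hm0.le hx0.le]
  have h3 : e' ≤ d * (m : ℝ) ^ τ * x ^ 2 / x ^ τ := by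
    rw [le_div_iff₀ hpx]
    have : e' * ((x : ℝ) ^ τ / x ^ 2) * x ^ 2 = e' * x ^ τ := by
      field_simp
    calc e' * (x : ℝ) ^ τ = e' * ((x : ℝ) ^ τ / x ^ 2) * x ^ 2 := this.symm
      _ ≤ d * (m : ℝ) ^ τ * x ^ 2 := mul_le_mul_of_nonneg_right h2 (by positivity)
  have h4 : (x : ℝ) * e ≤ x * (d * x * y * ((m : ℝ) ^ τ / x ^ τ)) := by
    calc (x : ℝ) * e ≤ y * e' := h1
      _ ≤ y * (d * (m : ℝ) ^ τ * x ^ 2 / x ^ τ) := mul_le_mul_of_nonneg_left h3 hy0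
      _ = x * (d * x * y * ((m : ℝ) ^ τ / x ^ τ)) := by
          field_simp
  exact le_of_mul_le_mul_left h4 hx0

theorem thm_MaxP (hCut : St_Cut) : St_MaxP := by
  intro V G S ρ τ hρ hρ1 hτ hτ1 hτρ hS hdens
  have hn0 : (2 : ℝ) ≤ S.card := by exact_mod_cast hS
  -- the cut
  obtain ⟨A₀, B₀, hA₀, hB₀, hdis₀, hle₀, hsum₀, had₀⟩ : ∃ A₀ B₀ : Finset V, A₀ ⊆ S ∧ B₀ ⊆ S ∧
      Disjoint A₀ B₀ ∧ A₀.card ≤ B₀.card ∧ A₀.card + B₀.card = S.card ∧
      ad G S S ≤ 4 * ad G A₀ B₀ := by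
    obtain ⟨A, hA, h⟩ := hCut V G S
    have hc : A.card + (S \ A).card = S.card := by
      have := Finset.card_sdiff_add_card_eq_card hA
      omega
    rcases le_total A.card (S \ A).card with hle | hle
    · exact ⟨A, S \ A, hA, Finset.sdiff_subset, Finset.disjoint_sdiff, hle, hc, h⟩
    · refine ⟨S \ A, A, Finset.sdiff_subset, hA, Finset.disjoint_sdiff.symm, hle, by omega, ?_⟩
      rw [lib_ad_comm G (S \ A) A]
      exact h
  obtain ⟨B₁, hB₁, hB₁c, htop⟩ := MaxP_top G A₀ B₀ A₀.card hle₀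
  have hdR : ρ * (S.card : ℝ) ^ 2 ≤ 4 * (ad G A₀ B₀ : ℝ) := by
    refine hdens.trans ?_
    exact_mod_cast had₀
  have hsumR : (A₀.card : ℝ) + B₀.card = S.card := by exact_mod_cast hsum₀
  have hA₀0 : (0 : ℝ) ≤ A₀.card := by positivity
  have hB₀0 : (0 : ℝ) ≤ B₀.card := by positivity
  have hadle : (ad G A₀ B₀ : ℝ) ≤ A₀.card * B₀.card := by exact_mod_cast lib_ad_le G A₀ B₀
  have hm₀ : ρ * S.card / 4 ≤ (A₀.card : ℝ) := by
    have h1 : ρ * (S.card : ℝ) ^ 2 ≤ 4 * (A₀.card * S.card) := by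
      refine hdR.trans ?_
      have : (A₀.card : ℝ) * B₀.card ≤ A₀.card * S.card :=
        mul_le_mul_of_nonneg_left (by linarith) hA₀0
      linarith
    have h2 : S.card * (ρ * S.card / 4) ≤ S.card * (A₀.card : ℝ) := by nlinarith
    exact le_of_mul_le_mul_left h2 (by linarith)
  have hm₀pos : (0 : ℝ) < A₀.card := lt_of_lt_of_le (by positivity) hm₀
  have hm₀1 : 1 ≤ A₀.card := by exact_mod_cast hm₀pos
  have hB₀pos : (0 : ℝ) < B₀.card := lt_of_lt_of_le hm₀pos (by exact_mod_cast hle₀)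
  have htopR : (A₀.card : ℝ) * ad G A₀ B₀ ≤ B₀.card * ad G A₀ B₁ := by exact_mod_cast htop
  have hden₁ : ρ * (A₀.card : ℝ) ^ 2 ≤ (ad G A₀ B₁ : ℝ) := by
    have h1 : 4 * ((A₀.card : ℝ) * B₀.card) ≤ (S.card : ℝ) ^ 2 := by
      rw [← hsumR]; nlinarith [sq_nonneg ((A₀.card : ℝ) - B₀.card)]
    have h2 : ρ * ((A₀.card : ℝ) * B₀.card) ≤ (ad G A₀ B₀ : ℝ) := by nlinarith
    have h3 : (B₀.card : ℝ) * (ρ * (A₀.card : ℝ) ^ 2) ≤ B₀.card * (ad G A₀ B₁ : ℝ) := by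
      refine le_trans ?_ htopR
      have := mul_le_mul_of_nonneg_left h2 hA₀0
      calc (B₀.card : ℝ) * (ρ * (A₀.card : ℝ) ^ 2)
          = A₀.card * (ρ * ((A₀.card : ℝ) * B₀.card)) := by ring
        _ ≤ A₀.card * ad G A₀ B₀ := this
    exact le_of_mul_le_mul_left h3 hB₀pos
  -- the maximal pair
  obtain ⟨P, hP⟩ : ∃ P : Finset (Finset V × Finset V), P = (S.powerset ×ˢ S.powerset).filter
      (fun p => Disjoint p.1 p.2 ∧ p.1.card = p.2.card ∧ 1 ≤ p.1.card) := ⟨_, rfl⟩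
  have hmem : ∀ A B : Finset V, (A, B) ∈ P ↔
      A ⊆ S ∧ B ⊆ S ∧ Disjoint A B ∧ A.card = B.card ∧ 1 ≤ A.card := by
    intro A B
    rw [hP, Finset.mem_filter, Finset.mem_product, Finset.mem_powerset, Finset.mem_powerset]
    tauto
  have h01 : (A₀, B₁) ∈ P := by
    rw [hmem]
    exact ⟨hA₀, hB₁.trans hB₀, hdis₀.mono_right hB₁, hB₁c.symm, hm₀1⟩
  obtain ⟨⟨A, B⟩, hABP, hmax⟩ := Finset.exists_max_image P
    (fun p => (ad G p.1 p.2 : ℝ) * (p.1.card : ℝ) ^ (τ - 2)) ⟨_, h01⟩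
  obtain ⟨hA, hB, hdis, hcard, hA1⟩ := (hmem A B).mp hABP
  have hmax' : ∀ X Y : Finset V, X ⊆ S → Y ⊆ S → Disjoint X Y → X.card = Y.card → 1 ≤ X.card →
      (ad G X Y : ℝ) * (X.card : ℝ) ^ (τ - 2) ≤ (ad G A B : ℝ) * (A.card : ℝ) ^ (τ - 2) :=
    fun X Y h1 h2 h3 h4 h5 => hmax (X, Y) ((hmem X Y).mpr ⟨h1, h2, h3, h4, h5⟩)
  have hMpos : (0 : ℝ) < A.card := by exact_mod_cast hA1
  obtain ⟨d, hd⟩ : ∃ d : ℝ, d = (ad G A B : ℝ) / (A.card : ℝ) ^ 2 := ⟨_, rfl⟩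
  have hadd : (ad G A B : ℝ) = d * (A.card : ℝ) ^ 2 := by
    rw [hd, div_mul_cancel₀ _ (pow_pos hMpos 2).ne']
  have hPhi : (ad G A B : ℝ) * (A.card : ℝ) ^ (τ - 2) = d * (A.card : ℝ) ^ τ := by
    rw [hadd, mul_assoc, MaxP_pow _ _ hMpos]
  have hMτ : 0 < (A.card : ℝ) ^ τ := Real.rpow_pos_of_pos hMpos _
  have hm₀τ : 0 < (A₀.card : ℝ) ^ τ := Real.rpow_pos_of_pos hm₀pos _
  have hkey : ρ * (A₀.card : ℝ) ^ τ ≤ d * (A.card : ℝ) ^ τ := by
    have h1 := hmax' A₀ B₁ hA₀ (hB₁.trans hB₀) (hdis₀.mono_right hB₁) hB₁c.symm hm₀1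
    rw [hPhi] at h1
    refine le_trans ?_ h1
    calc ρ * (A₀.card : ℝ) ^ τ = ρ * (A₀.card : ℝ) ^ 2 * (A₀.card : ℝ) ^ (τ - 2) := by
          rw [← MaxP_pow _ τ hm₀pos, mul_assoc]
      _ ≤ (ad G A₀ B₁ : ℝ) * (A₀.card : ℝ) ^ (τ - 2) :=
          mul_le_mul_of_nonneg_right hden₁ (Real.rpow_pos_of_pos hm₀pos _).le
  have hd1 : d ≤ 1 := by
    rw [hd, div_le_one (pow_pos hMpos 2)]
    have h1 : (ad G A B : ℝ) ≤ A.card * B.card := by exact_mod_cast lib_ad_le G A B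
    rw [← hcard] at h1
    linarith [sq (A.card : ℝ)]
  have hM2 : 2 * (A.card : ℝ) ≤ S.card := by
    have h1 : (A ∪ B).card ≤ S.card := Finset.card_le_card (Finset.union_subset hA hB)
    rw [Finset.card_union_of_disjoint hdis, ← hcard] at h1
    have : ((A.card + A.card : ℕ) : ℝ) ≤ S.card := by exact_mod_cast h1
    push_cast at this
    linarith
  have hdρ : ρ / 2 ≤ d := by
    have h1 : ρ / 2 ≤ (A₀.card : ℝ) / A.card := by
      rw [le_div_iff₀ hMpos]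
      nlinarith
    have h2 : 1 / 2 ≤ ((A₀.card : ℝ) / A.card) ^ τ :=
      hτρ.trans (Real.rpow_le_rpow (by positivity) h1 hτ.le)
    rw [Real.div_rpow hm₀pos.le hMpos.le] at h2
    have h3 : ρ * ((A₀.card : ℝ) ^ τ / (A.card : ℝ) ^ τ) ≤ d := by
      rw [← mul_div_assoc, div_le_iff₀ hMτ]
      exact hkey
    calc ρ / 2 = ρ * (1 / 2) := by ring
      _ ≤ ρ * ((A₀.card : ℝ) ^ τ / (A.card : ℝ) ^ τ) := mul_le_mul_of_nonneg_left h2 hρ.le
      _ ≤ d := h3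
  have hd0 : 0 < d := lt_of_lt_of_le (by positivity) hdρ
  refine ⟨A, B, A.card, d, hA, hB, hdis, rfl, hcard.symm, hA1, hadd, hdρ, hd1, ?_, ?_⟩
  · -- the size
    have h1 : ρ * (A₀.card : ℝ) ^ τ ≤ (A.card : ℝ) ^ τ := by
      refine hkey.trans ?_
      calc d * (A.card : ℝ) ^ τ ≤ 1 * (A.card : ℝ) ^ τ :=
            mul_le_mul_of_nonneg_right hd1 hMτ.le
        _ = (A.card : ℝ) ^ τ := one_mul _
    have h2 : (ρ ^ (1 / τ) * A₀.card) ^ τ ≤ (A.card : ℝ) ^ τ := by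
      rw [Real.mul_rpow (by positivity) hm₀pos.le, ← Real.rpow_mul hρ.le,
        one_div_mul_cancel hτ.ne', Real.rpow_one]
      exact h1
    have h3 : ρ ^ (1 / τ) * A₀.card ≤ (A.card : ℝ) :=
      (Real.rpow_le_rpow_iff (mul_nonneg (Real.rpow_nonneg hρ.le _) hm₀pos.le) hMpos.le hτ).mp h2
    refine le_trans ?_ h3
    rw [mul_assoc]
    refine mul_le_mul_of_nonneg_left ?_ (by positivity)
    linarith
  · intro X Y hX hY hXn hYn
    have hX1 : 1 ≤ X.card := Finset.card_pos.mpr hXn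
    have hY1 : 1 ≤ Y.card := Finset.card_pos.mpr hYn
    rcases le_total X.card Y.card with hxy | hxy
    · rw [min_eq_left hxy]
      obtain ⟨Y', hY', hY'c, ht⟩ := MaxP_top G X Y X.card hxy
      have h1 := hmax' X Y' (hX.trans hA) ((hY'.trans hY).trans hB)
        (hdis.mono hX (hY'.trans hY)) hY'c.symm hX1
      rw [hPhi] at h1
      exact MaxP_bd X.card Y.card A.card d τ _ _ hX1 hA1 (by exact_mod_cast ht) h1
    · rw [min_eq_right hxy]
      obtain ⟨X', hX', hX'c, ht⟩ := MaxP_top G Y X Y.card hxy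
      have h1 := hmax' X' Y ((hX'.trans hX).trans hA) (hY.trans hB)
        (hdis.mono (hX'.trans hX) hY) hX'c (by omega)
      rw [hPhi, hX'c, lib_ad_comm G X' Y] at h1
      have h2 := MaxP_bd Y.card X.card A.card d τ (ad G Y X : ℝ) (ad G Y X' : ℝ) hY1 hA1
        (by exact_mod_cast ht) h1
      rw [lib_ad_comm G X Y]
      calc (ad G Y X : ℝ) ≤ d * Y.card * X.card * ((A.card : ℝ) / Y.card) ^ τ := h2
        _ = d * X.card * Y.card * ((A.card : ℝ) / Y.card) ^ τ := by ring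

end Pool.CMK
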