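import Pool.Agent.CMK.St1

/-!
# CMK: PP, connecting two vertices through a pair, with prescribed length
-/

set_option autoImplicit false

namespace Pool.CMK

open Finset
open scoped Classical

private theorem PP_count (c : ℕ → Bool) (b : Bool) : ∀ n : ℕ,
    (∀ i, i + 1 < n → c (i + 1) = !c i) →
    n / 2 ≤ ((Finset.range n).filter (fun i => c i = b)).card := by
  intro n
  induction n using Nat.twoStepInduction with
  | zero => intro _; simp
  | one => intro _; simp
  | more n ih _ =>
    intro h
    have h1 := ih (fun i hi => h i (by omega))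
    have hn : c (n + 1) = !c n := h n (by omega)
    have e1 : (Finset.range (n + 2)).filter (fun i => c i = b) =
        (if c (n + 1) = b then insert (n + 1) ((Finset.range (n + 1)).filter (fun i => c i = b))
          else ((Finset.range (n + 1)).filter (fun i => c i = b))) := by
      rw [Finset.range_add_one (n := n + 1), Finset.filter_insert]
    have e2 : (Finset.range (n + 1)).filter (fun i => c i = b) =
        (if c n = b then insert n ((Finset.range n).filter (fun i => c i = b))
          else ((Finset.range n).filter (fun i => c i = b))) := by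
      rw [Finset.range_add_one (n := n), Finset.filter_insert]
    by_cases hb : c n = b
    · have hne : ¬ c (n + 1) = b := by
        rw [hn, hb]
        cases b <;> simp
      rw [e1, if_neg hne, e2, if_pos hb, Finset.card_insert_of_notMem (by simp)]
      omega
    · have hne : c (n + 1) = b := by
        rw [hn]
        cases hcn : c n <;> cases hbb : b <;> simp_all
      rw [e1, if_pos hne, Finset.card_insert_of_notMem (by simp), e2, if_neg hb]
      omega

private theorem PP_side (c : ℕ → Bool) (n i : ℕ) (h : ∀ i, i + 1 < n → c (i + 1) = !c i) :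
    ∀ s : ℕ, i + s < n → c (i + s) = if Even s then c i else !c i := by
  intro s
  induction s with
  | zero => intro _; simp
  | succ s ih =>
    intro hs
    have h1 := ih (by omega)
    have h2 := h (i + s) (by omega)
    have h3 : i + (s + 1) = i + s + 1 := by omega
    rw [h3, h2, h1]
    by_cases he : Even s
    · have : ¬ Even (s + 1) := by
        intro h'
        exact (Nat.even_add_one.mp h') he
      rw [if_pos he, if_neg this]
    · have : Even (s + 1) := Nat.even_add_one.mpr he
      rw [if_neg he, if_pos this]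
      simp

private theorem PP_bool : ∀ a b : Bool, a ≠ b → (!!a) = !b := by decide

theorem thm_PP (hAlt : St_Alt) : St_PP := by
  intro V _ G A B m g u U x y sx sy L hAB hA hB hg hP1 hU hxy hx hy hL hpar hLm
  obtain ⟨S, hS⟩ : ∃ S : Bool → Finset V, S = fun b => if b then A else B := ⟨_, rfl⟩
  have hSt : S true = A := by rw [hS]; simp
  have hSf : S false = B := by rw [hS]; simp
  have hSsub : ∀ b, S b ⊆ A ∪ B := by
    intro b
    cases b
    · rw [hSf]; exact Finset.subset_union_right
    · rw [hSt]; exact Finset.subset_union_left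
  have hx' : u + 2 * g + 2 ≤ (nbs G x (S sx)).card := by rw [hS]; exact hx
  have hy' : u + 2 * g + 2 ≤ (nbs G y (S sy)).card := by rw [hS]; exact hy
  have hPS : ∀ b, ∀ X Y : Finset V, X ⊆ S b → Y ⊆ S (!b) → g ≤ X.card → g ≤ Y.card →
      ∃ a ∈ X, ∃ c ∈ Y, G.Adj a c := by
    intro b X Y hX hY h1 h2
    cases b
    · rw [hSf] at hX
      simp only [Bool.not_false] at hY
      rw [hSt] at hY
      obtain ⟨p, hp, q, hq, h⟩ := hP1 Y X hY hX h2 h1
      exact ⟨q, hq, p, hp, h.symm⟩
    · rw [hSt] at hX
      simp only [Bool.not_true] at hY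
      rw [hSf] at hY
      exact hP1 X Y hX hY h1 h2
  -- the forbidden set
  obtain ⟨F, hF⟩ : ∃ F : Finset V, F = (U ∪ {x, y}) ∩ (A ∪ B) := ⟨_, rfl⟩
  have hFc : F.card ≤ u + 2 := by
    rw [hF, Finset.union_inter_distrib_right]
    have h1 := Finset.card_union_le (U ∩ (A ∪ B)) ({x, y} ∩ (A ∪ B))
    have h2 : (({x, y} : Finset V) ∩ (A ∪ B)).card ≤ 2 :=
      (Finset.card_le_card Finset.inter_subset_left).trans Finset.card_le_two
    omega
  obtain ⟨Nx, hNx, hNxc⟩ : ∃ N ⊆ nbs G x (S sx) \ F, N.card = g := by
    apply Finset.exists_subset_card_eq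
    have := Finset.le_card_sdiff F (nbs G x (S sx))
    omega
  obtain ⟨Ny, hNy, hNyc⟩ : ∃ N ⊆ nbs G y (S sy) \ (F ∪ Nx), N.card = g := by
    apply Finset.exists_subset_card_eq
    have h1 := Finset.le_card_sdiff (F ∪ Nx) (nbs G y (S sy))
    have h2 := Finset.card_union_le F Nx
    omega
  obtain ⟨X0, hX0⟩ : ∃ X0 : Finset V, X0 = F ∪ Nx ∪ Ny := ⟨_, rfl⟩
  have hX0c : X0.card ≤ u + 2 * g + 2 := by
    rw [hX0]
    have h1 := Finset.card_union_le (F ∪ Nx) Ny
    have h2 := Finset.card_union_le F Nx
    omega
  have hm : u + 6 * g + 2 ≤ m := by omega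
  obtain ⟨m', hm'⟩ : ∃ m', m = m' + (u + 2 * g + 2) := ⟨m - (u + 2 * g + 2), by omega⟩
  obtain ⟨A', hA', hA'c⟩ : ∃ N ⊆ A \ X0, N.card = m' := by
    apply Finset.exists_subset_card_eq
    have := Finset.le_card_sdiff X0 A
    omega
  obtain ⟨B', hB', hB'c⟩ : ∃ N ⊆ B \ X0, N.card = m' := by
    apply Finset.exists_subset_card_eq
    have := Finset.le_card_sdiff X0 B
    omega
  have hA'A : A' ⊆ A := hA'.trans Finset.sdiff_subset
  have hB'B : B' ⊆ B := hB'.trans Finset.sdiff_subset
  have hP1' : P1 G A' B' g := by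
    intro X Y hX hY h1 h2
    exact hP1 X Y (hX.trans hA'A) (hY.trans hB'B) h1 h2
  obtain ⟨P, hPnd, hPch, hPmem, hPlen⟩ := hAlt V G A' B' m' g
    (Finset.disjoint_of_subset_left hA'A (Finset.disjoint_of_subset_right hB'B hAB)) hA'c hB'c hP1'
  have hPX0 : ∀ v ∈ P, v ∉ X0 := by
    intro v hv h
    rcases Finset.mem_union.mp (hPmem v hv) with h1 | h1
    · exact (Finset.mem_sdiff.mp (hA' h1)).2 h
    · exact (Finset.mem_sdiff.mp (hB' h1)).2 h
  have hPAB : ∀ v ∈ P, v ∈ A ∪ B := by
    intro v hv
    rcases Finset.mem_union.mp (hPmem v hv) with h1 | h1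
    · exact Finset.mem_union_left _ (hA'A h1)
    · exact Finset.mem_union_right _ (hB'B h1)
  -- the side function
  obtain ⟨c, hc⟩ : ∃ c : V → Bool, c = fun v => decide (v ∈ A) := ⟨_, rfl⟩
  have hcS : ∀ v ∈ A ∪ B, v ∈ S (c v) := by
    intro v hv
    by_cases h : v ∈ A
    · have : c v = true := by rw [hc]; simp [h]
      rw [this, hSt]; exact h
    · have : c v = false := by rw [hc]; simp [h]
      rw [this, hSf]
      rcases Finset.mem_union.mp hv with h1 | h1
      · exact absurd h1 h
      · exact h1
  obtain ⟨f, hf⟩ : ∃ f : ℕ → V, f = fun i => P.getD i x := ⟨_, rfl⟩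
  have hfP : ∀ i (hi : i < P.length), f i = P[i] := by
    intro i hi
    rw [hf]
    exact List.getD_eq_getElem P x hi
  have hfmem : ∀ i, i < P.length → f i ∈ P := by
    intro i hi
    rw [hfP i hi]
    exact List.getElem_mem hi
  have halt : ∀ i, i + 1 < P.length → c (f (i + 1)) = !c (f i) := by
    intro i hi
    have h1 := List.isChain_iff_getElem.mp hPch i hi
    rw [hfP (i + 1) hi, hfP i (by omega)]
    have hu : P[i] ∈ A' ∪ B' := hPmem _ (List.getElem_mem _)
    have hv : P[i + 1] ∈ A' ∪ B' := hPmem _ (List.getElem_mem _)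
    have h2 := h1.2
    rw [hc]
    by_cases hiA : P[i] ∈ A'
    · have h3 : P[i + 1] ∈ B' := h2.mp hiA
      have h4 : P[i + 1] ∉ A := fun h => (Finset.disjoint_left.mp hAB) h (hB'B h3)
      simp [h4, hA'A hiA]
    · have h3 : P[i] ∈ B' := by
        rcases Finset.mem_union.mp hu with h | h
        · exact absurd h hiA
        · exact h
      have h4 : P[i] ∉ A := fun h => (Finset.disjoint_left.mp hAB) h (hB'B h3)
      have h5 : P[i + 1] ∉ B' := fun h => hiA (h2.mpr h)
      have h6 : P[i + 1] ∈ A' := by
        rcases Finset.mem_union.mp hv with h | h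
        · exact h
        · exact absurd h h5
      simp [h4, hA'A h6]
  obtain ⟨s, hs⟩ : ∃ s, L = s + 3 := ⟨L - 3, by omega⟩
  -- the indices
  obtain ⟨n, hn⟩ : ∃ n, P.length = n + s := ⟨P.length - s, by omega⟩
  have hn4 : 4 * g ≤ n := by omega
  obtain ⟨I, hI⟩ : ∃ I : Finset ℕ, I = (Finset.range n).filter (fun i => c (f i) = !sx) :=
    ⟨_, rfl⟩
  have hIc : n / 2 ≤ I.card := by
    rw [hI]
    exact PP_count (fun i => c (f i)) (!sx) n (fun i hi => halt i (by omega))
  have hfinj : ∀ i j, i < P.length → j < P.length → f i = f j → i = j := by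
    intro i j hi hj h
    rw [hfP i hi, hfP j hj] at h
    exact (List.Nodup.getElem_inj_iff hPnd).mp h
  have hNxS : Nx ⊆ S sx := by
    intro v hv
    have := (Finset.mem_sdiff.mp (hNx hv)).1
    exact (Finset.mem_filter.mp this).1
  have hNyS : Ny ⊆ S sy := by
    intro v hv
    have := (Finset.mem_sdiff.mp (hNy hv)).1
    exact (Finset.mem_filter.mp this).1
  have hside : ∀ i ∈ I, c (f (i + s)) = !sy := by
    intro i hi
    rw [hI, Finset.mem_filter, Finset.mem_range] at hi
    have h1 := PP_side (fun i => c (f i)) P.length i halt s (by omega)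
    rw [h1, hi.2]
    by_cases hxy2 : sx = sy
    · rw [if_pos hxy2] at hpar
      have he : Even s := by
        rw [hs] at hpar
        obtain ⟨t, ht⟩ := hpar
        exact ⟨t - 1, by omega⟩
      rw [if_pos he, hxy2]
    · rw [if_neg hxy2] at hpar
      have he : ¬ Even s := by
        rw [hs] at hpar
        obtain ⟨t, ht⟩ := hpar
        rintro ⟨r, hr⟩
        omega
      rw [if_neg he]
      exact PP_bool sx sy hxy2
  obtain ⟨I1, hI1⟩ : ∃ I1 : Finset ℕ, I1 = I.filter (fun i => ∀ a ∈ Nx, ¬ G.Adj a (f i)) :=
    ⟨_, rfl⟩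
  obtain ⟨I2, hI2⟩ : ∃ I2 : Finset ℕ, I2 = I.filter (fun i => ∀ a ∈ Ny, ¬ G.Adj a (f (i + s))) :=
    ⟨_, rfl⟩
  have hI1c : I1.card < g := by
    by_contra hcon
    rw [not_lt] at hcon
    have himg : (I1.image f).card = I1.card := by
      apply Finset.card_image_of_injOn
      intro i hi j hj h
      have hi' := Finset.mem_coe.mp hi
      have hj' := Finset.mem_coe.mp hj
      rw [hI1, Finset.mem_filter, hI, Finset.mem_filter, Finset.mem_range] at hi' hj'
      exact hfinj i j (by omega) (by omega) h
    obtain ⟨a, ha, b, hb, hab⟩ := hPS sx Nx (I1.image f) hNxS (by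
      intro v hv
      obtain ⟨i, hi, rfl⟩ := Finset.mem_image.mp hv
      rw [hI1, Finset.mem_filter, hI, Finset.mem_filter, Finset.mem_range] at hi
      have h1 := hcS (f i) (hPAB _ (hfmem i (by omega)))
      rw [hi.1.2] at h1
      exact h1) (by omega) (by omega)
    obtain ⟨i, hi, rfl⟩ := Finset.mem_image.mp hb
    rw [hI1, Finset.mem_filter] at hi
    exact hi.2 a ha hab
  have hI2c : I2.card < g := by
    by_contra hcon
    rw [not_lt] at hcon
    have himg : (I2.image (fun i => f (i + s))).card = I2.card := by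
      apply Finset.card_image_of_injOn
      intro i hi j hj h
      have hi' := Finset.mem_coe.mp hi
      have hj' := Finset.mem_coe.mp hj
      rw [hI2, Finset.mem_filter, hI, Finset.mem_filter, Finset.mem_range] at hi' hj'
      have := hfinj (i + s) (j + s) (by omega) (by omega) h
      omega
    obtain ⟨a, ha, b, hb, hab⟩ := hPS sy Ny (I2.image (fun i => f (i + s))) hNyS (by
      intro v hv
      obtain ⟨i, hi, rfl⟩ := Finset.mem_image.mp hv
      rw [hI2, Finset.mem_filter] at hi
      have h0 := hside i hi.1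
      rw [hI, Finset.mem_filter, Finset.mem_range] at hi
      have h1 := hcS (f (i + s)) (hPAB _ (hfmem (i + s) (by omega)))
      rw [h0] at h1
      exact h1) (by omega) (by omega)
    obtain ⟨i, hi, rfl⟩ := Finset.mem_image.mp hb
    rw [hI2, Finset.mem_filter] at hi
    exact hi.2 a ha hab
  obtain ⟨i, hiI, hi1, hi2⟩ : ∃ i ∈ I, i ∉ I1 ∧ i ∉ I2 := by
    by_contra hcon
    push Not at hcon
    have hsub : I ⊆ I1 ∪ I2 := by
      intro i hi
      by_cases h : i ∈ I1
      · exact Finset.mem_union_left _ h
      · exact Finset.mem_union_right _ (hcon i hi h)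
    have h1 := Finset.card_le_card hsub
    have h2 := Finset.card_union_le I1 I2
    omega
  obtain ⟨nx, hnx, hnxa⟩ : ∃ a ∈ Nx, G.Adj a (f i) := by
    by_contra hcon
    push Not at hcon
    apply hi1
    rw [hI1, Finset.mem_filter]
    exact ⟨hiI, hcon⟩
  obtain ⟨ny, hny, hnya⟩ : ∃ a ∈ Ny, G.Adj a (f (i + s)) := by
    by_contra hcon
    push Not at hcon
    apply hi2
    rw [hI2, Finset.mem_filter]
    exact ⟨hiI, hcon⟩
  have hin : i < n := by
    rw [hI, Finset.mem_filter, Finset.mem_range] at hiI
    exact hiI.1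
  -- the slice
  obtain ⟨M, hM⟩ : ∃ M : List V, M = (P.drop i).take (s + 1) := ⟨_, rfl⟩
  have hMlen : M.length = s + 1 := by
    rw [hM, List.length_take, List.length_drop]
    omega
  have hMsub : M.Sublist P := by
    rw [hM]
    exact (List.take_sublist _ _).trans (List.drop_sublist _ _)
  have hMget : ∀ j (hj : j < M.length), M[j] = f (i + j) := by
    intro j hj
    have hj' : i + j < P.length := by omega
    rw [hfP (i + j) hj']
    subst hM
    rw [List.getElem_take, List.getElem_drop]
  have hMch : M.IsChain G.Adj := by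
    rw [List.isChain_iff_getElem]
    intro j hj
    have h1 := List.isChain_iff_getElem.mp hPch (i + j) (by omega)
    rw [hMget j (by omega), hMget (j + 1) hj, hfP (i + j) (by omega),
      hfP (i + (j + 1)) (by omega)]
    exact h1.1
  have hMhead : M.head? = some (f i) := by
    rw [List.head?_eq_getElem?, List.getElem?_eq_getElem (by omega), hMget 0 (by omega)]
    simp
  have hMlast : M.getLast? = some (f (i + s)) := by
    rw [List.getLast?_eq_getElem?, List.getElem?_eq_getElem (by omega)]
    rw [hMget (M.length - 1) (by omega), hMlen]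
    simp
  have hnxP : nx ∉ M := by
    intro h
    apply hPX0 nx (hMsub.subset h)
    rw [hX0]
    exact Finset.mem_union_left _ (Finset.mem_union_right _ hnx)
  have hnyP : ny ∉ M := by
    intro h
    apply hPX0 ny (hMsub.subset h)
    rw [hX0]
    exact Finset.mem_union_right _ hny
  have hnxny : nx ≠ ny := by
    rintro rfl
    have := (Finset.mem_sdiff.mp (hNy hny)).2
    exact this (Finset.mem_union_right _ hnx)
  have hgood : ∀ w ∈ A ∪ B, w ∉ F → w ∈ A ∪ B ∧ w ∉ U ∧ w ≠ x ∧ w ≠ y := by
    intro w hw hwF
    refine ⟨hw, ?_, ?_, ?_⟩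
    · intro h
      apply hwF
      rw [hF]
      exact Finset.mem_inter.mpr ⟨Finset.mem_union_left _ h, hw⟩
    · intro h
      apply hwF
      rw [hF]
      exact Finset.mem_inter.mpr ⟨Finset.mem_union_right _ (by simp [h]), hw⟩
    · intro h
      apply hwF
      rw [hF]
      exact Finset.mem_inter.mpr ⟨Finset.mem_union_right _ (by simp [h]), hw⟩
  refine ⟨nx :: (M ++ [ny]), ?_, ?_, ?_, ?_, ⟨nx, by simp, ?_⟩, ⟨ny, ?_, ?_⟩⟩
  · simp only [List.length_cons, List.length_append, List.length_nil]
    omega
  · rw [List.nodup_cons]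
    refine ⟨?_, ?_⟩
    · simp only [List.mem_append, List.mem_singleton, not_or]
      exact ⟨hnxP, hnxny⟩
    · rw [List.nodup_append]
      refine ⟨hMsub.nodup hPnd, by simp, ?_⟩
      intro a ha b hb
      simp only [List.mem_singleton] at hb
      subst hb
      rintro rfl
      exact hnyP ha
  · rw [List.isChain_cons]
    refine ⟨?_, ?_⟩
    · intro w hw
      rw [List.head?_append, hMhead] at hw
      simp only [Option.some_or, Option.mem_def, Option.some.injEq] at hw
      rw [← hw]
      exact hnxa
    · rw [List.isChain_append]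
      refine ⟨hMch, by simp, ?_⟩
      intro a ha b hb
      rw [hMlast] at ha
      simp only [Option.mem_def, Option.some.injEq] at ha
      simp only [List.head?_cons, Option.mem_def, Option.some.injEq] at hb
      rw [← ha, ← hb]
      exact hnya.symm
  · intro w hw
    simp only [List.mem_cons, List.mem_append, List.not_mem_nil, or_false] at hw
    rcases hw with rfl | hw | rfl
    · exact hgood _ (hSsub sx (hNxS hnx)) (Finset.mem_sdiff.mp (hNx hnx)).2
    · have h1 := hMsub.subset hw
      apply hgood w (hPAB w h1)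
      intro h
      apply hPX0 w h1
      rw [hX0]
      exact Finset.mem_union_left _ (Finset.mem_union_left _ h)
    · apply hgood _ (hSsub sy (hNyS hny))
      intro h
      exact (Finset.mem_sdiff.mp (hNy hny)).2 (Finset.mem_union_left _ h)
  · have := (Finset.mem_sdiff.mp (hNx hnx)).1
    exact (Finset.mem_filter.mp this).2
  · rw [← List.cons_append, List.getLast?_append]
    simp
  · have := (Finset.mem_sdiff.mp (hNy hny)).1
    exact (Finset.mem_filter.mp this).2.symm

end Pool.CMK
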