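import Pool.Agent.CMK.St2

/-!
# CMK: a dense set contains a dense pair (`thm_Pair`)
-/

set_option autoImplicit false

namespace Pool.CMK

open Finset
open scoped Classical

private theorem Pair_ad_eq {V : Type} (G : SimpleGraph V) (X Y : Finset V) :
    ad G X Y = ∑ x ∈ X, (nbs G x Y).card := by
  unfold ad nbs
  rw [Finset.card_filter, Finset.sum_product]
  simp only [Finset.card_filter]

private theorem Pair_ad_eq' {V : Type} (G : SimpleGraph V) (X Y : Finset V) :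
    ad G X Y = ∑ y ∈ Y, (nbs G y X).card := by
  unfold ad nbs
  rw [Finset.card_filter, Finset.sum_product_right]
  simp only [Finset.card_filter]
  refine Finset.sum_congr rfl (fun y _ => Finset.sum_congr rfl (fun x _ => ?_))
  simp only [G.adj_comm x y]

private theorem Pair_split_left {V : Type} (G : SimpleGraph V) {X A : Finset V} (Y : Finset V)
    (h : X ⊆ A) : ad G A Y = ad G X Y + ad G (A \ X) Y := by
  rw [Pair_ad_eq, Pair_ad_eq, Pair_ad_eq, add_comm, Finset.sum_sdiff h]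

private theorem Pair_split_right {V : Type} (G : SimpleGraph V) {Y B : Finset V} (X : Finset V)
    (h : Y ⊆ B) : ad G X B = ad G X Y + ad G X (B \ Y) := by
  rw [Pair_ad_eq', Pair_ad_eq', Pair_ad_eq', add_comm, Finset.sum_sdiff h]

private theorem Pair_nbs_card {V : Type} (G : SimpleGraph V) (v : V) {B' B : Finset V}
    (h : B' ⊆ B) : (nbs G v B).card ≤ (nbs G v B').card + (B \ B').card := by
  have : nbs G v B ⊆ nbs G v B' ∪ (B \ B') := by
    intro w hw
    unfold nbs at hw ⊢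
    rw [Finset.mem_filter] at hw
    rw [Finset.mem_union, Finset.mem_filter, Finset.mem_sdiff]
    by_cases hB : w ∈ B'
    · exact Or.inl ⟨hB, hw.2⟩
    · exact Or.inr ⟨hw.1, hB⟩
  exact (Finset.card_le_card this).trans (Finset.card_union_le _ _)

private theorem Pair_tau (ρ γ : ℝ) (hρ : 0 < ρ) (hρ1 : ρ ≤ 1) (hγ : 0 < γ) (hγ1 : γ ≤ ρ / 64) :
    ∃ τ : ℝ, 0 < τ ∧ τ ≤ 1 ∧ (4 / γ) ^ τ ≤ 1 + γ ^ 2 / 4 ∧ 1 / 2 ≤ (ρ / 2) ^ τ := by
  have ha : (1 : ℝ) < 4 / γ := by
    rw [lt_div_iff₀ hγ]; linarith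
  have hb : (1 : ℝ) < 2 / ρ := by
    rw [lt_div_iff₀ hρ]; linarith
  have hla : 0 < Real.log (4 / γ) := Real.log_pos ha
  have hlb : 0 < Real.log (2 / ρ) := Real.log_pos hb
  have hk : 0 < Real.log (1 + γ ^ 2 / 4) := Real.log_pos (by nlinarith [pow_pos hγ 2])
  have h2 : 0 < Real.log 2 := Real.log_pos (by norm_num)
  refine ⟨min 1 (min (Real.log (1 + γ ^ 2 / 4) / Real.log (4 / γ))
    (Real.log 2 / Real.log (2 / ρ))), ?_, min_le_left _ _, ?_, ?_⟩
  · exact lt_min one_pos (lt_min (div_pos hk hla) (div_pos h2 hlb))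
  · set τ := min 1 (min (Real.log (1 + γ ^ 2 / 4) / Real.log (4 / γ))
      (Real.log 2 / Real.log (2 / ρ))) with hτ
    have h1 : τ ≤ Real.log (1 + γ ^ 2 / 4) / Real.log (4 / γ) :=
      (min_le_right _ _).trans (min_le_left _ _)
    rw [Real.rpow_def_of_pos (by positivity)]
    rw [le_div_iff₀ hla] at h1
    calc Real.exp (Real.log (4 / γ) * τ) ≤ Real.exp (Real.log (1 + γ ^ 2 / 4)) := by
          apply Real.exp_le_exp.mpr; linarith
      _ = 1 + γ ^ 2 / 4 := Real.exp_log (by positivity)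
  · set τ := min 1 (min (Real.log (1 + γ ^ 2 / 4) / Real.log (4 / γ))
      (Real.log 2 / Real.log (2 / ρ))) with hτ
    have h1 : τ ≤ Real.log 2 / Real.log (2 / ρ) :=
      (min_le_right _ _).trans (min_le_right _ _)
    rw [le_div_iff₀ hlb] at h1
    rw [Real.rpow_def_of_pos (by positivity)]
    have e1 : Real.log (ρ / 2) = - Real.log (2 / ρ) := by
      rw [← Real.log_inv, inv_div]
    calc (1 / 2 : ℝ) = Real.exp (- Real.log 2) := by
          rw [Real.exp_neg, Real.exp_log (by norm_num)]; norm_num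
      _ ≤ Real.exp (Real.log (ρ / 2) * τ) := by
          apply Real.exp_le_exp.mpr; rw [e1]; linarith

set_option maxHeartbeats 1000000 in
/-- the core: from the maximal pair -/
private theorem Pair_core {V : Type} (G : SimpleGraph V) (A B : Finset V) (m : ℕ) (d ρ γ τ : ℝ)
    (hρ : 0 < ρ) (hρ1 : ρ ≤ 1) (hγ : 0 < γ) (hγ1 : γ ≤ ρ / 64) (hτ : 0 < τ)
    (hτγ : (4 / γ) ^ τ ≤ 1 + γ ^ 2 / 4) (hAB : Disjoint A B) (hA : A.card = m) (hB : B.card = m)
    (had : (ad G A B : ℝ) = d * m ^ 2) (hd : ρ / 2 ≤ d) (hm : 4 / γ ≤ (m : ℝ))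
    (hmax : ∀ X Y : Finset V, X ⊆ A → Y ⊆ B → X.Nonempty → Y.Nonempty →
      (ad G X Y : ℝ) ≤ d * X.card * Y.card * ((m : ℝ) / (min X.card Y.card : ℕ)) ^ τ) :
    ∃ A' B' : Finset V, A' ⊆ A ∧ B' ⊆ B ∧ Pr G A' B' (4 * γ) (ρ / 16) ∧
      (m : ℝ) / 2 ≤ A'.card := by
  have hd0 : 0 < d := lt_of_lt_of_le (by positivity) hd
  have hγm : 4 ≤ γ * m := by
    rw [div_le_iff₀ hγ] at hm; linarith
  have hM0 : (0 : ℝ) < m := by
    by_contra hc
    push Not at hc
    have : γ * m ≤ 0 := by nlinarith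
    linarith
  have hγ64 : γ ≤ 1 / 64 := by linarith
  obtain ⟨g, hg⟩ : ∃ g : ℕ, g = ⌈γ * m⌉₊ := ⟨_, rfl⟩
  have hg1 : γ * m ≤ g := by rw [hg]; exact Nat.le_ceil _
  have hg2 : (g : ℝ) ≤ 5 / 4 * (γ * m) := by
    have : (g : ℝ) < γ * m + 1 := by
      rw [hg]; exact Nat.ceil_lt_add_one (by linarith)
    linarith
  have hgpos : 1 ≤ g := by
    have : (1 : ℝ) ≤ g := by linarith
    exact_mod_cast this
  have hgm : 4 * g ≤ m := by
    have : (4 : ℝ) * g ≤ m := by nlinarith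
    exact_mod_cast this
  have hgR : (0 : ℝ) < g := by exact_mod_cast hgpos
  -- the uniform bound
  have hbound : ∀ X Y : Finset V, X ⊆ A → Y ⊆ B → g ≤ X.card → g ≤ Y.card →
      (ad G X Y : ℝ) ≤ d * X.card * Y.card * (1 + γ ^ 2 / 4) := by
    intro X Y hX hY hgX hgY
    have hXn : X.Nonempty := Finset.card_pos.mp (by omega)
    have hYn : Y.Nonempty := Finset.card_pos.mp (by omega)
    refine (hmax X Y hX hY hXn hYn).trans ?_
    have hmin : (g : ℝ) ≤ ((min X.card Y.card : ℕ) : ℝ) := by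
      exact_mod_cast le_min hgX hgY
    have hq : (m : ℝ) / (min X.card Y.card : ℕ) ≤ 4 / γ := by
      rw [div_le_div_iff₀ (by linarith) hγ]
      nlinarith
    have h0 : 0 ≤ (m : ℝ) / (min X.card Y.card : ℕ) := by positivity
    have h1 : ((m : ℝ) / (min X.card Y.card : ℕ)) ^ τ ≤ 1 + γ ^ 2 / 4 :=
      (Real.rpow_le_rpow h0 hq hτ.le).trans hτγ
    exact mul_le_mul_of_nonneg_left h1 (by positivity)
  have hγ2 : γ ^ 2 * (m : ℝ) ^ 2 ≤ (g : ℝ) ^ 2 := by
    have := mul_self_le_mul_self (by positivity : (0 : ℝ) ≤ γ * m) hg1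
    nlinarith
  -- (1)
  have hP1 : P1 G A B g := by
    intro X Y hX hY hgX hgY
    by_contra hno
    push Not at hno
    obtain ⟨X', hX', hX'c⟩ := Finset.exists_subset_card_eq hgX
    obtain ⟨Y', hY', hY'c⟩ := Finset.exists_subset_card_eq hgY
    have hXA := hX'.trans hX
    have hYB := hY'.trans hY
    have z : ad G X' Y' = 0 := by
      unfold ad
      rw [Finset.card_eq_zero, Finset.filter_eq_empty_iff]
      intro p hp
      rw [Finset.mem_product] at hp
      exact hno p.1 (hX' hp.1) p.2 (hY' hp.2)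
    have s1 := Pair_split_left G B hXA
    have s2 := Pair_split_right G X' hYB
    have s3 := Pair_split_right G (A \ X') hYB
    have cA : (A \ X').card = m - g := by rw [Finset.card_sdiff_of_subset hXA, hA, hX'c]
    have cB : (B \ Y').card = m - g := by rw [Finset.card_sdiff_of_subset hYB, hB, hY'c]
    have b1 := hbound X' (B \ Y') hXA Finset.sdiff_subset (by omega) (by omega)
    have b2 := hbound (A \ X') Y' Finset.sdiff_subset hYB (by omega) (by omega)
    have b3 := hbound (A \ X') (B \ Y') Finset.sdiff_subset Finset.sdiff_subset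
      (by omega) (by omega)
    have e : (ad G A B : ℝ) = (ad G X' (B \ Y') : ℝ) + ((ad G (A \ X') Y' : ℝ) +
        (ad G (A \ X') (B \ Y') : ℝ)) := by
      rw [s1, s2, s3, z]; push_cast; ring
    rw [had] at e
    rw [cB, hX'c] at b1
    rw [cA, hY'c] at b2
    rw [cA, cB] at b3
    have cm : ((m - g : ℕ) : ℝ) = m - g := by rw [Nat.cast_sub (by omega)]
    rw [cm] at b1 b2 b3
    have key : d * (m : ℝ) ^ 2 ≤ d * ((1 + γ ^ 2 / 4) * ((m : ℝ) ^ 2 - (g : ℝ) ^ 2)) := by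
      have e2 : d * ((1 + γ ^ 2 / 4) * ((m : ℝ) ^ 2 - (g : ℝ) ^ 2)) =
        d * g * (m - g) * (1 + γ ^ 2 / 4) + (d * (m - g) * g * (1 + γ ^ 2 / 4) +
          d * (m - g) * (m - g) * (1 + γ ^ 2 / 4)) := by ring
      rw [e, e2]
      exact add_le_add b1 (add_le_add b2 b3)
    have key2 := le_of_mul_le_mul_left key hd0
    have f1 : 0 ≤ γ ^ 2 * (g : ℝ) ^ 2 := by positivity
    have f2 : 0 < (g : ℝ) ^ 2 := by positivity
    have f3 : (1 + γ ^ 2 / 4) * ((m : ℝ) ^ 2 - (g : ℝ) ^ 2) =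
      (m : ℝ) ^ 2 - (g : ℝ) ^ 2 + γ ^ 2 * (m : ℝ) ^ 2 / 4 - γ ^ 2 * (g : ℝ) ^ 2 / 4 := by ring
    rw [f3] at key2
    linarith
  -- (2)
  have hlowA : ∀ X ⊆ A, (∀ a ∈ X, ((nbs G a B).card : ℝ) < d / 4 * m) → X.card < g := by
    intro X hX hlow
    by_contra hc
    push Not at hc
    obtain ⟨X', hX', hX'c⟩ := Finset.exists_subset_card_eq hc
    have hXA := hX'.trans hX
    have s1 := Pair_split_left G B hXA
    have cA : (A \ X').card = m - g := by rw [Finset.card_sdiff_of_subset hXA, hA, hX'c]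
    have b2 := hbound (A \ X') B Finset.sdiff_subset (Finset.Subset.refl _) (by omega) (by omega)
    have b1 : (ad G X' B : ℝ) ≤ g * (d / 4 * m) := by
      rw [Pair_ad_eq]
      push_cast
      calc ∑ x ∈ X', ((nbs G x B).card : ℝ) ≤ ∑ _x ∈ X', (d / 4 * m) :=
            Finset.sum_le_sum (fun x hx => (hlow x (hX' hx)).le)
        _ = g * (d / 4 * m) := by rw [Finset.sum_const, hX'c, nsmul_eq_mul]
    have cm : ((m - g : ℕ) : ℝ) = m - g := by rw [Nat.cast_sub (by omega)]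
    rw [cA, hB, cm] at b2
    have e : d * (m : ℝ) ^ 2 = (ad G X' B : ℝ) + (ad G (A \ X') B : ℝ) := by
      rw [← had, s1]; push_cast; ring
    have key : (d * m) * (m : ℝ) ≤ (d * m) * ((g : ℝ) / 4 + (m - g) * (1 + γ ^ 2 / 4)) := by
      have e2 : (d * m) * ((g : ℝ) / 4 + (m - g) * (1 + γ ^ 2 / 4)) =
        g * (d / 4 * m) + d * (m - g) * m * (1 + γ ^ 2 / 4) := by ring
      have e3 : (d * m) * (m : ℝ) = d * (m : ℝ) ^ 2 := by ring
      rw [e2, e3, e]
      exact add_le_add b1 b2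
    have key2 := le_of_mul_le_mul_left key (by positivity)
    have f1 : γ * (γ * m) ≤ γ * g := mul_le_mul_of_nonneg_left hg1 hγ.le
    have f2 : γ * (g : ℝ) ≤ 1 / 64 * g := mul_le_mul_of_nonneg_right hγ64 hgR.le
    have f3 : 0 ≤ γ ^ 2 * (g : ℝ) := mul_nonneg (sq_nonneg γ) hgR.le
    have f4 : (g : ℝ) / 4 + (m - g) * (1 + γ ^ 2 / 4) =
        m - 3 * g / 4 + (γ * (γ * m)) / 4 - γ ^ 2 * g / 4 := by ring
    rw [f4] at key2
    linarith
  have hlowB : ∀ Y ⊆ B, (∀ b ∈ Y, ((nbs G b A).card : ℝ) < d / 4 * m) → Y.card < g := by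
    intro Y hY hlow
    by_contra hc
    push Not at hc
    obtain ⟨Y', hY', hY'c⟩ := Finset.exists_subset_card_eq hc
    have hYB := hY'.trans hY
    have s1 := Pair_split_right G A hYB
    have cB : (B \ Y').card = m - g := by rw [Finset.card_sdiff_of_subset hYB, hB, hY'c]
    have b2 := hbound A (B \ Y') (Finset.Subset.refl _) Finset.sdiff_subset (by omega) (by omega)
    have b1 : (ad G A Y' : ℝ) ≤ g * (d / 4 * m) := by
      rw [Pair_ad_eq']
      push_cast
      calc ∑ x ∈ Y', ((nbs G x A).card : ℝ) ≤ ∑ _x ∈ Y', (d / 4 * m) :=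
            Finset.sum_le_sum (fun x hx => (hlow x (hY' hx)).le)
        _ = g * (d / 4 * m) := by rw [Finset.sum_const, hY'c, nsmul_eq_mul]
    have cm : ((m - g : ℕ) : ℝ) = m - g := by rw [Nat.cast_sub (by omega)]
    rw [cB, hA, cm] at b2
    have e : d * (m : ℝ) ^ 2 = (ad G A Y' : ℝ) + (ad G A (B \ Y') : ℝ) := by
      rw [← had, s1]; push_cast; ring
    have key : (d * m) * (m : ℝ) ≤ (d * m) * ((g : ℝ) / 4 + (m - g) * (1 + γ ^ 2 / 4)) := by
      have e2 : (d * m) * ((g : ℝ) / 4 + (m - g) * (1 + γ ^ 2 / 4)) =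
        g * (d / 4 * m) + d * m * (m - g) * (1 + γ ^ 2 / 4) := by ring
      have e3 : (d * m) * (m : ℝ) = d * (m : ℝ) ^ 2 := by ring
      rw [e2, e3, e]
      exact add_le_add b1 b2
    have key2 := le_of_mul_le_mul_left key (by positivity)
    have f1 : γ * (γ * m) ≤ γ * g := mul_le_mul_of_nonneg_left hg1 hγ.le
    have f2 : γ * (g : ℝ) ≤ 1 / 64 * g := mul_le_mul_of_nonneg_right hγ64 hgR.le
    have f3 : 0 ≤ γ ^ 2 * (g : ℝ) := mul_nonneg (sq_nonneg γ) hgR.le
    have f4 : (g : ℝ) / 4 + (m - g) * (1 + γ ^ 2 / 4) =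
        m - 3 * g / 4 + (γ * (γ * m)) / 4 - γ ^ 2 * g / 4 := by ring
    rw [f4] at key2
    linarith
  have hA1 := hlowA (A.filter (fun a => ((nbs G a B).card : ℝ) < d / 4 * m))
    (Finset.filter_subset _ _) (fun a ha => (Finset.mem_filter.mp ha).2)
  have hB1 := hlowB (B.filter (fun b => ((nbs G b A).card : ℝ) < d / 4 * m))
    (Finset.filter_subset _ _) (fun a ha => (Finset.mem_filter.mp ha).2)
  have hA1A : A.filter (fun a => ((nbs G a B).card : ℝ) < d / 4 * m) ⊆ A :=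
    Finset.filter_subset _ _
  have hB1B : B.filter (fun b => ((nbs G b A).card : ℝ) < d / 4 * m) ⊆ B :=
    Finset.filter_subset _ _
  set A1 := A.filter (fun a => ((nbs G a B).card : ℝ) < d / 4 * m) with hA1d
  set B1 := B.filter (fun b => ((nbs G b A).card : ℝ) < d / 4 * m) with hB1d
  have cA1 : m - (g - 1) ≤ (A \ A1).card := by
    rw [Finset.card_sdiff_of_subset hA1A, hA]; omega
  have cB1 : m - (g - 1) ≤ (B \ B1).card := by
    rw [Finset.card_sdiff_of_subset hB1B, hB]; omega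
  obtain ⟨A', hA', hA'c⟩ := Finset.exists_subset_card_eq cA1
  obtain ⟨B', hB', hB'c⟩ := Finset.exists_subset_card_eq cB1
  have hA'A : A' ⊆ A := hA'.trans Finset.sdiff_subset
  have hB'B : B' ⊆ B := hB'.trans Finset.sdiff_subset
  have cA' : (A'.card : ℝ) = m - g + 1 := by
    rw [hA'c, Nat.cast_sub (by omega), Nat.cast_sub hgpos]; push_cast; ring
  have hhalf : (m : ℝ) / 2 ≤ A'.card := by
    rw [cA']; nlinarith
  refine ⟨A', B', hA'A, hB'B, ⟨?_, by rw [hA'c, hB'c], ?_, ?_, ?_⟩, hhalf⟩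
  · exact Finset.disjoint_of_subset_left hA'A (Finset.disjoint_of_subset_right hB'B hAB)
  · intro X Y hX hY hcX hcY
    have hgc : g ≤ ⌈4 * γ * A'.card⌉₊ := by
      have : (g : ℝ) ≤ ⌈4 * γ * A'.card⌉₊ := by
        refine le_trans ?_ (Nat.le_ceil _)
        nlinarith
      exact_mod_cast this
    exact hP1 X Y (hX.trans hA'A) (hY.trans hB'B) (hgc.trans hcX) (hgc.trans hcY)
  · intro a ha
    have h1 : d / 4 * m ≤ ((nbs G a B).card : ℝ) := by
      have := Finset.mem_sdiff.mp (hA' ha)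
      by_contra hc
      push Not at hc
      exact this.2 (Finset.mem_filter.mpr ⟨this.1, hc⟩)
    have h2 := Pair_nbs_card G a hB'B
    have h3 : (B \ B').card = g - 1 := by
      rw [Finset.card_sdiff_of_subset hB'B, hB, hB'c]; omega
    rw [h3] at h2
    have h4 : ((nbs G a B).card : ℝ) ≤ (nbs G a B').card + ((g : ℝ) - 1) := by
      have : ((nbs G a B).card : ℝ) ≤ ((nbs G a B').card + (g - 1 : ℕ) : ℕ) := by
        exact_mod_cast h2
      rw [Nat.cast_add, Nat.cast_sub hgpos] at this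
      simpa using this
    rw [cA']
    nlinarith [mul_le_mul_of_nonneg_right hd hM0.le, mul_le_mul_of_nonneg_right hγ1 hM0.le]
  · intro b hb
    have h1 : d / 4 * m ≤ ((nbs G b A).card : ℝ) := by
      have := Finset.mem_sdiff.mp (hB' hb)
      by_contra hc
      push Not at hc
      exact this.2 (Finset.mem_filter.mpr ⟨this.1, hc⟩)
    have h2 := Pair_nbs_card G b hA'A
    have h3 : (A \ A').card = g - 1 := by
      rw [Finset.card_sdiff_of_subset hA'A, hA, hA'c]; omega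
    rw [h3] at h2
    have h4 : ((nbs G b A).card : ℝ) ≤ (nbs G b A').card + ((g : ℝ) - 1) := by
      have : ((nbs G b A).card : ℝ) ≤ ((nbs G b A').card + (g - 1 : ℕ) : ℕ) := by
        exact_mod_cast h2
      rw [Nat.cast_add, Nat.cast_sub hgpos] at this
      simpa using this
    rw [cA']
    nlinarith [mul_le_mul_of_nonneg_right hd hM0.le, mul_le_mul_of_nonneg_right hγ1 hM0.le]

theorem thm_Pair (hMaxP : St_MaxP) : St_Pair := by
  intro ρ γ hρ hρ1 hγ hγ1
  obtain ⟨τ, hτ, hτ1, hτγ, hτρ⟩ := Pair_tau ρ γ hρ hρ1 hγ hγ1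
  have hr : 0 < ρ ^ (1 / τ) := Real.rpow_pos_of_pos hρ _
  have hc0 : 0 < ρ ^ (1 / τ) * (ρ / 4) := by positivity
  refine ⟨ρ ^ (1 / τ) * (ρ / 8), by positivity,
    max 2 ⌈(4 / γ) / (ρ ^ (1 / τ) * (ρ / 4))⌉₊, ?_⟩
  intro V G S hn hS
  have hn2 : 2 ≤ S.card := (le_max_left _ _).trans hn
  obtain ⟨A, B, m, d, hA, hB, hAB, hAc, hBc, hm1, had, hd, hd1, hmS, hmax⟩ :=
    hMaxP V G S ρ τ hρ hρ1 hτ hτ1 hτρ hn2 hS
  have hm4 : 4 / γ ≤ (m : ℝ) := by
    refine le_trans ?_ hmS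
    have h1 : (4 / γ) / (ρ ^ (1 / τ) * (ρ / 4)) ≤ (S.card : ℝ) := by
      refine (Nat.le_ceil _).trans ?_
      exact_mod_cast (le_max_right _ _).trans hn
    rw [div_le_iff₀ hc0] at h1
    linarith
  obtain ⟨A', B', hA', hB', hPr, hhalf⟩ := Pair_core G A B m d ρ γ τ hρ hρ1 hγ hγ1 hτ hτγ hAB
    hAc hBc had hd hm4 hmax
  refine ⟨A', B', hA'.trans hA, hB'.trans hB, hPr, ?_⟩
  refine le_trans ?_ hhalf
  nlinarith

end Pool.CMK
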