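import Pool.Agent.CMK.StS

/-!
# CMK, module PosR: rotations of the end of a path
-/

set_option autoImplicit false

namespace Pool.CMK

open Finset
open scoped Classical

private theorem PosR_infix_append {V : Type} (a b : V) (L M : List V) :
    [a, b] <:+: (L ++ M) ↔
      [a, b] <:+: L ∨ [a, b] <:+: M ∨ (L.getLast? = some a ∧ M.head? = some b) := by
  induction L with
  | nil => simp
  | cons c L ih =>
    rw [List.cons_append, List.infix_cons_iff, ih, List.infix_cons_iff]
    cases L with
    | nil =>
      cases M with
      | nil => simp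
      | cons m M =>
        have k1 : [a, b] <+: c :: ([] ++ m :: M) ↔ a = c ∧ b = m := by
          simp [List.cons_prefix_cons]
        have k2 : ([c] : List V).getLast? = some a ↔ a = c := by
          constructor
          · intro h
            exact (Option.some.inj h).symm
          · rintro rfl
            rfl
        have k3 : (m :: M).head? = some b ↔ b = m := by
          constructor
          · intro h
            exact (Option.some.inj h).symm
          · rintro rfl
            rfl
        have k4 : ¬ [a, b] <:+: ([] : List V) := by simp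
        have k5 : ¬ [a, b] <+: [c] := by simp [List.cons_prefix_cons]
        have k6 : (([] : List V).getLast? = some a) ↔ False := by simp
        rw [k1, k2, k3, k6]
        tauto
    | cons d L =>
      have h1 : (c :: d :: L).getLast? = (d :: L).getLast? := by
        rw [List.getLast?_cons_cons]
      rw [h1]
      have h2 : [a, b] <+: c :: (d :: L ++ M) ↔ [a, b] <+: c :: d :: L := by
        simp [List.cons_prefix_cons]
      rw [h2]
      tauto

private theorem PosR_cons_iff {V : Type} (l : List V) (y z : V) :
    Cons l y z ↔ [y, z] <:+: l ∨ [z, y] <:+: l := by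
  constructor
  · rintro ⟨l₁, l₂, h | h⟩
    · exact Or.inl ⟨l₁, l₂, h.symm⟩
    · exact Or.inr ⟨l₁, l₂, h.symm⟩
  · rintro (⟨l₁, l₂, h⟩ | ⟨l₁, l₂, h⟩)
    · exact ⟨l₁, l₂, Or.inl h.symm⟩
    · exact ⟨l₁, l₂, Or.inr h.symm⟩

private theorem PosR_cons_reverse {V : Type} (l : List V) (y z : V) :
    Cons l.reverse y z ↔ Cons l y z := by
  rw [PosR_cons_iff, PosR_cons_iff]
  have h1 : ∀ a b : V, [a, b] <:+: l.reverse ↔ [b, a] <:+: l := by
    intro a b
    have : [a, b] = [b, a].reverse := by simp
    rw [this, List.reverse_infix]
  rw [h1, h1]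
  tauto

private theorem PosR_cons_append {V : Type} (L M : List V) (y z : V)
    (h1 : L.getLast? ≠ some y) (h2 : M.head? ≠ some y) :
    Cons (L ++ M) y z ↔ Cons L y z ∨ Cons M y z := by
  rw [PosR_cons_iff, PosR_cons_iff, PosR_cons_iff, PosR_infix_append, PosR_infix_append]
  constructor
  · rintro ((h | h | h) | (h | h | h))
    · exact Or.inl (Or.inl h)
    · exact Or.inr (Or.inl h)
    · exact absurd h.1 h1
    · exact Or.inl (Or.inr h)
    · exact Or.inr (Or.inr h)
    · exact absurd h.2 h2
  · rintro ((h | h) | (h | h))
    · exact Or.inl (Or.inl h)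
    · exact Or.inr (Or.inl h)
    · exact Or.inl (Or.inr (Or.inl h))
    · exact Or.inr (Or.inr (Or.inl h))

private theorem PosR_path {V : Type} (G : SimpleGraph V) (A B : List V) (y x : V)
    (h : PathL G (A ++ [y] ++ B ++ [x])) (hxy : G.Adj x y) :
    PathL G (A ++ [y] ++ [x] ++ B.reverse) := by
  obtain ⟨_, hn, hc⟩ := h
  refine ⟨by simp, ?_, ?_⟩
  · have hp : (A ++ [y] ++ [x] ++ B.reverse).Perm (A ++ [y] ++ B ++ [x]) := by
      have h1 : ([x] ++ B.reverse).Perm (B ++ [x]) :=
        (List.perm_append_comm).trans ((List.reverse_perm B).append_right [x])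
      have h2 := List.Perm.append_left (A ++ [y]) h1
      simpa [List.append_assoc] using h2
    exact hp.nodup_iff.mpr hn
  · have hc' : List.IsChain G.Adj ((A ++ [y]) ++ (B ++ [x])) := by
      simpa [List.append_assoc] using hc
    rw [List.isChain_append] at hc'
    have hrev : List.IsChain G.Adj ([x] ++ B.reverse) := by
      have h3 : [x] ++ B.reverse = (B ++ [x]).reverse := by simp
      rw [h3, List.isChain_reverse]
      have h4 := hc'.2.1
      refine h4.imp ?_
      intro a b hab
      exact hab.symm
    have : List.IsChain G.Adj ((A ++ [y]) ++ ([x] ++ B.reverse)) := by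
      rw [List.isChain_append]
      refine ⟨hc'.1, hrev, ?_⟩
      intro a ha b hb
      simp at ha hb
      subst ha
      subst hb
      exact hxy.symm
    simpa [List.append_assoc] using this

theorem thm_PosR : St_PosR := by
  intro V G P hP
  have first : ∀ Q, PRot G P Q → PathL G Q ∧ Q.Perm P ∧ Q.head? = P.head? := by
    intro Q hQ
    induction hQ with
    | refl => exact ⟨hP, List.Perm.refl _, rfl⟩
    | step A B y x _ hxy _ ih =>
      obtain ⟨h1, h2, h3⟩ := ih
      refine ⟨PosR_path G A B y x h1 hxy, ?_, ?_⟩
      · refine List.Perm.trans ?_ h2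
        have h1 : ([x] ++ B.reverse).Perm (B ++ [x]) :=
          (List.perm_append_comm).trans ((List.reverse_perm B).append_right [x])
        have h2 := List.Perm.append_left (A ++ [y]) h1
        simpa [List.append_assoc] using h2
      · rw [← h3]
        cases A <;> simp
  refine ⟨first, ?_⟩
  intro y₀ hy₀ hend hnei Q hQ
  induction hQ with
  | refl => intro z; exact Iff.rfl
  | step A B y x hQ hxy hB ih =>
    intro z
    rw [← ih z]
    have hQ' : PRot G P (A ++ [y] ++ [x] ++ B.reverse) := PRot.step A B y x hQ hxy hB
    obtain ⟨b, B', rfl⟩ := List.exists_cons_of_ne_nil hB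
    have hlast : (A ++ [y] ++ [x] ++ (b :: B').reverse).getLast? = some b := by
      rw [List.reverse_cons, List.getLast?_append, List.getLast?_append]
      rfl
    have hb : y₀ ≠ b := by
      rintro rfl
      exact hend _ hQ' hlast
    have hx : y₀ ≠ x := by
      rintro rfl
      exact hend _ hQ (by rw [List.getLast?_append]; rfl)
    have hy : y₀ ≠ y := by
      rintro rfl
      have hc : Cons (A ++ [y₀] ++ (b :: B') ++ [x]) y₀ b :=
        ⟨A, B' ++ [x], Or.inl (by simp)⟩
      exact hnei b ((ih b).mp hc) _ hQ' hlast
    have e1 : A ++ [y] ++ [x] ++ (b :: B').reverse = (A ++ [y]) ++ ((b :: B') ++ [x]).reverse := by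
      simp
    have e2 : A ++ [y] ++ (b :: B') ++ [x] = (A ++ [y]) ++ ((b :: B') ++ [x]) := by
      simp
    have g1 : (A ++ [y]).getLast? ≠ some y₀ := by
      rw [List.getLast?_append]
      intro h
      exact hy (Option.some.inj h).symm
    have g2 : ((b :: B') ++ [x]).reverse.head? ≠ some y₀ := by
      rw [List.reverse_append]
      intro h
      exact hx (Option.some.inj h).symm
    have g3 : ((b :: B') ++ [x]).head? ≠ some y₀ := by
      intro h
      exact hb (Option.some.inj h).symm
    rw [e1, e2, PosR_cons_append (A ++ [y]) _ y₀ z g1 g2,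
      PosR_cons_append (A ++ [y]) _ y₀ z g1 g3, PosR_cons_reverse]

end Pool.CMK
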