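import Pool.Agent.CMK.StS

/-!
# CMK: POSA, rotations: a long cycle with a chord, or a small set which does not expand
-/

set_option autoImplicit false

namespace Pool.CMK

open Finset
open scoped Classical

private theorem Posa_first {V : Type} (r : V → Prop) : ∀ Q : List V, (∃ w ∈ Q, r w) →
    ∃ (A : List V) (y : V) (C : List V), Q = A ++ y :: C ∧ r y ∧ ∀ a ∈ A, ¬ r a := by
  intro Q
  induction Q with
  | nil => rintro ⟨w, hw, _⟩; simp at hw
  | cons q Q ih =>
    rintro ⟨w, hw, hr⟩
    by_cases hq : r q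
    · exact ⟨[], q, Q, by simp, hq, by simp⟩
    · have : w ∈ Q := by
        rcases List.mem_cons.1 hw with h | h
        · exact absurd (h ▸ hr) hq
        · exact h
      obtain ⟨A, y, C, h1, h2, h3⟩ := ih ⟨w, this, hr⟩
      refine ⟨q :: A, y, C, by rw [h1]; rfl, h2, ?_⟩
      intro a ha
      rcases List.mem_cons.1 ha with h | h
      · rw [h]; exact hq
      · exact h3 a h

private theorem Posa_key {V : Type} {G : SimpleGraph V} {W : Finset V} {L : ℕ}
    (hdeg : ∀ w ∈ W, 3 ≤ (nbs G w W).card)
    (hL : ¬ ∃ l, CycL G l ∧ (∀ v ∈ l, v ∈ W) ∧ L ≤ l.length ∧ Chord G l)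
    (Q : List V) (x : V) (hQ : PathL G (Q ++ [x])) (hQW : ∀ v ∈ Q ++ [x], v ∈ W)
    (hnb : ∀ w ∈ W, G.Adj x w → w ∈ Q) :
    5 ≤ L ∧ ∀ (A B : List V) (y : V), Q = A ++ y :: B → G.Adj x y → B.length + 2 < L := by
  have hxW : x ∈ W := hQW x (by simp)
  have h3 := hdeg x hxW
  have hne : (nbs G x W).Nonempty := Finset.card_pos.1 (by omega)
  obtain ⟨w, hw⟩ := hne
  rw [nbs, Finset.mem_filter] at hw
  obtain ⟨A₀, y₀, C, hQe, hy₀, hA₀⟩ := Posa_first (fun v => G.Adj x v) Q
    ⟨w, hnb w hw.1 hw.2, hw.2⟩
  have hsub : nbs G x W ⊆ insert y₀ C.toFinset := by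
    intro v hv
    rw [nbs, Finset.mem_filter] at hv
    have := hnb v hv.1 hv.2
    rw [hQe, List.mem_append, List.mem_cons] at this
    rw [Finset.mem_insert, List.mem_toFinset]
    rcases this with h | h | h
    · exact absurd hv.2 (hA₀ v h)
    · exact Or.inl h
    · exact Or.inr h
  have hCne : C ≠ [] := by
    rintro rfl
    have := Finset.card_le_card hsub
    simp at this
    omega
  obtain ⟨C', c, hC⟩ : ∃ C' c, C = C' ++ [c] :=
    ⟨C.dropLast, C.getLast hCne, (List.dropLast_append_getLast hCne).symm⟩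
  obtain ⟨z, hz, hzn⟩ : ∃ z ∈ nbs G x W, z ∉ ({y₀, c} : Finset V) := by
    by_contra hcon
    push Not at hcon
    have h4 := Finset.card_le_card (show nbs G x W ⊆ {y₀, c} from hcon)
    have h5 := Finset.card_le_two (a := y₀) (b := c)
    omega
  have hzC : z ∈ C' := by
    have h4 := hsub hz
    rw [Finset.mem_insert, List.mem_toFinset, hC, List.mem_append, List.mem_singleton] at h4
    rw [Finset.mem_insert, Finset.mem_singleton] at hzn
    tauto
  have hadj : G.Adj x z := by
    rw [nbs, Finset.mem_filter] at hz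
    exact hz.2
  obtain ⟨i, hi, hzi⟩ := List.getElem_of_mem hzC
  have hlt : C.length + 2 < L := by
    by_contra hcon
    push Not at hcon
    apply hL
    refine ⟨y₀ :: (C' ++ [c, x]), ⟨?_, ?_, ?_, y₀, x, rfl, ?_, hy₀⟩, ?_, ?_, ?_⟩
    · simp
    · have h4 := hQ.2.1
      rw [hQe, hC] at h4
      have h5 : A₀ ++ y₀ :: (C' ++ [c]) ++ [x] = A₀ ++ (y₀ :: (C' ++ [c, x])) := by simp
      rw [h5, List.nodup_append] at h4
      exact h4.2.1
    · have h4 := hQ.2.2
      rw [hQe, hC] at h4
      have h5 : A₀ ++ y₀ :: (C' ++ [c]) ++ [x] = A₀ ++ (y₀ :: (C' ++ [c, x])) := by simp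
      rw [h5, List.isChain_append] at h4
      exact h4.2.1
    · have h5 : y₀ :: (C' ++ [c, x]) = (y₀ :: (C' ++ [c])) ++ [x] := by simp
      rw [h5, List.getLast?_concat]
    · intro v hv
      apply hQW
      rw [hQe, hC]
      simp only [List.mem_cons, List.mem_append, List.mem_singleton, List.not_mem_nil,
        or_false] at hv ⊢
      tauto
    · rw [hC] at hcon
      simp only [List.length_cons, List.length_append, List.length_nil] at hcon ⊢
      omega
    · refine ⟨i + 1, C'.length + 2, ?_, ?_, ?_, ?_, ?_⟩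
      · simp; omega
      · simp
      · omega
      · simp
      · have h6 : (y₀ :: (C' ++ [c, x]))[i + 1]'(by simp; omega) = z := by
          rw [List.getElem_cons_succ, List.getElem_append_left hi, hzi]
        have h7 : (y₀ :: (C' ++ [c, x]))[C'.length + 2]'(by simp) = x := by
          rw [List.getElem_cons_succ, List.getElem_append_right (by omega)]
          simp
        rw [h6, h7]
        exact hadj.symm
  have hClen : C.length = C'.length + 1 := by rw [hC]; simp
  refine ⟨by omega, ?_⟩
  intro A B y hAB hy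
  rw [hQe] at hAB
  rcases List.append_eq_append_iff.1 hAB with ⟨a', h1, h2⟩ | ⟨c', h1, h2⟩
  · -- A = A₀ ++ a'
    have h4 := congrArg List.length h2
    simp only [List.length_cons, List.length_append] at h4
    omega
  · -- A₀ = A ++ c'
    cases c' with
    | nil =>
      have h4 := congrArg List.length h2
      simp only [List.length_cons, List.length_append, List.length_nil] at h4
      omega
    | cons a c'' =>
      exfalso
      have h4 : y = a := by
        have := congrArg List.head? h2
        simpa using this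
      apply hA₀ y _ hy
      rw [h1, h4]
      simp

theorem thm_Posa (hPosR : St_PosR) : St_Posa := by
  intro V G W L hW hdeg
  by_cases hL : ∃ l, CycL G l ∧ (∀ v ∈ l, v ∈ W) ∧ L ≤ l.length ∧ Chord G l
  · exact Or.inl hL
  right
  obtain ⟨P, hP, hPW, hmax⟩ : ∃ P : List V, PathL G P ∧ (∀ v ∈ P, v ∈ W) ∧
      ∀ Q, PathL G Q → (∀ v ∈ Q, v ∈ W) → Q.length ≤ P.length := by
    obtain ⟨w, hw⟩ := hW
    have hb : ∀ Q : List V, PathL G Q → (∀ v ∈ Q, v ∈ W) → Q.length ≤ W.card := by
      intro Q hQ hQW
      rw [← List.toFinset_card_of_nodup hQ.2.1]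
      exact Finset.card_le_card (fun v hv => hQW v (List.mem_toFinset.1 hv))
    have h1 : ∃ Q : List V, PathL G Q ∧ (∀ v ∈ Q, v ∈ W) ∧ Q.length = 1 :=
      ⟨[w], ⟨by simp, by simp, by simp⟩, by simpa using hw, rfl⟩
    have h1W : 1 ≤ W.card := Finset.card_pos.2 ⟨w, hw⟩
    have h2 := Nat.findGreatest_spec (P := fun n => ∃ Q : List V, PathL G Q ∧
      (∀ v ∈ Q, v ∈ W) ∧ Q.length = n) h1W h1
    obtain ⟨P, hP1, hP2, hP3⟩ := h2
    refine ⟨P, hP1, hP2, fun Q hQ hQW => ?_⟩
    rw [hP3]
    exact Nat.le_findGreatest (P := fun n => ∃ Q : List V, PathL G Q ∧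
      (∀ v ∈ Q, v ∈ W) ∧ Q.length = n) (hb Q hQ hQW) ⟨Q, hQ, hQW, rfl⟩
  obtain ⟨hR1, hR2⟩ := hPosR V G P hP
  -- facts for every rotation
  have hRW : ∀ Q, PRot G P Q → ∀ v ∈ Q, v ∈ W := fun Q hQ v hv =>
    hPW v ((hR1 Q hQ).2.1.mem_iff.1 hv)
  have hnb : ∀ Q x, PRot G P (Q ++ [x]) → ∀ w ∈ W, G.Adj x w → w ∈ Q := by
    intro Q x hQ w hw hxw
    by_contra hcon
    have h1 := hR1 _ hQ
    have h2 : w ∉ Q ++ [x] := by
      rw [List.mem_append, List.mem_singleton]
      rintro (h | h)
      · exact hcon h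
      · exact G.ne_of_adj hxw h.symm
    have h3 := hmax (Q ++ [x] ++ [w]) ⟨by simp, ?_, ?_⟩ ?_
    · have h4 := h1.2.1.length_eq
      rw [List.length_append, h4] at h3
      simp at h3
    · rw [List.nodup_append]
      refine ⟨h1.1.2.1, by simp, ?_⟩
      intro a ha b hb
      rw [List.mem_singleton] at hb
      rw [hb]
      rintro rfl
      exact h2 ha
    · rw [List.isChain_append]
      refine ⟨h1.1.2.2, by simp, ?_⟩
      intro a ha b hb
      rw [List.getLast?_concat, Option.mem_some_iff] at ha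
      simp only [List.head?_cons, Option.mem_some_iff] at hb
      rw [← ha, ← hb]
      exact hxw
    · intro v hv
      rw [List.mem_append, List.mem_singleton] at hv
      rcases hv with hv | hv
      · exact hRW _ hQ v hv
      · rw [hv]; exact hw
  have hkey : ∀ Q x, PRot G P (Q ++ [x]) →
      5 ≤ L ∧ ∀ (A B : List V) (y : V), Q = A ++ y :: B → G.Adj x y → B.length + 2 < L :=
    fun Q x hQ => Posa_key hdeg hL Q x (hR1 _ hQ).1 (hRW _ hQ) (hnb Q x hQ)
  obtain ⟨k, hk⟩ : ∃ k, k = P.length + 1 - L := ⟨_, rfl⟩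
  have hlen : ∀ Q, PRot G P Q → Q.length = P.length := fun Q hQ => (hR1 Q hQ).2.1.length_eq
  have htake : ∀ Q, PRot G P Q → Q.take k = P.take k := by
    intro Q hQ
    induction hQ with
    | refl => rfl
    | step A B y x hQ hxy hB ih =>
      have h1 := (hkey (A ++ [y] ++ B) x hQ).2 A B y (by simp) hxy
      have h2 := hlen _ hQ
      simp only [List.length_append, List.length_cons, List.length_nil] at h2
      have h3 : k ≤ A.length := by omega
      rw [← ih, List.append_assoc, List.append_assoc, List.take_append_of_le_length h3,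
        List.append_assoc, List.append_assoc, List.take_append_of_le_length h3]
  have hnotin : ∀ Q x, PRot G P (Q ++ [x]) → x ∈ P.drop k ∧ ∀ y ∈ W, G.Adj x y → y ∈ P.drop k := by
    intro Q x hQ
    have hPmem : ∀ v, v ∈ Q ++ [x] → v ∉ (Q ++ [x]).take k → v ∈ P.drop k := by
      intro v hv hv2
      rw [htake _ hQ] at hv2
      have h1 : v ∈ P := (hR1 _ hQ).2.1.mem_iff.1 hv
      rw [← List.take_append_drop k P, List.mem_append] at h1
      tauto
    have hkk := hkey Q x hQ
    have hl := hlen _ hQ
    have hnd := (hR1 _ hQ).1.2.1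
    simp only [List.length_append, List.length_cons, List.length_nil] at hl
    constructor
    · refine hPmem x (by simp) ?_
      rw [List.take_append_of_le_length (by omega)]
      intro h
      have h1 := List.mem_of_mem_take h
      rw [List.nodup_append] at hnd
      exact hnd.2.2 x h1 x (by simp) rfl
    · intro y hy hxy
      have hyQ := hnb Q x hQ y hy hxy
      refine hPmem y (by simp [hyQ]) ?_
      obtain ⟨A, B, hAB⟩ := List.append_of_mem hyQ
      have h1 := hkk.2 A B y hAB hxy
      have h2 : k ≤ A.length := by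
        have := congrArg List.length hAB
        simp only [List.length_append, List.length_cons] at this
        omega
      have h3 : Q ++ [x] = A ++ (y :: B ++ [x]) := by rw [hAB]; simp
      rw [h3, List.take_append_of_le_length h2]
      intro h
      have h4 := List.mem_of_mem_take h
      rw [h3, List.nodup_append] at hnd
      exact hnd.2.2 y h4 y (by simp) rfl
  obtain ⟨S, hS⟩ : ∃ S : Finset V, S = W.filter
      (fun w => ∃ Q, PRot G P Q ∧ Q.getLast? = some w) := ⟨_, rfl⟩
  have hlast : ∀ Q : List V, ∀ x, Q.getLast? = some x → ∃ Q', Q = Q' ++ [x] := by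
    intro Q x h
    rw [List.getLast?_eq_some_iff] at h
    exact h
  have hSmem : ∀ x, x ∈ S ↔ ∃ Q, PRot G P (Q ++ [x]) := by
    intro x
    rw [hS, Finset.mem_filter]
    constructor
    · rintro ⟨_, Q, hQ, hx⟩
      obtain ⟨Q', rfl⟩ := hlast Q x hx
      exact ⟨Q', hQ⟩
    · rintro ⟨Q, hQ⟩
      exact ⟨hRW _ hQ x (by simp), _, hQ, List.getLast?_concat⟩
  refine ⟨S, ?_, ?_, ?_, ?_⟩
  · rw [hS]; exact Finset.filter_subset _ _
  · have h1 : P = P.dropLast ++ [P.getLast hP.1] := (List.dropLast_append_getLast hP.1).symm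
    refine ⟨P.getLast hP.1, (hSmem _).2 ⟨P.dropLast, ?_⟩⟩
    rw [← h1]
    exact PRot.refl
  · -- at most 3 |S|
    obtain ⟨f, hf⟩ : ∃ f : V → V, f = fun z => (P[P.idxOf z - 1]?).getD z := ⟨_, rfl⟩
    obtain ⟨g, hg⟩ : ∃ g : V → V, g = fun z => (P[P.idxOf z + 1]?).getD z := ⟨_, rfl⟩
    have hidx : ∀ (l₁ l₂ : List V) (z : V), P = l₁ ++ z :: l₂ → P.idxOf z = l₁.length := by
      intro l₁ l₂ z h
      have hnd := hP.2.1
      rw [h, List.nodup_append] at hnd
      have hz : z ∉ l₁ := fun hz => hnd.2.2 z hz z (by simp) rfl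
      rw [h, List.idxOf_append_of_notMem hz, List.idxOf_cons_self]
      rfl
    have hsub : S ∪ W.filter (fun w => ∃ s ∈ S, G.Adj s w) ⊆ S ∪ (S.image f ∪ S.image g) := by
      intro y hy
      rw [Finset.mem_union] at hy
      rcases hy with hy | hy
      · exact Finset.mem_union_left _ hy
      rw [Finset.mem_filter] at hy
      obtain ⟨hyW, x, hxS, hxy⟩ := hy
      by_cases hyS : y ∈ S
      · exact Finset.mem_union_left _ hyS
      apply Finset.mem_union_right
      obtain ⟨Q, hQ⟩ := (hSmem x).1 hxS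
      have hyQ := hnb Q x hQ y hyW hxy
      have hyP : y ∈ P := (hR1 _ hQ).2.1.mem_iff.1 (by simp [hyQ])
      -- a consecutive vertex in S
      obtain ⟨z, hzc, hzS⟩ : ∃ z, Cons P y z ∧ z ∈ S := by
        by_contra hcon
        push Not at hcon
        have h1 := hR2 y hyP (by
          intro Q' hQ' hl
          obtain ⟨Q'', rfl⟩ := hlast Q' y hl
          exact hyS ((hSmem y).2 ⟨Q'', hQ'⟩)) (by
          intro z hz Q' hQ' hl
          obtain ⟨Q'', rfl⟩ := hlast Q' z hl
          exact hcon z hz ((hSmem z).2 ⟨Q'', hQ'⟩)) _ hQ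
        obtain ⟨A, B, hAB⟩ := List.append_of_mem hyQ
        cases B with
        | nil =>
          have h2 : Cons (Q ++ [x]) y x := ⟨A, [], Or.inl (by rw [hAB]; simp)⟩
          exact hcon x ((h1 x).1 h2) hxS
        | cons b B' =>
          have h2 : Cons (Q ++ [x]) y b := ⟨A, B' ++ [x], Or.inl (by rw [hAB]; simp)⟩
          have h3 : PRot G P (A ++ [y] ++ [x] ++ (b :: B').reverse) := by
            refine PRot.step A (b :: B') y x ?_ hxy (by simp)
            have h4 : A ++ [y] ++ b :: B' ++ [x] = Q ++ [x] := by rw [hAB]; simp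
            rw [h4]
            exact hQ
          have h5 : A ++ [y] ++ [x] ++ (b :: B').reverse =
              (A ++ [y] ++ [x] ++ B'.reverse) ++ [b] := by simp
          rw [h5] at h3
          exact hcon b ((h1 b).1 h2) ((hSmem b).2 ⟨_, h3⟩)
      obtain ⟨l₁, l₂, h | h⟩ := hzc
      · -- P = l₁ ++ [y, z] ++ l₂
        apply Finset.mem_union_left
        rw [Finset.mem_image]
        refine ⟨z, hzS, ?_⟩
        have h1 := hidx (l₁ ++ [y]) l₂ z (by rw [h]; simp)
        rw [hf]
        simp only [h1, List.length_append, List.length_cons, List.length_nil]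
        rw [h]
        simp
      · -- P = l₁ ++ [z, y] ++ l₂
        apply Finset.mem_union_right
        rw [Finset.mem_image]
        refine ⟨z, hzS, ?_⟩
        have h1 := hidx l₁ (y :: l₂) z (by rw [h]; simp)
        rw [hg]
        simp only [h1]
        rw [h]
        simp
    calc (S ∪ W.filter (fun w => ∃ s ∈ S, G.Adj s w)).card
        ≤ (S ∪ (S.image f ∪ S.image g)).card := Finset.card_le_card hsub
      _ ≤ S.card + (S.image f ∪ S.image g).card := Finset.card_union_le _ _
      _ ≤ S.card + ((S.image f).card + (S.image g).card) := by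
          have := Finset.card_union_le (S.image f) (S.image g)
          omega
      _ ≤ S.card + (S.card + S.card) := by
          have h1 := Finset.card_image_le (s := S) (f := f)
          have h2 := Finset.card_image_le (s := S) (f := g)
          omega
      _ = 3 * S.card := by ring
  · have h1 : S ∪ W.filter (fun w => ∃ s ∈ S, G.Adj s w) ⊆ (P.drop k).toFinset := by
      intro y hy
      rw [Finset.mem_union] at hy
      rw [List.mem_toFinset]
      rcases hy with hy | hy
      · obtain ⟨Q, hQ⟩ := (hSmem y).1 hy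
        exact (hnotin Q y hQ).1
      · rw [Finset.mem_filter] at hy
        obtain ⟨hyW, x, hxS, hxy⟩ := hy
        obtain ⟨Q, hQ⟩ := (hSmem x).1 hxS
        exact (hnotin Q x hQ).2 y hyW hxy
    have h2 : 5 ≤ L := by
      have h3 : P = P.dropLast ++ [P.getLast hP.1] := (List.dropLast_append_getLast hP.1).symm
      refine (hkey P.dropLast (P.getLast hP.1) ?_).1
      rw [← h3]
      exact PRot.refl
    have h3 := Finset.card_le_card h1
    have h4 := List.toFinset_card_le (P.drop k)
    rw [List.length_drop] at h4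
    omega

end Pool.CMK
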