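import Pool.Agent.CMK.St3

/-!
# CMK: the blow-up structure (`thm_Reg`)
-/

set_option autoImplicit false

namespace Pool.CMK

open Finset
open scoped Classical

private theorem Reg_ad_eq {V : Type} (G : SimpleGraph V) (X Y : Finset V) :
    ad G X Y = ∑ v ∈ X, (nbs G v Y).card := by
  unfold ad nbs
  rw [← card_sigma]
  refine card_bij (fun p _ => ⟨p.1, p.2⟩) ?_ ?_ ?_
  · intro p hp
    simp only [mem_filter, mem_product] at hp
    simp only [mem_sigma, mem_filter]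
    exact ⟨hp.1.1, hp.1.2, hp.2⟩
  · intro p hp q hq h
    have h1 : p.1 = q.1 := congrArg Sigma.fst h
    have h2 : p.2 = q.2 := by
      have := (Sigma.mk.inj_iff.1 h).2
      exact eq_of_heq this
    exact Prod.ext h1 h2
  · intro b hb
    simp only [mem_sigma, mem_filter] at hb
    refine ⟨(b.1, b.2), ?_, rfl⟩
    simp only [mem_filter, mem_product]
    exact ⟨⟨hb.1, hb.2.1⟩, hb.2.2⟩

/-- few vertices have a small degree to `Y` -/
private theorem Reg_few {V : Type} (G : SimpleGraph V) (W Y : Finset V) (d θ : ℝ) (hθ : 0 < θ)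
    (h : ∀ X : Finset V, X ⊆ W → θ ≤ X.card → 2 * d * X.card * Y.card ≤ (ad G X Y : ℝ)) :
    ((W.filter (fun v => ((nbs G v Y).card : ℝ) < 2 * d * Y.card)).card : ℝ) < θ := by
  by_contra hcon
  push Not at hcon
  set X := W.filter (fun v => ((nbs G v Y).card : ℝ) < 2 * d * Y.card) with hX
  have h1 := h X (filter_subset _ _) hcon
  rw [Reg_ad_eq] at h1
  push_cast at h1
  have hne : X.Nonempty := by
    rw [nonempty_iff_ne_empty]
    intro h0
    rw [h0] at hcon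
    simp at hcon
    linarith
  have h2 : ∑ v ∈ X, ((nbs G v Y).card : ℝ) < ∑ _v ∈ X, 2 * d * (Y.card : ℝ) := by
    apply sum_lt_sum_of_nonempty hne
    intro v hv
    exact (mem_filter.1 hv).2
  rw [sum_const, nsmul_eq_mul] at h2
  have h3 : (X.card : ℝ) * (2 * d * Y.card) = 2 * d * X.card * Y.card := by ring
  linarith

private theorem Reg_nbs_sub {V : Type} (G : SimpleGraph V) (v : V) (W U : Finset V) (hU : U ⊆ W) :
    ((nbs G v W).card : ℝ) - ((W.card : ℝ) - U.card) ≤ (nbs G v U).card := by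
  have h1 : nbs G v W ⊆ nbs G v U ∪ (W \ U) := by
    intro w hw
    unfold nbs at hw ⊢
    rw [mem_filter] at hw
    rw [mem_union, mem_filter, mem_sdiff]
    by_cases h : w ∈ U
    · exact Or.inl ⟨h, hw.2⟩
    · exact Or.inr ⟨hw.1, h⟩
  have h2 := (card_le_card h1).trans (card_union_le _ _)
  have h3 : (W \ U).card + U.card = W.card := card_sdiff_add_card_eq_card hU
  have h4 : ((nbs G v W).card : ℝ) ≤ (nbs G v U).card + (W \ U).card := by exact_mod_cast h2
  have h5 : ((W \ U).card : ℝ) + U.card = W.card := by exact_mod_cast h3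
  linarith

theorem thm_Reg (hRegA : St_RegA) : St_Reg := by
  intro ε C hε hε1 hC
  have hC0 : 0 < C := by linarith
  obtain ⟨d, hd⟩ : ∃ d : ℝ, d = ε / (200 * C) := ⟨_, rfl⟩
  obtain ⟨κ, hκ⟩ : ∃ κ : ℝ, κ = ε / (400 * C) := ⟨_, rfl⟩
  have hd0 : 0 < d := by rw [hd]; positivity
  have hκ0 : 0 < κ := by rw [hκ]; positivity
  have hd1 : d ≤ ε / 200 := by
    rw [hd]
    apply div_le_div_of_nonneg_left hε.le (by norm_num)
    linarith
  have hκ1 : κ ≤ ε / 400 := by
    rw [hκ]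
    apply div_le_div_of_nonneg_left hε.le (by norm_num)
    linarith
  have hdκ : d = 2 * κ := by
    rw [hd, hκ]
    field_simp
    norm_num
  obtain ⟨q, hq⟩ : ∃ q : ℝ, q = κ ^ 2 := ⟨_, rfl⟩
  have hq0 : 0 < q := by rw [hq]; positivity
  have hqκ : q ≤ κ / 4000 := by
    rw [hq]
    nlinarith
  have hqd : q ≤ d / 100 := by linarith
  have hqε : q ≤ ε / 1000000 := by linarith
  obtain ⟨T, k₀, hR⟩ := hRegA ε C κ d hε hε1 hC hκ0 (le_of_eq hκ) hd0 (le_of_eq hd)
    (by rw [← hq]; linarith)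
  refine ⟨d, 2 * q, hd0, by linarith, by linarith, by linarith, by linarith, 2 * T,
    max k₀ (⌈(T : ℝ) * (2 / q)⌉₊ + 1), ?_⟩
  intro k hk V _ G hV1 hV2 hdeg
  obtain ⟨t, s₀, Ws, Γ, htT, hkT, hs0, hdisj, hcard, hlow, hΓ, hsize⟩ :=
    hR k ((le_max_left _ _).trans hk) V G hV1 hV2 hdeg
  rw [← hq] at hlow
  have hk1 : ⌈(T : ℝ) * (2 / q)⌉₊ + 1 ≤ k := (le_max_right _ _).trans hk
  have hkpos : 0 < k := by omega
  have hkpos' : (0 : ℝ) < k := by exact_mod_cast hkpos
  have hTpos : 0 < T := by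
    rcases Nat.eq_zero_or_pos T with h | h
    · rw [h] at hkT
      omega
    · exact h
  have hTpos' : (0 : ℝ) < T := by exact_mod_cast hTpos
  have hkT' : (k : ℝ) ≤ T * s₀ := by exact_mod_cast hkT
  have hqs : 2 ≤ q * s₀ := by
    have h1 : (T : ℝ) * (2 / q) ≤ k := by
      refine (Nat.le_ceil _).trans ?_
      exact_mod_cast (by omega : ⌈(T : ℝ) * (2 / q)⌉₊ ≤ k)
    have h2 : (T : ℝ) * (2 / q) ≤ T * s₀ := h1.trans hkT'
    have h3 : 2 / q ≤ (s₀ : ℝ) := le_of_mul_le_mul_left h2 hTpos'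
    rw [div_le_iff₀ hq0] at h3
    linarith
  have hs0pos : (0 : ℝ) < s₀ := by
    by_contra h
    push Not at h
    nlinarith
  have hs0big : (1000 : ℝ) ≤ s₀ := by
    nlinarith
  -- the size of the new clusters
  obtain ⟨s, hs⟩ : ∃ s : ℕ, s = ⌊(1 - 3 * q) * (s₀ : ℝ)⌋₊ := ⟨_, rfl⟩
  have hq3 : 0 ≤ (1 - 3 * q) * (s₀ : ℝ) := by
    apply mul_nonneg _ hs0pos.le
    linarith
  have hsU : (s : ℝ) ≤ (1 - 3 * q) * s₀ := by
    rw [hs]
    exact Nat.floor_le hq3
  have hsL : (1 - 3 * q) * (s₀ : ℝ) < s + 1 := by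
    rw [hs]
    exact Nat.lt_floor_add_one _
  have hsL' : (1 - 4 * q) * (s₀ : ℝ) ≤ s := by linarith
  have hsU' : (s : ℝ) ≤ s₀ - q * (s₀ + 1) := by nlinarith
  have hss : (s : ℝ) ≤ s₀ := by nlinarith
  have hs5 : (1 - 5 * q) * ((s₀ : ℝ) + 1) ≤ s := by nlinarith
  have hhalf : (s₀ : ℝ) ≤ 2 * s := by nlinarith
  -- partners
  have hpart : ∀ i, ∃ j, Γ.Adj i j := by
    intro i
    have h1 := hΓ i
    have h2 : 0 < (nbs Γ i univ).card := by
      rcases Nat.eq_zero_or_pos (nbs Γ i univ).card with h | h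
      · exfalso
        rw [h] at h1
        simp only [Nat.cast_zero, mul_zero] at h1
        have : 0 < (1 / 2 + 3 * ε / 4) * (k : ℝ) := by positivity
        linarith
      · exact h
    obtain ⟨j, hj⟩ := card_pos.1 h2
    unfold nbs at hj
    rw [mem_filter] at hj
    exact ⟨j, hj.2⟩
  choose J hJ using hpart
  obtain ⟨Xb, hXb⟩ : ∃ Xb : Fin t → Finset V, Xb = fun i => (Ws i).filter
    (fun v => ((nbs G v (Ws (J i))).card : ℝ) < 2 * d * (Ws (J i)).card) := ⟨_, rfl⟩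
  have hθ : 0 < q * ((s₀ : ℝ) + 1) := by positivity
  have hsmall : q * ((s₀ : ℝ) + 1) ≤ s₀ := by nlinarith
  have hX : ∀ i, ((Xb i).card : ℝ) < q * ((s₀ : ℝ) + 1) := by
    intro i
    rw [hXb]
    apply Reg_few G (Ws i) (Ws (J i)) d _ hθ
    intro X hXW hXc
    apply hlow i (J i) (hJ i) X (Ws (J i)) hXW (Subset.refl _) hXc
    refine hsmall.trans ?_
    exact_mod_cast (hcard (J i)).1
  have hsub : ∀ i, ∃ U ⊆ Ws i \ Xb i, U.card = s := by
    intro i
    apply exists_subset_card_eq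
    have h1 : Xb i ⊆ Ws i := by
      rw [hXb]
      exact filter_subset _ _
    have h2 : (Ws i \ Xb i).card + (Xb i).card = (Ws i).card := card_sdiff_add_card_eq_card h1
    have h3 : ((Ws i \ Xb i).card : ℝ) + (Xb i).card = (Ws i).card := by exact_mod_cast h2
    have h4 : (s₀ : ℝ) ≤ (Ws i).card := by exact_mod_cast (hcard i).1
    have h5 := hX i
    have h6 : (s : ℝ) ≤ (Ws i \ Xb i).card := by linarith
    exact_mod_cast h6
  choose Vs hVs hVc using hsub
  have hVW : ∀ i, Vs i ⊆ Ws i := fun i => (hVs i).trans sdiff_subset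
  refine ⟨t, s, Vs, Γ, ?_, ?_, ?_, ?_, ?_, ?_⟩
  · refine ⟨hVc, ?_, ?_, ?_⟩
    · intro i j hij
      exact (hdisj i j hij).mono (hVW i) (hVW j)
    · intro i j hij X Y hXV hYV hXc hYc
      have h1 : q * ((s₀ : ℝ) + 1) ≤ 2 * q * s := by nlinarith
      have h2 := hlow i j hij X Y (hXV.trans (hVW i)) (hYV.trans (hVW j)) (h1.trans hXc)
        (h1.trans hYc)
      have h3 : 0 ≤ d * X.card * Y.card := by positivity
      linarith
    · intro i v hv
      refine ⟨J i, hJ i, ?_⟩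
      have h1 := hVs i hv
      rw [mem_sdiff] at h1
      have h2 : 2 * d * ((Ws (J i)).card : ℝ) ≤ (nbs G v (Ws (J i))).card := by
        by_contra hcon
        push Not at hcon
        apply h1.2
        rw [hXb]
        exact mem_filter.2 ⟨h1.1, hcon⟩
      have h3 := Reg_nbs_sub G v (Ws (J i)) (Vs (J i)) (hVW _)
      rw [hVc] at h3
      have h4 : (s₀ : ℝ) ≤ (Ws (J i)).card := by exact_mod_cast (hcard (J i)).1
      have h5 : ((Ws (J i)).card : ℝ) ≤ s₀ + 1 := by exact_mod_cast (hcard (J i)).2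
      have h6 : 2 * d * (s₀ : ℝ) ≤ 2 * d * ((Ws (J i)).card : ℝ) :=
        mul_le_mul_of_nonneg_left h4 (by linarith)
      have h7 : d * (s : ℝ) ≤ d * s₀ := mul_le_mul_of_nonneg_left hss hd0.le
      have h8 : 100 * q * (s₀ : ℝ) ≤ d * s₀ := mul_le_mul_of_nonneg_right (by linarith) hs0pos.le
      linarith
  · omega
  · have h1 : s₀ ≤ 2 * s := by exact_mod_cast hhalf
    calc k ≤ T * s₀ := hkT
      _ ≤ T * (2 * s) := Nat.mul_le_mul_left _ h1
      _ = 2 * T * s := by ring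
  · linarith
  · intro i
    have h1 := hΓ i
    have h2 : (0 : ℝ) ≤ (nbs Γ i univ).card := by positivity
    have h3 : (1 - 5 * q) * (((s₀ : ℝ) + 1) * (nbs Γ i univ).card) ≤
        (s : ℝ) * (nbs Γ i univ).card := by
      have := mul_le_mul_of_nonneg_right hs5 h2
      linarith
    have h4 : (1 - 5 * q) * ((1 / 2 + 3 * ε / 4) * (k : ℝ)) ≤
        (1 - 5 * q) * (((s₀ : ℝ) + 1) * (nbs Γ i univ).card) :=
      mul_le_mul_of_nonneg_left h1 (by linarith)
    have h5 : 1 / 2 + ε / 2 ≤ (1 - 5 * q) * (1 / 2 + 3 * ε / 4) := by nlinarith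
    have h6 : (1 / 2 + ε / 2) * (k : ℝ) ≤ (1 - 5 * q) * (1 / 2 + 3 * ε / 4) * k :=
      mul_le_mul_of_nonneg_right h5 hkpos'.le
    linarith
  · have h2 : (0 : ℝ) ≤ t := by positivity
    have h3 : (1 - 4 * q) * ((s₀ : ℝ) * t) ≤ (t : ℝ) * s := by
      have := mul_le_mul_of_nonneg_right hsL' h2
      linarith
    have h4 : (1 - 4 * q) * ((1 + 3 * ε / 4) * (k : ℝ)) ≤ (1 - 4 * q) * ((s₀ : ℝ) * t) :=
      mul_le_mul_of_nonneg_left hsize (by linarith)
    have h5 : 1 + ε / 2 ≤ (1 - 4 * q) * (1 + 3 * ε / 4) := by nlinarith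
    have h6 : (1 + ε / 2) * (k : ℝ) ≤ (1 - 4 * q) * (1 + 3 * ε / 4) * k :=
      mul_le_mul_of_nonneg_right h5 hkpos'.le
    linarith

end Pool.CMK
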