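import Pool.Agent.CMK.StS
import Pool.Agent.CMK.Lib

/-!
# CMK: Szemeredi's regularity lemma and the reduced graph
-/

set_option autoImplicit false

namespace Pool.CMK

open Finset
open scoped Classical

private theorem RegA_ad_cover {V : Type} [Fintype V] (G : SimpleGraph V) {t : ℕ}
    (P : Fin t → Finset V) (hcov : ∀ v, ∃ i, v ∈ P i) (A : Finset V) :
    ad G A univ ≤ ∑ j, ad G A (P j) := by
  unfold ad
  refine le_trans (card_le_card ?_) (card_biUnion_le)
  intro p hp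
  rw [mem_filter, mem_product] at hp
  obtain ⟨j, hj⟩ := hcov p.2
  exact mem_biUnion.2 ⟨j, mem_univ _, mem_filter.2 ⟨mem_product.2 ⟨hp.1.1, hj⟩, hp.2⟩⟩

theorem thm_RegA (hRegU : St_RegU) : St_RegA := by
  intro ε C κ d hε hε1 hC hκ hκC hd hdC hκd
  have hC0 : 0 < C := by linarith
  have hκ1 : κ * C ≤ ε / 400 := by
    have := (le_div_iff₀ (by positivity : (0 : ℝ) < 400 * C)).1 hκC
    linarith
  have hd1 : d * C ≤ ε / 200 := by
    have := (le_div_iff₀ (by positivity : (0 : ℝ) < 200 * C)).1 hdC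
    linarith
  have hκ2 : κ ≤ ε / 400 := by
    have : κ * 1 ≤ κ * C := mul_le_mul_of_nonneg_left hC hκ.le
    linarith
  obtain ⟨b, hb⟩ := hRegU κ hκ (by linarith) (⌈400 * C / ε⌉₊ + 1) (by omega)
  refine ⟨2 * b + 1, (⌈400 * C / ε⌉₊ + 1) + (b + 1) + ⌈200 / ε⌉₊ + ⌈5 * (b : ℝ) / ε⌉₊, ?_⟩
  intro k hk V _ G hN1 hN2 hdeg
  have hk1 : ⌈400 * C / ε⌉₊ + 1 ≤ k := by omega
  have hk2 : b + 1 ≤ k := by omega
  have hk3 : 200 ≤ ε * k := by
    have h1 : ⌈200 / ε⌉₊ ≤ k := by omega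
    have h2 : 200 / ε ≤ k := le_trans (Nat.le_ceil _) (by exact_mod_cast h1)
    rw [div_le_iff₀ hε] at h2
    linarith
  have hk4 : 5 * (b : ℝ) ≤ ε * k := by
    have h1 : ⌈5 * (b : ℝ) / ε⌉₊ ≤ k := by omega
    have h2 : 5 * (b : ℝ) / ε ≤ k := le_trans (Nat.le_ceil _) (by exact_mod_cast h1)
    rw [div_le_iff₀ hε] at h2
    linarith
  have hkN : (k : ℝ) ≤ Fintype.card V := by nlinarith
  have hkN' : k ≤ Fintype.card V := by exact_mod_cast hkN
  obtain ⟨t₀, s₀, P, bad, hlt, htb, hdis, hcov, hsz, hbad, hgood⟩ := hb V G (by omega)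
  have hsum : ∑ j, (P j).card = Fintype.card V := by
    rw [← card_univ, ← card_biUnion (fun i _ j _ hij => hdis i j hij)]
    apply congrArg
    rw [eq_univ_iff_forall]
    intro v
    obtain ⟨j, hj⟩ := hcov v
    exact mem_biUnion.2 ⟨j, mem_univ _, hj⟩
  have h1 : t₀ * s₀ ≤ Fintype.card V := by
    rw [← hsum]
    calc t₀ * s₀ = ∑ _j : Fin t₀, s₀ := by simp
      _ ≤ _ := sum_le_sum (fun j _ => (hsz j).1)
  have h2 : Fintype.card V ≤ t₀ * (s₀ + 1) := by
    rw [← hsum]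
    calc ∑ j, (P j).card ≤ ∑ _j : Fin t₀, (s₀ + 1) := sum_le_sum (fun j _ => (hsz j).2)
      _ = _ := by simp
  have hs0 : 1 ≤ s₀ := by
    by_contra h
    have h3 : s₀ = 0 := by omega
    rw [h3] at h2
    omega
  have h1r : (t₀ : ℝ) * s₀ ≤ Fintype.card V := by exact_mod_cast h1
  have h2r : (Fintype.card V : ℝ) ≤ t₀ * (s₀ + 1) := by exact_mod_cast h2
  have htbr : (t₀ : ℝ) ≤ b := by exact_mod_cast htb
  have hbk : (b : ℝ) + 1 ≤ k := by exact_mod_cast hk2
  have ht0 : 0 < t₀ := by omega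
  have ht0r : (0 : ℝ) < t₀ := by exact_mod_cast ht0
  have hs0r : (1 : ℝ) ≤ s₀ := by exact_mod_cast hs0
  have hk0 : (0 : ℝ) < k := by
    have : (0 : ℝ) ≤ b := Nat.cast_nonneg _
    linarith
  have hsk : (s₀ : ℝ) * 400 ≤ ε * k := by
    have h3 : 400 * C / ε ≤ t₀ := by
      refine le_trans (Nat.le_ceil _) ?_
      have : ⌈400 * C / ε⌉₊ ≤ t₀ := by omega
      exact_mod_cast this
    rw [div_le_iff₀ hε] at h3
    have h4 : (s₀ : ℝ) * (400 * C) ≤ s₀ * (t₀ * ε) := mul_le_mul_of_nonneg_left h3 (by linarith)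
    have h5 : ε * ((t₀ : ℝ) * s₀) ≤ ε * (C * k) :=
      mul_le_mul_of_nonneg_left (by linarith) hε.le
    have h6 : ((s₀ : ℝ) * 400) * C ≤ (ε * k) * C := by nlinarith
    exact le_of_mul_le_mul_right h6 hC0
  have hs1 : (s₀ : ℝ) + 1 ≤ ε * k / 100 := by linarith
  -- the good parts
  let e : Fin (badᶜ).card ≃ (badᶜ : Finset (Fin t₀)) := (badᶜ).equivFin.symm
  let g : Fin (badᶜ).card → Fin t₀ := fun i => (e i : Fin t₀)
  have hgb : ∀ i, g i ∉ bad := fun i => mem_compl.1 (e i).2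
  have hgi : ∀ i j, g i = g j → i = j := fun i j h => e.injective (Subtype.ext h)
  let U : Fin t₀ → Fin t₀ → Prop := fun i j => ∀ X Y : Finset V, X ⊆ P i → Y ⊆ P j →
      κ ^ 2 * (P i).card ≤ X.card → κ ^ 2 * (P j).card ≤ Y.card →
      (ad G (P i) (P j) : ℝ) * (X.card * Y.card) ≤ (ad G X Y : ℝ) * ((P i).card * (P j).card) +
        κ ^ 2 * (X.card * Y.card) * ((P i).card * (P j).card)
  have hUs : ∀ i j, U i j → U j i := by
    intro i j h X Y hX hY a1 a2
    have h3 := h Y X hY hX a2 a1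
    rw [mul_comm (Y.card : ℝ) X.card, mul_comm ((P i).card : ℝ) (P j).card,
      lib_ad_comm G (P i) (P j), lib_ad_comm G Y X] at h3
    exact h3
  let E : Fin t₀ → Fin t₀ → Prop := fun i j =>
    3 * d * ((P i).card * (P j).card) ≤ (ad G (P i) (P j) : ℝ)
  have hEs : ∀ i j, E i j → E j i := by
    intro i j h
    have h3 : 3 * d * ((P i).card * (P j).card) ≤ (ad G (P i) (P j) : ℝ) := h
    rw [mul_comm ((P i).card : ℝ) (P j).card, lib_ad_comm G (P i) (P j)] at h3
    exact h3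
  let Γ : SimpleGraph (Fin (badᶜ).card) :=
    { Adj := fun i j => i ≠ j ∧ U (g i) (g j) ∧ E (g i) (g j)
      symm := ⟨fun i j h => ⟨h.1.symm, hUs _ _ h.2.1, hEs _ _ h.2.2⟩⟩
      loopless := ⟨fun i h => h.1 rfl⟩ }
  have hcc : bad.card + (badᶜ).card = t₀ := by
    rw [card_add_card_compl, Fintype.card_fin]
  have hccr : (bad.card : ℝ) + (badᶜ).card = t₀ := by exact_mod_cast hcc
  refine ⟨(badᶜ).card, s₀, fun i => P (g i), Γ, by omega, ?_, hs1, ?_, ?_, ?_, ?_, ?_⟩
  · -- k ≤ T s₀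
    have h3 : t₀ * (s₀ + 1) ≤ b * (s₀ + s₀) := Nat.mul_le_mul htb (by omega)
    have h4 : b * (s₀ + s₀) ≤ (2 * b + 1) * s₀ := by
      have : b * (s₀ + s₀) + s₀ = (2 * b + 1) * s₀ := by ring
      omega
    omega
  · intro i j hij
    exact hdis _ _ (fun h => hij (hgi _ _ h))
  · intro i
    exact hsz _
  · -- low
    intro i j hij X Y hX hY hX1 hY1
    obtain ⟨-, hU, hE⟩ := hij
    have hPi : ((P (g i)).card : ℝ) ≤ s₀ + 1 := by exact_mod_cast (hsz (g i)).2
    have hPj : ((P (g j)).card : ℝ) ≤ s₀ + 1 := by exact_mod_cast (hsz (g j)).2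
    have hκ0 : 0 ≤ κ ^ 2 := sq_nonneg κ
    have h3 := hU X Y hX hY (le_trans (mul_le_mul_of_nonneg_left hPi hκ0) hX1)
      (le_trans (mul_le_mul_of_nonneg_left hPj hκ0) hY1)
    have h4 : 3 * d * ((P (g i)).card * (P (g j)).card) ≤ (ad G (P (g i)) (P (g j)) : ℝ) := hE
    have hPi' : (1 : ℝ) ≤ (P (g i)).card := le_trans hs0r (by exact_mod_cast (hsz (g i)).1)
    have hPj' : (1 : ℝ) ≤ (P (g j)).card := le_trans hs0r (by exact_mod_cast (hsz (g j)).1)
    set D : ℝ := (P (g i)).card * (P (g j)).card with hD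
    have hD0 : 0 < D := by rw [hD]; positivity
    set Z : ℝ := (X.card : ℝ) * Y.card with hZ
    have hZ0 : 0 ≤ Z := by rw [hZ]; positivity
    have h5 : 3 * d * D * Z ≤ (ad G (P (g i)) (P (g j)) : ℝ) * Z :=
      mul_le_mul_of_nonneg_right h4 hZ0
    have h6 : κ ^ 2 * Z * D ≤ d * Z * D :=
      mul_le_mul_of_nonneg_right (mul_le_mul_of_nonneg_right hκd hZ0) hD0.le
    have h7 : (2 * d * Z) * D ≤ (ad G X Y : ℝ) * D := by nlinarith
    have h8 := le_of_mul_le_mul_right h7 hD0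
    calc 2 * d * X.card * Y.card = 2 * d * Z := by rw [hZ]; ring
      _ ≤ _ := h8
  · -- deg
    intro i
    set A := P (g i) with hA
    have hA0 : (1 : ℝ) ≤ A.card := le_trans hs0r (by exact_mod_cast (hsz (g i)).1)
    have h3 : (1 / 2 + ε) * k * A.card ≤ (ad G A univ : ℝ) := by
      rw [lib_ad_eq_sum]
      push_cast
      calc (1 / 2 + ε) * k * A.card = ∑ _v ∈ A, (1 / 2 + ε) * k := by
            rw [sum_const, nsmul_eq_mul]; ring
        _ ≤ _ := sum_le_sum (fun v _ => hdeg v)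
    have h4 : (ad G A univ : ℝ) ≤ ∑ j, (ad G A (P j) : ℝ) := by
      exact_mod_cast RegA_ad_cover G P hcov A
    let NU : Finset (Fin t₀) := univ.filter (fun j => j ≠ g i ∧ ¬ U (g i) j)
    let Im : Finset (Fin t₀) := (nbs Γ i univ).image g
    let S : Finset (Fin t₀) := {g i} ∪ bad ∪ NU ∪ Im
    have hterm : ∀ j, (ad G A (P j) : ℝ) ≤
        A.card * (((s₀ : ℝ) + 1) * (if j ∈ S then 1 else 0) + 3 * d * (P j).card) := by
      intro j
      have hPj : ((P j).card : ℝ) ≤ s₀ + 1 := by exact_mod_cast (hsz j).2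
      have hPj0 : (0 : ℝ) ≤ (P j).card := Nat.cast_nonneg _
      by_cases hj : j ∈ S
      · rw [if_pos hj]
        have h5 : (ad G A (P j) : ℝ) ≤ A.card * (P j).card := by
          exact_mod_cast lib_ad_le G A (P j)
        refine le_trans h5 (mul_le_mul_of_nonneg_left ?_ (by linarith))
        have : 0 ≤ 3 * d * ((P j).card : ℝ) := by positivity
        linarith
      · rw [if_neg hj, mul_zero, zero_add]
        simp only [S, mem_union, mem_singleton, not_or] at hj
        obtain ⟨⟨⟨hj1, hj2⟩, hj3⟩, hj4⟩ := hj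
        have hU : U (g i) j := by
          by_contra hU
          exact hj3 (mem_filter.2 ⟨mem_univ _, hj1, hU⟩)
        have hnE : ¬ E (g i) j := by
          intro hE
          apply hj4
          have hgj : g (e.symm ⟨j, mem_compl.2 hj2⟩) = j := by
            show ((e (e.symm ⟨j, mem_compl.2 hj2⟩) : (badᶜ : Finset (Fin t₀))) : Fin t₀) = j
            rw [Equiv.apply_symm_apply]
          refine mem_image.2 ⟨e.symm ⟨j, mem_compl.2 hj2⟩, ?_, hgj⟩
          rw [lib_mem_nbs]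
          refine ⟨mem_univ _, ?_, ?_, ?_⟩
          · intro h
            apply hj1
            rw [← hgj, ← h]
          · rw [hgj]; exact hU
          · rw [hgj]; exact hE
        have h5 : (ad G A (P j) : ℝ) < 3 * d * ((P (g i)).card * (P j).card) := not_le.1 hnE
        rw [hA]
        rw [hA] at h5
        linarith
    have h5 : ∑ j, (A.card : ℝ) * (((s₀ : ℝ) + 1) * (if j ∈ S then 1 else 0) +
        3 * d * (P j).card) = A.card * (((s₀ : ℝ) + 1) * S.card + 3 * d * Fintype.card V) := by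
      rw [← mul_sum, sum_add_distrib, ← mul_sum, ← mul_sum, sum_ite_mem, univ_inter, sum_const,
        nsmul_eq_mul, mul_one, ← hsum]
      push_cast
      rfl
    have h6 : (1 / 2 + ε) * k * A.card ≤
        A.card * (((s₀ : ℝ) + 1) * S.card + 3 * d * Fintype.card V) := by
      rw [← h5]
      exact le_trans h3 (le_trans h4 (sum_le_sum (fun j _ => hterm j)))
    have h7 : (1 / 2 + ε) * k ≤ ((s₀ : ℝ) + 1) * S.card + 3 * d * Fintype.card V := by
      rw [mul_comm (A.card : ℝ)] at h6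
      exact le_of_mul_le_mul_right h6 (by linarith)
    have hS : (S.card : ℝ) ≤ 1 + κ * t₀ + κ * t₀ + (nbs Γ i univ).card := by
      have a1 : S.card ≤ ({g i} ∪ bad ∪ NU).card + Im.card := card_union_le _ _
      have a2 : ({g i} ∪ bad ∪ NU : Finset (Fin t₀)).card ≤ ({g i} ∪ bad).card + NU.card :=
        card_union_le _ _
      have a3 : ({g i} ∪ bad : Finset (Fin t₀)).card ≤ 1 + bad.card := by
        refine le_trans (card_union_le _ _) ?_
        rw [card_singleton]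
      have a4 : Im.card ≤ (nbs Γ i univ).card := card_image_le
      have a5 : (NU.card : ℝ) ≤ κ * t₀ := hgood (g i) (hgb i)
      have a6 : (S.card : ℝ) ≤ 1 + bad.card + NU.card + (nbs Γ i univ).card := by
        have : S.card ≤ 1 + bad.card + NU.card + (nbs Γ i univ).card := by omega
        exact_mod_cast this
      linarith
    have h8 : ((s₀ : ℝ) + 1) * S.card ≤
        ((s₀ : ℝ) + 1) * (1 + κ * t₀ + κ * t₀ + (nbs Γ i univ).card) :=
      mul_le_mul_of_nonneg_left hS (by linarith)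
    have h9 : κ * (t₀ * ((s₀ : ℝ) + 1)) ≤ κ * (2 * (C * k)) := by
      refine mul_le_mul_of_nonneg_left ?_ hκ.le
      nlinarith
    have h10 : κ * C * k ≤ ε / 400 * k := mul_le_mul_of_nonneg_right hκ1 hk0.le
    have h11 : d * Fintype.card V ≤ d * (C * k) := mul_le_mul_of_nonneg_left hN2 hd.le
    have h12 : d * C * k ≤ ε / 200 * k := mul_le_mul_of_nonneg_right hd1 hk0.le
    have h13 : 0 < ε * k := by positivity
    have h14 : ((s₀ : ℝ) + 1) * (1 + κ * t₀ + κ * t₀ + (nbs Γ i univ).card) =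
        ((s₀ : ℝ) + 1) + 2 * (κ * (t₀ * ((s₀ : ℝ) + 1))) + ((s₀ : ℝ) + 1) * (nbs Γ i univ).card := by
      ring
    have h15 : κ * (2 * (C * k)) = 2 * (κ * C * k) := by ring
    have h16 : d * (C * k) = d * C * k := by ring
    have h17 : 3 * d * (Fintype.card V : ℝ) = 3 * (d * Fintype.card V) := by ring
    have h18 : (1 / 2 + 3 * ε / 4) * (k : ℝ) = k / 2 + 3 / 4 * (ε * k) := by ring
    have h19 : (1 / 2 + ε) * (k : ℝ) = k / 2 + ε * k := by ring
    have h20 : ε / 400 * (k : ℝ) = 1 / 400 * (ε * k) := by ring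
    have h21 : ε / 200 * (k : ℝ) = 1 / 200 * (ε * k) := by ring
    rw [h14] at h8
    rw [h15] at h9
    rw [h16] at h11
    rw [h17, h19] at h7
    rw [h20] at h10
    rw [h21] at h12
    rw [h18]
    linarith
  · -- size
    have h3 : (t₀ : ℝ) * s₀ ≥ (1 + ε) * k - b := by nlinarith
    have h4 : (s₀ : ℝ) * (badᶜ).card ≥ s₀ * ((1 - κ) * t₀) :=
      mul_le_mul_of_nonneg_left (by linarith) (by linarith)
    have h5 : (1 - κ) * ((t₀ : ℝ) * s₀) ≥ (1 - κ) * ((1 + ε) * k - b) :=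
      mul_le_mul_of_nonneg_left h3 (by linarith)
    have h6 : κ * ((1 + ε) * k) ≤ ε / 400 * (1.1 * k) := by
      refine mul_le_mul hκ2 ?_ (by positivity) (by positivity)
      nlinarith
    have h7 : 0 ≤ κ * b := by positivity
    nlinarith

end Pool.CMK
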