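import Pool.Agent.CMK.StS

/-!
# CMK: Szemeredi's regularity lemma in the form we need
-/

set_option autoImplicit false

namespace Pool.CMK

open Finset
open scoped Classical

private theorem RegU_ad {V : Type} (G : SimpleGraph V) (X Y : Finset V) :
    (ad G X Y : ℝ) = ((G.edgeDensity X Y : ℚ) : ℝ) * (X.card * Y.card) := by
  have h1 : ad G X Y = (G.interedges X Y).card := by
    unfold ad
    apply congrArg
    ext p
    rw [mem_filter, mem_product, SimpleGraph.mem_interedges_iff, and_assoc]
  rw [h1, SimpleGraph.edgeDensity_def]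
  rcases eq_or_ne ((X.card : ℝ) * Y.card) 0 with h2 | h2
  · rw [h2, mul_zero]
    have h3 : X.card = 0 ∨ Y.card = 0 := by
      rcases mul_eq_zero.1 h2 with h | h
      · exact Or.inl (by exact_mod_cast h)
      · exact Or.inr (by exact_mod_cast h)
    have h4 : (G.interedges X Y).card = 0 := by
      rw [card_eq_zero, eq_empty_iff_forall_notMem]
      intro p hp
      rw [SimpleGraph.mem_interedges_iff] at hp
      rcases h3 with h | h
      · rw [card_eq_zero] at h
        rw [h] at hp
        exact notMem_empty _ hp.1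
      · rw [card_eq_zero] at h
        rw [h] at hp
        exact notMem_empty _ hp.2.1
    rw [h4, Nat.cast_zero]
  · push_cast
    rw [div_mul_cancel₀ _ h2]

private theorem RegU_uni {V : Type} (G : SimpleGraph V) (A B : Finset V) (κ : ℝ)
    (h : G.IsUniform (κ ^ 2) A B) : ∀ X Y : Finset V, X ⊆ A → Y ⊆ B →
      κ ^ 2 * A.card ≤ X.card → κ ^ 2 * B.card ≤ Y.card →
      (ad G A B : ℝ) * (X.card * Y.card) ≤ (ad G X Y : ℝ) * (A.card * B.card) +
        κ ^ 2 * (X.card * Y.card) * (A.card * B.card) := by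
  intro X Y hX hY h1 h2
  have h3 := h hX hY (by rw [mul_comm]; exact h1) (by rw [mul_comm]; exact h2)
  rw [abs_lt] at h3
  have h4 : ((G.edgeDensity A B : ℚ) : ℝ) ≤ ((G.edgeDensity X Y : ℚ) : ℝ) + κ ^ 2 := by
    linarith [h3.1]
  rw [RegU_ad, RegU_ad]
  have h5 : (0 : ℝ) ≤ ((A.card : ℝ) * B.card) * ((X.card : ℝ) * Y.card) := by positivity
  have h6 := mul_le_mul_of_nonneg_right h4 h5
  nlinarith [h6]

theorem thm_RegU : St_RegU := by
  intro κ hκ hκ1 l hl
  refine ⟨SzemerediRegularity.bound (κ ^ 2) l, ?_⟩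
  intro V _ G hV
  obtain ⟨Q, hQ1, hQ2, hQ3, hQ4⟩ := szemeredi_regularity G (pow_pos hκ 2) hV
  have ht : 0 < Q.parts.card := lt_of_lt_of_le hl hQ2
  set t := Q.parts.card with htdef
  let e : Fin t ≃ Q.parts := Q.parts.equivFin.symm
  let P : Fin t → Finset V := fun i => (e i : Finset V)
  have hPm : ∀ i, P i ∈ Q.parts := fun i => (e i).2
  have hPi : ∀ i j, P i = P j → i = j := fun i j h => e.injective (Subtype.ext h)
  let bp : Fin t → Fin t → Prop := fun i j => j ≠ i ∧ ¬ (∀ X Y : Finset V, X ⊆ P i → Y ⊆ P j →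
      κ ^ 2 * (P i).card ≤ X.card → κ ^ 2 * (P j).card ≤ Y.card →
      (ad G (P i) (P j) : ℝ) * (X.card * Y.card) ≤ (ad G X Y : ℝ) * ((P i).card * (P j).card) +
        κ ^ 2 * (X.card * Y.card) * ((P i).card * (P j).card))
  refine ⟨t, Fintype.card V / t, P, univ.filter (fun i => κ * t <
    ((univ.filter (fun j => bp i j)).card : ℝ)), hQ2, hQ3, ?_, ?_, ?_, ?_, ?_⟩
  · intro i j hij
    exact Q.disjoint (hPm i) (hPm j) (fun h => hij (hPi i j h))
  · intro v
    obtain ⟨A, hA, hv⟩ := Q.exists_mem (mem_univ v)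
    refine ⟨e.symm ⟨A, hA⟩, ?_⟩
    show v ∈ ((e (e.symm ⟨A, hA⟩) : Q.parts) : Finset V)
    rw [Equiv.apply_symm_apply]
    exact hv
  · intro i
    have h1 := hQ1.card_parts_eq_average (hPm i)
    rw [card_univ, ← htdef] at h1
    rcases h1 with h1 | h1
    · exact ⟨h1.ge, by omega⟩
    · exact ⟨by omega, h1.le⟩
  · have hsum : (∑ i, (univ.filter (fun j => bp i j)).card) ≤ (Q.nonUniforms G (κ ^ 2)).card := by
      have h1 : (∑ i, (univ.filter (fun j => bp i j)).card) =
          (univ.filter (fun p : Fin t × Fin t => bp p.1 p.2)).card := by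
        rw [card_filter, Fintype.sum_prod_type]
        apply sum_congr rfl
        intro i _
        rw [card_filter]
      rw [h1]
      apply card_le_card_of_injOn (fun p => (P p.1, P p.2))
      · intro p hp
        rw [mem_coe, mem_filter] at hp
        rw [mem_coe, Finpartition.mk_mem_nonUniforms]
        refine ⟨hPm _, hPm _, fun h => hp.2.1 (hPi _ _ h).symm, fun h => hp.2.2 ?_⟩
        exact RegU_uni G _ _ κ h
      · intro p _ q _ h
        have h1 : P p.1 = P q.1 := congrArg Prod.fst h
        have h2 : P p.2 = P q.2 := congrArg Prod.snd h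
        exact Prod.ext (hPi _ _ h1) (hPi _ _ h2)
    have h2 : ((Q.nonUniforms G (κ ^ 2)).card : ℝ) ≤ ((t * (t - 1) : ℕ) : ℝ) * κ ^ 2 := hQ4
    have h3 : ((t * (t - 1) : ℕ) : ℝ) ≤ (t : ℝ) * t := by
      have : t * (t - 1) ≤ t * t := Nat.mul_le_mul_left _ (Nat.sub_le _ _)
      exact_mod_cast this
    have h4 : ((univ.filter (fun i => κ * t <
        ((univ.filter (fun j => bp i j)).card : ℝ))).card : ℝ) * (κ * t) ≤
        ∑ i, ((univ.filter (fun j => bp i j)).card : ℝ) := by
      calc ((univ.filter (fun i => κ * t <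
            ((univ.filter (fun j => bp i j)).card : ℝ))).card : ℝ) * (κ * t)
          = ∑ i ∈ univ.filter (fun i => κ * t <
            ((univ.filter (fun j => bp i j)).card : ℝ)), κ * t := by
            rw [sum_const, nsmul_eq_mul]
        _ ≤ ∑ i ∈ univ.filter (fun i => κ * t <
            ((univ.filter (fun j => bp i j)).card : ℝ)),
              ((univ.filter (fun j => bp i j)).card : ℝ) := by
            apply sum_le_sum
            intro i hi
            exact (mem_filter.1 hi).2.le
        _ ≤ ∑ i, ((univ.filter (fun j => bp i j)).card : ℝ) := by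
            apply sum_le_sum_of_subset_of_nonneg (filter_subset _ _)
            intro i _ _
            exact Nat.cast_nonneg _
    have h5 : (∑ i, ((univ.filter (fun j => bp i j)).card : ℝ)) ≤
        ((Q.nonUniforms G (κ ^ 2)).card : ℝ) := by exact_mod_cast hsum
    have htR : (0 : ℝ) < t := by exact_mod_cast ht
    have h6 : ((univ.filter (fun i => κ * t <
        ((univ.filter (fun j => bp i j)).card : ℝ))).card : ℝ) * (κ * t) ≤
        (κ * t) * (κ * t) := by
      have := mul_le_mul_of_nonneg_right h3 (pow_nonneg hκ.le 2)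
      nlinarith [h4, h5, h2, this]
    exact le_of_mul_le_mul_right h6 (mul_pos hκ htR)
  · intro i hi
    by_contra hc
    apply hi
    rw [mem_filter]
    exact ⟨mem_univ _, not_le.1 hc⟩

end Pool.CMK
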