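import Pool.Agent.CMK.StS

/-!
# CMK: short disjoint connections inside a pair (`thm_ShrA`)
-/

set_option autoImplicit false

namespace Pool.CMK

open Finset
open scoped Classical

/-- a vertex, a path and a vertex, joined -/
private theorem ShrA_path {V : Type} (G : SimpleGraph V) (x y : V) (q : List V) (hxy : x ≠ y)
    (hn : q.Nodup) (hc : q.IsChain G.Adj) (hw : ∀ w ∈ q, w ≠ x ∧ w ≠ y)
    (hx : ∃ a, q.head? = some a ∧ G.Adj x a) (hy : ∃ b, q.getLast? = some b ∧ G.Adj b y) :
    PathFT G x y (x :: (q ++ [y])) := by
  obtain ⟨a, ha, hxa⟩ := hx
  obtain ⟨b, hb, hby⟩ := hy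
  refine ⟨⟨by simp, ?_, ?_⟩, by simp, ?_⟩
  · rw [List.nodup_cons, List.nodup_append]
    refine ⟨?_, hn, by simp, ?_⟩
    · intro h
      rw [List.mem_append, List.mem_singleton] at h
      rcases h with h | h
      · exact (hw x h).1 rfl
      · exact hxy h
    · intro c hc' d hd
      rw [List.mem_singleton] at hd
      subst hd
      exact (hw c hc').2
  · rw [List.isChain_cons]
    refine ⟨?_, ?_⟩
    · intro z hz
      have hne : q ≠ [] := by
        rintro rfl
        simp at ha
      rw [List.head?_append_of_ne_nil _ hne, ha] at hz
      have : a = z := by simpa using hz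
      rw [← this]
      exact hxa
    · rw [List.isChain_append]
      refine ⟨hc, by simp, ?_⟩
      intro c hc' d hd
      rw [hb] at hc'
      have h1 : b = c := by simpa using hc'
      have h2 : y = d := by simpa using hd
      rw [← h1, ← h2]
      exact hby
  · rw [← List.cons_append, List.getLast?_append]
    simp

/-- SHRA -/
theorem thm_ShrA (hPP : St_PP) : St_ShrA := by
  intro V _ G A B m g w r x y I U hAB hA hB hg hP hwA hwB hw hm hI hU
  induction I using Finset.induction_on with
  | empty =>
    exact ⟨fun _ => [], by simp, by simp⟩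
  | insert i J hiJ ih =>
    obtain ⟨q, hq, hd⟩ := ih (fun a ha => hI a (Finset.mem_insert_of_mem ha))
    obtain ⟨hxi, hyi, hxy, hxU, hyU⟩ := hI i (Finset.mem_insert_self i J)
    -- the forbidden set
    set U' : Finset V := U ∪ J.biUnion (fun j => (q j).toFinset) with hU'
    have hcard : U'.card ≤ 6 * r := by
      have h1 : (J.biUnion (fun j => (q j).toFinset)).card ≤ J.card * 4 := by
        apply Finset.card_biUnion_le_card_mul
        intro j hj
        exact (List.toFinset_card_le _).trans (hq j hj).1
      have h2 : J.card ≤ r := by
        have := Finset.card_le_univ J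
        rwa [Fintype.card_fin] at this
      have h3 : U'.card ≤ U.card + (J.biUnion (fun j => (q j).toFinset)).card :=
        Finset.card_union_le U _
      omega
    have hside : ∀ v, v ∈ A ∪ B → 6 * r + 2 * g + 2 ≤
        (nbs G v (if (decide (v ∉ A)) = true then A else B)).card := by
      intro v hv
      rw [Finset.mem_union] at hv
      by_cases h : v ∈ A
      · have : (if (decide (v ∉ A)) = true then A else B) = B := by simp [h]
        rw [this]
        exact hw.trans (hwA v h)
      · have : (if (decide (v ∉ A)) = true then A else B) = A := by simp [h]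
        rw [this]
        exact hw.trans (hwB v (hv.resolve_left h))
    obtain ⟨L, hL3, hL4, hLp⟩ : ∃ L : ℕ, 3 ≤ L ∧ L ≤ 4 ∧
        (if (decide (x i ∉ A)) = (decide (y i ∉ A)) then Odd L else Even L) := by
      by_cases h : (decide (x i ∉ A)) = (decide (y i ∉ A))
      · exact ⟨3, le_rfl, by omega, by rw [if_pos h]; decide⟩
      · exact ⟨4, by omega, le_rfl, by rw [if_neg h]; decide⟩
    obtain ⟨p, hpl, hpn, hpc, hpw, hpx, hpy⟩ := hPP V G A B m g (6 * r) U' (x i) (y i)
      (decide (x i ∉ A)) (decide (y i ∉ A)) L hAB hA hB hg hP
      ((Finset.card_le_card Finset.inter_subset_left).trans hcard) hxy (hside _ hxi) (hside _ hyi)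
      hL3 hLp (by omega)
    refine ⟨Function.update q i p, ?_, ?_⟩
    · intro a ha
      rw [Finset.mem_insert] at ha
      by_cases hai : a = i
      · subst hai
        rw [Function.update_self]
        refine ⟨by omega, ShrA_path G (x a) (y a) p hxy hpn hpc (fun v hv => ((hpw v hv).2.2)) hpx
          hpy, ?_⟩
        intro v hv
        refine ⟨(hpw v hv).1, fun h => (hpw v hv).2.1 ?_⟩
        rw [hU']
        exact Finset.mem_union_left _ h
      · rw [Function.update_of_ne hai]
        exact hq a (ha.resolve_left hai)
    · intro a ha b hb hab v hva hvb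
      rw [Finset.mem_insert] at ha hb
      have key : ∀ c ∈ J, v ∈ p → v ∉ q c := by
        intro c hc h1 h2
        apply (hpw v h1).2.1
        rw [hU']
        apply Finset.mem_union_right
        rw [Finset.mem_biUnion]
        exact ⟨c, hc, List.mem_toFinset.2 h2⟩
      by_cases hai : a = i
      · have hbi : b ≠ i := fun h => hab (hai.trans h.symm)
        rw [hai, Function.update_self] at hva
        rw [Function.update_of_ne hbi] at hvb
        exact key b (hb.resolve_left hbi) hva hvb
      · rw [Function.update_of_ne hai] at hva
        by_cases hbi : b = i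
        · rw [hbi, Function.update_self] at hvb
          exact key a (ha.resolve_left hai) hvb hva
        · rw [Function.update_of_ne hbi] at hvb
          exact hd a (ha.resolve_left hai) b (hb.resolve_left hbi) hab v hva hvb

end Pool.CMK
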