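import Pool.Agent.CMK.StS

/-!
# CMK: a linked system which uses few vertices of each pair (`thm_Shrt`)
-/

set_option autoImplicit false

namespace Pool.CMK

open Finset
open scoped Classical

/-- the first element of a list with a property -/
private theorem Shrt_first {V : Type} (P : V → Prop) (l : List V) (h : ∃ v ∈ l, P v) :
    ∃ (l₁ : List V) (x : V) (l₂ : List V), l = l₁ ++ x :: l₂ ∧ P x ∧ ∀ v ∈ l₁, ¬ P v := by
  induction l with
  | nil => simp at h
  | cons a l ih =>
    by_cases ha : P a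
    · exact ⟨[], a, l, rfl, ha, by simp⟩
    · obtain ⟨v, hv, hPv⟩ := h
      rw [List.mem_cons] at hv
      have hv' : v ∈ l := by
        rcases hv with rfl | hv
        · exact absurd hPv ha
        · exact hv
      obtain ⟨l₁, x, l₂, h1, h2, h3⟩ := ih ⟨v, hv', hPv⟩
      refine ⟨a :: l₁, x, l₂, by rw [h1]; rfl, h2, ?_⟩
      intro w hw
      rw [List.mem_cons] at hw
      rcases hw with rfl | hw
      · exact ha
      · exact h3 w hw

/-- the last element of a list with a property -/
private theorem Shrt_last {V : Type} (P : V → Prop) (l : List V) (h : ∃ v ∈ l, P v) :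
    ∃ (l₁ : List V) (x : V) (l₂ : List V), l = l₁ ++ x :: l₂ ∧ P x ∧ ∀ v ∈ l₂, ¬ P v := by
  obtain ⟨l₁, x, l₂, h1, h2, h3⟩ := Shrt_first P l.reverse (by simpa using h)
  refine ⟨l₂.reverse, x, l₁.reverse, ?_, h2, by simpa using h3⟩
  have := congrArg List.reverse h1
  simpa using this

/-- splitting a list at its first and last element of `D` -/
private theorem Shrt_split {V : Type} (z : V) (D : Finset V) (l : List V) :
    ∃ (l₁ mid l₂ : List V) (x y : V),
      (l = l₁ ++ x :: (mid ++ y :: l₂) ∧ x ∈ D ∧ y ∈ D ∧ (∀ v ∈ l₁, v ∉ D) ∧ ∀ v ∈ l₂, v ∉ D) ∨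
      ∀ v ∈ l, v ∈ D → v = x := by
  by_cases h : ∃ v ∈ l, v ∈ D
  · obtain ⟨l₁, x, m, h1, h2, h3⟩ := Shrt_first (fun v => v ∈ D) l h
    by_cases h' : ∃ v ∈ m, v ∈ D
    · obtain ⟨mid, y, l₂, h4, h5, h6⟩ := Shrt_last (fun v => v ∈ D) m h'
      exact ⟨l₁, mid, l₂, x, y, Or.inl ⟨by rw [h1, h4], h2, h5, h3, h6⟩⟩
    · refine ⟨l₁, [], [], x, x, Or.inr ?_⟩
      intro v hv hvD
      rw [h1, List.mem_append, List.mem_cons] at hv
      rcases hv with hv | hv | hv
      · exact absurd hvD (h3 v hv)
      · exact hv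
      · exact absurd ⟨v, hv, hvD⟩ h'
  · exact ⟨[], [], [], z, z, Or.inr fun v hv hvD => absurd ⟨v, hv, hvD⟩ h⟩

/-- replacing the middle part of a path -/
private theorem Shrt_replace {V : Type} (G : SimpleGraph V) (D : Finset V) (l₁ mid l₂ q : List V)
    (x y : V) (h : PathL G (l₁ ++ x :: (mid ++ y :: l₂)))
    (h1 : ∀ v ∈ l₁, v ∉ D) (h2 : ∀ v ∈ l₂, v ∉ D) (hx : x ∈ D) (hy : y ∈ D)
    (hq : PathFT G x y (x :: (q ++ [y]))) (hqD : ∀ v ∈ q, v ∈ D) :
    PathL G (l₁ ++ x :: (q ++ y :: l₂)) := by
  obtain ⟨-, hn, hc⟩ := h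
  obtain ⟨⟨-, hn', hc'⟩, -, -⟩ := hq
  have e1 : l₁ ++ x :: (mid ++ y :: l₂) = l₁ ++ ((x :: (mid ++ [y])) ++ l₂) := by simp
  have e2 : l₁ ++ x :: (q ++ y :: l₂) = l₁ ++ ((x :: (q ++ [y])) ++ l₂) := by simp
  have hD : ∀ v ∈ x :: (q ++ [y]), v ∈ D := by
    intro v hv
    simp only [List.mem_cons, List.mem_append, List.not_mem_nil, or_false] at hv
    rcases hv with rfl | hv | rfl
    · exact hx
    · exact hqD v hv
    · exact hy
  rw [e1, List.nodup_append, List.nodup_append] at hn
  rw [e1, List.isChain_append, List.isChain_append] at hc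
  obtain ⟨n1, ⟨n2, n3, n4⟩, n5⟩ := hn
  obtain ⟨c1, ⟨c2, c3, c4⟩, c5⟩ := hc
  refine ⟨by simp, ?_, ?_⟩
  · rw [e2, List.nodup_append, List.nodup_append]
    refine ⟨n1, ⟨hn', n3, ?_⟩, ?_⟩
    · intro a ha b hb hab
      exact h2 b hb (hab ▸ hD a ha)
    · intro a ha b hb hab
      rw [List.mem_append] at hb
      rcases hb with hb | hb
      · exact h1 a ha (hab ▸ hD b hb)
      · exact n5 a ha b (List.mem_append.2 (Or.inr hb)) hab
  · rw [e2, List.isChain_append, List.isChain_append]
    refine ⟨c1, ⟨hc', c3, ?_⟩, ?_⟩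
    · intro a ha b hb
      refine c4 a ?_ b hb
      have e3 : (x :: (q ++ [y])).getLast? = some y := by
        rw [← List.cons_append, List.getLast?_append]; simp
      have e4 : (x :: (mid ++ [y])).getLast? = some y := by
        rw [← List.cons_append, List.getLast?_append]; simp
      rw [e3] at ha
      rw [e4]
      exact ha
    · intro a ha b hb
      refine c5 a ha b ?_
      simpa using hb

private theorem Shrt_head {V : Type} (l₁ l l' : List V) (x : V) :
    (l₁ ++ x :: l).head? = (l₁ ++ x :: l').head? := by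
  cases l₁ <;> simp

private theorem Shrt_getLast {V : Type} (l l' l₂ : List V) (y : V) :
    (l ++ y :: l₂).getLast? = (l' ++ y :: l₂).getLast? := by
  have h : ∀ t : List V, (t ++ y :: l₂).getLast? = (y :: l₂).getLast? := by
    intro t
    rw [List.getLast?_append_of_ne_nil t (by simp)]
  rw [h, h]

/-- SHRT -/
theorem thm_Shrt (hShrA : St_ShrA) : St_Shrt := by
  intro V _ G r A B m g w σ p hpair hdis hLS
  -- a family of minimal total length
  let Good : (Fin r → List V) → Prop := fun p' => LSys G (fun j => A j ∪ B j) σ p'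
  obtain ⟨P, hP, hmin⟩ : ∃ P, Good P ∧ ∀ P', Good P' →
      ∑ i, (P i).length ≤ ∑ i, (P' i).length := by
    have hne : ∃ n : ℕ, ∃ P, Good P ∧ ∑ i, (P i).length = n := ⟨_, p, hLS, rfl⟩
    obtain ⟨P, hP, hPn⟩ := Nat.find_spec hne
    refine ⟨P, hP, fun P' hP' => ?_⟩
    rw [hPn]
    exact Nat.find_min' hne ⟨P', hP', rfl⟩
  have hPd := hP.dis
  refine ⟨P, hP, fun j => ?_⟩
  obtain ⟨hAB, hA, hB, hg, hP1, hwA, hwB, hw, hm⟩ := hpair j
  set D : Finset V := A j ∪ B j with hD
  rcases Nat.eq_zero_or_pos r with hr | hr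
  · have : (D.filter (fun v => ∃ i, v ∈ P i)) = ∅ := by
      rw [Finset.filter_eq_empty_iff]
      rintro v - ⟨i, -⟩
      have := i.2
      omega
    rw [this]
    simp
  obtain ⟨z, -⟩ : ∃ z, z ∈ P ⟨0, hr⟩ := List.exists_mem_of_ne_nil _ (hP.path _).1.1
  choose l₁ mid l₂ x y hsplit using fun i => Shrt_split z D (P i)
  let I : Finset (Fin r) := univ.filter (fun i => P i = l₁ i ++ x i :: (mid i ++ y i :: l₂ i) ∧
    x i ∈ D ∧ y i ∈ D ∧ (∀ v ∈ l₁ i, v ∉ D) ∧ ∀ v ∈ l₂ i, v ∉ D)
  have hI : ∀ i ∈ I, P i = l₁ i ++ x i :: (mid i ++ y i :: l₂ i) ∧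
      x i ∈ D ∧ y i ∈ D ∧ (∀ v ∈ l₁ i, v ∉ D) ∧ ∀ v ∈ l₂ i, v ∉ D :=
    fun i hi => (Finset.mem_filter.1 hi).2
  have hnI : ∀ i, i ∉ I → ∀ v ∈ P i, v ∈ D → v = x i := by
    intro i hi
    rcases hsplit i with h | h
    · exact absurd (Finset.mem_filter.2 ⟨Finset.mem_univ i, h⟩) hi
    · exact h
  have hxy : ∀ i ∈ I, x i ≠ y i := by
    intro i hi h
    have hn := (hP.path i).1.2.1
    rw [(hI i hi).1, List.nodup_append, List.nodup_cons] at hn
    apply hn.2.1.1
    rw [h]
    simp
  -- the set of the kept vertices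
  let U : Finset V := univ.image x ∪ univ.image y
  have hUx : ∀ i, x i ∈ U := fun i =>
    Finset.mem_union_left _ (Finset.mem_image_of_mem x (Finset.mem_univ i))
  have hUy : ∀ i, y i ∈ U := fun i =>
    Finset.mem_union_right _ (Finset.mem_image_of_mem y (Finset.mem_univ i))
  have hUc : U.card ≤ 2 * r := by
    have h1 : (univ.image x).card ≤ r := Finset.card_image_le.trans (by simp)
    have h2 : (univ.image y).card ≤ r := Finset.card_image_le.trans (by simp)
    have h3 : U.card ≤ (univ.image x).card + (univ.image y).card := Finset.card_union_le _ _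
    omega
  obtain ⟨q, hq, hqd⟩ := hShrA V G (A j) (B j) (m j) (g j) (w j) r x y I U hAB hA hB hg hP1 hwA hwB
    hw hm (fun i hi => ⟨(hI i hi).2.1, (hI i hi).2.2.1, hxy i hi, hUx i, hUy i⟩) hUc
  -- the new family
  let P' : Fin r → List V := fun i =>
    if i ∈ I then l₁ i ++ x i :: (q i ++ y i :: l₂ i) else P i
  have hP'I : ∀ i ∈ I, P' i = l₁ i ++ x i :: (q i ++ y i :: l₂ i) := fun i hi => if_pos hi
  have hP'n : ∀ i, i ∉ I → P' i = P i := fun i hi => if_neg hi
  -- the vertices of the new paths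
  have hmem : ∀ i, ∀ v ∈ P' i, (i ∈ I ∧ v ∈ q i) ∨ (v ∈ P i ∧ (v ∈ D → v ∈ U)) := by
    intro i v hv
    by_cases hi : i ∈ I
    · rw [hP'I i hi] at hv
      obtain ⟨h1, h2, h3, h4, h5⟩ := hI i hi
      simp only [List.mem_append, List.mem_cons] at hv
      rcases hv with hv | rfl | hv | rfl | hv
      · right
        refine ⟨?_, fun h => absurd h (h4 v hv)⟩
        rw [h1]; simp [hv]
      · right
        refine ⟨?_, fun _ => hUx i⟩
        rw [h1]; simp
      · left
        exact ⟨hi, hv⟩
      · right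
        refine ⟨?_, fun _ => hUy i⟩
        rw [h1]; simp
      · right
        refine ⟨?_, fun h => absurd h (h5 v hv)⟩
        rw [h1]; simp [hv]
    · rw [hP'n i hi] at hv
      right
      refine ⟨hv, fun h => ?_⟩
      rw [hnI i hi v hv h]
      exact hUx i
  have hGood : Good P' := by
    refine ⟨fun i => ?_, fun i => ?_, fun i => ?_, ?_⟩
    · by_cases hi : i ∈ I
      · obtain ⟨h1, h2, h3, h4, h5⟩ := hI i hi
        obtain ⟨hp1, -⟩ := hP.path i
        rw [hP'I i hi]
        rw [h1] at hp1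
        refine ⟨Shrt_replace G D _ _ _ _ _ _ hp1 h4 h5 h2 h3 (hq i hi).2.1
          (fun v hv => ((hq i hi).2.2 v hv).1), ?_⟩
        simp only [List.length_append, List.length_cons]
        omega
      · rw [hP'n i hi]
        exact hP.path i
    · by_cases hi : i ∈ I
      · obtain ⟨h1, h2, h3, h4, h5⟩ := hI i hi
        obtain ⟨a, ha, hhead⟩ := hP.hd i
        rw [hP'I i hi]
        rw [h1] at hhead
        refine ⟨a, ha, ?_⟩
        rw [← hhead]
        exact Shrt_head _ _ _ _
      · rw [hP'n i hi]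
        exact hP.hd i
    · by_cases hi : i ∈ I
      · obtain ⟨h1, h2, h3, h4, h5⟩ := hI i hi
        obtain ⟨b, hb, hlast⟩ := hP.lst i
        rw [hP'I i hi]
        rw [h1] at hlast
        refine ⟨b, hb, ?_⟩
        rw [← hlast]
        have e1 : ∀ t : List V, l₁ i ++ x i :: (t ++ y i :: l₂ i) =
            (l₁ i ++ x i :: t) ++ y i :: l₂ i := by
          intro t; simp
        rw [e1, e1]
        exact Shrt_getLast _ _ _ _
      · rw [hP'n i hi]
        exact hP.lst i
    · intro i i' hne v hv hv'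
      rcases hmem i v hv with ⟨hi, h⟩ | ⟨h, hU⟩
      · rcases hmem i' v hv' with ⟨hi', h'⟩ | ⟨h', hU'⟩
        · exact hqd i hi i' hi' hne v h h'
        · exact ((hq i hi).2.2 v h).2 (hU' ((hq i hi).2.2 v h).1)
      · rcases hmem i' v hv' with ⟨hi', h'⟩ | ⟨h', hU'⟩
        · exact ((hq i' hi').2.2 v h').2 (hU ((hq i' hi').2.2 v h').1)
        · exact hPd i i' hne v h h'
  have hle := hmin P' hGood
  -- the number of the vertices of each path in `D`
  have hcnt : ∀ i, ((P i).toFinset.filter (fun v => v ∈ D)).card + (P' i).length ≤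
      (P i).length + 6 := by
    intro i
    by_cases hi : i ∈ I
    · obtain ⟨h1, h2, h3, h4, h5⟩ := hI i hi
      have hsub : (P i).toFinset.filter (fun v => v ∈ D) ⊆
          insert (x i) (insert (y i) (mid i).toFinset) := by
        intro v hv
        rw [Finset.mem_filter, List.mem_toFinset, h1] at hv
        simp only [List.mem_append, List.mem_cons] at hv
        rw [Finset.mem_insert, Finset.mem_insert, List.mem_toFinset]
        obtain ⟨hv, hvD⟩ := hv
        rcases hv with hv | hv | hv | hv | hv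
        · exact absurd hvD (h4 v hv)
        · exact Or.inl hv
        · exact Or.inr (Or.inr hv)
        · exact Or.inr (Or.inl hv)
        · exact absurd hvD (h5 v hv)
      have hc1 := Finset.card_le_card hsub
      have hc2 : (insert (x i) (insert (y i) (mid i).toFinset)).card ≤ (mid i).length + 2 := by
        have a1 := Finset.card_insert_le (x i) (insert (y i) (mid i).toFinset)
        have a2 := Finset.card_insert_le (y i) (mid i).toFinset
        have a3 := List.toFinset_card_le (mid i)
        omega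
      have hl1 : (P i).length = (l₁ i).length + (mid i).length + (l₂ i).length + 2 := by
        rw [h1]
        simp only [List.length_append, List.length_cons]
        omega
      have hl2 : (P' i).length = (l₁ i).length + (q i).length + (l₂ i).length + 2 := by
        rw [hP'I i hi]
        simp only [List.length_append, List.length_cons]
        omega
      have hl3 := (hq i hi).1
      omega
    · rw [hP'n i hi]
      have hsub : (P i).toFinset.filter (fun v => v ∈ D) ⊆ {x i} := by
        intro v hv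
        rw [Finset.mem_filter, List.mem_toFinset] at hv
        rw [Finset.mem_singleton]
        exact hnI i hi v hv.1 hv.2
      have hc1 := Finset.card_le_card hsub
      rw [Finset.card_singleton] at hc1
      omega
  have hsum : ∑ i, (((P i).toFinset.filter (fun v => v ∈ D)).card + (P' i).length) ≤
      ∑ i, ((P i).length + 6) := Finset.sum_le_sum fun i _ => hcnt i
  rw [Finset.sum_add_distrib, Finset.sum_add_distrib] at hsum
  have h6 : ∑ _i : Fin r, 6 = 6 * r := by
    rw [Finset.sum_const, Finset.card_univ, Fintype.card_fin, smul_eq_mul, mul_comm]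
  have hfin : (D.filter (fun v => ∃ i, v ∈ P i)).card ≤
      ∑ i, ((P i).toFinset.filter (fun v => v ∈ D)).card := by
    refine (Finset.card_le_card ?_).trans Finset.card_biUnion_le
    intro v hv
    rw [Finset.mem_filter] at hv
    obtain ⟨hvD, i, hi⟩ := hv
    rw [Finset.mem_biUnion]
    exact ⟨i, Finset.mem_univ i, Finset.mem_filter.2 ⟨List.mem_toFinset.2 hi, hvD⟩⟩
  omega

end Pool.CMK
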