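import Pool.Agent.CMK.Defs

/-!
# CMK: statements of the modules, part 1 (connectivity, pairs, case (a)), with complete proofs

General remarks.  Every module is one file `Pool/Agent/CMK/X.lean` with `import Pool.Agent.CMK.StN`,
namespace `Pool.CMK`, and the theorem `thm_X` with exactly the signature given in the docstring of `St_X`
(earlier statements are hypotheses, so that all modules are independent).  Own lemmas `private` or with
names starting with `X_`.  Put `open Finset` and `open scoped Classical`.  No sorry, no forbidden words.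
All sets are finite, all graphs simple.  Paths and cycles are lists (`PathL`, `CycL`).
-/

set_option autoImplicit false

namespace Pool.CMK

open Finset
open scoped Classical

/-- MAD (file `Mad.lean`, `thm_Mad : St_Mad`).  A highly connected subgraph (Mader).

Proof. `2 e(W) = ad W W`, `e(W) ≤ |W| (|W| - 1) / 2`. Consider the sets `W` with `|W| ≥ 2 β` and
`e(W) > α (|W| - β)`. The whole vertex set is one: `α |V| < e(V) ≤ |V|^2 / 2` gives `|V| > 2 α ≥ 2 β`. Take one with
`|W| = n` minimal.
(1) Let `v ∈ W` have at most `α` neighbours in `W`. `W \ v` has more than `α (n - 1 - β)` edges, so by minimality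
`n - 1 < 2 β`. Then `e(W) ≤ n (n - 1) / 2 ≤ n β`, but `e(W) > α (n - β) ≥ α n / 2 ≥ 2 β n` (`n ≥ 2 β`, `α ≥ 4 β`): contradiction.
(2) Let `A, B ⊆ W` be nonempty, disjoint, without edges between them, `S = W \ (A ∪ B)`, `|S| < β`. A vertex
of `A` has all its neighbours in `W` in `A ∪ S`, so `|A ∪ S| > α ≥ 2 β`, in the same way `|B ∪ S| > 2 β`; both sets are
smaller than `W`, so by minimality `e(A ∪ S) ≤ α (|A ∪ S| - β)`, `e(B ∪ S) ≤ α (|B ∪ S| - β)`. Every edge of `W` lies in
one of the two sets: `e(W) ≤ α (|A| + |B| + 2 |S| - 2 β) = α (n + |S| - 2 β) < α (n - β)` (`α > 0`): contradiction.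
(3) `n > α` by (1) (and `n > 0`). `n^2 / 2 ≥ e(W) > α (n - β)`, so `q(n) := n^2 - 2 α n + 2 α β > 0`. If `α ≤ n ≤ 2 α - 2 β`:
`q` is convex, `q(α) = - α^2 + 2 α β ≤ 0`, `q(2 α - 2 β) = - 2 β (α - 2 β) ≤ 0`, so `q(n) ≤ 0`: contradiction. -/
def St_Mad : Prop := ∀ (V : Type) [Fintype V] (G : SimpleGraph V) (α β : ℝ), 0 < α → 0 ≤ β →
  4 * β ≤ α → 2 * α * Fintype.card V < (ad G univ univ : ℝ) →
  ∃ W : Finset V, (∀ v ∈ W, α < ((nbs G v W).card : ℝ)) ∧ 2 * α - 2 * β < (W.card : ℝ) ∧
    ∀ A B : Finset V, A ⊆ W → B ⊆ W → A.Nonempty → B.Nonempty → Disjoint A B →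
      (∀ a ∈ A, ∀ b ∈ B, ¬ G.Adj a b) → β ≤ ((W \ (A ∪ B)).card : ℝ)

/-- FAN (file `Fan.lean`, `thm_Fan : St_Fan`).  The fan lemma.

Proof. Use Menger's theorem `Pool.Agent.Helper37.Mader.paths_of_lb` (file
`Pool/Agent/Helper37/Mader/Menger.lean`; `PathsIn` is defined there) on the type `Option V` with the relation: adjacent
in `G` for two vertices of `V`; `none` adjacent (both directions) to all of `Z`. Separations `(A, B)` of this graph: if
`none ∉ A ∪ B`, then `A, B` come from a separation of `G` (`none` is in the complement in addition). If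
`none ∈ A` and `A ≠ {none}`: remove `none` from `A`. If `A = {none}`: then `B ∩ Z = ∅` and all of `Z` is in the
complement (in the same way for `B`). So every separator has at least `c` elements, and there are `c`
internally disjoint paths from `z` to `none` (`z ∉ Z`, so none of them is `[z, none]`). Cut each one at its first vertex
in `Z` (the vertex before `none` is in `Z`). The parts are paths of `G` from `z` to `Z`; two of them share only `z`. -/
def St_Fan : Prop := ∀ (V : Type) [Fintype V] (G : SimpleGraph V) (c : ℕ) (z : V) (Z : Finset V),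
  SC G c → z ∉ Z → c ≤ Z.card → ∃ p : Fin c → List V,
    (∀ i, ∃ e ∈ Z, PathFT G z e (p i) ∧ ∀ w ∈ p i, w ∈ Z → w = e) ∧
    ∀ i j, i ≠ j → ∀ w ∈ p i, w ∈ p j → w = z

/-- TWO (file `Two.lean`, `thm_Two : St_Two`).  Two disjoint paths between two sets.

Proof. Menger's theorem (see `St_Fan`) on `V ⊕ Bool`: `inr true` adjacent to `X`, `inr false` adjacent to `Y`;
as in `St_Fan` every separator has at least 2 elements (if `inr true` is alone on its side, all of `X` is in the
separator). Two internally disjoint paths from `inr true` to `inr false`; their inner parts are paths in `G` which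
start in `X` and end in `Y`, and are disjoint. In each of them take the last vertex in `X` before the first vertex
in `Y`, and the part between these two vertices. -/
def St_Two : Prop := ∀ (V : Type) [Fintype V] (G : SimpleGraph V) (X Y : Finset V), SC G 2 →
  Disjoint X Y → 2 ≤ X.card → 2 ≤ Y.card → ∃ p q : List V, PathL G p ∧ PathL G q ∧
    (∀ v ∈ p, v ∉ q) ∧
    (∃ x ∈ X, p.head? = some x ∧ ∀ w ∈ p, w ∈ X → w = x) ∧
    (∃ y ∈ Y, p.getLast? = some y ∧ ∀ w ∈ p, w ∈ Y → w = y) ∧
    (∃ x ∈ X, q.head? = some x ∧ ∀ w ∈ q, w ∈ X → w = x) ∧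
    (∃ y ∈ Y, q.getLast? = some y ∧ ∀ w ∈ q, w ∈ Y → w = y)

/-- DIR (file `Dir.lean`, `thm_Dir (hFan : St_Fan) : St_Dir`).  Dirac's theorem on cycles through given vertices.

Proof. Induction on `|Z|`. `|Z| ≤ 1`: there is a vertex `z` (in `Z` if `|Z| = 1`) and another vertex `w`. `SC G c` and
`c ≥ 2` give (Menger, `paths_of_lb` with `k = 2`, or `hFan` with `c` and a set of `c` vertices) two different internally
disjoint paths from `z` to `w`; not both are `[z, w]`; together they form a cycle of length `≥ 3`.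
Step: `z ∈ Z`, `Z' = Z \ z` nonempty, `C` a cycle through `Z'`, `z ∉ C` (otherwise done). Put `j = |Z'| ≤ c - 1`.
Case `|C| ≥ j + 1`. `SC G c` implies `SC G (j + 1)`; `hFan` (with `j + 1`, the set of the vertices of `C`) gives `j + 1` paths
from `z` to `C` sharing only `z`, each with only its end on `C`. The cycle is divided into `j` half open arcs
`[z_i, z_(i+1))` by `Z'`; two of the `j + 1` ends, `e` and `e'`, lie in the same half open arc (if `j = 1` there is one
arc, the whole cycle starting at `z_1`). Rotate `C` such that it starts with `z_i`; `e` before `e'`; replace the part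
strictly between `e` and `e'` by the reversed path from `z` to `e` followed by the path from `z` to `e'`: a cycle through
`z` and `Z'` (no vertex of `Z'` is strictly between `e` and `e'`).
Case `|C| ≤ j`: all vertices of `C` are in `Z'`, `|C| = j`. `hFan` with `j` (`SC G j`): `j` paths whose ends are different
vertices of `C` (they share only `z`, and `z ∉ C`), so all vertices of `C` are ends. Take two consecutive vertices `e, e'`
of `C` (`j ≥ 3`) and insert the two paths between them. -/
def St_Dir : Prop := ∀ (V : Type) [Fintype V] (G : SimpleGraph V) (c : ℕ) (Z : Finset V), SC G c →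
  2 ≤ c → Z.card ≤ c → ∃ l, CycL G l ∧ ∀ z ∈ Z, z ∈ l

/-- LINK (file `Link.lean`, `thm_Link (hDir : St_Dir) : St_Link`).  A linked system of paths.

Proof. Let `H'` be the graph on `V ⊕ Fin r`: `inl u ~ inl v` iff `u ~ v`; `inr j ~ inl v` iff `v ∈ D j`; the `inr j` are not
adjacent to each other. `SC H' c`: let `A, B` be nonempty, disjoint, without edges between them. If both contain a
vertex of `V`, the parts in `V` are a separation of `G`. If `A` contains only vertices `inr j`, take one, `inr j ∈ A`: `B`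
contains no vertex of `D j`, so all of `D j` is in the complement: at least `c` elements (in the same way for `B`).
`hDir` gives a cycle `C` through all `inr j` (`r ≤ c`). Rotate it such that it starts with some `inr j`, and cut it at the
`inr j`: `C = inr j_0, p_0, inr j_1, p_1, ..., inr j_(r-1), p_(r-1)`, where the `p_i` are lists of vertices of `V`,
nonempty (the `inr j` are not adjacent), paths in `G`, pairwise disjoint; the first vertex of `p_i` is adjacent to
`inr j_i`, so in `D (j_i)`, the last one is adjacent to `inr j_(i+1)`. `σ i = j_i` is a bijection. `p_i` has at least two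
vertices: for `r ≥ 2` since `D (j_i)` and `D (j_(i+1))` are disjoint; for `r = 1` since `|C| ≥ 3`. -/
def St_Link : Prop := ∀ (V : Type) [Fintype V] (G : SimpleGraph V) (c r : ℕ)
  (D : Fin r → Finset V), SC G c → 2 ≤ c → 1 ≤ r → r ≤ c →
  (∀ i j, i ≠ j → Disjoint (D i) (D j)) → (∀ j, c ≤ (D j).card) →
  ∃ (σ : Equiv.Perm (Fin r)) (p : Fin r → List V), LSys G D σ p

/-- DFS (file `Dfs.lean`, `thm_Dfs : St_Dfs`).  The depth first search lemma.

Proof. A state is `(P, W, T)`: a path `P` (possibly empty), disjoint sets `W`, `T` with `V = W ∪ T ∪ P` (disjoint union),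
no edges between `W` and `T`. Claim: for every `i ≤ |V|` there is a state with `|W| + |V| = |T| + i`; for `i = |V|` this
is the statement. `i = 0`: `P` empty, `W` empty, `T = V`. Step (`i < |V|`, so `|W| < |T|`, `T` is nonempty): if `P` is empty, move
one vertex of `T` to `P`. If the last vertex `x` of `P` has a neighbour in `T`, append this neighbour to `P`. Otherwise
move `x` from `P` to `W`. In each case `|W| - |T|` grows by 1. -/
def St_Dfs : Prop := ∀ (V : Type) [Fintype V] (G : SimpleGraph V), ∃ (P : List V) (W T : Finset V),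
  P.Nodup ∧ P.IsChain G.Adj ∧ Disjoint W T ∧ (∀ v, v ∈ P ↔ v ∉ W ∧ v ∉ T) ∧ W.card = T.card ∧
  ∀ w ∈ W, ∀ x ∈ T, ¬ G.Adj w x

/-- ALT (file `Alt.lean`, `thm_Alt (hDfs : St_Dfs) : St_Alt`).  A long alternating path in a pair without holes.

Proof. If `m < 2 g` the empty path will do if `2 m + 1 ≤ 4 g`. Let `m ≥ 2 g`. Apply `hDfs` to the type
`{v // v ∈ A ∪ B}` with the bipartite graph of the edges of `G` between `A` and `B`: `P`, `W`, `T`. `P` alternates between `A`
and `B` (image in `V`). Let `q = |W| = |T|`, so `2 q + |P| = 2 m`; `a_W = |W ∩ A|`, and so on;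
`a_W + b_W = q = a_T + b_T`, `a_W + a_T + a_P = m = b_W + b_T + b_P`, `|a_P - b_P| ≤ 1`. No edges between `W ∩ A` and `T ∩ B`: by
`P1` `a_W < g` or `b_T < g`; no edges between `W ∩ B` and `T ∩ A`: `b_W < g` or `a_T < g`. If (`a_W < g` and `b_W < g`) or
(`b_T < g` and `a_T < g`): `q ≤ 2 g - 2`, `|P| ≥ 2 m - 4 g + 4`. If `a_W < g` and `a_T < g`: `a_P ≥ m - 2 g + 2`, `|P| ≥ 2 a_P - 1`;
in the same way if `b_T < g` and `b_W < g`. -/
def St_Alt : Prop := ∀ (V : Type) [Fintype V] (G : SimpleGraph V) (A B : Finset V) (m g : ℕ),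
  Disjoint A B → A.card = m → B.card = m → P1 G A B g → ∃ P : List V,
    P.Nodup ∧ P.IsChain (fun u v => G.Adj u v ∧ (u ∈ A ↔ v ∈ B)) ∧ (∀ v ∈ P, v ∈ A ∪ B) ∧
    2 * m + 1 ≤ P.length + 4 * g

/-- PP (file `PP.lean`, `thm_PP (hAlt : St_Alt) : St_PP`).  Connecting two vertices through a pair, with prescribed
length. (`sx = true`: the first inner vertex is in `A`, `sx = false`: in `B`; `sy` in the same way for the last one.
`q` is the list of the inner vertices.)

Proof. Write `S_x = A` if `sx`, `S_x = B` otherwise, and `S_y` accordingly; `S'` the other side. Choose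
`N_x ⊆ N(x) ∩ S_x`, `N_y ⊆ N(y) ∩ S_y`, `|N_x| = |N_y| = g`, disjoint, disjoint from `U ∪ {x, y}` (possible:
`u + 2 g + 2` neighbours). Let `A'`, `B'` be subsets of `A \ (U ∪ {x, y} ∪ N_x ∪ N_y)`, `B \ (...)` of size
`m' = m - (u + 2 g + 2)` (here `m ≥ u + 6 g + 2` by the assumption on `L`). `hAlt`: an alternating path
`P = p_0, p_1, ...` with `|P| ≥ 2 m' - 4 g + 1`. Let `s = L - 3`: even if `S_x = S_y`, odd otherwise. We look for an index
`i` with `p_i ∈ S_x'` (the side opposite to `S_x`), `p_i` adjacent to some `n_x ∈ N_x`, `i + s < |P|` and `p_(i+s)` (then in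
`S_y'`) adjacent to some `n_y ∈ N_y`; then `q = n_x, p_i, ..., p_(i+s), n_y` has `s + 3 = L` vertices. The indices
`i ≤ |P| - 1 - s` with `p_i ∈ S_x'` are at least `(|P| - s - 1) / 2` (floor of `(|P| - s) / 2`) in number. Those for
which `p_i` has no neighbour in `N_x` are fewer than `g` (`P1`, `|N_x| = g`), and the same for `p_(i+s)` and `N_y`. So it
is enough that `floor((|P| - s) / 2) ≥ 2 g - 1`, which holds if `|P| - s ≥ 4 g - 1`; and
`|P| - s ≥ 2 (m - u - 2 g - 2) - 4 g + 1 - (L - 3) = 2 m - 2 u - 8 g - L ≥ 4 g`. -/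
def St_PP : Prop := ∀ (V : Type) [Fintype V] (G : SimpleGraph V) (A B : Finset V) (m g u : ℕ)
  (U : Finset V) (x y : V) (sx sy : Bool) (L : ℕ), Disjoint A B → A.card = m → B.card = m →
  1 ≤ g → P1 G A B g → (U ∩ (A ∪ B)).card ≤ u → x ≠ y →
  u + 2 * g + 2 ≤ (nbs G x (if sx then A else B)).card →
  u + 2 * g + 2 ≤ (nbs G y (if sy then A else B)).card →
  3 ≤ L → (if sx = sy then Odd L else Even L) → L + 2 * u + 12 * g ≤ 2 * m →
  ∃ q : List V, q.length = L ∧ q.Nodup ∧ q.IsChain G.Adj ∧
    (∀ w ∈ q, w ∈ A ∪ B ∧ w ∉ U ∧ w ≠ x ∧ w ≠ y) ∧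
    (∃ a, q.head? = some a ∧ G.Adj x a) ∧ (∃ b, q.getLast? = some b ∧ G.Adj b y)

/-- SHRT (file `Shrt.lean`, `thm_Shrt (hPP : St_PP) : St_Shrt`).  A linked system which uses few vertices of each pair.

Proof. Choose `p'` such that `LSys G (fun j => A j ∪ B j) σ p'` (same `σ`) with `∑ |p' i|` minimal. Fix `j`, `D = A j ∪ B j`. For every
`i` such that `p' i` meets `D` let `x_i`, `y_i` be the first and the last vertex of `p' i` in `D`; `p' i = pre_i ++ mid_i ++ post_i` with
`mid_i` from `x_i` to `y_i`. Choose one after the other, for the `i` with `x_i ≠ y_i`, lists `q_i` of 3 or 4 vertices in `D`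
(`hPP` with `m = m j`, `g = g j`, `u = 6 r`, `U` = all `x_a`, `y_a` and all vertices of the lists `q_a` chosen before, at
most `2 r + 4 (r - 1)` elements; if `x_i ∈ A` the first inner vertex is in `B`, and conversely; same for `y_i`;
`L = 3` if `x_i`, `y_i` are on the same side, `L = 4` otherwise; assumptions: `w j ≥ 6 r + 2 g j + 2`,
`4 + 12 r + 12 g j ≤ 2 m j`), `q_i` leading from `x_i` to `y_i`. Replace `mid_i` by `x_i, q_i, y_i` (`[x_i]` if `x_i = y_i`) for
all `i` at the same time. The new paths are again a linked system: `pre_i`, `post_i` contain no vertex of `D`, the new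
middle parts are disjoint and contained in `D`; the ends are the same; the length is still `≥ 2`
(if `x_i = y_i` nothing changes). The sum of the lengths changes by at most `6 r - ∑ |mid_i| ≤ 6 r - |D ∩ ⋃ p' i|`. By
minimality `|D ∩ ⋃ p' i| ≤ 6 r`. -/
def St_Shrt : Prop := ∀ (V : Type) [Fintype V] (G : SimpleGraph V) (r : ℕ)
  (A B : Fin r → Finset V) (m g w : Fin r → ℕ) (σ : Equiv.Perm (Fin r)) (p : Fin r → List V),
  (∀ j, Disjoint (A j) (B j) ∧ (A j).card = m j ∧ (B j).card = m j ∧ 1 ≤ g j ∧
    P1 G (A j) (B j) (g j) ∧ (∀ a ∈ A j, w j ≤ (nbs G a (B j)).card) ∧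
    (∀ b ∈ B j, w j ≤ (nbs G b (A j)).card) ∧ 6 * r + 2 * g j + 2 ≤ w j ∧
    4 + 12 * r + 12 * g j ≤ 2 * m j) →
  (∀ i j, i ≠ j → Disjoint (A i ∪ B i) (A j ∪ B j)) → LSys G (fun j => A j ∪ B j) σ p →
  ∃ p' : Fin r → List V, LSys G (fun j => A j ∪ B j) σ p' ∧
    ∀ j, ((A j ∪ B j).filter (fun v => ∃ i, v ∈ p' i)).card ≤ 6 * r

/-- CYCA (file `CycA.lean`, `thm_CycA (hPP : St_PP) : St_CycA`).  The cycle in case (a).

Proof. For `j : Fin r` let `i = σ⁻¹ j`; `x` = the last vertex of `p (i - 1)` (cyclic: `finRotate r` maps `i - 1` to `i`), `y` = the first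
vertex of `p i`. Both are in `D = A j ∪ B j`, and `x ≠ y` (different disjoint paths if `r ≥ 2`; if `r = 1` the first and the
last vertex of a path with at least 2 vertices). For every `t_j` with `0 ≤ t_j ≤ T_j := m j - 6 r - 6 g j - 2` apply `hPP` to `x, y`
with `u = 6 r`, `U` = all vertices of the `p i`, `L = a_j + 2 t_j`, `a_j = 3` if `x`, `y` are on the same side and `a_j = 4`
otherwise (`L + 12 r + 12 g j ≤ 2 m j`): list `q_j`. The cyclic sequence `p 0, q_(σ 1), p 1, q_(σ 2), ..., p (r-1), q_(σ 0)` is a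
cycle: the `q_j` are in different sets `D` and avoid all `p i`. Its length is `b + 2 ∑ t_j` with a constant `b`. Since
`∑ T_j ≥ k`, the sum `∑ t_j` can be any of `0, ..., k - 1`; `k` is odd, so `b + 2 t` runs through all residues mod `k`. -/
def St_CycA : Prop := ∀ (V : Type) [Fintype V] (G : SimpleGraph V) (r k : ℕ)
  (A B : Fin r → Finset V) (m g w : Fin r → ℕ) (σ : Equiv.Perm (Fin r)) (p : Fin r → List V),
  1 ≤ r → Odd k → 3 ≤ k →
  (∀ j, Disjoint (A j) (B j) ∧ (A j).card = m j ∧ (B j).card = m j ∧ 1 ≤ g j ∧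
    P1 G (A j) (B j) (g j) ∧ (∀ a ∈ A j, w j ≤ (nbs G a (B j)).card) ∧
    (∀ b ∈ B j, w j ≤ (nbs G b (A j)).card) ∧ 6 * r + 2 * g j + 2 ≤ w j ∧
    6 * r + 6 * g j + 2 ≤ m j) →
  (∀ i j, i ≠ j → Disjoint (A i ∪ B i) (A j ∪ B j)) → LSys G (fun j => A j ∪ B j) σ p →
  (∀ j, ((A j ∪ B j).filter (fun v => ∃ i, v ∈ p i)).card ≤ 6 * r) →
  k + ∑ j, (6 * r + 6 * g j + 2) ≤ ∑ j, m j → ∃ l, CycL G l ∧ l.length % k = 1

end Pool.CMK
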