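import Pool.Agent.CMK.Defs

/-!
# CMK: statements of the modules, part 2 (existence of pairs, locally sparse graphs, case (b2))

General remarks: see `St1.lean`.
-/

set_option autoImplicit false

namespace Pool.CMK

open Finset
open scoped Classical

/-- CUT (file `Cut.lean`, `thm_Cut : St_Cut`).  A bipartite subgraph with half of the edges.

Proof. Choose `A ⊆ S` with `ad G A (S \ A)` maximal. Moving one vertex shows that every vertex of `S` has at least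
as many neighbours in the other part as in its own part. Sum over `S`. -/
def St_Cut : Prop := ∀ (V : Type) (G : SimpleGraph V) (S : Finset V),
  ∃ A ⊆ S, ad G S S ≤ 4 * ad G A (S \ A)

/-- MAXP (file `MaxP.lean`, `thm_MaxP (hCut : St_Cut) : St_MaxP`).  A pair which maximises `e(A,B) m^(τ-2)`.

Proof. Let `n = |S|`. By `hCut` there are disjoint `A₀, B₀ ⊆ S` with `e(A₀, B₀) ≥ ρ n^2 / 4`; let `|A₀| ≤ |B₀|`. Let `B₁ ⊆ B₀` consist of
`m₀ = |A₀|` vertices of `B₀` with the largest numbers of neighbours in `A₀`. Then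
`e(A₀, B₁) ≥ (|A₀| / |B₀|) e(A₀, B₀) ≥ ρ n^2 m₀^2 / (4 |A₀| |B₀|) ≥ ρ m₀^2` (`|A₀| |B₀| ≤ n^2 / 4`), and `m₀ ≥ ρ n / 4` (`e(A₀, B₀) ≤ m₀ n`).
Let `(A, B)` maximise `Φ(A, B) = e(A, B) m^(τ-2)` among all pairs of disjoint subsets of `S` with `|A| = |B| = m ≥ 1`, and
`d = e(A, B) / m^2`, so `d m^τ ≥ ρ m₀^τ`. Since `m ≤ n / 2`, `m₀ / m ≥ ρ / 2` and `d ≥ ρ (ρ / 2)^τ ≥ ρ / 2` by the assumption on `τ`.
Since `d ≤ 1`, `m^τ ≥ ρ m₀^τ`, `m ≥ ρ^(1/τ) m₀ ≥ ρ^(1/τ) ρ n / 4`. The last statement: let `x = |X| ≤ |Y| = y` (the other case is the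
same), `Y' ⊆ Y` the `x` vertices with the most neighbours in `X`; `e(X, Y) ≤ (y / x) e(X, Y') ≤ (y / x) d m^τ x^(2-τ)`. -/
def St_MaxP : Prop := ∀ (V : Type) (G : SimpleGraph V) (S : Finset V) (ρ τ : ℝ), 0 < ρ → ρ ≤ 1 →
  0 < τ → τ ≤ 1 → 1 / 2 ≤ (ρ / 2) ^ τ → 2 ≤ S.card → ρ * (S.card : ℝ) ^ 2 ≤ (ad G S S : ℝ) →
  ∃ (A B : Finset V) (m : ℕ) (d : ℝ), A ⊆ S ∧ B ⊆ S ∧ Disjoint A B ∧ A.card = m ∧ B.card = m ∧
    1 ≤ m ∧ (ad G A B : ℝ) = d * m ^ 2 ∧ ρ / 2 ≤ d ∧ d ≤ 1 ∧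
    ρ ^ (1 / τ) * (ρ / 4) * S.card ≤ m ∧
    ∀ X Y : Finset V, X ⊆ A → Y ⊆ B → X.Nonempty → Y.Nonempty →
      (ad G X Y : ℝ) ≤ d * X.card * Y.card * ((m : ℝ) / (min X.card Y.card : ℕ)) ^ τ

/-- PAIR (file `Pair.lean`, `thm_Pair (hMaxP : St_MaxP) : St_Pair`).  A dense set contains a dense pair.

Proof. `1 / γ ≥ 64`. Choose `τ ∈ (0, 1]` with `(4 / γ)^τ ≤ 1 + γ^2 / 4` and `(ρ / 2)^τ ≥ 1 / 2`; `c = ρ^(1/τ) ρ / 8`, `n₀` such that
`ρ^(1/τ) (ρ/4) n₀ ≥ 4 / γ`. Let `A, B, m, d` be as in `hMaxP`; `m ≥ 4 / γ`. Let `g = ⌈γ m⌉`, `γ' = g / m ∈ [γ, 2 γ]` (`γ' ≤ 1/32`).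
(1) Let `X ⊆ A`, `Y ⊆ B`, `|X|, |Y| ≥ g`, no edges between them; we may assume `|X| = |Y| = g`. With the bound of `hMaxP` (all
factors `(m / min)^τ` are at most `(4 / γ)^τ ≤ 1 + γ^2 / 4`): `d m^2 = e(A, B) = e(X, B \ Y) + e(A \ X, Y) + e(A \ X, B \ Y) ≤
d m^2 (1 + γ^2 / 4) (2 γ' (1 - γ') + (1 - γ')^2) = d m^2 (1 + γ^2 / 4) (1 - γ'^2) < d m^2`: contradiction (`d > 0`).
(2) Let `A₁ = {a ∈ A : |N(a) ∩ B| < (d / 4) m}`. If `|A₁| ≥ g`, take `X ⊆ A₁` with `|X| = g`: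
`d m^2 ≤ (d / 4) γ' m^2 + d (1 - γ') m^2 (1 + γ^2 / 4)`, that is `1 ≤ γ' / 4 + (1 - γ') (1 + γ^2 / 4) ≤ 1 - 3 γ' / 4 + γ' / 4 < 1`:
contradiction. So `|A₁| < g`, `|B₁| < g` for the analogous set `B₁ ⊆ B`. Let `A' ⊆ A \ A₁`, `B' ⊆ B \ B₁` with
`|A'| = |B'| = m' = m - (g - 1)`. `m' ≥ m / 2`. Degrees: `≥ (d / 4) m - g ≥ (ρ / 8) m - γ m - 1 ≥ (ρ / 16) m ≥ (ρ / 16) m'`
(`γ ≤ ρ / 64`, `1 ≤ γ m / 4`). `P1` for `A', B'` with `⌈4 γ m'⌉ ≥ ⌈2 γ m⌉ ≥ g`. `m' ≥ m / 2 ≥ c |S|`. -/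
def St_Pair : Prop := ∀ ρ γ : ℝ, 0 < ρ → ρ ≤ 1 → 0 < γ → γ ≤ ρ / 64 → ∃ c : ℝ, 0 < c ∧ ∃ n₀ : ℕ,
  ∀ (V : Type) (G : SimpleGraph V) (S : Finset V), n₀ ≤ S.card →
    ρ * (S.card : ℝ) ^ 2 ≤ (ad G S S : ℝ) →
    ∃ A B : Finset V, A ⊆ S ∧ B ⊆ S ∧ Pr G A B (4 * γ) (ρ / 16) ∧ c * S.card ≤ A.card

/-- POSA (file `Posa.lean`, `thm_Posa : St_Posa`).  Posa's rotations: a long cycle with a chord, or a small set which
does not expand.

Proof. Work with the edges of `G` inside `W`. Let `P = v_0, ..., v_t` be a longest path inside `W`. For a path `Q` with the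
vertex set of `P` and last vertex `x` all neighbours of `x` (in `W`) lie on `Q` (`P` is longest). Let `y = Q_j` be the
neighbour of `x` with `j` minimal. The part of `Q` from `y` to `x` is a cycle (`j ≤ t - 3`, since `x` has at least 3
neighbours on `Q`) with a chord (a third neighbour of `x`). If its length `t - j + 1` is `≥ L` for some `Q` of the
kind considered below we are done. So assume `t - j + 1 < L` for all of them.
Rotation at a neighbour `y = Q_j` of `x = Q_t`, `j < t - 1`: `Q' = Q_0, ..., Q_j, Q_t, Q_(t-1), ..., Q_(j+1)`, last vertex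
`Q_(j+1)`. Let `R` be the set of all paths which arise from `P` by repeated rotations, `S` the set of their last
vertices (including `v_t`). Since only neighbours `Q_j` with `j ≥ t - L + 2` occur, all `Q ∈ R` agree with `P` in the
places `< t - L + 2` (if `t + 1 < L` there is nothing to say), so `S` and all neighbours of vertices of `S` are contained
in the set `Z` of the last `min (L - 1) (t + 1)` vertices of `P` (the vertex in the place `t - L + 2` does not change either,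
but it can be a neighbour). Claim: a neighbour `y` of some `x ∈ S` is in `S` or is a `P`-neighbour `v_(i-1)`, `v_(i+1)` of
some `v_i ∈ S`. Let `Q ∈ R` have last vertex `x`, and suppose `y = v_i ∉ S` and its `P`-neighbours (at most two) are not in
`S`. An edge `{Q_j, Q_(j+1)}` is removed by a rotation only if `Q_(j+1)` becomes the last vertex; so the edges of `P` at `y`
are still edges of `Q`. `y` is not the last vertex of `P` (`v_t ∈ S`). If `y` is an inner vertex of `P`, its two neighbours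
on `Q` are its two `P`-neighbours; if `y = v_0`, its only neighbour on `Q` is `v_1` (`v_0` is the first vertex of all
`Q ∈ R`). `y ~ x`; if `y = Q_j` and `j = t - 1`, then `x = Q_t ∈ S` is a `P`-neighbour of `y`, contradiction; otherwise the
rotation at `y` gives the last vertex `Q_(j+1) ∈ S`, which is a `P`-neighbour of `y`: contradiction. So
`S ∪ N(S) ⊆ S ∪ {v_(i-1), v_(i+1) : v_i ∈ S}` has at most `3 |S|` elements, and it is contained in `Z`: fewer than `L`. -/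
def St_Posa : Prop := ∀ (V : Type) (G : SimpleGraph V) (W : Finset V) (L : ℕ), W.Nonempty →
  (∀ w ∈ W, 3 ≤ (nbs G w W).card) →
  (∃ l, CycL G l ∧ (∀ v ∈ l, v ∈ W) ∧ L ≤ l.length ∧ Chord G l) ∨
  ∃ S ⊆ W, S.Nonempty ∧ (S ∪ W.filter (fun w => ∃ s ∈ S, G.Adj s w)).card ≤ 3 * S.card ∧
    (S ∪ W.filter (fun w => ∃ s ∈ S, G.Adj s w)).card < L

/-- THETA (file `Theta.lean`, `thm_Theta : St_Theta`).  In a bipartite cycle with a chord there are paths of every even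
length between the two parts `T`, `X \ T` of one side.

Proof. Let `N = |l|`, places mod `N`. Neighbours on the cycle are on different sides, so `N` is even and the
vertices of `X` have all places of one parity. The chord joins a vertex of `X` and one not in `X`. Rotate and
possibly reverse `l` such that: `X` = even places, the chord is `{0, c}` with `c` odd, `3 ≤ c ≤ N - 3` and `c ≤ N / 2`.
`χ(i)` (`i` even, mod `N`) says whether the vertex in the place `i` is in `T`; `χ` is not constant. Let `ℓ = 2 j`,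
`2 ≤ ℓ < N`, and suppose there is no path of the required kind. Arcs of length `ℓ`: `χ(i) = χ(i + ℓ)` for all even `i`.
Let `p` be the least positive even number with `χ(i) = χ(i + p)` for all even `i`. Then `p` divides `N` and `ℓ`, and
`4 ≤ p ≤ ℓ`, so `ℓ + p ≤ N`. We extend `χ` to all even integers. Paths with the chord, `a ≥ 0` even, `b = ℓ - 1 - a ≥ 0`:
B(a): places `-a, ..., 0, c, c - 1, ..., c - b`, if `a ≤ N - c - 1`, `b ≤ c - 1`; ends `-a` and `c - b ≡ c + 1 + a` mod `p`;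
so `χ(-a) = χ(c + 1 + a)`.
B'(a): places `a, ..., 0, c, c + 1, ..., c + b`, if `a ≤ c - 1`, `b ≤ N - c - 1`; ends `a` and `c + b ≡ c - 1 - a`; so
`χ(a) = χ(c - 1 - a)`.
F(a): places `-a, ..., 0, c, ..., c + b`, if `ℓ ≤ N - c`; ends `-a`, `c + b ≡ c - 1 - a`; so `χ(-a) = χ(c - 1 - a)`.
(I) If the admissible even `a` in B and in B' both represent all even residues mod `p`, then `χ(-a) = χ(c + 1 + a)` and
(with `-a` for `a`) `χ(-a) = χ(c - 1 + a)` for all even `a`, so `χ` has the period 2 and is constant: contradiction.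
(II) The admissible even `a` in B: from `max(0, ℓ - c + 1)` to `min(ℓ - 2, N - c - 1)`. Their number:
if `ℓ ≤ c - 1`: `ℓ / 2` (as `N - c - 1 ≥ c - 1`); if `c + 1 ≤ ℓ ≤ N - c + 1`: `(c - 1) / 2`; if `ℓ ≥ N - c + 1`: `(N - ℓ) / 2`.
In B': from `max(0, ℓ - N + c + 1)` to `min(ℓ - 2, c - 1)`. Their number: if `ℓ ≤ N - c - 1` and `ℓ ≤ c + 1`: `ℓ / 2`; if
`c + 1 < ℓ ≤ N - c - 1`: `(c + 1) / 2`; if `ℓ ≥ N - c + 1` and `ℓ > c + 1`: `(N - ℓ) / 2`; if `ℓ ≥ N - c + 1` and `ℓ ≤ c + 1`,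
then `N - c ≤ c`, so `N = 2 c`, `ℓ = c + 1`, `p` divides `2 ℓ - N = 2`: impossible. (`ℓ` is even, `N - c` odd.)
(III) If `ℓ ≥ N - c + 1`: the numbers in B, B' are `(N - ℓ) / 2 ≥ p / 2`, so (I) applies. If `ℓ ≤ N - c - 1` and
`c - 1 ≥ p`: the numbers are `≥ p / 2`, (I) applies. If `ℓ ≤ N - c - 1` and `c - 1 < p`: F(a) for `a = 0, 2, ..., ℓ - 2`
(all even residues mod `p`) shows that `c - 1` is a period, but `2 ≤ c - 1 < p`: contradiction. -/
def St_Theta : Prop := ∀ (V : Type) (G : SimpleGraph V) (X T : Finset V) (l : List V), CycL G l →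
  Chord G l → (∀ u ∈ l, ∀ v ∈ l, G.Adj u v → (u ∈ X ↔ v ∉ X)) → (∃ u ∈ l, u ∈ X ∧ u ∈ T) →
  (∃ u ∈ l, u ∈ X ∧ u ∉ T) → ∀ j : ℕ, 1 ≤ j → 2 * j < l.length →
  ∃ a b q, PathFT G a b q ∧ q.length = 2 * j + 1 ∧ (∀ v ∈ q, v ∈ l) ∧ a ∈ X ∧ a ∈ T ∧ b ∈ X ∧ b ∉ T

/-- LAY (file `Lay.lean`, `thm_Lay : St_Lay`).  Two layers of a breadth first search tree.

Proof. `ad F univ univ = 2 e(F)`, so `e(F) ≥ 12 D |V|`; some connected component `V₂` has at least `12 D |V₂|` edges. Let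
`r ∈ V₂`, `L_i` = the vertices of `V₂` at distance `i` from `r` (`F.dist`). `F` is bipartite, so every edge in `V₂` joins two
consecutive layers: `∑_i e(L_i, L_(i+1)) ≥ 12 D |V₂| ≥ 6 D ∑_i |L_i ∪ L_(i+1)|`; so there is `i` with
`e(L_i, L_(i+1)) ≥ 6 D |L_i ∪ L_(i+1)|`, `L_i ∪ L_(i+1) ≠ ∅` (choose `i` with `e(L_i, L_(i+1)) > 0`, or note that the sum over
the `i ≤ |V|` with nonempty `L_i ∪ L_(i+1)` suffices). Let `W` be a nonempty subset of `L_i ∪ L_(i+1)` with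
`e(W) ≥ 6 D |W|` and `|W|` minimal; every `w ∈ W` has at least `6 D` neighbours in `W` (otherwise remove `w`; if `W = {w}`,
`e(W) = 0 < 6 D`). `X = W ∩ L_i`. For `v ∈ V₂`, `v ≠ r`, let `π(v)` be a neighbour of `v` with `dist = dist v - 1` (and
`π(r) = r`). Let `X' ⊆ X` have at least two elements. `π^i(x) = r` for all `x ∈ X'`. Let `h ≥ 1` be minimal such that all
`π^h(x)`, `x ∈ X'`, are equal (`h = 0` is impossible). `x₀ ∈ X'`, `A' = {x ∈ X' : π^(h-1)(x) = π^(h-1)(x₀)}`, a proper nonempty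
subset of `X'`. For `a ∈ A'`, `b ∈ X' \ A'` the list `a, π(a), ..., π^h(a) = π^h(b), ..., π(b), b` is a path with `2 h + 1`
vertices: `π^j(a)` is in `L_(i-j)`; `π^j(a) = π^j(b)` for `j < h` would imply `π^(h-1)(a) = π^(h-1)(b)`. Its inner vertices are in
layers `L_j`, `j < i`, so not in `W`. -/
def St_Lay : Prop := ∀ (V : Type) [Fintype V] [Nonempty V] (F : SimpleGraph V) (side : V → Bool)
  (D : ℝ), 0 < D → (∀ u v, F.Adj u v → side u ≠ side v) →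
  24 * D * Fintype.card V ≤ (ad F univ univ : ℝ) →
  ∃ W X : Finset V, W.Nonempty ∧ X ⊆ W ∧ (∀ w ∈ W, 6 * D ≤ ((nbs F w W).card : ℝ)) ∧
    (∀ u ∈ W, ∀ v ∈ W, F.Adj u v → (u ∈ X ↔ v ∉ X)) ∧
    ∀ X' ⊆ X, 2 ≤ X'.card → ∃ h : ℕ, 1 ≤ h ∧ ∃ A' ⊆ X', A'.Nonempty ∧ (X' \ A').Nonempty ∧
      ∀ a ∈ A', ∀ b ∈ X' \ A', ∃ l, PathFT F a b l ∧ l.length = 2 * h + 1 ∧
        ∀ w ∈ l, w = a ∨ w = b ∨ w ∉ W

/-- LSP (file `Lsp.lean`, `thm_Lsp (hCut : St_Cut) (hPosa : St_Posa) (hTheta : St_Theta) (hLay : St_Lay) : St_Lsp`).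
A locally sparse graph has cycles of `k` consecutive even lengths.

Proof. By `hCut` (`S = univ`) there is a bipartite subgraph `F` (the edges of `G` between `A` and its complement) with
`ad F univ univ = 2 ad G A Aᶜ ≥ ad G univ univ / 2 ≥ 24 D |V|`. `hLay` gives `W`, `X`. `hPosa` for `F`, `W`, `L = 2 k + 2` (degrees
`≥ 6 D ≥ 3`). In its second case let `S' = S ∪ N(S)` (in `W`), `|S'| ≤ 2 k + 1`, `|S'| ≤ 3 |S|`; all neighbours in `W` of a vertex
of `S` are in `S'`, so `ad F S' S' ≥ 6 D |S| ≥ 2 D |S'|`, but `ad F S' S' ≤ ad G S' S' < 2 D |S'|`: contradiction. In the first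
case: a cycle `l` of `F` in `W` with a chord, `|l| ≥ 2 k + 2`. Let `X' = X ∩ l`: every second vertex of `l`, so
`|X'| ≥ k + 1 ≥ 2`. `hLay`: `h`, `A'`. For `1 ≤ j ≤ k` `hTheta` with `X`, `T = A'` gives a path `q` with `2 j + 1` vertices in `l`
from `a ∈ A'` to `b ∈ X' \ A'`; `hLay` a path from `a` to `b` with `2 h + 1` vertices whose inner vertices are not in `W`.
Together: a cycle of length `2 h + 2 j` in `F`, hence in `G`. -/
def St_Lsp : Prop := ∀ (V : Type) [Fintype V] [Nonempty V] (G : SimpleGraph V) (k : ℕ) (D : ℝ),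
  1 ≤ k → 1 ≤ D → 48 * D * Fintype.card V ≤ (ad G univ univ : ℝ) →
  (∀ S : Finset V, S.Nonempty → S.card ≤ 2 * k + 1 → (ad G S S : ℝ) < 2 * D * S.card) →
  ∃ h : ℕ, ∀ j : ℕ, 1 ≤ j → j ≤ k → ∃ l, CycL G l ∧ l.length = 2 * h + 2 * j

/-- BTWO (file `BTwo.lean`, `thm_BTwo : St_BTwo`).  Case (b2): a very unbalanced bipartite graph.

Proof. `C = 2304 / ε^2`, `k ≥ k₀` large (`k ≥ 5`, `ε k ≥ 1000`). For ordered pairs `(q, q')`, `q ≠ q'` in `Q` let `codeg` be the number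
of common neighbours in `R`; the pair is bad if `codeg < k`.
`∑_(v ∈ R) #{bad ordered pairs in N(v) ∩ Q} = ∑_(bad) codeg ≤ |Q|^2 k ≤ 9 k^3`, so some `v ∈ R` has at most `9 k^2 / C` bad
ordered pairs in `Z₀ = N(v) ∩ Q`; `|Z₀| ≥ (1/2 + ε/2) k`. At most `(9 k^2 / C) / (ε k / 16) = 144 k / (C ε) = ε k / 16` vertices of
`Z₀` are in more than `ε k / 16` bad pairs `(z, ·)` in `Z₀`; let `Z` be the set of the other ones, `|Z| ≥ (1/2 + 7 ε / 16) k`. Let
`c = (k + 1) / 2 ≥ 3`. Choose `z_1, ..., z_c ∈ Z` different, `(z_i, z_(i+1))` and `(z_c, z_1)` not bad: for `z_(i+1)` there are at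
least `|Z| - (c - 1) ≥ 7 ε k / 16` unused vertices, at most `ε k / 16` of them are bad for `z_i` and at most `ε k / 16` for
`z_1`. Then choose different `r_1, ..., r_c ∈ R`, `r_i` a common neighbour of `z_i` and `z_(i+1)` (`z_(c+1) = z_1`): there are `k`
of them and `c ≤ k`. The cycle `z_1, r_1, z_2, r_2, ..., z_c, r_c` has length `k + 1`. -/
def St_BTwo : Prop := ∀ ε : ℝ, 0 < ε → ε ≤ 1 → ∃ C : ℝ, 1 ≤ C ∧ ∃ k₀ : ℕ, ∀ k ≥ k₀, Odd k →
  ∀ (V : Type) (G : SimpleGraph V) (Q R : Finset V), Disjoint Q R → Q.card ≤ 3 * k →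
    C * k ≤ (R.card : ℝ) → (∀ v ∈ R, (1 / 2 + ε / 2) * k ≤ ((nbs G v Q).card : ℝ)) →
    ∃ l, CycL G l ∧ l.length = k + 1

end Pool.CMK
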