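import Pool.Agent.CMK.Defs

/-!
# CMK: statements of the modules, part 3 (case (b1): regularity and connected matchings)

General remarks: see `St1.lean`.
-/

set_option autoImplicit false

namespace Pool.CMK

open Finset
open scoped Classical

/-- REGA (file `RegA.lean`, `thm_RegA : St_RegA`).  Szemeredi's regularity lemma and the reduced graph.

Proof. `l = ⌈400 C / ε⌉`. Mathlib's `szemeredi_regularity` with `κ^2` and `l` (for `k ≥ k₀`, `l ≤ N = |V|`): an equipartition with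
`t₀` parts, `l ≤ t₀ ≤ b := bound (κ^2) l`, all parts of size `s₀ = ⌊N / t₀⌋` or `s₀ + 1`, at most `κ^2 t₀^2` ordered pairs of
different parts not `κ^2`-uniform. `T` = a natural number `≥ 2 b + 1`. `N ≥ k`, so for large `k`: `k ≤ 2 b s₀ ≤ T s₀`, and
`s₀ + 1 ≤ C k / t₀ + 1 ≤ ε k / 400 + 1 ≤ ε k / 100`. A part is bad if it has more than `κ t₀` partners with which it is not
uniform; there are at most `κ t₀` bad parts. `t` = number of good parts, `Ws` an enumeration, `Γ`: `i ~ j` iff `i ≠ j`, the pair is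
`κ^2`-uniform and has edge density `≥ 3 d`. (low) For `|X|, |Y| ≥ κ^2 (s₀ + 1)` the density of `(X, Y)` is
`> 3 d - κ^2 ≥ 2 d`. (deg) Let `A` be a good part. `(1/2 + ε) k |A| ≤ ∑_(v ∈ A) deg v`, and the right hand side is at most
`|A|^2` (neighbours in `A`) `+ |A| κ t₀ (s₀ + 1)` (in bad parts) `+ |A| κ t₀ (s₀ + 1)` (in non-uniform partners)
`+ 3 d |A| N` (in partners with density `< 3 d`) `+ |A| deg_Γ(A) (s₀ + 1)`. Since `t₀ (s₀ + 1) ≤ N + t₀ ≤ 2 N ≤ 2 C k`: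
`deg_Γ(A) (s₀ + 1) ≥ (1/2 + ε) k - ε k / 100 - 4 κ C k - 3 d C k ≥ (1/2 + 3 ε / 4) k` (`κ C ≤ ε / 400`, `d C ≤ ε / 200`).
(size) `t ≥ (1 - κ) t₀`, `s₀ t ≥ (1 - κ) (N - t₀) ≥ (1 - ε / 400) ((1 + ε) k - b) ≥ (1 + 3 ε / 4) k` for large `k`. -/
def St_RegA : Prop := ∀ ε C κ d : ℝ, 0 < ε → ε ≤ 1 / 10 → 1 ≤ C → 0 < κ → κ ≤ ε / (400 * C) →
  0 < d → d ≤ ε / (200 * C) → κ ^ 2 ≤ d → ∃ T k₀ : ℕ, ∀ k ≥ k₀, ∀ (V : Type) [Fintype V]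
  (G : SimpleGraph V), (1 + ε) * k ≤ Fintype.card V → (Fintype.card V : ℝ) ≤ C * k →
  (∀ v, (1 / 2 + ε) * k ≤ ((nbs G v univ).card : ℝ)) →
  ∃ (t s₀ : ℕ) (Ws : Fin t → Finset V) (Γ : SimpleGraph (Fin t)), t ≤ T ∧ k ≤ T * s₀ ∧
    ((s₀ : ℝ) + 1) ≤ ε * k / 100 ∧ (∀ i j, i ≠ j → Disjoint (Ws i) (Ws j)) ∧
    (∀ i, s₀ ≤ (Ws i).card ∧ (Ws i).card ≤ s₀ + 1) ∧
    (∀ i j, Γ.Adj i j → ∀ X Y : Finset V, X ⊆ Ws i → Y ⊆ Ws j →
      κ ^ 2 * ((s₀ : ℝ) + 1) ≤ X.card → κ ^ 2 * ((s₀ : ℝ) + 1) ≤ Y.card →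
      2 * d * X.card * Y.card ≤ (ad G X Y : ℝ)) ∧
    (∀ i, (1 / 2 + 3 * ε / 4) * k ≤ ((s₀ : ℝ) + 1) * (nbs Γ i univ).card) ∧
    (1 + 3 * ε / 4) * k ≤ (s₀ : ℝ) * t

/-- REG (file `Reg.lean`, `thm_Reg (hRegA : St_RegA) : St_Reg`).  The blow-up structure.

Proof. `d = ε / (200 C)`, `κ > 0` with `κ ≤ ε / (400 C)` and `κ^2 ≤ d / 100`, `γ = 2 κ^2`; then `γ ≤ d / 50` and `γ ≤ ε / 200`.
Apply `hRegA`; `T' = 2 T`. For large `k` also `κ^2 s₀ ≥ 2`. For every `i` choose `j(i)` with `Γ.Adj i j(i)` (`deg_Γ(i) > 0`) and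
let `X_i` be the set of the `v ∈ Ws i` with `|N(v) ∩ Ws j(i)| < 2 d |Ws j(i)|`; by (low) with `Y = Ws j(i)` (`s₀ ≥ κ^2 (s₀ + 1)`)
`|X_i| < κ^2 (s₀ + 1)`. Let `s = ⌊(1 - 3 κ^2) s₀⌋`, `(1 - 4 κ^2) s₀ ≤ s ≤ s₀ - κ^2 (s₀ + 1)`, and `Vs i ⊆ Ws i \ X_i` with `s`
elements. (typ) `v ∈ Vs i` has at least `2 d s₀ - (s₀ + 1 - s) ≥ 2 d s₀ - 4 κ^2 s₀ - 1 ≥ d s₀ ≥ d s` neighbours in `Vs j(i)`
(`5 κ^2 ≤ d`). (low) `γ s ≥ 2 κ^2 (1 - 4 κ^2) s₀ ≥ κ^2 (s₀ + 1)`. Numbers: `s deg_Γ(i) ≥ (1 - 4 κ^2) (s₀ / (s₀ + 1))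
(1/2 + 3 ε / 4) k ≥ (1/2 + ε/2) k` for large `k`, `s t ≥ (1 - 4 κ^2) (1 + 3 ε / 4) k ≥ (1 + ε / 2) k`, `k ≤ T s₀ ≤ 2 T s`. -/
def St_Reg : Prop := ∀ ε C : ℝ, 0 < ε → ε ≤ 1 / 10 → 1 ≤ C → ∃ d γ : ℝ, 0 < d ∧ d ≤ 1 ∧ 0 < γ ∧
  γ ≤ d / 50 ∧ γ ≤ ε / 200 ∧ ∃ T k₀ : ℕ, ∀ k ≥ k₀, ∀ (V : Type) [Fintype V] (G : SimpleGraph V),
  (1 + ε) * k ≤ Fintype.card V → (Fintype.card V : ℝ) ≤ C * k →
  (∀ v, (1 / 2 + ε) * k ≤ ((nbs G v univ).card : ℝ)) →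
  ∃ (t s : ℕ) (Vs : Fin t → Finset V) (Γ : SimpleGraph (Fin t)), Bl G s Vs Γ d γ ∧ t ≤ T ∧
    k ≤ T * s ∧ (s : ℝ) ≤ ε * k / 100 ∧
    (∀ i, (1 / 2 + ε / 2) * k ≤ (s : ℝ) * (nbs Γ i univ).card) ∧ (1 + ε / 2) * k ≤ (t : ℝ) * s

/-- MATCH (file `Match.lean`, `thm_Match : St_Match`).  A large matching from the minimum degree.

Proof. Let `M` be a matching in `K` with `|M|` maximal. Suppose `|M| < D` and `|K| ≥ 2 |M| + 2`. Let `u ≠ v` be vertices of `K`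
which are not covered by `M`. All neighbours of `u`, `v` in `K` are covered (otherwise `M` can be enlarged; in particular
`u`, `v` are not adjacent). The number of adjacent pairs between `{u, v}` and the covered vertices is at least
`2 D > 2 |M|`, so for some `e = (e1, e2) ∈ M` at least 3 of the pairs `u e1, u e2, v e1, v e2` are adjacent. Then
`u ~ e1, v ~ e2` or `u ~ e2, v ~ e1`; replace `e` by these two edges: contradiction. -/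
def St_Match : Prop := ∀ (T : Type) (Γ : SimpleGraph T) (K : Finset T) (D : ℕ),
  (∀ v ∈ K, D ≤ (nbs Γ v K).card) →
  ∃ M : List (T × T), MatL Γ K M ∧ (D ≤ M.length ∨ K.card ≤ 2 * M.length + 1)

/-- WALKE (file `WalkE.lean`, `thm_WalkE : St_WalkE`).  A closed walk which goes along every matching edge and back.

Proof. Induction on `M`; `M = []`: `w = [a]`. `M = e :: M'`: `w'` for `M'`; `l` a list from `a` to `e.1` as in the assumption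
without repetitions (a shortest one), so `|l| ≤ |K|`. `w = w' ++ l.tail ++ [e.2] ++ l.reverse` (`w'` ends with `a`, `l.reverse` begins
with `e.1` and ends with `a`). It contains `[e.1, e.2, e.1]` (if `l = [a]`, the first `e.1 = a` is the last entry of `w'`), and
`|w| = |w'| + 2 |l|`. -/
def St_WalkE : Prop := ∀ (T : Type) (Γ : SimpleGraph T) (K : Finset T) (M : List (T × T)) (a : T),
  MatL Γ K M → a ∈ K →
  (∀ x ∈ K, ∀ y ∈ K, ∃ l : List T, l.IsChain Γ.Adj ∧ l.head? = some x ∧ l.getLast? = some y ∧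
    ∀ z ∈ l, z ∈ K) →
  ∃ w : List T, w.IsChain Γ.Adj ∧ w.head? = some a ∧ w.getLast? = some a ∧ (∀ z ∈ w, z ∈ K) ∧
    Odd w.length ∧ w.length ≤ 1 + M.length * (2 * K.card + 2) ∧
    ∀ e ∈ M, ∃ l₁ l₂, w = l₁ ++ [e.1, e.2, e.1] ++ l₂

/-- EMB (file `Emb.lean`, `thm_Emb : St_Emb`).  Embedding a walk of the reduced graph.

Proof. Remark: if `Γ.Adj i j`, `Y ⊆ Vs j`, `|Y| ≥ γ s`, then fewer than `γ s` (or none) of the `x ∈ Vs i` have no neighbour in `Y`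
(`low`: `d |X| |Y| ≤ ad G X Y = 0` with `|X| ≥ γ s > 0` is impossible; `s > 0` since `w.length ≤ d s / 4`), and fewer than `γ s` of
the `x ∈ Vs i` have `< d s` neighbours in `Vs j` (`|Vs j| = s`). Induction on the length of `w` (for all `X₀, U, a`).
`w = [a, b]`: `|X₀ \ U| ≥ 3 d s / 4 > 2 γ s`, `|Y₀ \ U| ≥ 3 d s / 4 ≥ γ s`; so there is `x ∈ X₀ \ U` with at least `d s` neighbours in
`Vs b` and with a neighbour `y ∈ Y₀ \ U`; `z = [(x, a), (y, b)]`. `w = a :: c :: w'`, `w' ≠ []`: choose `x ∈ X₀ \ U` with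
at least `d s` neighbours in `Vs c`, and apply the induction hypothesis to `c :: w'`, `X₀' = N(x) ∩ Vs c`, `U' = U ∪ {x}`
(`|c :: w'| + |U'| ≤ |w| + |U|`); `z = (x, a) :: z'`. -/
def St_Emb : Prop := ∀ (V : Type) (G : SimpleGraph V) (t s : ℕ) (Vs : Fin t → Finset V)
  (Γ : SimpleGraph (Fin t)) (d γ : ℝ), Bl G s Vs Γ d γ → 0 < γ → 8 * γ ≤ d → d ≤ 1 →
  ∀ (w : List (Fin t)) (a b : Fin t) (X₀ Y₀ U : Finset V), w.IsChain Γ.Adj → 2 ≤ w.length →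
  w.head? = some a → w.getLast? = some b → X₀ ⊆ Vs a → Y₀ ⊆ Vs b → d * s ≤ (X₀.card : ℝ) →
  d * s ≤ (Y₀.card : ℝ) → (w.length : ℝ) + U.card ≤ d * s / 4 →
  ∃ z : List (V × Fin t), z.map Prod.snd = w ∧ z.IsChain (EmR G s Vs d) ∧
    (z.map Prod.fst).Nodup ∧ (∀ q ∈ z, q.1 ∈ Vs q.2 ∧ q.1 ∉ U) ∧
    (∃ x ∈ X₀, (z.map Prod.fst).head? = some x) ∧ (∃ y ∈ Y₀, (z.map Prod.fst).getLast? = some y)

end Pool.CMK
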