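import Pool.Agent.CMK.St1
import Pool.Agent.CMK.St2
import Pool.Agent.CMK.St3

/-!
# CMK: statements of the modules, part 4 (assembly)

General remarks: see `St1.lean`.
-/

set_option autoImplicit false

namespace Pool.CMK

open Finset
open scoped Classical

/-- EXP (file `Exp.lean`, `thm_Exp (hPP : St_PP) : St_Exp`).  Expanding edges of a cycle.

Proof. Insert lists one after the other: claim for every `J : Finset (Fin r)`: there is a cycle `C_J` with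
`|C| + ∑_(j ∈ J) L j` vertices which contains `x j, y j` consecutively for `j ∉ J`, and such that for every `i ∉ J` it has the same
vertices in `A i ∪ B i` as `C`. Step from `J` to `J ∪ {i}`: `C_J = l₁ ++ [x i, y i] ++ l₂`. Apply `hPP` to the pair `A i, B i`,
`U` = the vertices of `C_J` (at most `u` of them are in `A i ∪ B i`), `x i`, `y i`, `sx = false` (`x i` has its neighbours in
`B i`), `sy = true`, `L = L i`: list `q` in `A i ∪ B i` without vertices of `C_J`; the new cycle is `l₁ ++ [x i] ++ q ++ [y i] ++ l₂`.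
For `j ≠ i`, `j ∉ J`, the consecutive places of `x j`, `y j` in `C_J` are both in `l₁ ++ [x i]` or both in `[y i] ++ l₂`
(`x j ≠ x i`, since `A i`, `A j` are disjoint). -/
def St_Exp : Prop := ∀ (V : Type) [Fintype V] (G : SimpleGraph V) (C : List V) (r m g u : ℕ)
  (x y : Fin r → V) (A B : Fin r → Finset V) (L : Fin r → ℕ), CycL G C → 1 ≤ g →
  (∀ j, Disjoint (A j) (B j) ∧ (A j).card = m ∧ (B j).card = m ∧ P1 G (A j) (B j) g ∧ x j ∈ A j ∧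
    y j ∈ B j ∧ (∃ l₁ l₂ : List V, C = l₁ ++ [x j, y j] ++ l₂) ∧ u + 2 * g + 2 ≤ (nbs G (x j) (B j)).card ∧
    u + 2 * g + 2 ≤ (nbs G (y j) (A j)).card ∧
    ((A j ∪ B j).filter (fun v => v ∈ C)).card ≤ u) →
  (∀ i j, i ≠ j → Disjoint (A i ∪ B i) (A j ∪ B j)) →
  (∀ j, Even (L j) ∧ 4 ≤ L j ∧ L j + 2 * u + 12 * g ≤ 2 * m) →
  ∃ C', CycL G C' ∧ C'.length = C.length + ∑ j, L j

/-- EXPM (file `ExpM.lean`, `thm_ExpM (hExp : St_Exp) : St_ExpM`).  `St_Exp` for a blow-up and a matching, with prescribed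
total length.

Proof. `E` is even, `4 |M| ≤ E ≤ |M| (2 s - 2 u - 12 g)`, so `E = ∑ L j` with even `L j`, `4 ≤ L j ≤ 2 s - 2 u - 12 g`
(`j < |M|`). For the `j`-th edge `e` of `M` the assumption `hM` gives consecutive vertices `x, y` of `C`. If `x ∈ Vs e.1`, `y ∈ Vs e.2` put
`A j = Vs e.1`, `B j = Vs e.2`, otherwise (`x ∈ Vs e.2`, `y ∈ Vs e.1`) the other way round. `P1` with `g = ⌈γ s⌉₊` follows from
`Bl.low` (`|X|, |Y| ≥ g ≥ γ s`, `g ≥ 1`, `d > 0`: `ad G X Y > 0`). Different edges of `M` have disjoint sets (`MatL.nod`,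
`Bl.disj`). Apply `hExp` with `m = s`, `r = |M|`. -/
def St_ExpM : Prop := ∀ (V : Type) [Fintype V] (G : SimpleGraph V) (t s : ℕ)
  (Vs : Fin t → Finset V) (Γ : SimpleGraph (Fin t)) (d γ : ℝ) (K : Finset (Fin t))
  (M : List (Fin t × Fin t)) (C : List V) (u g E : ℕ), Bl G s Vs Γ d γ → 0 < γ → 0 < d → 0 < s →
  MatL Γ K M → CycL G C → g = ⌈γ * s⌉₊ → ((u : ℝ) + 2 * g + 2 ≤ d * s) →
  (∀ i ∈ K, ((Vs i).filter (fun v => v ∈ C)).card + ((Vs i).filter (fun v => v ∈ C)).card ≤ u) →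
  (∀ e ∈ M, ∃ x y : V, (∃ l₁ l₂ : List V, C = l₁ ++ [x, y] ++ l₂) ∧
    ((x ∈ Vs e.1 ∧ y ∈ Vs e.2 ∧ d * s ≤ ((nbs G x (Vs e.2)).card : ℝ) ∧
        d * s ≤ ((nbs G y (Vs e.1)).card : ℝ)) ∨
      (x ∈ Vs e.2 ∧ y ∈ Vs e.1 ∧ d * s ≤ ((nbs G x (Vs e.1)).card : ℝ) ∧
        d * s ≤ ((nbs G y (Vs e.2)).card : ℝ)))) →
  Even E → 4 * M.length ≤ E → E + M.length * (2 * u + 12 * g) ≤ M.length * (2 * s) →
  ∃ C', CycL G C' ∧ C'.length = C.length + E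

/-- ALPHA (file `Alpha.lean`, `thm_Alpha (hExpM : St_ExpM) (hWalkE : St_WalkE) (hEmb : St_Emb) : St_Alpha`).  A large connected
matching gives a cycle of length `k + 1`.

Proof. Let `e ∈ M`, `a' = e.1`, `a = e.2`. There is `v₀ ∈ Vs a` with at least `d s` neighbours in `Vs a'` (otherwise
`ad G (Vs a) (Vs a') < d s^2`, against `Bl.low`; `γ ≤ 1`). `hWalkE` with `a'` and `M`: a closed walk `w` in `K` from `a'` to `a'`, `|w|` odd,
`3 ≤ |w| ≤ 1 + |M| (2 t + 2)`. `hEmb` with `X₀ = Y₀ = N(v₀) ∩ Vs a'`, `U = {v₀}`: `z`, and `C = v₀ :: z.map Prod.fst` is a cycle with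
`|C| = 1 + |w|` even, `|C| ≤ u / 2`. For `e ∈ M` the infix `[e.1, e.2, e.1]` of `w` gives consecutive entries `(x, e.1), (y, e.2), (x', e.1)` of
`z`; by `EmR` `x` has at least `d s` neighbours in `Vs e.2` and `y` at least `d s` neighbours in `Vs e.1`. Apply `hExpM` with
`E = k + 1 - |C|` (even, `4 |M| ≤ E ≤ k + 1`). -/
def St_Alpha : Prop := ∀ (V : Type) [Fintype V] (G : SimpleGraph V) (t s : ℕ)
  (Vs : Fin t → Finset V) (Γ : SimpleGraph (Fin t)) (d γ : ℝ) (K : Finset (Fin t))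
  (M : List (Fin t × Fin t)) (k u g : ℕ), Bl G s Vs Γ d γ → 0 < γ → 8 * γ ≤ d → d ≤ 1 → 0 < s →
  MatL Γ K M → 1 ≤ M.length →
  (∀ x ∈ K, ∀ y ∈ K, ∃ l : List (Fin t), l.IsChain Γ.Adj ∧ l.head? = some x ∧
    l.getLast? = some y ∧ ∀ z ∈ l, z ∈ K) →
  u = 2 * (2 + M.length * (2 * t + 2)) → g = ⌈γ * s⌉₊ → (u : ℝ) ≤ d * s / 4 →
  ((u : ℝ) + 2 * g + 2 ≤ d * s) → Odd k → 3 ≤ k → u + 4 * M.length ≤ k →
  k + 1 + M.length * (2 * u + 12 * g) ≤ M.length * (2 * s) →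
  ∃ l, CycL G l ∧ l.length = k + 1

/-- BETA (file `Beta.lean`, `thm_Beta (hTwo : St_Two) (hExpM : St_ExpM) (hWalkE : St_WalkE) (hEmb : St_Emb) : St_Beta`).  Two Dirac type
components of the reduced graph, joined by two disjoint paths.

Proof. `X_l = ⋃_(i ∈ K_l) Vs i` (`l = 1, 2`), disjoint, at least 2 elements. `hTwo`: disjoint paths `P` from `p₁ ∈ X_1` to `p₂ ∈ X_2`, `Q` from
`q₁ ∈ X_1` to `q₂ ∈ X_2`, without other vertices in `X_1 ∪ X_2`. By `Bl.typ` `p₁` has at least `d s` neighbours in some `Vs a₁`,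
and `a₁ ∈ K₁` (closed); in the same way `q₁` in `Vs b₁`, `b₁ ∈ K₁`; `p₂`, `q₂` in `Vs a₂`, `Vs b₂`, `a₂, b₂ ∈ K₂`. Two elements of
`K_l` have a common neighbour in `K_l` (`2 deg > |K_l|`). So the connectivity assumption of `hWalkE` holds: closed walks
`w_l` in `K_l` at `a_l`, covering `M_l`, `|w_l|` odd, `|w_l| ≤ 1 + |M_l| (2 t + 2)`. Append to `w_l` a walk from `a_l` to `b_l` with 2
steps (through a common neighbour), or with 3 steps (a neighbour `c` of `a_l`, a common neighbour of `c` and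
`b_l`, `b_l`). `hEmb` with `X₀ = N(p_l) ∩ Vs a_l`, `Y₀ = N(q_l) ∩ Vs b_l`, `U = {p_l, q_l}` gives lists `E_l`; for `l = 2` with 2 steps,
for `l = 1` both versions. The cycle `C = P ++ E_2 ++ Q.reverse ++ E_1.reverse`: `b` vertices with the first version of
`E_1`, `b + 1` with the second one. `C` has at most `|E_1| + |E_2| + 4 ≤ 12 + (|M₁| + |M₂|)(2 t + 2) = u / 2` vertices in each `Vs i`,
`i ∈ K₁ ∪ K₂`. As in `St_Alpha` the edges of `M = M₁ ++ M₂` (a matching in `K₁ ∪ K₂`) satisfy the assumption of `hExpM` (in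
`E_1.reverse` the order of `x`, `y` is reversed). Let `n` be one of the `k` consecutive numbers
`b + 1 + 4 |M|, ..., b + 4 |M| + k` with `n ≡ 1` mod `k`. If `n - b` is even, apply `hExpM` to the first version with
`E = n - b`, otherwise to the second one with `E = n - b - 1`. `E ≤ 4 |M| + k`. -/
def St_Beta : Prop := ∀ (V : Type) [Fintype V] (G : SimpleGraph V) (t s : ℕ)
  (Vs : Fin t → Finset V) (Γ : SimpleGraph (Fin t)) (d γ : ℝ) (K₁ K₂ : Finset (Fin t))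
  (M₁ M₂ : List (Fin t × Fin t)) (k u g : ℕ), Bl G s Vs Γ d γ → 0 < γ → 8 * γ ≤ d → d ≤ 1 →
  SC G 2 → Disjoint K₁ K₂ → (∀ i ∈ K₁, ∀ j, Γ.Adj i j → j ∈ K₁) →
  (∀ i ∈ K₂, ∀ j, Γ.Adj i j → j ∈ K₂) → (∀ i ∈ K₁, K₁.card < 2 * (nbs Γ i univ).card) →
  (∀ i ∈ K₂, K₂.card < 2 * (nbs Γ i univ).card) → MatL Γ K₁ M₁ → MatL Γ K₂ M₂ →
  1 ≤ M₁.length → 1 ≤ M₂.length → u = 2 * (12 + (M₁.length + M₂.length) * (2 * t + 2)) →
  g = ⌈γ * s⌉₊ → (u : ℝ) ≤ d * s / 4 → ((u : ℝ) + 2 * g + 2 ≤ d * s) → Odd k → 3 ≤ k →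
  4 * (M₁.length + M₂.length) + k + (M₁.length + M₂.length) * (2 * u + 12 * g) ≤
    (M₁.length + M₂.length) * (2 * s) →
  ∃ l, CycL G l ∧ l.length % k = 1

/-- BONE (file `BOne.lean`, `thm_BOne (hReg : St_Reg) (hMatch : St_Match) (hAlpha : St_Alpha) (hBeta : St_Beta) : St_BOne`).  Case (b1): the
graph has at most `C k` vertices.

Proof. `hReg`: `d, γ, T, k₀`, and `t, s, Vs, Γ`. A matching `M` has `2 |M| ≤ t ≤ T`, so `u` in `hAlpha`, `hBeta` is at most a constant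
`u₀ = 2 (12 + T (2 T + 2))`, while `s ≥ k / T` is as large as we want; `g ≤ γ s + 1`. For `i : Fin t` let `K(i)` be the set of the `j` which
are reachable from `i` in `Γ`; it is closed, and connected in the sense of `hAlpha`. Let `D` be the least natural
number with `(1/2 + ε/2) k ≤ s D`; all degrees of `Γ` are `≥ D`.
(α) Some `K = K(i)` has `s |K| ≥ (1 + ε/4) k`. `hMatch` (`K`, `D`): `M` with `|M| ≥ D` or `|K| ≤ 2 |M| + 1`, so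
`2 s |M| ≥ min((1 + ε) k, (1 + ε/4) k - s) ≥ (1 + ε/5) k`. Condition of `hAlpha`: `k + 1 + |M| (2 u + 12 g) ≤
k + 1 + T (u₀ + 6) + 6 γ (2 s |M|)`, and `(1 - 6 γ) (1 + ε/5) k ≥ (1 + ε/10) k ≥ k + 1 + T (u₀ + 6)` (`γ ≤ ε/200`). The cycle has length
`k + 1`, and `(k + 1) % k = 1`.
(β) All `K(i)` have `s |K(i)| < (1 + ε/4) k`. Since `s t ≥ (1 + ε/2) k` there are `i₁`, `i₂` with `K₁ = K(i₁)`, `K₂ = K(i₂)` disjoint.
`2 s deg ≥ (1 + ε) k > s |K_l|`. `hMatch` (`K_l`, `D`): `2 s |M_l| ≥ min(2 s D, s (|K_l| - 1)) ≥ (1/2 + ε/2) k` (`|K_l| - 1 ≥ deg`).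
So `2 s (|M₁| + |M₂|) ≥ (1 + ε) k` and the condition of `hBeta` holds for large `k` as in (α). -/
def St_BOne : Prop := ∀ ε C : ℝ, 0 < ε → ε ≤ 1 / 10 → 1 ≤ C → ∃ k₀ : ℕ, ∀ k ≥ k₀, Odd k →
  ∀ (V : Type) [Fintype V] (G : SimpleGraph V), (1 + ε) * k ≤ Fintype.card V →
  (Fintype.card V : ℝ) ≤ C * k → (∀ v, (1 / 2 + ε) * k ≤ ((nbs G v univ).card : ℝ)) → SC G 2 →
  ∃ l, CycL G l ∧ l.length % k = 1

/-- CASEA (file `CaseA.lean`, `thm_CaseA (hLink : St_Link) (hShrt : St_Shrt) (hCycA : St_CycA) : St_CaseA`).  Case (a): disjoint pairs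
of total size at least `(2 + ε) k`.

Proof. `D j = A j ∪ B j`, `b = ⌈δ k⌉₊`; `|D j| = 2 |A j| ≥ 2 c k ≥ b` (`δ ≤ c`), `r ≤ R ≤ b`, `2 ≤ b` for large `k`. `hLink` gives `σ`, `p`. With
`m j = |A j|`, `g j = ⌈4 γ m j⌉₊ ≤ 4 γ m j + 1`, `w j = ⌈(ρ/16) m j⌉₊`: `6 r + 2 g j + 2 ≤ 6 R + 8 γ m j + 4 ≤ (ρ/16) m j` for large `k`
(`8 γ ≤ ρ / 32`, `m j ≥ c k`), and `12 r + 12 g j + 4 ≤ 2 m j`. `hShrt`, `hCycA`: `k + ∑ (6 r + 6 g j + 2) ≤
k + R (6 R + 8) + 24 γ ∑ m j ≤ ∑ m j`, because `(1 - 24 γ) ∑ m j ≥ (1 - ε/10) (1 + ε/2) k ≥ (1 + ε/4) k` (`24 γ ≤ ε/10`). -/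
def St_CaseA : Prop := ∀ ε ρ γ c δ : ℝ, ∀ R : ℕ, 0 < ε → ε ≤ 1 / 10 → 0 < ρ → ρ ≤ 1 → 0 < γ →
  256 * γ ≤ ρ → 240 * γ ≤ ε → 0 < c → 0 < δ → δ ≤ c → ∃ k₀ : ℕ, ∀ k ≥ k₀, Odd k →
  ∀ (V : Type) [Fintype V] (G : SimpleGraph V) (r : ℕ) (A B : Fin r → Finset V), 1 ≤ r → r ≤ R →
  SC G ⌈δ * k⌉₊ → (∀ j, Pr G (A j) (B j) (4 * γ) (ρ / 16) ∧ c * k ≤ ((A j).card : ℝ)) →
  (∀ i j, i ≠ j → Disjoint (A i ∪ B i) (A j ∪ B j)) →
  (2 + ε) * k ≤ ∑ j, 2 * ((A j).card : ℝ) → ∃ l, CycL G l ∧ l.length % k = 1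

/-- HC (file `HC.lean`, `thm_HC (hPair : St_Pair) (hLsp : St_Lsp) (hBTwo : St_BTwo) (hBOne : St_BOne) (hCaseA : St_CaseA) : St_HC`).  The highly
connected case.

Proof. `η = ε / 400`, `ρ = 2 η / 3 = ε / 600`, `γ = ρ / 256`; `c, n₀` from `hPair` for `ρ, γ`; `c' = 2 c η`; `δ = min(ε/4, c')`;
`R = ⌈2 / c'⌉₊ + 1`. `C₁` from `hBTwo` (`ε`), `hBOne` with `ε` and `C = 3 + 2 C₁`, `hCaseA` with `ε, ρ, γ, c', δ, R`. `k` large. Call a finite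
family of pairs (functions `A, B` on `Fin r`) admissible if all `Pr G (A j) (B j) (4 γ) (ρ/16)`, `|A j| ≥ c' k`, and the sets
`A j ∪ B j` are pairwise disjoint.
(S) If `S` is a set with `0 < |S| ≤ 2 k + 1` and `ad G S S ≥ 2 η k |S|`, then `|S| ≥ 2 η k ≥ n₀` (`ad G S S ≤ |S|^2`) and
`ad G S S ≥ ρ |S|^2` (`|S| ≤ 3 k`), so `hPair` gives a pair inside `S` with `|A| ≥ c |S| ≥ c' k`.
An admissible family with `∑ 2 |A j| < (2 + ε) k` has `r < (2 + ε) / (2 c') ≤ 2 / c'`. Take one with `r` maximal (possibly `r = 0`);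
`Q = ⋃ (A j ∪ B j)`, `|Q| = ∑ 2 |A j| < (2 + ε) k ≤ 3 k`, `Y = univ \ Q`.
(a) If there is a pair `(A, B)` with `Pr`, `|A| ≥ c' k`, `A ∪ B ⊆ Y`: adding it gives an admissible family with
`r + 1 ≤ R` members and (maximality) `∑ 2 |A j| ≥ (2 + ε) k`: `hCaseA`.
(b) Otherwise no `S ⊆ Y` is as in (S). If `Y ≠ ∅` and `ad G Y Y ≥ 48 η k |Y|`: `hLsp` for the graph induced on `Y`
(type `{v // v ∈ Y}`), `D = η k ≥ 1`: cycles of all lengths `2 h + 2 j`, `1 ≤ j ≤ k`; `k` is odd, so one of them is `≡ 1` mod `k`.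
So let `ad G Y Y < 48 η k |Y|` or `Y = ∅`. If `|Y| ≥ 2 C₁ k`: let `R'` be the set of the `v ∈ Y` with `|N(v) ∩ Y| ≤ (ε/2) k`; the
others are at most `(96 η / ε) |Y| ≤ |Y| / 4` in number, so `|R'| ≥ C₁ k`, and `v ∈ R'` has at least `(1/2 + ε/2) k`
neighbours in `Q`. `hBTwo`: a cycle of length `k + 1`. If `|Y| < 2 C₁ k`: `|V| ≤ 3 k + 2 C₁ k = C k`, `hBOne`
(`SC G ⌈δ k⌉₊` implies `SC G 2`). -/
def St_HC : Prop := ∀ ε : ℝ, 0 < ε → ε ≤ 1 / 10 → ∃ δ : ℝ, 0 < δ ∧ δ ≤ ε / 4 ∧ ∃ k₀ : ℕ,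
  ∀ k ≥ k₀, Odd k → ∀ (V : Type) [Fintype V] (G : SimpleGraph V), SC G ⌈δ * k⌉₊ →
  (1 + ε) * k ≤ Fintype.card V → (∀ v, (1 / 2 + ε) * k ≤ ((nbs G v univ).card : ℝ)) →
  ∃ l, CycL G l ∧ l.length % k = 1

/-- MAIN (file `Main.lean`, `thm_Main (hMad : St_Mad) (hHC : St_HC) : St_Main`).

Proof. We may assume `ε ≤ 1/10`. `δ, k₀` from `hHC`. Suppose `ad G univ univ > 2 (1/2 + ε) k |V|`. `hMad` with
`α = (1/2 + ε) k`, `β = δ k` (`4 δ ≤ ε ≤ 1/2`): `W`. The graph `H` induced on `W` (type `{v // v ∈ W}`) has all degrees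
`> (1/2 + ε) k`, `|W| > 2 α - 2 β = (1 + 2 ε - 2 δ) k ≥ (1 + ε) k`, and every separator has at least `δ k`, so at least
`⌈δ k⌉₊`, elements; `⌈δ k⌉₊ + 1 ≤ |W|`. `hHC` gives a cycle of `H`, hence of `G`, of length `1` mod `k`. -/
def St_Main : Prop := ∀ ε : ℝ, 0 < ε → ∃ k₀ : ℕ, ∀ k ≥ k₀, Odd k → ∀ (V : Type) [Fintype V]
  (G : SimpleGraph V), (∀ l, CycL G l → l.length % k ≠ 1) →
  (ad G univ univ : ℝ) ≤ 2 * (1 / 2 + ε) * k * Fintype.card V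

/-- FINC (file `FinC.lean`, `thm_FinC (hMain : St_Main) : St_FinC`).  The theorem in Mathlib's terms.

Proof. A cycle `CycL G l` gives a walk `c : G.Walk v v` with `c.IsCycle` and `c.length = l.length`;
`ad G univ univ = 2 * G.edgeSet.ncard`. -/
def St_FinC : Prop := ∀ ε : ℝ, 0 < ε → ∃ k₀ : ℕ, ∀ k ≥ k₀, Odd k → ∀ (n : ℕ)
  (G : SimpleGraph (Fin n)), (∀ (v : Fin n) (c : G.Walk v v), c.IsCycle → c.length % k ≠ 1) →
  (G.edgeSet.ncard : ℝ) ≤ (1 / 2 + ε) * k * n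

end Pool.CMK
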