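import Pool.Agent.CMK.St1
import Pool.Agent.CMK.St2
import Pool.Agent.CMK.St3
import Pool.Agent.CMK.St4

/-!
# CMK: sub-statements, which split the heavy modules

General remarks: see `St1.lean`.  The theorems `thm_Dir`, `thm_Link`, `thm_Shrt`, `thm_CycA`, `thm_Posa`, `thm_Theta`, `thm_Lay`,
`thm_RegA`, `thm_Beta`, `thm_BOne`, `thm_HC` get ADDITIONAL hypotheses; their signatures are given here and replace the
ones in the files `St1`, ..., `St4`.  All these modules (and the new ones) import `Pool.Agent.CMK.StS`.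

* `thm_DirB : St_DirB`
* `thm_Dir (hFan : St_Fan) (hDirB : St_DirB) : St_Dir`
* `thm_LinC : St_LinC`
* `thm_Link (hDir : St_Dir) (hLinC : St_LinC) : St_Link`
* `thm_ShrA (hPP : St_PP) : St_ShrA`
* `thm_Shrt (hShrA : St_ShrA) : St_Shrt`
* `thm_CycJ : St_CycJ`
* `thm_CycA (hPP : St_PP) (hCycJ : St_CycJ) : St_CycA`
* `thm_PosR : St_PosR`
* `thm_Posa (hPosR : St_PosR) : St_Posa`
* `thm_TheA : St_TheA`
* `thm_TheN (hTheA : St_TheA) : St_TheN`
* `thm_Theta (hTheN : St_TheN) : St_Theta`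
* `thm_LayT : St_LayT`
* `thm_Lay (hLayT : St_LayT) : St_Lay`
* `thm_RegU : St_RegU`
* `thm_RegA (hRegU : St_RegU) : St_RegA`
* `thm_BetE (hWalkE : St_WalkE) (hEmb : St_Emb) : St_BetE`
* `thm_Beta (hTwo : St_Two) (hExpM : St_ExpM) (hBetE : St_BetE) : St_Beta`
* `thm_BOnA (hMatch : St_Match) (hAlpha : St_Alpha) : St_BOnA`
* `thm_BOnB (hMatch : St_Match) (hBeta : St_Beta) : St_BOnB`
* `thm_BOne (hReg : St_Reg) (hBOnA : St_BOnA) (hBOnB : St_BOnB) : St_BOne`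
* `thm_HCF : St_HCF`
* `thm_HCB (hLsp : St_Lsp) (hBTwo : St_BTwo) (hBOne : St_BOne) : St_HCB`
* `thm_HC (hPair : St_Pair) (hCaseA : St_CaseA) (hHCF : St_HCF) (hHCB : St_HCB) : St_HC`
-/

set_option autoImplicit false

namespace Pool.CMK

open Finset
open scoped Classical

/-- DIRB (file `DirB.lean`, `thm_DirB : St_DirB`).  A cycle through one vertex.

Proof. `G` has at least 3 vertices. `z` has a neighbour (otherwise `A = {z}`, `B` = the rest is a separation with an empty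
separator). Let `w` be a neighbour of `z`. Menger's theorem `Pool.Agent.Helper37.Mader.paths_of_lb` (file
`Pool/Agent/Helper37/Mader/Menger.lean`), or directly: the set of the vertices which are reachable from `w` in `G`
without `z` is not contained in `{w}` ∪ (non-neighbours of `z`): `A` = the set of vertices reachable from `w` without using
`z`, `B` = `{v | v ≠ z, v ∉ A}`: if `B` is nonempty the separator is `{z}`, contradiction; so `A` = all vertices except `z`. `z` has a second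
neighbour `w' ≠ w` (otherwise `A = {z}`, `B` = all vertices except `z`, `w`, separator `{w}`). A path from `w` to `w'` without `z`,
together with `z`, is a cycle. -/
def St_DirB : Prop := ∀ (V : Type) [Fintype V] (G : SimpleGraph V) (z : V), SC G 2 →
  ∃ l, CycL G l ∧ z ∈ l

/-- LINC (file `LinC.lean`, `thm_LinC : St_LinC`).  Cutting a cyclic list at the marked entries `inr j`.

Proof. `C` contains `inr j` for some `j` (`r ≥ 1`); a rotation `C'` of `C` begins with it. Every list over `V ⊕ Fin r` which begins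
with an entry `inr _` is of the form `(L.map (fun a => inr a.1 :: a.2.map inl)).flatten` with `L : List (Fin r × List V)`
(induction, from the right or by `List.splitOn`-like recursion). Since `C'` has no repetitions and contains all
`inr j`, the list `L.map Prod.fst` is a list without repetitions of all elements of `Fin r`, so `|L| = r`, and
`σ i = (L[i]).1`, `p i = (L[i]).2`. -/
def St_LinC : Prop := ∀ (V : Type) (r : ℕ) (C : List (V ⊕ Fin r)), 1 ≤ r → C.Nodup →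
  (∀ j : Fin r, Sum.inr j ∈ C) → ∃ (σ : Equiv.Perm (Fin r)) (p : Fin r → List V) (n : ℕ),
    C.rotate n = (List.ofFn (fun i : Fin r => Sum.inr (σ i) :: (p i).map Sum.inl)).flatten

/-- SHRA (file `ShrA.lean`, `thm_ShrA (hPP : St_PP) : St_ShrA`).  Short disjoint connections inside a pair.

Proof. Choose the `q i`, `i ∈ I`, one after the other (induction on the subset of `I` which is done). For the next `i` apply `hPP`
to `x i`, `y i` with `u = 6 r`, `U'` = `U`, all `x a`, `y a` and the vertices of all the lists chosen before (at most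
`2 r + 4 (r - 1)` elements: `U` is assumed to contain all `x a, y a`). If `x i ∈ A` its neighbours are in `B`: `sx = false`; if
`x i ∈ B`: `sx = true`; same for `y i`. `L = 3` if `sx = sy`, `L = 4` otherwise. Assumptions of `hPP`: `w ≥ 6 r + 2 g + 2`,
`4 + 12 r + 12 g ≤ 2 m`. -/
def St_ShrA : Prop := ∀ (V : Type) [Fintype V] (G : SimpleGraph V) (A B : Finset V)
  (m g w r : ℕ) (x y : Fin r → V) (I : Finset (Fin r)) (U : Finset V), Disjoint A B → A.card = m →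
  B.card = m → 1 ≤ g → P1 G A B g → (∀ a ∈ A, w ≤ (nbs G a B).card) →
  (∀ b ∈ B, w ≤ (nbs G b A).card) → 6 * r + 2 * g + 2 ≤ w → 4 + 12 * r + 12 * g ≤ 2 * m →
  (∀ i ∈ I, x i ∈ A ∪ B ∧ y i ∈ A ∪ B ∧ x i ≠ y i ∧ x i ∈ U ∧ y i ∈ U) → U.card ≤ 2 * r →
  ∃ q : Fin r → List V, (∀ i ∈ I, (q i).length ≤ 4 ∧ PathFT G (x i) (y i) (x i :: (q i ++ [y i])) ∧
    ∀ v ∈ q i, v ∈ A ∪ B ∧ v ∉ U) ∧ ∀ i ∈ I, ∀ j ∈ I, i ≠ j → ∀ v ∈ q i, v ∉ q j

/-- CYCJ (file `CycJ.lean`, `thm_CycJ : St_CycJ`).  Joining disjoint paths to a cycle.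

Proof. `l = (List.ofFn P).flatten`. It is nonempty, without repetitions (`List.nodup_flatten`), a chain
(`List.isChain_flatten` or induction), its first entry is the first one of `P 0`, its last entry the last one of
`P (r - 1)`, and `finRotate r (r - 1) = 0`. -/
def St_CycJ : Prop := ∀ (V : Type) (G : SimpleGraph V) (r : ℕ) (P : Fin r → List V), 1 ≤ r →
  (∀ i, PathL G (P i)) → (∀ i j, i ≠ j → ∀ v ∈ P i, v ∉ P j) →
  (∀ i, ∃ a b, (P i).getLast? = some a ∧ (P (finRotate r i)).head? = some b ∧ G.Adj a b) →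
  3 ≤ ∑ i, (P i).length →
  ∃ l, CycL G l ∧ l.length = ∑ i, (P i).length ∧ ∀ v, v ∈ l ↔ ∃ i, v ∈ P i

/-- `PRot G P Q`: the path `Q` arises from the path `P` by repeated rotations of the end. -/
inductive PRot {V : Type} (G : SimpleGraph V) (P : List V) : List V → Prop
  | refl : PRot G P P
  | step (A B : List V) (y x : V) : PRot G P (A ++ [y] ++ B ++ [x]) → G.Adj x y → B ≠ [] →
      PRot G P (A ++ [y] ++ [x] ++ B.reverse)

/-- `y`, `z` are consecutive entries of `l` (in any order) -/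
def Cons {V : Type} (l : List V) (y z : V) : Prop :=
  ∃ l₁ l₂ : List V, l = l₁ ++ [y, z] ++ l₂ ∨ l = l₁ ++ [z, y] ++ l₂

/-- POSR (file `PosR.lean`, `thm_PosR : St_PosR`).  Rotations do not change the neighbourhood of a vertex, unless the vertex or
one of its neighbours becomes an end.

Proof. Induction on `PRot`. First part: `Q.Perm P`, `Q` without repetitions, a chain, with the same head (in
`A ++ [y] ++ [x] ++ B.reverse` the consecutive pairs are those of `A ++ [y]`, `(y, x)`, and those of `B ++ [x]` reversed).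
Second part: let `y₀ ∈ P` be such that neither `y₀` nor a vertex `z` with `Cons P y₀ z` is the last entry of some `Q'` with
`PRot G P Q'`. Let the claim hold for `Q = A ++ [y] ++ B ++ [x]`, `Q' = A ++ [y] ++ [x] ++ B.reverse`, `B = b₁ ... b_m`. `x` is the last entry of
`Q`, so `y₀ ≠ x`; `b₁` is the last entry of `Q'`, so `y₀ ≠ b₁`. If `y₀ = y`, then `Cons Q y₀ b₁`, so `Cons P y₀ b₁`, against the assumption.
So `y₀ ∈ A` or `y₀ = b_i` with `i ≥ 2`; the neighbours of `y₀` on `Q` and on `Q'` are the same (for `y₀ = b_m` they are `b_(m-1)` and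
`x`, in both lists). -/
def St_PosR : Prop := ∀ (V : Type) (G : SimpleGraph V) (P : List V), PathL G P →
  (∀ Q, PRot G P Q → PathL G Q ∧ Q.Perm P ∧ Q.head? = P.head?) ∧
  ∀ y ∈ P, (∀ Q, PRot G P Q → Q.getLast? ≠ some y) →
    (∀ z, Cons P y z → ∀ Q, PRot G P Q → Q.getLast? ≠ some z) →
    ∀ Q, PRot G P Q → ∀ z, Cons Q y z ↔ Cons P y z

/-- THEA (file `TheA.lean`, `thm_TheA : St_TheA`).  The arithmetic part of the theta lemma.

Proof. This is the part of the proof of `St_Theta` (file `St2.lean`) from `Let p be the least positive even number` on. `χ i` says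
whether the vertex in the place `i` is in `T`; it matters for even `i` only. The assumptions `hB`, `hB'`, `hF` are the relations
B(a), B'(a), F(a) there, with `b = ℓ - 1 - a` (the ends are `-a` and `c - b`; `a` and `c + b`; `-a` and `c + b`). The set of the even
integers `p` with `χ(i) = χ(i + p)` for all even `i` is a subgroup, generated by its least positive element `p`; `N` and `ℓ` are in it, so
`p ∣ N`, `p ∣ ℓ`. If `p = 2` we are done. Otherwise `p ≥ 4`; then the three cases in (III) lead to a contradiction. -/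
def St_TheA : Prop := ∀ (N c ℓ : ℤ) (χ : ℤ → Prop), Even N → Odd c → 3 ≤ c → 2 * c ≤ N →
  c + 3 ≤ N → Even ℓ → 2 ≤ ℓ → ℓ < N → (∀ i, χ (i + N) ↔ χ i) →
  (∀ i, Even i → (χ i ↔ χ (i + ℓ))) →
  (∀ a, Even a → 0 ≤ a → a ≤ ℓ - 2 → a ≤ N - c - 1 → ℓ - 1 - a ≤ c - 1 →
    (χ (-a) ↔ χ (c - (ℓ - 1 - a)))) →
  (∀ a, Even a → 0 ≤ a → a ≤ ℓ - 2 → a ≤ c - 1 → ℓ - 1 - a ≤ N - c - 1 →
    (χ a ↔ χ (c + (ℓ - 1 - a)))) →
  (ℓ ≤ N - c → ∀ a, Even a → 0 ≤ a → a ≤ ℓ - 2 → (χ (-a) ↔ χ (c + (ℓ - 1 - a)))) →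
  ∀ i, Even i → (χ i ↔ χ (i + 2))

/-- THEN (file `TheN.lean`, `thm_TheN (hTheA : St_TheA) : St_TheN`).  The theta lemma for a cycle in normal form: `f i` is the vertex in
the place `i` (mod `N`).

Proof. Suppose there is no such path; `ℓ = 2 j`, `χ i := f i ∈ T`. All assumptions of `hTheA` hold: otherwise there is a path (a
list of `ℓ + 1` vertices, without repetitions, because the places are different mod `N`) whose ends are at even
places, one in `T`, the other one not in `T`; reverse it if necessary. The lists: `f i, ..., f (i + ℓ)` (`ℓ < N`);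
B(a): `f (-a), ..., f 0, f c, f (c-1), ..., f (c-b)`; B'(a): `f a, f (a-1), ..., f 0, f c, ..., f (c+b)`;
F(a): `f (-a), ..., f 0, f c, ..., f (c+b)`, `b = ℓ - 1 - a ≥ 1`. Places different mod `N`: in B(a) they are in `[-a, 0]` and `[c-b, c]` with
`c - b ≥ 1` and `a ≤ N - c - 1`; in B'(a) in `[0, a]` and `[c, c+b]`, `a ≤ c - 1`, `c + b ≤ N - 1`; in F(a) in `[-a, 0]`, `[c, c+b]` with
`c + b + a = c + ℓ - 1 ≤ N - 1`. The conclusion `χ i ↔ χ (i+2)` for all even `i` contradicts the existence of even places in `T` and not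
in `T`. -/
def St_TheN : Prop := ∀ (V : Type) (G : SimpleGraph V) (X T : Finset V) (N c : ℤ) (f : ℤ → V),
  Even N → Odd c → 3 ≤ c → 2 * c ≤ N → c + 3 ≤ N → (∀ i, f (i + N) = f i) →
  (∀ i j, f i = f j → N ∣ i - j) → (∀ i, G.Adj (f i) (f (i + 1))) → G.Adj (f 0) (f c) →
  (∀ i, Even i → f i ∈ X) → (∃ i, Even i ∧ f i ∈ T) → (∃ i, Even i ∧ f i ∉ T) →
  ∀ j : ℕ, 1 ≤ j → 2 * (j : ℤ) < N →
  ∃ a b q, PathFT G a b q ∧ q.length = 2 * j + 1 ∧ (∀ v ∈ q, ∃ i, v = f i) ∧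
    a ∈ X ∧ a ∈ T ∧ b ∈ X ∧ b ∉ T

/-- LAYT (file `LayT.lean`, `thm_LayT : St_LayT`).  Paths in a breadth first search tree.

Proof. For `v` reachable from `r`, `v ≠ r`, let `π(v)` be a neighbour of `v` with `dist r (π v) = dist r v - 1` (then `π v` is reachable, too),
and `π(r) = r`. `π^i(x) = r` for all `x ∈ X'`. Let `h` be minimal such that all `π^h(x)`, `x ∈ X'`, are equal; `h ≥ 1` since `|X'| ≥ 2`.
There are `x₀, x₁ ∈ X'` with `π^(h-1)(x₀) ≠ π^(h-1)(x₁)`; `A' = {x ∈ X' : π^(h-1)(x) = π^(h-1)(x₀)}`. For `a ∈ A'`, `b ∈ X' \ A'` the list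
`a, π(a), ..., π^h(a) = π^h(b), π^(h-1)(b), ..., π(b), b` is a path with `2 h + 1` vertices: `dist r (π^j(a)) = i - j` (`h ≤ i`), and
`π^j(a) = π^j(b)` for `j < h` would imply `π^(h-1)(a) = π^(h-1)(b)`. -/
def St_LayT : Prop := ∀ (V : Type) (F : SimpleGraph V) (r : V) (i : ℕ) (X' : Finset V),
  (∀ x ∈ X', F.Reachable r x ∧ F.dist r x = i) → 2 ≤ X'.card →
  ∃ h : ℕ, 1 ≤ h ∧ ∃ A' ⊆ X', A'.Nonempty ∧ (X' \ A').Nonempty ∧
    ∀ a ∈ A', ∀ b ∈ X' \ A', ∃ l, PathFT F a b l ∧ l.length = 2 * h + 1 ∧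
      ∀ w ∈ l, w = a ∨ w = b ∨ (F.Reachable r w ∧ F.dist r w < i)

/-- REGU (file `RegU.lean`, `thm_RegU : St_RegU`).  Szemeredi's regularity lemma in the form we need.

Proof. Mathlib's `szemeredi_regularity` for `κ^2` and `l`: an equipartition `P` of `univ` with `t₀` parts, `l ≤ t₀ ≤ b := bound (κ^2) l`,
sizes `s₀ = ⌊|V| / t₀⌋` or `s₀ + 1` (`Finpartition.IsEquipartition`), at most `κ^2 t₀^2` ordered pairs of different parts which are not
`κ^2`-uniform (`Finpartition.IsUniform`, `nonUniforms`). Enumerate the parts. `bad` = the set of the `i` with more than `κ t₀` partners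
`j ≠ i` such that the pair is not uniform: `|bad| κ t₀ ≤ κ^2 t₀^2`. For a uniform pair and `X`, `Y` as in the statement
`|density(X, Y) - density(P i, P j)| < κ^2`; multiply by `|X| |Y| |P i| |P j|`. (Mathlib's `edgeDensity` uses `interedges`; its
cardinality is `ad G X Y`.) -/
def St_RegU : Prop := ∀ κ : ℝ, 0 < κ → κ ≤ 1 → ∀ l : ℕ, 1 ≤ l → ∃ b : ℕ, ∀ (V : Type) [Fintype V]
  (G : SimpleGraph V), l ≤ Fintype.card V → ∃ (t₀ s₀ : ℕ) (P : Fin t₀ → Finset V)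
  (bad : Finset (Fin t₀)), l ≤ t₀ ∧ t₀ ≤ b ∧ (∀ i j, i ≠ j → Disjoint (P i) (P j)) ∧
    (∀ v, ∃ i, v ∈ P i) ∧ (∀ i, s₀ ≤ (P i).card ∧ (P i).card ≤ s₀ + 1) ∧
    (bad.card : ℝ) ≤ κ * t₀ ∧
    ∀ i, i ∉ bad → ((univ.filter (fun j => j ≠ i ∧ ¬ (∀ X Y : Finset V, X ⊆ P i → Y ⊆ P j →
      κ ^ 2 * (P i).card ≤ X.card → κ ^ 2 * (P j).card ≤ Y.card →
      (ad G (P i) (P j) : ℝ) * (X.card * Y.card) ≤ (ad G X Y : ℝ) * ((P i).card * (P j).card) +
        κ ^ 2 * (X.card * Y.card) * ((P i).card * (P j).card)))).card : ℝ) ≤ κ * t₀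

/-- BETE (file `BetE.lean`, `thm_BetE (hWalkE : St_WalkE) (hEmb : St_Emb) : St_BetE`).  The part of the cycle of `St_Beta` inside one
component.

Proof. See `St_Beta` (`St4.lean`). By `Bl.typ` `p` has at least `d s` neighbours in some `Vs a`, `q` in some `Vs b`, and `a, b ∈ K` (closed). Two
elements of `K` have a common neighbour in `K` (`2 deg > |K|`, all neighbours are in `K`), so the connectivity assumption of
`hWalkE` holds: a closed walk `w` at `a` with `[e.1, e.2, e.1]` as an infix for every `e ∈ M`, `|w|` odd,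
`|w| ≤ 1 + |M| (2 t + 2)` (`|K| ≤ t`). Append to `w` two entries `c, b` (`c` a common neighbour of `a` and `b`) if `par = true`, three entries
`c', c, b` (`c'` a neighbour of `a`, `c` a common neighbour of `c'` and `b`) if `par = false`. `hEmb` with `X₀ = N(p) ∩ Vs a`,
`Y₀ = N(q) ∩ Vs b`, `U = {p, q}` gives `z`, `E = z.map Prod.fst`. The infix `[e.1, e.2, e.1]` of the walk gives consecutive entries
`(x, e.1), (y, e.2), (x', e.1)` of `z`; `EmR` gives the two bounds on the numbers of neighbours. -/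
def St_BetE : Prop := ∀ (V : Type) [Fintype V] (G : SimpleGraph V) (t s : ℕ)
  (Vs : Fin t → Finset V) (Γ : SimpleGraph (Fin t)) (d γ : ℝ) (K : Finset (Fin t))
  (M : List (Fin t × Fin t)) (p q : V) (par : Bool), Bl G s Vs Γ d γ → 0 < γ → 8 * γ ≤ d → d ≤ 1 →
  (∀ i ∈ K, ∀ j, Γ.Adj i j → j ∈ K) → (∀ i ∈ K, K.card < 2 * (nbs Γ i univ).card) → MatL Γ K M →
  ((6 + M.length * (2 * t + 2) : ℕ) : ℝ) ≤ d * s / 4 → p ≠ q → (∃ i ∈ K, p ∈ Vs i) →
  (∃ i ∈ K, q ∈ Vs i) → ∃ E : List V, PathL G E ∧ (∃ a, E.head? = some a ∧ G.Adj p a) ∧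
    (∃ b, E.getLast? = some b ∧ G.Adj b q) ∧ (∀ v ∈ E, v ≠ p ∧ v ≠ q ∧ ∃ i ∈ K, v ∈ Vs i) ∧
    (if par then Odd E.length else Even E.length) ∧ E.length ≤ 4 + M.length * (2 * t + 2) ∧
    ∀ e ∈ M, ∃ x y : V, (∃ l₁ l₂ : List V, E = l₁ ++ [x, y] ++ l₂) ∧ x ∈ Vs e.1 ∧ y ∈ Vs e.2 ∧
      d * s ≤ ((nbs G x (Vs e.2)).card : ℝ) ∧ d * s ≤ ((nbs G y (Vs e.1)).card : ℝ)

/-- BONA (file `BOnA.lean`, `thm_BOnA (hMatch : St_Match) (hAlpha : St_Alpha) : St_BOnA`).  Case (α) of `St_BOne`: a large connected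
component.

Proof. See `St_BOne` (`St4.lean`). A matching `M` in `Fin t` has `2 |M| ≤ t ≤ T`; `u = 2 (2 + |M| (2 t + 2)) ≤ u₀ := 2 (12 + T (2 T + 2))`; `s ≥ k / T` is as
large as we want (`T ≥ 1`, since `k ≤ T s`); `g = ⌈γ s⌉₊ ≤ γ s + 1`. Let `D` be the least natural number with `(1/2 + ε/2) k ≤ s D`; all
`i ∈ K` have at least `D` neighbours in `K`. `hMatch`: `M` with `|M| ≥ D` (then `2 s |M| ≥ (1 + ε) k`) or `|K| ≤ 2 |M| + 1` (then
`2 s |M| ≥ s |K| - s ≥ (1 + ε/4) k - ε k / 100`); in both cases `2 s |M| ≥ (1 + ε/5) k`, in particular `|M| ≥ 1`. Condition of `hAlpha`: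
`k + 1 + |M| (2 u + 12 g) ≤ k + 1 + T (u₀ + 6) + 6 γ (2 s |M|) ≤ 2 s |M|`, since `(1 - 6 γ) (1 + ε/5) k ≥ (1 + ε/10) k ≥ k + 1 + T (u₀ + 6)`
for large `k` (`γ ≤ ε/200`). `u ≤ d s / 4`, `u + 2 g + 2 ≤ u₀ + 2 γ s + 4 ≤ d s` for large `k` (`γ ≤ d / 50`). -/
def St_BOnA : Prop := ∀ (ε d γ : ℝ) (T : ℕ), 0 < ε → ε ≤ 1 / 10 → 0 < d → d ≤ 1 → 0 < γ →
  γ ≤ d / 50 → γ ≤ ε / 200 → ∃ k₀ : ℕ, ∀ k ≥ k₀, Odd k → ∀ (V : Type) [Fintype V]
  (G : SimpleGraph V) (t s : ℕ) (Vs : Fin t → Finset V) (Γ : SimpleGraph (Fin t))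
  (K : Finset (Fin t)), Bl G s Vs Γ d γ → t ≤ T → k ≤ T * s → (s : ℝ) ≤ ε * k / 100 →
  (∀ i ∈ K, (1 / 2 + ε / 2) * k ≤ (s : ℝ) * (nbs Γ i K).card) →
  (∀ x ∈ K, ∀ y ∈ K, ∃ l : List (Fin t), l.IsChain Γ.Adj ∧ l.head? = some x ∧
    l.getLast? = some y ∧ ∀ z ∈ l, z ∈ K) → (1 + ε / 4) * k ≤ (s : ℝ) * K.card →
  ∃ l, CycL G l ∧ l.length = k + 1

/-- BONB (file `BOnB.lean`, `thm_BOnB (hMatch : St_Match) (hBeta : St_Beta) : St_BOnB`).  Case (β) of `St_BOne`: two small closed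
components.

Proof. See `St_BOne` (`St4.lean`), and the remarks on the numbers in `St_BOnA`. `2 s deg_Γ(i) ≥ (1 + ε) k > s |K_l|` for `i ∈ K_l`, so
`|K_l| < 2 deg_Γ(i)`. Let `D` be the least natural number with `(1/2 + ε/2) k ≤ s D`. `hMatch` (`K_l`, `D`; `nbs Γ i K_l = nbs Γ i univ` since `K_l` is
closed): `M_l` with `|M_l| ≥ D`, so `2 s |M_l| ≥ (1 + ε) k`, or `|K_l| ≤ 2 |M_l| + 1`; in this case (`K_l` contains some `i` and its
`deg_Γ(i)` neighbours) `2 |M_l| ≥ |K_l| - 1 ≥ deg_Γ(i)`, `2 s |M_l| ≥ (1/2 + ε/2) k`. So `2 s (|M₁| + |M₂|) ≥ (1 + ε) k`, both `≥ 1`. With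
`|M| = |M₁| + |M₂| ≤ T`, `u ≤ u₀ := 2 (12 + T (2 T + 2))`: `4 |M| + k + |M| (2 u + 12 g) ≤ k + 4 T + T (2 u₀ + 12) + 6 γ (2 s |M|) ≤ 2 s |M|`
for large `k`, since `(1 - 6 γ) (1 + ε) k ≥ (1 + ε/2) k`. -/
def St_BOnB : Prop := ∀ (ε d γ : ℝ) (T : ℕ), 0 < ε → ε ≤ 1 / 10 → 0 < d → d ≤ 1 → 0 < γ →
  γ ≤ d / 50 → γ ≤ ε / 200 → ∃ k₀ : ℕ, ∀ k ≥ k₀, Odd k → ∀ (V : Type) [Fintype V]
  (G : SimpleGraph V) (t s : ℕ) (Vs : Fin t → Finset V) (Γ : SimpleGraph (Fin t))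
  (K₁ K₂ : Finset (Fin t)), Bl G s Vs Γ d γ → t ≤ T → k ≤ T * s → (s : ℝ) ≤ ε * k / 100 →
  SC G 2 → (∀ i, (1 / 2 + ε / 2) * k ≤ (s : ℝ) * (nbs Γ i univ).card) → Disjoint K₁ K₂ →
  K₁.Nonempty → K₂.Nonempty → (∀ i ∈ K₁, ∀ j, Γ.Adj i j → j ∈ K₁) →
  (∀ i ∈ K₂, ∀ j, Γ.Adj i j → j ∈ K₂) → (s : ℝ) * K₁.card < (1 + ε / 4) * k →
  (s : ℝ) * K₂.card < (1 + ε / 4) * k → ∃ l, CycL G l ∧ l.length % k = 1

/-- HCF (file `HCF.lean`, `thm_HCF : St_HCF`).  A maximal family of disjoint pairs (`Pp A B` says that `(A, B)` is an allowed pair).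

Proof. `R = ⌈2 / c⌉₊ + 1`. Consider the families `A, B` on `Fin r` of allowed pairs with disjoint sets `A j ∪ B j` and
`∑ 2 |A j| < (2 + ε) k` (`r = 0` is allowed). Then `2 c k r ≤ ∑ 2 |A j| < (2 + ε) k ≤ 4 k`, `r < 2 / c`. Take one with `r` maximal, `Q` = the union of the
`A j ∪ B j`: `|Q| = ∑ 2 |A j| < 3 k`. If there is an allowed pair `(A, B)` with `A ∪ B ⊆ Qᶜ`, the family with this pair added
(`Fin.snoc` or `Fin.cons`) has `1 ≤ r + 1 ≤ R` members and disjoint sets, so by maximality `∑ 2 |A j| ≥ (2 + ε) k`. -/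
def St_HCF : Prop := ∀ ε c : ℝ, 0 < ε → ε ≤ 1 → 0 < c → ∃ R : ℕ, ∀ k : ℕ, 1 ≤ k →
  ∀ (V : Type) [Fintype V] (Pp : Finset V → Finset V → Prop),
  (∀ A B, Pp A B → Disjoint A B ∧ A.card = B.card ∧ c * k ≤ (A.card : ℝ)) →
  (∃ (r : ℕ) (A B : Fin r → Finset V), 1 ≤ r ∧ r ≤ R ∧ (∀ j, Pp (A j) (B j)) ∧
    (∀ i j, i ≠ j → Disjoint (A i ∪ B i) (A j ∪ B j)) ∧ (2 + ε) * k ≤ ∑ j, 2 * ((A j).card : ℝ)) ∨
  ∃ Q : Finset V, (Q.card : ℝ) ≤ 3 * k ∧ ∀ A B, Pp A B → ¬ A ∪ B ⊆ Qᶜ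

/-- HCB (file `HCB.lean`, `thm_HCB (hLsp : St_Lsp) (hBTwo : St_BTwo) (hBOne : St_BOne) : St_HCB`).  Case (b): no dense set outside of `Q`.

Proof. See (b) in the proof of `St_HC` (`St4.lean`). `η = ε / 400`, `Y = Qᶜ`. `C₁` from `hBTwo` (`ε`), `hBOne` with `ε` and `C = 3 + 2 C₁`.
If `Y ≠ ∅` and `ad G Y Y ≥ 48 η k |Y|`: `hLsp` for the graph induced on `Y` (type `{v // v ∈ Y}`), `D = η k ≥ 1`: cycles of all lengths
`2 h + 2 j`, `1 ≤ j ≤ k`; `k` is odd, so one of them is `≡ 1` mod `k`. So let `ad G Y Y < 48 η k |Y|` or `Y = ∅`. If `|Y| ≥ 2 C₁ k`: let `R'` be the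
set of the `v ∈ Y` with `|N(v) ∩ Y| ≤ (ε/2) k`; the others are at most `(96 η / ε) |Y| ≤ |Y| / 4` in number, so `|R'| ≥ C₁ k`, and `v ∈ R'` has
at least `(1/2 + ε/2) k` neighbours in `Q`. `hBTwo` (`Q`, `R'`): a cycle of length `k + 1`. If `|Y| < 2 C₁ k`:
`|V| ≤ 3 k + 2 C₁ k = C k`, `hBOne`. -/
def St_HCB : Prop := ∀ ε : ℝ, 0 < ε → ε ≤ 1 / 10 → ∃ k₀ : ℕ, ∀ k ≥ k₀, Odd k →
  ∀ (V : Type) [Fintype V] (G : SimpleGraph V) (Q : Finset V), SC G 2 →
  (1 + ε) * k ≤ Fintype.card V → (∀ v, (1 / 2 + ε) * k ≤ ((nbs G v univ).card : ℝ)) →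
  (Q.card : ℝ) ≤ 3 * k →
  (∀ S ⊆ Qᶜ, S.Nonempty → S.card ≤ 2 * k + 1 → (ad G S S : ℝ) < 2 * (ε / 400 * k) * S.card) →
  ∃ l, CycL G l ∧ l.length % k = 1

end Pool.CMK
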