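import Pool.Agent.CMK.StS

/-!
# CMK: THEA, the arithmetic part of the theta lemma (helper99)
-/

set_option autoImplicit false

namespace Pool.CMK

open Finset
open scoped Classical

/-- an interval with `p / 2` even numbers contains all even residues mod `p` -/
private theorem TheA_res {p lo hi : ℤ} (hp : 0 < p) (hpe : Even p) (hlo : Even lo)
    (h : lo + p - 2 ≤ hi) (a : ℤ) (ha : Even a) :
    ∃ a', Even a' ∧ lo ≤ a' ∧ a' ≤ hi ∧ p ∣ a - a' := by
  have h1 := Int.emod_nonneg (a - lo) hp.ne'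
  have h2 := Int.emod_lt_of_pos (a - lo) hp
  have h3 := Int.emod_add_mul_ediv (a - lo) p
  obtain ⟨p', hp'⟩ := hpe
  obtain ⟨l', hl'⟩ := hlo
  obtain ⟨b, hb⟩ := ha
  have h4 : Even ((a - lo) % p) := by
    refine ⟨b - l' - p' * ((a - lo) / p), ?_⟩
    have : p * ((a - lo) / p) = 2 * (p' * ((a - lo) / p)) := by
      rw [hp']
      ring
    linarith
  obtain ⟨r, hr⟩ := h4
  refine ⟨lo + (a - lo) % p, ⟨l' + r, by linarith⟩, by linarith, ?_, ?_⟩
  · omega
  · refine ⟨(a - lo) / p, ?_⟩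
    linarith

theorem thm_TheA : St_TheA := by
  intro N c ℓ χ hN hc hc3 hcN hcN3 hl hl2 hlN hχN hχl hB hB' hF
  -- the group of the even periods
  let H : AddSubgroup ℤ :=
    { carrier := {p | Even p ∧ ∀ i, Even i → (χ i ↔ χ (i + p))}
      zero_mem' := ⟨Even.zero, fun i _ => by rw [add_zero]⟩
      add_mem' := by
        rintro p q ⟨hp, hp'⟩ ⟨hq, hq'⟩
        refine ⟨hp.add hq, fun i hi => ?_⟩
        rw [hp' i hi, hq' (i + p) (hi.add hp), add_assoc]
      neg_mem' := by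
        rintro p ⟨hp, hp'⟩
        refine ⟨hp.neg, fun i hi => ?_⟩
        have := hp' (i + -p) (hi.add hp.neg)
        rw [neg_add_cancel_right] at this
        exact this.symm }
  have hmem : ∀ p, p ∈ H ↔ Even p ∧ ∀ i, Even i → (χ i ↔ χ (i + p)) := fun p => Iff.rfl
  obtain ⟨a₀, ha₀⟩ := Int.subgroup_cyclic H
  have hdiv : ∀ t, t ∈ H → a₀ ∣ t := by
    intro t ht
    rw [ha₀, AddSubgroup.mem_closure_singleton] at ht
    obtain ⟨n, hn⟩ := ht
    exact ⟨n, by rw [← hn, smul_eq_mul, mul_comm]⟩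
  have hNH : N ∈ H := (hmem N).2 ⟨hN, fun i _ => (hχN i).symm⟩
  have hlH : ℓ ∈ H := (hmem ℓ).2 ⟨hl, hχl⟩
  have ha0 : a₀ ≠ 0 := by
    rintro rfl
    have := zero_dvd_iff.1 (hdiv N hNH)
    omega
  have haH : a₀ ∈ H := by
    rw [ha₀]
    exact AddSubgroup.mem_closure_singleton_self a₀
  -- the least positive period
  obtain ⟨p, hp0, hpH, hpdiv⟩ : ∃ p : ℤ, 0 < p ∧ p ∈ H ∧ ∀ t, t ∈ H → p ∣ t := by
    rcases lt_or_gt_of_ne ha0 with h | h
    · exact ⟨-a₀, by omega, H.neg_mem haH, fun t ht => (neg_dvd).2 (hdiv t ht)⟩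
    · exact ⟨a₀, h, haH, hdiv⟩
  obtain ⟨hpe, hpper⟩ := (hmem p).1 hpH
  -- values at congruent places
  have hcong : ∀ x y : ℤ, Even x → p ∣ x - y → (χ x ↔ χ y) := by
    intro x y hx hxy
    obtain ⟨n, hn⟩ := hxy
    have h1 : y - x ∈ H := by
      have : y - x = (-n) • p := by
        rw [smul_eq_mul]
        linarith
      rw [this]
      exact H.zsmul_mem hpH _
    have h2 := ((hmem _).1 h1).2 x hx
    rwa [add_sub_cancel] at h2
  by_contra hcon
  have h2H : (2 : ℤ) ∉ H := fun h => hcon ((hmem 2).1 h).2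
  have hp2 : p ≠ 2 := by
    rintro rfl
    exact h2H hpH
  have hp4 : 4 ≤ p := by
    obtain ⟨p', hp'⟩ := hpe
    omega
  have hpN := hpdiv N hNH
  have hpl := hpdiv ℓ hlH
  have hple : p ≤ ℓ := Int.le_of_dvd (by omega) hpl
  have hlpN : ℓ + p ≤ N := by
    have := Int.le_of_dvd (by omega) (dvd_sub hpN hpl)
    omega
  obtain ⟨c', hc'⟩ := hc
  obtain ⟨l', hl'⟩ := hl
  obtain ⟨N', hN'⟩ := hN
  -- B for all even residues
  have keyB : max 0 (ℓ - c + 1) + p - 2 ≤ min (ℓ - 2) (N - c - 1) →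
      ∀ a, Even a → (χ (-a) ↔ χ (c + 1 + a)) := by
    intro h a ha
    have hlo : Even (max 0 (ℓ - c + 1)) := by
      rcases max_choice (0 : ℤ) (ℓ - c + 1) with h1 | h1 <;> rw [h1]
      · exact Even.zero
      · exact ⟨l' - c', by omega⟩
    obtain ⟨b, hb, hb1, hb2, hb3⟩ := TheA_res hp0 hpe hlo h a ha
    obtain ⟨b', hb'⟩ := hb
    obtain ⟨a', ha'⟩ := ha
    have h1 := hB b ⟨b', hb'⟩ (by omega) (by omega) (by omega) (by omega)
    have h2 : χ (-a) ↔ χ (-b) := hcong _ _ ⟨-a', by omega⟩ (by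
      have : -a - -b = -(a - b) := by ring
      rw [this]
      exact (dvd_neg).2 hb3)
    have h3 : χ (c + 1 + a) ↔ χ (c - (ℓ - 1 - b)) := hcong _ _ ⟨c' + 1 + a', by omega⟩ (by
      have : c + 1 + a - (c - (ℓ - 1 - b)) = (a - b) + ℓ := by ring
      rw [this]
      exact dvd_add hb3 hpl)
    rw [h2, h3, h1]
  have keyB' : max 0 (ℓ - N + c + 1) + p - 2 ≤ min (ℓ - 2) (c - 1) →
      ∀ a, Even a → (χ a ↔ χ (c - 1 - a)) := by
    intro h a ha
    have hlo : Even (max 0 (ℓ - N + c + 1)) := by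
      rcases max_choice (0 : ℤ) (ℓ - N + c + 1) with h1 | h1 <;> rw [h1]
      · exact Even.zero
      · exact ⟨l' - N' + c' + 1, by omega⟩
    obtain ⟨b, hb, hb1, hb2, hb3⟩ := TheA_res hp0 hpe hlo h a ha
    obtain ⟨b', hb'⟩ := hb
    obtain ⟨a', ha'⟩ := ha
    have h1 := hB' b ⟨b', hb'⟩ (by omega) (by omega) (by omega) (by omega)
    have h2 : χ a ↔ χ b := hcong _ _ ⟨a', by omega⟩ hb3
    have h3 : χ (c - 1 - a) ↔ χ (c + (ℓ - 1 - b)) := hcong _ _ ⟨c' - a', by omega⟩ (by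
      have : c - 1 - a - (c + (ℓ - 1 - b)) = -((a - b) + ℓ) := by ring
      rw [this]
      exact (dvd_neg).2 (dvd_add hb3 hpl))
    rw [h2, h3, h1]
  -- both give the period 2
  have fin : (∀ a, Even a → (χ (-a) ↔ χ (c + 1 + a))) → (∀ a, Even a → (χ a ↔ χ (c - 1 - a))) →
      False := by
    intro k1 k2
    apply h2H
    refine (hmem 2).2 ⟨⟨1, rfl⟩, fun i hi => ?_⟩
    obtain ⟨i', hi'⟩ := hi
    have e1 := k1 (i - (c - 1)) ⟨i' - c', by omega⟩
    have e2 := k2 (-(i - (c - 1))) ⟨-(i' - c'), by omega⟩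
    have e3 : c + 1 + (i - (c - 1)) = i + 2 := by ring
    have e4 : c - 1 - -(i - (c - 1)) = i := by ring
    rw [e3] at e1
    rw [e4] at e2
    rw [← e2, e1]
  rcases le_or_gt (N - c + 1) ℓ with h1 | h1
  · exact fin (keyB (by omega)) (keyB' (by omega))
  · rcases le_or_gt p (c - 1) with h2 | h2
    · exact fin (keyB (by omega)) (keyB' (by omega))
    · have h3 : c - 1 ∈ H := by
        refine (hmem _).2 ⟨⟨c', by omega⟩, fun i hi => ?_⟩
        obtain ⟨i', hi'⟩ := hi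
        obtain ⟨b, hb, hb1, hb2, hb3⟩ := TheA_res (lo := 0) (hi := ℓ - 2) hp0 hpe Even.zero
          (by omega) (-i) ⟨-i', by omega⟩
        obtain ⟨b', hb'⟩ := hb
        have e1 := hF (by omega) b ⟨b', hb'⟩ hb1 hb2
        have e2 : χ i ↔ χ (-b) := hcong _ _ ⟨i', by omega⟩ (by
          have : i - -b = -(-i - b) := by ring
          rw [this]
          exact (dvd_neg).2 hb3)
        have e3 : χ (i + (c - 1)) ↔ χ (c + (ℓ - 1 - b)) := hcong _ _ ⟨i' + c', by omega⟩ (by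
          have : i + (c - 1) - (c + (ℓ - 1 - b)) = -((-i - b) + ℓ) := by ring
          rw [this]
          exact (dvd_neg).2 (dvd_add hb3 hpl))
        rw [e2, e3, e1]
      have h4 := Int.le_of_dvd (by omega) (hpdiv _ h3)
      omega

end Pool.CMK
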