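import Pool.Agent.CMK.StS

/-!
# CMK: THEN, the theta lemma for a cycle in normal form (helper99)
-/

set_option autoImplicit false

namespace Pool.CMK

open Finset
open scoped Classical

/-- a path given by its places -/
private theorem TheN_path {V : Type} {G : SimpleGraph V} {N : ℤ} {f : ℤ → V}
    (hinj : ∀ i j, f i = f j → N ∣ i - j) {l : ℕ} {pl : ℕ → ℤ}
    (hadj : ∀ t, t < l → G.Adj (f (pl t)) (f (pl (t + 1))))
    (hlt : ∀ s t, s ≤ l → t ≤ l → |pl s - pl t| < N)
    (hpi : ∀ s t, s ≤ l → t ≤ l → pl s = pl t → s = t) :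
    ∃ q : List V, PathFT G (f (pl 0)) (f (pl l)) q ∧ q.length = l + 1 ∧ ∀ v ∈ q, ∃ i, v = f i := by
  refine ⟨(List.range (l + 1)).map (fun t => f (pl t)), ⟨⟨?_, ?_, ?_⟩, ?_, ?_⟩, ?_, ?_⟩
  · simp
  · refine List.Nodup.map_on ?_ List.nodup_range
    intro s hs t ht hst
    rw [List.mem_range] at hs ht
    have h1 := hinj _ _ hst
    have h2 := Int.eq_zero_of_abs_lt_dvd h1 (hlt s t (by omega) (by omega))
    exact hpi s t (by omega) (by omega) (by omega)
  · rw [List.isChain_iff_getElem]
    intro i hi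
    simp only [List.length_map, List.length_range] at hi
    simp only [List.getElem_map, List.getElem_range]
    exact hadj i (by omega)
  · simp [List.range_succ_eq_map]
  · simp [List.range_succ]
  · simp
  · intro v hv
    rw [List.mem_map] at hv
    obtain ⟨t, -, rfl⟩ := hv
    exact ⟨_, rfl⟩

theorem thm_TheN (hTheA : St_TheA) : St_TheN := by
  intro V G X T N c f hN hc hc3 hcN hcN3 hper hinj hadj h0c hX hT hT' j hj hjN
  by_contra hno
  -- the two ends of a path are both in `T` or both not in `T`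
  have one : ∀ pl : ℕ → ℤ, (∀ t, t < 2 * j → G.Adj (f (pl t)) (f (pl (t + 1)))) →
      (∀ s t, s ≤ 2 * j → t ≤ 2 * j → |pl s - pl t| < N) →
      (∀ s t, s ≤ 2 * j → t ≤ 2 * j → pl s = pl t → s = t) → Even (pl 0) → Even (pl (2 * j)) →
      f (pl 0) ∈ T → f (pl (2 * j)) ∈ T := by
    intro pl h1 h2 h3 h4 h5 h6
    by_contra h7
    obtain ⟨q, hq1, hq2, hq3⟩ := TheN_path hinj h1 h2 h3
    exact hno ⟨_, _, q, hq1, hq2, hq3, hX _ h4, h6, hX _ h5, h7⟩
  have two : ∀ pl : ℕ → ℤ, (∀ t, t < 2 * j → G.Adj (f (pl t)) (f (pl (t + 1)))) →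
      (∀ s t, s ≤ 2 * j → t ≤ 2 * j → |pl s - pl t| < N) →
      (∀ s t, s ≤ 2 * j → t ≤ 2 * j → pl s = pl t → s = t) → Even (pl 0) → Even (pl (2 * j)) →
      (f (pl 0) ∈ T ↔ f (pl (2 * j)) ∈ T) := by
    intro pl h1 h2 h3 h4 h5
    refine ⟨one pl h1 h2 h3 h4 h5, fun h6 => ?_⟩
    have h7 := one (fun t => pl (2 * j - t)) (fun t ht => ?_) (fun s t hs ht => ?_)
      (fun s t hs ht hst => ?_) (by simpa using h5) (by simpa using h4) (by simpa using h6)
    · simpa using h7
    · have e := h1 (2 * j - (t + 1)) (by omega)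
      have e2 : 2 * j - (t + 1) + 1 = 2 * j - t := by omega
      rw [e2] at e
      exact e.symm
    · exact h2 _ _ (by omega) (by omega)
    · have := h3 _ _ (by omega) (by omega) hst
      omega
  obtain ⟨c', hc'⟩ := hc
  obtain ⟨N', hN'⟩ := hN
  have key := hTheA N c (2 * (j : ℤ)) (fun i => f i ∈ T) ⟨N', hN'⟩ ⟨c', hc'⟩ hc3 hcN hcN3
    ⟨j, by ring⟩ (by omega) hjN (fun i => by rw [hper]) ?_ ?_ ?_ ?_
  · obtain ⟨i₀, hi₀, hi₀T⟩ := hT
    obtain ⟨i₁, hi₁, hi₁T⟩ := hT'
    have all : ∀ n : ℕ, ∀ i : ℤ, Even i → (f i ∈ T ↔ f (i + 2 * n) ∈ T) := by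
      intro n
      induction n with
      | zero => intro i _; simp
      | succ n ih =>
        intro i hi
        have e1 := ih i hi
        have e2 := key (i + 2 * n) (by
          obtain ⟨i', hi'⟩ := hi
          exact ⟨i' + n, by omega⟩)
        have e3 : i + 2 * (n : ℤ) + 2 = i + 2 * ((n + 1 : ℕ) : ℤ) := by
          push_cast
          ring
        simp only [e3] at e2
        exact e1.trans e2
    obtain ⟨a, ha⟩ := hi₀
    obtain ⟨b, hb⟩ := hi₁
    rcases le_total i₀ i₁ with h | h
    · have e := all (b - a).toNat i₀ ⟨a, ha⟩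
      have e1 : i₀ + 2 * (((b - a).toNat : ℕ) : ℤ) = i₁ := by omega
      rw [e1] at e
      exact hi₁T (e.1 hi₀T)
    · have e := all (a - b).toNat i₁ ⟨b, hb⟩
      have e1 : i₁ + 2 * (((a - b).toNat : ℕ) : ℤ) = i₀ := by omega
      rw [e1] at e
      exact hi₁T (e.2 hi₀T)
  · -- arcs
    intro i hi
    have h := two (fun t => i + t) (fun t _ => ?_) (fun s t hs ht => ?_) (fun s t hs ht hst => ?_)
      (by simpa using hi) ?_
    · simpa using h
    · have := hadj (i + t)
      push_cast
      rwa [← add_assoc]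
    · rw [abs_lt]
      constructor <;> omega
    · omega
    · obtain ⟨i', hi'⟩ := hi
      exact ⟨i' + j, by push_cast; omega⟩
  · -- B
    intro a ha ha0 ha1 ha2 ha3
    obtain ⟨a', ha'⟩ := ha
    obtain ⟨pl, hpl⟩ : ∃ pl : ℕ → ℤ, ∀ t, pl t = if (t : ℤ) ≤ a then (t : ℤ) - a else c - ((t : ℤ) - a - 1) :=
      ⟨_, fun _ => rfl⟩
    have p1 : ∀ t : ℕ, (t : ℤ) ≤ a → pl t = (t : ℤ) - a := fun t ht => by rw [hpl, if_pos ht]
    have p2 : ∀ t : ℕ, ¬ (t : ℤ) ≤ a → pl t = c - ((t : ℤ) - a - 1) := fun t ht => by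
      rw [hpl, if_neg ht]
    have e1 : pl 0 = -a := by
      rw [p1 0 (by push_cast; omega)]
      push_cast
      ring
    have e2 : pl (2 * j) = c - (2 * (j : ℤ) - 1 - a) := by
      rw [p2 (2 * j) (by push_cast; omega)]
      push_cast
      ring
    have h := two pl (fun t ht => ?_) (fun s t hs ht => ?_) (fun s t hs ht hst => ?_) ?_ ?_
    · rw [e1, e2] at h
      exact h
    · by_cases h1 : ((t + 1 : ℕ) : ℤ) ≤ a
      · rw [p1 t (by push_cast at h1; omega), p1 (t + 1) h1]
        have e := hadj ((t : ℤ) - a)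
        have e3 : (t : ℤ) - a + 1 = ((t + 1 : ℕ) : ℤ) - a := by push_cast; ring
        rwa [e3] at e
      · by_cases h2 : (t : ℤ) ≤ a
        · have e3 : pl t = 0 := by
            rw [p1 t h2]
            push_cast at h1
            omega
          have e4 : pl (t + 1) = c := by
            rw [p2 (t + 1) h1]
            push_cast at h1 ⊢
            omega
          rw [e3, e4]
          exact h0c
        · rw [p2 t h2, p2 (t + 1) h1]
          have e := hadj (c - (((t + 1 : ℕ) : ℤ) - a - 1))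
          have e3 : c - (((t + 1 : ℕ) : ℤ) - a - 1) + 1 = c - ((t : ℤ) - a - 1) := by
            push_cast
            ring
          rw [e3] at e
          exact e.symm
    · by_cases h1 : (s : ℤ) ≤ a <;> by_cases h2 : (t : ℤ) ≤ a
      · rw [p1 s h1, p1 t h2, abs_lt]
        constructor <;> omega
      · rw [p1 s h1, p2 t h2, abs_lt]
        constructor <;> omega
      · rw [p2 s h1, p1 t h2, abs_lt]
        constructor <;> omega
      · rw [p2 s h1, p2 t h2, abs_lt]
        constructor <;> omega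
    · by_cases h1 : (s : ℤ) ≤ a <;> by_cases h2 : (t : ℤ) ≤ a
      · rw [p1 s h1, p1 t h2] at hst
        omega
      · rw [p1 s h1, p2 t h2] at hst
        omega
      · rw [p2 s h1, p1 t h2] at hst
        omega
      · rw [p2 s h1, p2 t h2] at hst
        omega
    · rw [e1]
      exact ⟨-a', by omega⟩
    · rw [e2]
      exact ⟨c' - j + a' + 1, by omega⟩
  · -- B'
    intro a ha ha0 ha1 ha2 ha3
    obtain ⟨a', ha'⟩ := ha
    obtain ⟨pl, hpl⟩ : ∃ pl : ℕ → ℤ, ∀ t, pl t = if (t : ℤ) ≤ a then a - (t : ℤ) else c + ((t : ℤ) - a - 1) :=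
      ⟨_, fun _ => rfl⟩
    have p1 : ∀ t : ℕ, (t : ℤ) ≤ a → pl t = a - (t : ℤ) := fun t ht => by rw [hpl, if_pos ht]
    have p2 : ∀ t : ℕ, ¬ (t : ℤ) ≤ a → pl t = c + ((t : ℤ) - a - 1) := fun t ht => by
      rw [hpl, if_neg ht]
    have e1 : pl 0 = a := by
      rw [p1 0 (by push_cast; omega)]
      push_cast
      ring
    have e2 : pl (2 * j) = c + (2 * (j : ℤ) - 1 - a) := by
      rw [p2 (2 * j) (by push_cast; omega)]
      push_cast
      ring
    have h := two pl (fun t ht => ?_) (fun s t hs ht => ?_) (fun s t hs ht hst => ?_) ?_ ?_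
    · rw [e1, e2] at h
      exact h
    · by_cases h1 : ((t + 1 : ℕ) : ℤ) ≤ a
      · rw [p1 t (by push_cast at h1; omega), p1 (t + 1) h1]
        have e := hadj (a - ((t + 1 : ℕ) : ℤ))
        have e3 : a - ((t + 1 : ℕ) : ℤ) + 1 = a - (t : ℤ) := by push_cast; ring
        rw [e3] at e
        exact e.symm
      · by_cases h2 : (t : ℤ) ≤ a
        · have e3 : pl t = 0 := by
            rw [p1 t h2]
            push_cast at h1
            omega
          have e4 : pl (t + 1) = c := by
            rw [p2 (t + 1) h1]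
            push_cast at h1 ⊢
            omega
          rw [e3, e4]
          exact h0c
        · rw [p2 t h2, p2 (t + 1) h1]
          have e := hadj (c + ((t : ℤ) - a - 1))
          have e3 : c + ((t : ℤ) - a - 1) + 1 = c + (((t + 1 : ℕ) : ℤ) - a - 1) := by
            push_cast
            ring
          rwa [e3] at e
    · by_cases h1 : (s : ℤ) ≤ a <;> by_cases h2 : (t : ℤ) ≤ a
      · rw [p1 s h1, p1 t h2, abs_lt]
        constructor <;> omega
      · rw [p1 s h1, p2 t h2, abs_lt]
        constructor <;> omega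
      · rw [p2 s h1, p1 t h2, abs_lt]
        constructor <;> omega
      · rw [p2 s h1, p2 t h2, abs_lt]
        constructor <;> omega
    · by_cases h1 : (s : ℤ) ≤ a <;> by_cases h2 : (t : ℤ) ≤ a
      · rw [p1 s h1, p1 t h2] at hst
        omega
      · rw [p1 s h1, p2 t h2] at hst
        omega
      · rw [p2 s h1, p1 t h2] at hst
        omega
      · rw [p2 s h1, p2 t h2] at hst
        omega
    · rw [e1]
      exact ⟨a', by omega⟩
    · rw [e2]
      exact ⟨c' + j - a', by omega⟩
  · -- F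
    intro hlN a ha ha0 ha1
    obtain ⟨a', ha'⟩ := ha
    obtain ⟨pl, hpl⟩ : ∃ pl : ℕ → ℤ, ∀ t, pl t = if (t : ℤ) ≤ a then (t : ℤ) - a else c + ((t : ℤ) - a - 1) :=
      ⟨_, fun _ => rfl⟩
    have p1 : ∀ t : ℕ, (t : ℤ) ≤ a → pl t = (t : ℤ) - a := fun t ht => by rw [hpl, if_pos ht]
    have p2 : ∀ t : ℕ, ¬ (t : ℤ) ≤ a → pl t = c + ((t : ℤ) - a - 1) := fun t ht => by
      rw [hpl, if_neg ht]
    have e1 : pl 0 = -a := by
      rw [p1 0 (by push_cast; omega)]
      push_cast
      ring
    have e2 : pl (2 * j) = c + (2 * (j : ℤ) - 1 - a) := by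
      rw [p2 (2 * j) (by push_cast; omega)]
      push_cast
      ring
    have h := two pl (fun t ht => ?_) (fun s t hs ht => ?_) (fun s t hs ht hst => ?_) ?_ ?_
    · rw [e1, e2] at h
      exact h
    · by_cases h1 : ((t + 1 : ℕ) : ℤ) ≤ a
      · rw [p1 t (by push_cast at h1; omega), p1 (t + 1) h1]
        have e := hadj ((t : ℤ) - a)
        have e3 : (t : ℤ) - a + 1 = ((t + 1 : ℕ) : ℤ) - a := by push_cast; ring
        rwa [e3] at e
      · by_cases h2 : (t : ℤ) ≤ a
        · have e3 : pl t = 0 := by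
            rw [p1 t h2]
            push_cast at h1
            omega
          have e4 : pl (t + 1) = c := by
            rw [p2 (t + 1) h1]
            push_cast at h1 ⊢
            omega
          rw [e3, e4]
          exact h0c
        · rw [p2 t h2, p2 (t + 1) h1]
          have e := hadj (c + ((t : ℤ) - a - 1))
          have e3 : c + ((t : ℤ) - a - 1) + 1 = c + (((t + 1 : ℕ) : ℤ) - a - 1) := by
            push_cast
            ring
          rwa [e3] at e
    · by_cases h1 : (s : ℤ) ≤ a <;> by_cases h2 : (t : ℤ) ≤ a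
      · rw [p1 s h1, p1 t h2, abs_lt]
        constructor <;> omega
      · rw [p1 s h1, p2 t h2, abs_lt]
        constructor <;> omega
      · rw [p2 s h1, p1 t h2, abs_lt]
        constructor <;> omega
      · rw [p2 s h1, p2 t h2, abs_lt]
        constructor <;> omega
    · by_cases h1 : (s : ℤ) ≤ a <;> by_cases h2 : (t : ℤ) ≤ a
      · rw [p1 s h1, p1 t h2] at hst
        omega
      · rw [p1 s h1, p2 t h2] at hst
        omega
      · rw [p2 s h1, p1 t h2] at hst
        omega
      · rw [p2 s h1, p2 t h2] at hst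
        omega
    · rw [e1]
      exact ⟨-a', by omega⟩
    · rw [e2]
      exact ⟨c' + j - a', by omega⟩

end Pool.CMK
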