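import Pool.Agent.CMK.StS

set_option autoImplicit false

namespace Pool.CMK

open Finset
open scoped Classical

variable {V : Type}

/-- an arc: `m` places starting at `s`, in the direction `e` -/
private def Theta_arc (g : ℤ → V) (s e : ℤ) (m : ℕ) : List V :=
  (List.range m).map (fun i : ℕ => g (s + e * i))

private lemma Theta_arc_len (g : ℤ → V) (s e : ℤ) (m : ℕ) : (Theta_arc g s e m).length = m := by
  simp [Theta_arc]

private lemma Theta_arc_mem (g : ℤ → V) (s e : ℤ) (m : ℕ) (v : V) :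
    v ∈ Theta_arc g s e m ↔ ∃ i : ℕ, i < m ∧ g (s + e * i) = v := by
  simp [Theta_arc]

private lemma Theta_arc_chain (G : SimpleGraph V) (g : ℤ → V) (s e : ℤ) (m : ℕ)
    (hg : ∀ i, G.Adj (g i) (g (i + 1))) (he : e = 1 ∨ e = -1) :
    (Theta_arc g s e m).IsChain G.Adj := by
  rw [List.isChain_iff_getElem]
  intro i hi
  simp only [Theta_arc, List.getElem_map, List.getElem_range]
  rcases he with rfl | rfl
  · have := hg (s + 1 * (i : ℤ))
    have e1 : s + 1 * (i : ℤ) + 1 = s + 1 * ((i + 1 : ℕ) : ℤ) := by push_cast; ring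
    rwa [e1] at this
  · have := hg (s + -1 * ((i + 1 : ℕ) : ℤ))
    have e1 : s + -1 * ((i + 1 : ℕ) : ℤ) + 1 = s + -1 * (i : ℤ) := by push_cast; ring
    rw [e1] at this
    exact this.symm

private lemma Theta_arc_nodup (g : ℤ → V) (N : ℕ) (s e : ℤ) (m : ℕ)
    (hg : ∀ i j, g i = g j → (N : ℤ) ∣ i - j) (he : e = 1 ∨ e = -1) (hm : m ≤ N) :
    (Theta_arc g s e m).Nodup := by
  unfold Theta_arc
  refine List.Nodup.map_on ?_ List.nodup_range
  intro x hx y hy hxy
  simp only [List.mem_range] at hx hy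
  have h := hg _ _ hxy
  have h2 : (N : ℤ) ∣ (x : ℤ) - y := by
    rcases he with rfl | rfl
    · have e1 : s + 1 * (x : ℤ) - (s + 1 * y) = x - y := by ring
      rwa [e1] at h
    · have e1 : s + -1 * (x : ℤ) - (s + -1 * y) = -(x - y) := by ring
      rw [e1] at h
      exact (dvd_neg.mp h)
  have h3 := Int.eq_zero_of_abs_lt_dvd h2 (by rw [abs_lt]; constructor <;> omega)
  omega

/-- two arcs joined by an edge form a path -/
private lemma Theta_join (G : SimpleGraph V) (g : ℤ → V) (N : ℕ) (s₁ e₁ s₂ e₂ : ℤ) (m₁ m₂ : ℕ)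
    (ha : ∀ i, G.Adj (g i) (g (i + 1))) (hg : ∀ i j, g i = g j → (N : ℤ) ∣ i - j)
    (he₁ : e₁ = 1 ∨ e₁ = -1) (he₂ : e₂ = 1 ∨ e₂ = -1) (hm₁ : m₁ + 1 ≤ N) (hm₂ : m₂ + 1 ≤ N)
    (hj : G.Adj (g (s₁ + e₁ * m₁)) (g s₂))
    (hd : ∀ i j : ℕ, i ≤ m₁ → j ≤ m₂ → ¬ (N : ℤ) ∣ (s₁ + e₁ * i) - (s₂ + e₂ * j)) :
    ∃ q, PathFT G (g s₁) (g (s₂ + e₂ * m₂)) q ∧ q.length = m₁ + m₂ + 2 ∧
      ∀ v ∈ q, ∃ i, g i = v := by
  refine ⟨Theta_arc g s₁ e₁ (m₁ + 1) ++ Theta_arc g s₂ e₂ (m₂ + 1), ⟨⟨?_, ?_, ?_⟩, ?_, ?_⟩, ?_, ?_⟩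
  · intro h
    have := congrArg List.length h
    simp [Theta_arc_len] at this
  · rw [List.nodup_append]
    refine ⟨Theta_arc_nodup g N _ _ _ hg he₁ hm₁, Theta_arc_nodup g N _ _ _ hg he₂ hm₂, ?_⟩
    intro a hA b hB hab
    rw [Theta_arc_mem] at hA hB
    obtain ⟨i, hi, hia⟩ := hA
    obtain ⟨j, hj', hjb⟩ := hB
    exact hd i j (by omega) (by omega) (hg _ _ (by rw [hia, hjb, hab]))
  · rw [List.isChain_append]
    refine ⟨Theta_arc_chain G g _ _ _ ha he₁, Theta_arc_chain G g _ _ _ ha he₂, ?_⟩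
    intro x hx y hy
    have hx' : x = g (s₁ + e₁ * m₁) := by
      simp only [Theta_arc, List.range_succ, List.map_append, List.map_cons, List.map_nil,
        List.getLast?_append, List.getLast?_singleton, Option.some_or, Option.mem_def,
        Option.some.injEq] at hx
      exact hx.symm
    have hy' : y = g s₂ := by
      simp only [Theta_arc, List.range_succ_eq_map, List.map_cons, List.head?_cons, Option.mem_def,
        Option.some.injEq, Nat.cast_zero, mul_zero, add_zero] at hy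
      exact hy.symm
    rw [hx', hy']
    exact hj
  · simp only [Theta_arc, List.range_succ_eq_map, List.map_cons, List.cons_append, List.head?_cons,
      Nat.cast_zero, mul_zero, add_zero]
  · simp only [Theta_arc, List.range_succ, List.map_append, List.map_cons, List.map_nil,
      List.getLast?_append, List.getLast?_singleton, Option.some_or]
  · simp only [List.length_append, Theta_arc_len]
    omega
  · intro v hv
    rw [List.mem_append, Theta_arc_mem, Theta_arc_mem] at hv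
    rcases hv with ⟨i, _, h⟩ | ⟨i, _, h⟩
    · exact ⟨_, h⟩
    · exact ⟨_, h⟩

/-- one arc is a path -/
private lemma Theta_one (G : SimpleGraph V) (g : ℤ → V) (N : ℕ) (s : ℤ) (m : ℕ)
    (ha : ∀ i, G.Adj (g i) (g (i + 1))) (hg : ∀ i j, g i = g j → (N : ℤ) ∣ i - j)
    (hm : m + 1 ≤ N) :
    ∃ q, PathFT G (g s) (g (s + m)) q ∧ q.length = m + 1 ∧ ∀ v ∈ q, ∃ i, g i = v := by
  refine ⟨Theta_arc g s 1 (m + 1), ⟨⟨?_, ?_, ?_⟩, ?_, ?_⟩, ?_, ?_⟩
  · intro h
    have := congrArg List.length h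
    simp [Theta_arc_len] at this
  · exact Theta_arc_nodup g N _ _ _ hg (Or.inl rfl) hm
  · exact Theta_arc_chain G g _ _ _ ha (Or.inl rfl)
  · simp only [Theta_arc, List.range_succ_eq_map, List.map_cons, List.head?_cons,
      Nat.cast_zero, mul_zero, add_zero]
  · simp only [Theta_arc, List.range_succ, List.map_append, List.map_cons, List.map_nil,
      List.getLast?_append, List.getLast?_singleton, Option.some_or, one_mul]
  · simp only [Theta_arc_len]
  · intro v hv
    rw [Theta_arc_mem] at hv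
    obtain ⟨i, _, h⟩ := hv
    exact ⟨_, h⟩

private lemma Theta_res (p : ℤ) (hp : 0 < p) (S : ℤ → Prop) (hS : ∀ a, S (a + p) ↔ S a) (lo : ℤ)
    (h : ∀ a, lo ≤ a → a < lo + p → S a) : ∀ a, S a := by
  have h1 : ∀ t : ℤ, ∀ a, S (a + p * t) ↔ S a := by
    intro t
    induction t using Int.induction_on with
    | zero => intro a; simp
    | succ i ih =>
      intro a
      have e : a + p * ((i : ℤ) + 1) = (a + p * i) + p := by ring
      rw [e, hS, ih]
    | pred i ih =>
      intro a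
      have e : a + p * (-(i : ℤ)) = (a + p * (-(i : ℤ) - 1)) + p := by ring
      rw [← ih a, e, hS]
  intro a
  have h2 := Int.emod_add_mul_ediv (a - lo) p
  have h3 := Int.emod_nonneg (a - lo) hp.ne'
  have h4 := Int.emod_lt_of_pos (a - lo) hp
  have h5 : S (lo + (a - lo) % p) := h _ (by omega) (by omega)
  have h6 := (h1 ((a - lo) / p) (lo + (a - lo) % p)).mpr h5
  have e : lo + (a - lo) % p + p * ((a - lo) / p) = a := by linarith
  rwa [e] at h6

private lemma Theta_core (G : SimpleGraph V) (g : ℤ → V) (n d j : ℕ) (X T : Finset V)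
    (ha : ∀ i, G.Adj (g i) (g (i + 1))) (hg : ∀ i k, g i = g k ↔ ((2 * n : ℕ) : ℤ) ∣ i - k)
    (hX : ∀ i, g i ∈ X ↔ Even i) (hc : G.Adj (g 0) (g (2 * d + 1))) (hd1 : 1 ≤ d)
    (hdn : 2 * d + 1 ≤ n) (hT1 : ∃ i, g i ∈ X ∧ g i ∈ T) (hT2 : ∃ i, g i ∈ X ∧ g i ∉ T)
    (hj : 1 ≤ j) (hjn : j < n) :
    ∃ a b q, PathFT G a b q ∧ q.length = 2 * j + 1 ∧ (∀ v ∈ q, ∃ i, g i = v) ∧
      a ∈ X ∧ a ∈ T ∧ b ∈ X ∧ b ∉ T := by
  by_contra hno
  have key : ∀ a b q, PathFT G a b q → q.length = 2 * j + 1 → (∀ v ∈ q, ∃ i, g i = v) →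
      a ∈ X → b ∈ X → (a ∈ T ↔ b ∈ T) := by
    intro a b q hq hl hv hax hbx
    by_cases hat : a ∈ T
    · by_cases hbt : b ∈ T
      · exact ⟨fun _ => hbt, fun _ => hat⟩
      · exact absurd ⟨a, b, q, hq, hl, hv, hax, hat, hbx, hbt⟩ hno
    · by_cases hbt : b ∈ T
      · refine absurd ⟨b, a, q.reverse, ?_, ?_, ?_, hbx, hbt, hax, hat⟩ hno
        · obtain ⟨⟨h1, h2, h3⟩, h4, h5⟩ := hq
          refine ⟨⟨?_, ?_, ?_⟩, ?_, ?_⟩
          · simpa using h1
          · exact List.nodup_reverse.mpr h2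
          · rw [List.isChain_reverse]
            exact h3.imp (fun _ _ h => h.symm)
          · rw [List.head?_reverse]; exact h5
          · rw [List.getLast?_reverse]; exact h4
        · simpa using hl
        · intro v hv'
          exact hv v (by simpa using hv')
      · exact ⟨fun h => absurd h hat, fun h => absurd h hbt⟩
  have hg' : ∀ i k, g i = g k → ((2 * n : ℕ) : ℤ) ∣ i - k := fun i k h => (hg i k).mp h
  -- `ψ`
  set ψ : ℤ → Prop := fun i => g (2 * i) ∈ T with hψ
  have hev : ∀ i : ℤ, g (2 * i) ∈ X := fun i => (hX _).mpr ⟨i, by ring⟩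
  let H : AddSubgroup ℤ :=
    { carrier := {p | ∀ i, ψ (i + p) ↔ ψ i}
      add_mem' := by
        intro a b hA hB i
        have e : i + (a + b) = (i + a) + b := by ring
        rw [e]
        exact (hB (i + a)).trans (hA i)
      zero_mem' := by intro i; simp
      neg_mem' := by
        intro a hA i
        have := hA (i + -a)
        have e : i + -a + a = i := by ring
        rw [e] at this
        exact this.symm }
  have hHmem : ∀ p, p ∈ H ↔ ∀ i, ψ (i + p) ↔ ψ i := fun p => Iff.rfl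
  have hnH : (n : ℤ) ∈ H := by
    rw [hHmem]
    intro i
    have : g (2 * (i + n)) = g (2 * i) := by
      rw [hg]
      exact ⟨1, by push_cast; ring⟩
    simp only [hψ, this]
  have hjH : (j : ℤ) ∈ H := by
    rw [hHmem]
    intro i
    obtain ⟨q, hq, hl, hv⟩ := Theta_one G g (2 * n) (2 * i) (2 * j) ha hg' (by omega)
    have e : 2 * i + ((2 * j : ℕ) : ℤ) = 2 * (i + j) := by push_cast; ring
    rw [e] at hq
    exact (key _ _ q hq hl hv (hev _) (hev _)).symm
  have h1H : (1 : ℤ) ∉ H := by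
    intro h1
    have hall : ∀ i, ψ i := by
      obtain ⟨i, hi1, hi2⟩ := hT1
      obtain ⟨r, hr⟩ := (hX i).mp hi1
      refine Theta_res 1 one_pos ψ ((hHmem 1).mp h1) r ?_
      intro a h2 h3
      have e : a = r := by omega
      subst e
      simp only [hψ]
      have e : 2 * a = i := by rw [hr]; ring
      rwa [e]
    obtain ⟨i, hi1, hi2⟩ := hT2
    obtain ⟨r, hr⟩ := (hX i).mp hi1
    have := hall r
    simp only [hψ] at this
    have e : 2 * r = i := by rw [hr]; ring
    rw [e] at this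
    exact hi2 this
  obtain ⟨p', hp'⟩ := Int.subgroup_cyclic H
  have hdvd : ∀ a, a ∈ H ↔ |p'| ∣ a := by
    intro a
    rw [hp', ← AddSubgroup.zmultiples_eq_closure, Int.mem_zmultiples_iff, abs_dvd]
  set p : ℤ := |p'| with hp
  have hpn : p ∣ n := (hdvd _).mp hnH
  have hpj : p ∣ j := (hdvd _).mp hjH
  have hp0 : 0 < p := by
    rcases lt_or_eq_of_le (abs_nonneg p') with h | h
    · exact h
    · exfalso
      have : p = 0 := h.symm
      rw [this, zero_dvd_iff] at hpn
      omega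
  have hpH : p ∈ H := (hdvd _).mpr dvd_rfl
  have hpp : ∀ i, ψ (i + p) ↔ ψ i := (hHmem p).mp hpH
  have hjj : ∀ i, ψ (i + j) ↔ ψ i := (hHmem _).mp hjH
  have hpm : ∀ i, ψ (i - p) ↔ ψ i := by
    intro i
    have := hpp (i - p)
    have e : i - p + p = i := by ring
    rw [e] at this
    exact this.symm
  have hB : ∀ a : ℤ, 0 ≤ a → (j : ℤ) - d ≤ a → a ≤ j - 1 → a ≤ n - d - 1 →
      (ψ (-a) ↔ ψ (d + 1 + a)) := by
    intro a h0 h1 h2 h3
    lift a to ℕ using h0
    obtain ⟨q, hq, hl, hv⟩ := Theta_join G g (2 * n) (-(2 * a)) 1 (2 * d + 1) (-1) (2 * a)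
      (2 * j - 1 - 2 * a) ha hg' (Or.inl rfl) (Or.inr rfl) (by omega) (by omega)
      (by
        have e : -(2 * (a : ℤ)) + 1 * ((2 * a : ℕ) : ℤ) = 0 := by push_cast; ring
        rw [e]; exact hc)
      (by
        intro i k hi hk hdiv
        have := Int.eq_zero_of_abs_lt_dvd hdiv (by rw [abs_lt]; constructor <;> omega)
        omega)
    have e1 : -(2 * (a : ℤ)) = 2 * (-a) := by ring
    have e2 : (2 * (d : ℤ) + 1) + -1 * ((2 * j - 1 - 2 * a : ℕ) : ℤ) = 2 * (d + 1 + a - j) := by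
      have : ((2 * j - 1 - 2 * a : ℕ) : ℤ) = 2 * j - 1 - 2 * a := by omega
      rw [this]; ring
    rw [e1, e2] at hq
    have h4 := key _ _ q hq (by omega) hv (hev _) (hev _)
    have h5 := hjj (d + 1 + a - j)
    have e3 : (d : ℤ) + 1 + a - j + j = d + 1 + a := by ring
    rw [e3] at h5
    exact h4.trans h5.symm
  have hB' : ∀ a : ℤ, 0 ≤ a → (j : ℤ) - n + d + 1 ≤ a → a ≤ j - 1 → a ≤ d →
      (ψ a ↔ ψ (d - a)) := by
    intro a h0 h1 h2 h3
    lift a to ℕ using h0
    obtain ⟨q, hq, hl, hv⟩ := Theta_join G g (2 * n) (2 * a) (-1) (2 * d + 1) 1 (2 * a)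
      (2 * j - 1 - 2 * a) ha hg' (Or.inr rfl) (Or.inl rfl) (by omega) (by omega)
      (by
        have e : (2 * (a : ℤ)) + -1 * ((2 * a : ℕ) : ℤ) = 0 := by push_cast; ring
        rw [e]; exact hc)
      (by
        intro i k hi hk hdiv
        have := Int.eq_zero_of_abs_lt_dvd hdiv (by rw [abs_lt]; constructor <;> omega)
        omega)
    have e2 : (2 * (d : ℤ) + 1) + 1 * ((2 * j - 1 - 2 * a : ℕ) : ℤ) = 2 * (d - a + j) := by
      have : ((2 * j - 1 - 2 * a : ℕ) : ℤ) = 2 * j - 1 - 2 * a := by omega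
      rw [this]; ring
    rw [e2] at hq
    have h4 := key _ _ q hq (by omega) hv (hev _) (hev _)
    exact h4.trans (hjj (d - a))
  have hF : ∀ a : ℤ, 0 ≤ a → (j : ℤ) ≤ n - d - 1 → a ≤ j - 1 → (ψ (-a) ↔ ψ (d - a)) := by
    intro a h0 h1 h2
    lift a to ℕ using h0
    obtain ⟨q, hq, hl, hv⟩ := Theta_join G g (2 * n) (-(2 * a)) 1 (2 * d + 1) 1 (2 * a)
      (2 * j - 1 - 2 * a) ha hg' (Or.inl rfl) (Or.inl rfl) (by omega) (by omega)
      (by
        have e : -(2 * (a : ℤ)) + 1 * ((2 * a : ℕ) : ℤ) = 0 := by push_cast; ring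
        rw [e]; exact hc)
      (by
        intro i k hi hk hdiv
        have := Int.eq_zero_of_abs_lt_dvd hdiv (by rw [abs_lt]; constructor <;> omega)
        omega)
    have e1 : -(2 * (a : ℤ)) = 2 * (-a) := by ring
    have e2 : (2 * (d : ℤ) + 1) + 1 * ((2 * j - 1 - 2 * a : ℕ) : ℤ) = 2 * (d - a + j) := by
      have : ((2 * j - 1 - 2 * a : ℕ) : ℤ) = 2 * j - 1 - 2 * a := by omega
      rw [this]; ring
    rw [e1, e2] at hq
    have h4 := key _ _ q hq (by omega) hv (hev _) (hev _)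
    exact h4.trans (hjj (d - a))
  -- the conclusion from (B) and (B') for all residues
  have hI : (∀ a, ψ (-a) ↔ ψ (d + 1 + a)) → (∀ a, ψ a ↔ ψ (d - a)) → False := by
    intro h1 h2
    apply h1H
    rw [hHmem]
    intro i
    have h3 := h1 (i - d)
    have h4 := h2 (-(i - d))
    have e1 : (d : ℤ) + 1 + (i - d) = i + 1 := by ring
    have e2 : (d : ℤ) - -(i - d) = i := by ring
    rw [e1] at h3
    rw [e2] at h4
    exact h3.symm.trans h4
  have hresB : ∀ lo : ℤ, (∀ a, lo ≤ a → a < lo + p → (ψ (-a) ↔ ψ (d + 1 + a))) →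
      ∀ a, ψ (-a) ↔ ψ (d + 1 + a) := by
    intro lo h
    refine Theta_res p hp0 (fun a => ψ (-a) ↔ ψ (d + 1 + a)) ?_ lo h
    intro a
    have h1 := hpm (-a)
    have h2 := hpp (d + 1 + a)
    have e1 : -a - p = -(a + p) := by ring
    have e2 : (d : ℤ) + 1 + a + p = d + 1 + (a + p) := by ring
    rw [e1] at h1
    rw [e2] at h2
    show (ψ (-(a + p)) ↔ ψ (d + 1 + (a + p))) ↔ _
    rw [h1, h2]
  have hresB' : ∀ lo : ℤ, (∀ a, lo ≤ a → a < lo + p → (ψ a ↔ ψ (d - a))) →
      ∀ a, ψ a ↔ ψ (d - a) := by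
    intro lo h
    refine Theta_res p hp0 (fun a => ψ a ↔ ψ (d - a)) ?_ lo h
    intro a
    have h1 := hpm (d - a)
    have h2 := hpp a
    have e1 : (d : ℤ) - a - p = d - (a + p) := by ring
    rw [e1] at h1
    show (ψ (a + p) ↔ ψ (d - (a + p))) ↔ _
    rw [h1, h2]
  have hple : p ≤ j := Int.le_of_dvd (by omega) hpj
  have hpnj : p ≤ (n : ℤ) - j := Int.le_of_dvd (by omega) (dvd_sub hpn hpj)
  by_cases hcase : n ≤ d + j
  · -- `ℓ ≥ N - c + 1`
    refine hI (hresB (j - d) ?_) (hresB' (j - n + d + 1) ?_)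
    · intro a h1 h2
      exact hB a (by omega) (by omega) (by omega) (by omega)
    · intro a h1 h2
      exact hB' a (by omega) (by omega) (by omega) (by omega)
  · by_cases hdp : p ≤ d
    · refine hI ?_ (hresB' 0 ?_)
      · by_cases hjd : j ≤ d
        · refine hresB 0 ?_
          intro a h1 h2
          exact hB a (by omega) (by omega) (by omega) (by omega)
        · refine hresB (j - d) ?_
          intro a h1 h2
          exact hB a (by omega) (by omega) (by omega) (by omega)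
      · intro a h1 h2
        exact hB' a (by omega) (by omega) (by omega) (by omega)
    · -- `c - 1` is a period
      have hall : ∀ a, ψ (-a) ↔ ψ (d - a) := by
        refine Theta_res p hp0 (fun a => ψ (-a) ↔ ψ (d - a)) ?_ 0 ?_
        · intro a
          have h1 := hpm (-a)
          have h2 := hpm (d - a)
          have e1 : -a - p = -(a + p) := by ring
          have e2 : (d : ℤ) - a - p = d - (a + p) := by ring
          rw [e1] at h1
          rw [e2] at h2
          show (ψ (-(a + p)) ↔ ψ (d - (a + p))) ↔ _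
          rw [h1, h2]
        · intro a h1 h2
          exact hF a (by omega) (by omega) (by omega)
      have hdH : (d : ℤ) ∈ H := by
        rw [hHmem]
        intro i
        have := hall (-i)
        have e1 : - -i = i := by ring
        have e2 : (d : ℤ) - -i = i + d := by ring
        rw [e1, e2] at this
        exact this.symm
      have := Int.le_of_dvd (by omega) ((hdvd _).mp hdH)
      omega

private lemma Theta_even (g : ℤ → V) (X : Finset V) (h0 : g 0 ∈ X)
    (h : ∀ i, g i ∈ X ↔ g (i + 1) ∉ X) : ∀ i : ℤ, g i ∈ X ↔ Even i := by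
  intro i
  induction i using Int.induction_on with
  | zero => exact ⟨fun _ => Even.zero, fun _ => h0⟩
  | succ i ih =>
    have h1 := h i
    rw [Int.even_add_one, ← ih, h1, not_not]
  | pred i ih =>
    have h1 := h (-(i : ℤ) - 1)
    have e : -(i : ℤ) - 1 + 1 = -i := by ring
    rw [e, ih] at h1
    rw [h1, Int.even_sub_one]

theorem thm_Theta (_hTheN : St_TheN) : St_Theta := by
  intro V G X T l hC hCh hbip hT1 hT2 j hj hjl
  obtain ⟨h3, hnd, hch, a₀, b₀, hhd, hlst, hab⟩ := hC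
  have hNpos : (0 : ℤ) < l.length := by omega
  have hr : ∀ i : ℤ, (i % (l.length : ℤ)).toNat < l.length := by
    intro i
    have h1 := Int.emod_nonneg i hNpos.ne'
    have h2 := Int.emod_lt_of_pos i hNpos
    omega
  set f : ℤ → V := fun i => l[(i % (l.length : ℤ)).toNat]'(hr i) with hfdef
  have hf : ∀ (i : ℤ) (r : ℕ) (hrl : r < l.length), (l.length : ℤ) ∣ i - r → f i = l[r] := by
    intro i r hrl hd
    have h1 : i % (l.length : ℤ) = r := by
      have h2 : i % (l.length : ℤ) = (r : ℤ) % l.length :=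
        (Int.modEq_iff_dvd.mpr hd).symm
      rw [h2]
      exact Int.emod_eq_of_lt (by omega) (by omega)
    have h2 : (i % (l.length : ℤ)).toNat = r := by omega
    simp only [hfdef, h2]
  have hrep : ∀ i : ℤ, ∃ r : ℕ, ∃ hrl : r < l.length, (l.length : ℤ) ∣ i - r ∧ f i = l[r] := by
    intro i
    have h1 := Int.emod_nonneg i hNpos.ne'
    have h2 : (l.length : ℤ) ∣ i - ((i % (l.length : ℤ)).toNat : ℤ) := by
      have h3 : ((i % (l.length : ℤ)).toNat : ℤ) = i % (l.length : ℤ) := by omega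
      rw [h3]
      exact Int.dvd_self_sub_emod
    exact ⟨_, hr i, h2, rfl⟩
  have hf2 : ∀ i k, f i = f k ↔ (l.length : ℤ) ∣ i - k := by
    intro i k
    obtain ⟨r, hr1, hr2, hr3⟩ := hrep i
    obtain ⟨s, hs1, hs2, hs3⟩ := hrep k
    constructor
    · intro h
      rw [hr3, hs3, hnd.getElem_inj_iff] at h
      subst h
      have := dvd_sub hr2 hs2
      have e : i - (r : ℤ) - (k - r) = i - k := by ring
      rwa [e] at this
    · intro h
      have h4 : (l.length : ℤ) ∣ i - s := by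
        have := dvd_add h hs2
        have e : i - k + (k - (s : ℤ)) = i - s := by ring
        rwa [e] at this
      rw [hf i s hs1 h4, hs3]
  have hfadj : ∀ i, G.Adj (f i) (f (i + 1)) := by
    intro i
    obtain ⟨r, hr1, hr2, hr3⟩ := hrep i
    by_cases hrN : r + 1 < l.length
    · have h1 : f (i + 1) = l[r + 1] := by
        refine hf (i + 1) (r + 1) hrN ?_
        have e : i + 1 - ((r + 1 : ℕ) : ℤ) = i - r := by push_cast; ring
        rwa [e]
      rw [hr3, h1]
      exact (List.isChain_iff_getElem.mp hch) r hrN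
    · have h1 : f (i + 1) = l[0] := by
        refine hf (i + 1) 0 (by omega) ?_
        have h2 : (r : ℤ) = l.length - 1 := by omega
        have e : i + 1 - ((0 : ℕ) : ℤ) = (i - r) + l.length := by rw [h2]; push_cast; ring
        rw [e]
        exact dvd_add hr2 dvd_rfl
      have h2 : l[r] = b₀ := by
        rw [List.getLast?_eq_getElem?, List.getElem?_eq_some_iff] at hlst
        obtain ⟨h4, h5⟩ := hlst
        have h6 : r = l.length - 1 := by omega
        subst h6
        exact h5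
      have h3' : l[0] = a₀ := by
        rw [List.head?_eq_getElem?, List.getElem?_eq_some_iff] at hhd
        obtain ⟨h4, h5⟩ := hhd
        exact h5
      rw [hr3, h1, h2, h3']
      exact hab
  have hfl : ∀ i, f i ∈ l := by
    intro i
    obtain ⟨r, hr1, hr2, hr3⟩ := hrep i
    rw [hr3]
    exact List.getElem_mem hr1
  have hlf : ∀ v ∈ l, ∃ i, f i = v := by
    intro v hv
    obtain ⟨r, hr1, hr2⟩ := List.getElem_of_mem hv
    exact ⟨r, (hf r r hr1 (by simp)).trans hr2⟩
  have hfX : ∀ i, f i ∈ X ↔ f (i + 1) ∉ X := fun i => hbip _ (hfl i) _ (hfl _) (hfadj i)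
  -- the chord
  obtain ⟨s, t, c', hsX, hst, hc1, hc2, hc3⟩ : ∃ (s t : ℤ) (c' : ℕ), f s ∈ X ∧ G.Adj (f s) (f t) ∧
      2 ≤ c' ∧ c' + 2 ≤ l.length ∧ (l.length : ℤ) ∣ t - s - c' := by
    obtain ⟨p, q, hp, hq, h1, h2, h4⟩ := hCh
    have hpf : f p = l[p] := hf p p hp (by simp)
    have hqf : f q = l[q] := hf q q hq (by simp)
    by_cases hpX : l[p] ∈ X
    · refine ⟨p, q, q - p, by rw [hpf]; exact hpX, by rw [hpf, hqf]; exact h4, by omega, by omega, ?_⟩
      have e : (q : ℤ) - p - ((q - p : ℕ) : ℤ) = 0 := by omega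
      rw [e]
      exact dvd_zero _
    · have hqX : l[q] ∈ X := by
        by_contra h
        exact hpX ((hbip _ (List.getElem_mem hp) _ (List.getElem_mem hq) h4).mpr h)
      refine ⟨q, p, l.length - (q - p), by rw [hqf]; exact hqX, by rw [hpf, hqf]; exact h4.symm,
        by omega, by omega, ?_⟩
      have e : (p : ℤ) - q - ((l.length - (q - p) : ℕ) : ℤ) = -l.length := by omega
      rw [e]
      exact (dvd_neg.mpr dvd_rfl)
  obtain ⟨e, c, he, hce, hc2', hcN⟩ : ∃ (e : ℤ) (c : ℕ), (e = 1 ∨ e = -1) ∧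
      (l.length : ℤ) ∣ (s + e * c) - t ∧ 2 ≤ c ∧ 2 * c ≤ l.length := by
    by_cases h : 2 * c' ≤ l.length
    · refine ⟨1, c', Or.inl rfl, ?_, hc1, h⟩
      have e1 : s + 1 * (c' : ℤ) - t = -(t - s - c') := by ring
      rw [e1]
      exact (dvd_neg.mpr hc3)
    · refine ⟨-1, l.length - c', Or.inr rfl, ?_, by omega, by omega⟩
      have e1 : s + -1 * ((l.length - c' : ℕ) : ℤ) - t = -(t - s - c') - l.length := by
        have : ((l.length - c' : ℕ) : ℤ) = l.length - c' := by omega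
        rw [this]; ring
      rw [e1]
      exact dvd_sub (dvd_neg.mpr hc3) dvd_rfl
  set g : ℤ → V := fun i => f (s + e * i) with hgdef
  have hee : e * e = 1 := by rcases he with rfl | rfl <;> norm_num
  have hgadj : ∀ i, G.Adj (g i) (g (i + 1)) := by
    intro i
    simp only [hgdef]
    rcases he with rfl | rfl
    · have := hfadj (s + 1 * i)
      have e1 : s + 1 * i + 1 = s + 1 * (i + 1) := by ring
      rwa [e1] at this
    · have := hfadj (s + -1 * (i + 1))
      have e1 : s + -1 * (i + 1) + 1 = s + -1 * i := by ring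
      rw [e1] at this
      exact this.symm
  have hg2 : ∀ i k, g i = g k ↔ (l.length : ℤ) ∣ i - k := by
    intro i k
    simp only [hgdef]
    rw [hf2]
    rcases he with rfl | rfl
    · have e1 : s + 1 * i - (s + 1 * k) = i - k := by ring
      rw [e1]
    · have e1 : s + -1 * i - (s + -1 * k) = -(i - k) := by ring
      rw [e1, dvd_neg]
  have hgX0 : g 0 ∈ X := by
    simp only [hgdef, mul_zero, add_zero]
    exact hsX
  have hgl : ∀ i, g i ∈ l := fun i => hfl _
  have hgX : ∀ i, g i ∈ X ↔ Even i :=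
    Theta_even g X hgX0 (fun i => hbip _ (hgl i) _ (hgl _) (hgadj i))
  have hNe : Even (l.length : ℤ) := by
    rw [← hgX]
    have : g (l.length : ℤ) = g 0 := by rw [hg2]; simp
    rw [this]
    exact hgX0
  have hgc : g c = f t := by
    simp only [hgdef]
    rw [hf2]
    exact hce
  have hg0 : g 0 = f s := by simp only [hgdef, mul_zero, add_zero]
  have hadjc : G.Adj (g 0) (g c) := by rw [hg0, hgc]; exact hst
  have hcodd : ¬ Even (c : ℤ) := by
    rw [← hgX]
    exact (hbip _ (hgl 0) _ (hgl _) hadjc).mp hgX0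
  have hsurj : ∀ v ∈ l, ∃ i, g i = v := by
    intro v hv
    obtain ⟨i, hi⟩ := hlf v hv
    refine ⟨e * (i - s), ?_⟩
    simp only [hgdef]
    have e1 : s + e * (e * (i - s)) = i := by
      have : e * (e * (i - s)) = (e * e) * (i - s) := by ring
      rw [this, hee]; ring
    rw [e1]
    exact hi
  obtain ⟨n, hn⟩ : ∃ n : ℕ, l.length = 2 * n := by
    obtain ⟨r, hr'⟩ := hNe
    exact ⟨r.toNat, by omega⟩
  obtain ⟨d, hd⟩ : ∃ d : ℕ, c = 2 * d + 1 := by
    rw [Int.not_even_iff_odd] at hcodd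
    obtain ⟨r, hr'⟩ := hcodd
    exact ⟨r.toNat, by omega⟩
  obtain ⟨u₁, hu₁, hu₂, hu₃⟩ := hT1
  obtain ⟨u₂, hv₁, hv₂, hv₃⟩ := hT2
  obtain ⟨i₁, rfl⟩ := hsurj u₁ hu₁
  obtain ⟨i₂, rfl⟩ := hsurj u₂ hv₁
  obtain ⟨a, b, q, hq, hl, hv, hrest⟩ := Theta_core G g n d j X T hgadj
    (by intro i k; rw [hg2, hn]) hgX
    (by
      have e1 : (2 * (d : ℤ) + 1) = c := by omega
      rw [e1]; exact hadjc) (by omega) (by omega) ⟨i₁, hu₂, hu₃⟩ ⟨i₂, hv₂, hv₃⟩ hj (by omega)
  refine ⟨a, b, q, hq, hl, ?_, hrest⟩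
  intro v hv'
  obtain ⟨i, rfl⟩ := hv v hv'
  exact hgl i

end Pool.CMK
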