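import Pool.Agent.CMK.St1
import Pool.Agent.Helper37.Mader.Menger

/-!
# CMK: two disjoint paths between two sets (`St_Two`)
-/

set_option autoImplicit false

namespace Pool.CMK

open Finset
open scoped Classical

variable {V : Type}

/-- A path with ends in `X` and `Y` contains one which meets `X` and `Y` only in its ends. -/
private theorem Two_cut (G : SimpleGraph V) (X Y : Finset V) : ∀ (n : ℕ) (L : List V),
    L.length ≤ n → L.Nodup → L.IsChain G.Adj → (∃ x ∈ X, L.head? = some x) →
    (∃ y ∈ Y, L.getLast? = some y) →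
    ∃ M : List V, PathL G M ∧ (∀ v ∈ M, v ∈ L) ∧
      (∃ x ∈ X, M.head? = some x ∧ ∀ w ∈ M, w ∈ X → w = x) ∧
      (∃ y ∈ Y, M.getLast? = some y ∧ ∀ w ∈ M, w ∈ Y → w = y) := by
  intro n
  induction n with
  | zero =>
    intro L hL _ _ hx _
    obtain ⟨x, _, hx⟩ := hx
    rw [List.length_eq_zero_iff.mp (Nat.le_zero.mp hL)] at hx
    exact absurd hx (by simp)
  | succ n ih =>
    intro L hL hnd hch hx hy
    obtain ⟨x, hxX, hx⟩ := hx
    obtain ⟨y, hyY, hy⟩ := hy
    by_cases h1 : ∀ w ∈ L, w ∈ X → w = x
    · by_cases h2 : ∀ w ∈ L, w ∈ Y → w = y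
      · refine ⟨L, ⟨?_, hnd, hch⟩, fun v hv => hv, ⟨x, hxX, hx, h1⟩, ⟨y, hyY, hy, h2⟩⟩
        rintro rfl
        exact absurd hx (by simp)
      · push Not at h2
        obtain ⟨w, hw, hwY, hwy⟩ := h2
        obtain ⟨s, t, hst⟩ := List.append_of_mem hw
        have ht : t ≠ [] := by
          rintro rfl
          rw [hst] at hy
          simp at hy
          exact hwy hy
        have hlen : (s ++ [w]).length ≤ n := by
          have h3 : 0 < t.length := List.length_pos_of_ne_nil ht
          rw [hst] at hL
          simp only [List.length_append, List.length_cons, List.length_nil] at hL ⊢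
          omega
        have e : L = (s ++ [w]) ++ t := by rw [hst]; simp
        obtain ⟨M, hM1, hM2, hM3, hM4⟩ := ih (s ++ [w]) hlen
          (by rw [e] at hnd; exact (List.nodup_append.mp hnd).1)
          (by rw [e] at hch; exact (List.isChain_append.mp hch).1)
          ⟨x, hxX, by
            rw [hst] at hx
            rcases s with _ | ⟨a, s⟩
            · simpa using hx
            · simpa using hx⟩
          ⟨w, hwY, by simp⟩
        exact ⟨M, hM1, fun v hv => by rw [e]; exact List.mem_append_left _ (hM2 v hv), hM3, hM4⟩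
    · push Not at h1
      obtain ⟨w, hw, hwX, hwx⟩ := h1
      obtain ⟨s, t, hst⟩ := List.append_of_mem hw
      have hs : s ≠ [] := by
        rintro rfl
        rw [hst] at hx
        simp at hx
        exact hwx hx
      have hlen : (w :: t).length ≤ n := by
        have h3 : 0 < s.length := List.length_pos_of_ne_nil hs
        rw [hst] at hL
        simp only [List.length_append, List.length_cons] at hL ⊢
        omega
      obtain ⟨M, hM1, hM2, hM3, hM4⟩ := ih (w :: t) hlen
        (by rw [hst] at hnd; exact (List.nodup_append.mp hnd).2.1)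
        (by rw [hst] at hch; exact (List.isChain_append.mp hch).2.1)
        ⟨w, hwX, rfl⟩
        ⟨y, hyY, by
          rw [hst] at hy
          rw [List.getLast?_append] at hy
          rcases h : (w :: t).getLast? with _ | z
          · exact absurd h (by simp)
          · rw [h] at hy
            simpa using hy⟩
      exact ⟨M, hM1, fun v hv => by rw [hst]; exact List.mem_append_right _ (hM2 v hv), hM3, hM4⟩

/-- The relation on `V ⊕ Bool`. -/
private def Two_r (G : SimpleGraph V) (X Y : Finset V) : V ⊕ Bool → V ⊕ Bool → Prop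
  | .inl a, .inl b => G.Adj a b
  | .inl a, .inr true => a ∈ X
  | .inl a, .inr false => a ∈ Y
  | .inr true, .inl a => a ∈ X
  | .inr false, .inl a => a ∈ Y
  | .inr _, .inr _ => False

private theorem Two_lift : ∀ (Q : List (V ⊕ Bool)), (∀ q ∈ Q, ∃ v, q = Sum.inl v) →
    ∃ L : List V, Q = L.map Sum.inl := by
  intro Q
  induction Q with
  | nil => intro _; exact ⟨[], rfl⟩
  | cons q Q ih =>
    intro h
    obtain ⟨v, hv⟩ := h q (by simp)
    obtain ⟨L, hL⟩ := ih (fun q' hq' => h q' (List.mem_cons_of_mem _ hq'))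
    exact ⟨v :: L, by rw [hv, hL]; rfl⟩

private theorem Two_inner (G : SimpleGraph V) (X Y : Finset V) (P : List (V ⊕ Bool))
    (h1 : P.head? = some (Sum.inr true)) (h2 : P.getLast? = some (Sum.inr false)) (h3 : P.Nodup)
    (h4 : ∀ (j : ℕ) (u w : V ⊕ Bool), P[j]? = some u → P[j+1]? = some w → Two_r G X Y u w) :
    ∃ M : List V, PathL G M ∧ (∀ v ∈ M, Sum.inl v ∈ P) ∧
      (∃ x ∈ X, M.head? = some x ∧ ∀ w ∈ M, w ∈ X → w = x) ∧
      (∃ y ∈ Y, M.getLast? = some y ∧ ∀ w ∈ M, w ∈ Y → w = y) := by
  have hch : P.IsChain (Two_r G X Y) := by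
    rw [List.isChain_iff_getElem]
    intro i hi
    exact h4 i _ _ (List.getElem?_eq_getElem (by omega)) (List.getElem?_eq_getElem hi)
  obtain ⟨P1, rfl⟩ : ∃ P1, P = Sum.inr true :: P1 := by
    rcases P with _ | ⟨a, P1⟩
    · exact absurd h1 (by simp)
    · simp at h1
      exact ⟨P1, by rw [h1]⟩
  have hP1 : P1 ≠ [] := by
    rintro rfl
    simp at h2
  obtain ⟨Q, hQ⟩ : ∃ Q, P1 = Q ++ [Sum.inr false] := by
    refine ⟨P1.dropLast, ?_⟩
    have h5 := List.dropLast_append_getLast hP1
    have h6 : P1.getLast hP1 = Sum.inr false := by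
      rw [List.getLast?_cons_of_ne_nil hP1, List.getLast?_eq_some_getLast hP1] at h2
      exact Option.some.inj h2
    rw [h6] at h5
    exact h5.symm
  subst hQ
  have hQ1 : ∀ q ∈ Q, ∃ v, q = Sum.inl v := by
    intro q hq
    rcases q with v | b
    · exact ⟨v, rfl⟩
    · exfalso
      rcases b with _ | _
      · have h5 := (List.nodup_append.mp (List.nodup_cons.mp h3).2).2.2
        exact h5 _ hq _ (by simp) rfl
      · exact (List.nodup_cons.mp h3).1 (List.mem_append_left _ hq)
  obtain ⟨L, rfl⟩ := Two_lift Q hQ1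
  have hL : L ≠ [] := by
    rintro rfl
    have h5 := h4 0 (Sum.inr true) (Sum.inr false) (by simp) (by simp)
    exact h5
  have hLn : L.Nodup := by
    have h5 := (List.nodup_append.mp (List.nodup_cons.mp h3).2).1
    exact List.Nodup.of_map _ h5
  have hc1 : (L.map Sum.inl ++ [Sum.inr false]).IsChain (Two_r G X Y) := hch.tail
  have hLc : L.IsChain G.Adj := by
    have h5 := (List.isChain_append.mp hc1).1
    rw [List.isChain_map] at h5
    exact h5
  have hhd : ∃ x ∈ X, L.head? = some x := by
    rcases L with _ | ⟨x, L⟩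
    · exact absurd rfl hL
    · refine ⟨x, ?_, rfl⟩
      exact h4 0 (Sum.inr true) (Sum.inl x) (by simp) (by simp)
  have hls : ∃ y ∈ Y, L.getLast? = some y := by
    refine ⟨L.getLast hL, ?_, List.getLast?_eq_some_getLast hL⟩
    have h5 := (List.isChain_append.mp hc1).2.2
    have h6 := h5 (Sum.inl (L.getLast hL)) (by
      rw [List.getLast?_map, List.getLast?_eq_some_getLast hL]
      simp) (Sum.inr false) (by simp)
    exact h6
  obtain ⟨M, hM1, hM2, hM3, hM4⟩ := Two_cut G X Y L.length L le_rfl hLn hLc hhd hls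
  refine ⟨M, hM1, fun v hv => ?_, hM3, hM4⟩
  exact List.mem_cons_of_mem _ (List.mem_append_left _ (List.mem_map_of_mem (hM2 v hv)))

theorem thm_Two : St_Two := by
  intro V _ G X Y hSC hXY hX hY
  obtain ⟨hcard, hsep⟩ := hSC
  have hpaths := Pool.Agent.Helper37.Mader.paths_of_lb (r := Two_r G X Y)
    (W := (Finset.univ : Finset (V ⊕ Bool))) (k := 2) (a := Sum.inr true) (b := Sum.inr false)
    (by simp) (Finset.mem_univ _) (Finset.mem_univ _)
    (by
      rw [Finset.card_univ, Fintype.card_sum]
      simp only [Fintype.card_bool]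
      omega)
    (by
      intro A B _ _ hAB hA hB
      have hlow : ∀ S : Finset V, 2 ≤ S.card → (∀ v ∈ S, Sum.inl v ∉ A ∧ Sum.inl v ∉ B) →
          2 ≤ (Finset.univ \ (A ∪ B)).card := by
        intro S hS hSAB
        have h1 : S.map ⟨Sum.inl, Sum.inl_injective⟩ ⊆ Finset.univ \ (A ∪ B) := by
          intro z hz
          obtain ⟨v, hv, rfl⟩ := Finset.mem_map.mp hz
          rw [Finset.mem_sdiff, Finset.mem_union, not_or]
          exact ⟨Finset.mem_univ _, hSAB v hv⟩
        have h2 := Finset.card_le_card h1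
        rw [Finset.card_map] at h2
        exact hS.trans h2
      by_cases hA0 : ∃ v : V, Sum.inl v ∈ A
      · by_cases hB0 : ∃ v : V, Sum.inl v ∈ B
        · have h1 := hsep (Finset.univ.filter (fun v : V => Sum.inl v ∈ A))
            (Finset.univ.filter (fun v : V => Sum.inl v ∈ B))
            (by
              obtain ⟨v, hv⟩ := hA0
              exact ⟨v, Finset.mem_filter.mpr ⟨Finset.mem_univ _, hv⟩⟩)
            (by
              obtain ⟨v, hv⟩ := hB0
              exact ⟨v, Finset.mem_filter.mpr ⟨Finset.mem_univ _, hv⟩⟩)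
            (by
              rw [Finset.disjoint_left]
              intro v hv hv'
              exact (hAB _ (Finset.mem_filter.mp hv).2 _ (Finset.mem_filter.mp hv').2).1 rfl)
            (by
              intro a ha b hb hab
              exact (hAB _ (Finset.mem_filter.mp ha).2 _ (Finset.mem_filter.mp hb).2).2 hab)
          refine hlow _ h1 ?_
          intro v hv
          rw [Finset.mem_compl, Finset.mem_union, not_or] at hv
          exact ⟨fun h => hv.1 (Finset.mem_filter.mpr ⟨Finset.mem_univ _, h⟩),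
            fun h => hv.2 (Finset.mem_filter.mpr ⟨Finset.mem_univ _, h⟩)⟩
        · push Not at hB0
          obtain ⟨z, hz⟩ := hB
          rcases z with v | b
          · exact absurd hz (hB0 v)
          · rcases b with _ | _
            · refine hlow Y hY fun v hv => ⟨fun h => ?_, hB0 v⟩
              exact (hAB _ h _ hz).2 hv
            · refine hlow X hX fun v hv => ⟨fun h => ?_, hB0 v⟩
              exact (hAB _ h _ hz).2 hv
      · push Not at hA0
        obtain ⟨z, hz⟩ := hA
        rcases z with v | b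
        · exact absurd hz (hA0 v)
        · rcases b with _ | _
          · refine hlow Y hY fun v hv => ⟨hA0 v, fun h => ?_⟩
            exact (hAB _ hz _ h).2 hv
          · refine hlow X hX fun v hv => ⟨hA0 v, fun h => ?_⟩
            exact (hAB _ hz _ h).2 hv)
  obtain ⟨p, -, hp1, hp2⟩ := hpaths
  obtain ⟨a1, a2, a3, -, a5⟩ := hp1 0
  obtain ⟨b1, b2, b3, -, b5⟩ := hp1 1
  obtain ⟨M, hM1, hM2, hM3, hM4⟩ := Two_inner G X Y (p 0) a1 a2 a3 a5
  obtain ⟨N, hN1, hN2, hN3, hN4⟩ := Two_inner G X Y (p 1) b1 b2 b3 b5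
  refine ⟨M, N, hM1, hN1, ?_, hM3, hM4, hN3, hN4⟩
  intro v hv hv'
  rcases hp2 0 1 (by decide) (Sum.inl v) (hM2 v hv) (hN2 v hv') with h | h
  · exact absurd h (by simp)
  · exact absurd h (by simp)

end Pool.CMK
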