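import Pool.Agent.CMK.St3

/-!
# CMK: module WALKE, a closed walk which goes along every matching edge and back
-/

set_option autoImplicit false

namespace Pool.CMK

open Finset
open scoped Classical

/-- a chain can be shortened to a chain without repetitions -/
theorem WalkE_nodup {T : Type} (R : T → T → Prop) (l : List T) (hl : l.IsChain R)
    (hne : l ≠ []) : ∃ l' : List T, l'.IsChain R ∧ l'.Nodup ∧ l'.head? = l.head? ∧
      l'.getLast? = l.getLast? ∧ ∀ z ∈ l', z ∈ l := by
  induction l with
  | nil => exact absurd rfl hne
  | cons x t ih =>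
    rcases t with _ | ⟨y, t⟩
    · exact ⟨[x], by simp, by simp, rfl, rfl, by simp⟩
    · have hc := List.isChain_cons_cons.1 hl
      obtain ⟨l', h1, h2, h3, h4, h5⟩ := ih hc.2 (by simp)
      by_cases hx : x ∈ l'
      · obtain ⟨s, r, hsr⟩ := List.append_of_mem hx
        refine ⟨x :: r, ?_, ?_, rfl, ?_, ?_⟩
        · rw [hsr] at h1
          exact (List.isChain_append.1 h1).2.1
        · rw [hsr] at h2
          exact (List.nodup_append.1 h2).2.1
        · rw [List.getLast?_cons_cons, ← h4, hsr, List.getLast?_append]
          simp [List.getLast?_cons]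
        · intro z hz
          have : z ∈ l' := by
            rw [hsr]
            exact List.mem_append_right s hz
          exact List.mem_cons_of_mem x (h5 z this)
      · obtain ⟨y', l'', rfl⟩ : ∃ y' l'', l' = y' :: l'' := by
          cases l' with
          | nil => simp at h3
          | cons a b => exact ⟨a, b, rfl⟩
        have hy : y' = y := by simpa using h3
        subst hy
        refine ⟨x :: y' :: l'', List.isChain_cons_cons.2 ⟨hc.1, h1⟩,
          List.nodup_cons.2 ⟨hx, h2⟩, rfl, ?_, ?_⟩
        · rw [List.getLast?_cons_cons, List.getLast?_cons_cons, h4]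
        · intro z hz
          rcases List.mem_cons.1 hz with h | h
          · rw [h]
            exact List.mem_cons_self
          · exact List.mem_cons_of_mem x (h5 z h)

theorem thm_WalkE : St_WalkE := by
  intro T Γ K M a hM ha hcon
  induction M with
  | nil =>
    refine ⟨[a], by simp, rfl, rfl, by simpa using ha, by simp, by simp, by simp⟩
  | cons e M' ih =>
    have hM' : MatL Γ K M' := ⟨fun f hf => hM.adj f (List.mem_cons_of_mem e hf), by
      have := hM.nod
      rw [List.flatMap_cons] at this
      exact (List.nodup_append.1 this).2.1⟩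
    obtain ⟨w', hw1, hw2, hw3, hw4, hw5, hw6, hw7⟩ := ih hM'
    obtain ⟨hadj, he1, he2⟩ := hM.adj e List.mem_cons_self
    obtain ⟨l0, hl01, hl02, hl03, hl04⟩ := hcon a ha e.1 he1
    obtain ⟨l, hl1, hl2, hl3, hl4, hl5⟩ := WalkE_nodup Γ.Adj l0 hl01 (by
      intro h
      rw [h] at hl02
      simp at hl02)
    rw [hl02] at hl3
    rw [hl03] at hl4
    have hlK : ∀ z ∈ l, z ∈ K := fun z hz => hl04 z (hl5 z hz)
    have hlen : l.length ≤ K.card := by
      rw [← List.toFinset_card_of_nodup hl2]
      apply card_le_card
      intro z hz
      exact hlK z (List.mem_toFinset.1 hz)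
    -- decompositions
    obtain ⟨l'', rfl⟩ : ∃ l'', l = l'' ++ [e.1] := by
      rcases List.eq_nil_or_concat l with h | ⟨l'', b, h⟩
      · rw [h] at hl4
        simp at hl4
      · rw [h] at hl4
        simp at hl4
        exact ⟨l'', by rw [h, hl4, List.concat_eq_append]⟩
    obtain ⟨w'', rfl⟩ : ∃ w'', w' = w'' ++ [a] := by
      rcases List.eq_nil_or_concat w' with h | ⟨w'', b, h⟩
      · rw [h] at hw3
        simp at hw3
      · rw [h] at hw3
        simp at hw3
        exact ⟨w'', by rw [h, hw3, List.concat_eq_append]⟩
    obtain ⟨q, hq⟩ : ∃ q, l'' ++ [e.1] = a :: q := by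
      generalize l'' ++ [e.1] = m at hl3
      cases m with
      | nil => simp at hl3
      | cons b q =>
        simp at hl3
        exact ⟨q, by rw [hl3]⟩
    have hchl : (l'' ++ [e.1]).IsChain Γ.Adj := hl1
    have hchw : (w'' ++ (l'' ++ [e.1])).IsChain Γ.Adj := by
      rw [List.isChain_append]
      refine ⟨(List.isChain_append.1 hw1).1, hchl, ?_⟩
      intro x hx y hy
      rw [hq] at hy
      exact (List.isChain_append.1 hw1).2.2 x hx y (by simpa using hy)
    have hrev : (e.1 :: l''.reverse).IsChain Γ.Adj := by
      have h1 : (l'' ++ [e.1]).reverse = e.1 :: l''.reverse := by simp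
      rw [← h1, List.isChain_reverse]
      exact List.IsChain.imp (fun x y h => h.symm) hchl
    have hw : (w'' ++ (l'' ++ [e.1])) ++ (e.2 :: (e.1 :: l''.reverse)) =
        (w'' ++ l'') ++ [e.1, e.2, e.1] ++ l''.reverse := by simp
    refine ⟨(w'' ++ (l'' ++ [e.1])) ++ (e.2 :: (e.1 :: l''.reverse)), ?_, ?_, ?_, ?_, ?_, ?_, ?_⟩
    · rw [List.isChain_append]
      refine ⟨hchw, List.isChain_cons_cons.2 ⟨hadj.symm, hrev⟩, ?_⟩
      intro x hx y hy
      have hx' : x = e.1 := by
        rw [← List.append_assoc, List.getLast?_append] at hx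
        simpa using hx.symm
      have hy' : y = e.2 := by simpa using hy.symm
      rw [hx', hy']
      exact hadj
    · have h1 : (w'' ++ [a]).head? = some a := hw2
      rw [hq]
      cases w'' with
      | nil => simp
      | cons b w3 => simpa using h1
    · have h1 : (l'' ++ [e.1]).reverse = e.1 :: l''.reverse := by simp
      have h2 : (e.1 :: l''.reverse).getLast? = some a := by
        rw [← h1, List.getLast?_reverse]
        exact hl3
      rw [List.getLast?_append, List.getLast?_cons_cons, h2]
      rfl
    · intro z hz
      rw [hw] at hz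
      simp only [List.mem_append, List.mem_cons, List.not_mem_nil, or_false,
        List.mem_reverse] at hz
      rcases hz with ((h | h) | h) | h
      · exact hw4 z (by simp [h])
      · exact hlK z (by simp [h])
      · rcases h with h | h | h
        · rw [h]
          exact he1
        · rw [h]
          exact he2
        · rw [h]
          exact he1
      · exact hlK z (by simp [h])
    · have h1 : ((w'' ++ (l'' ++ [e.1])) ++ (e.2 :: (e.1 :: l''.reverse))).length =
          (w'' ++ [a]).length + 2 * (l''.length + 1) := by
        simp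
        ring
      rw [h1]
      exact Odd.add_even hw5 (even_two_mul _)
    · have h1 : ((w'' ++ (l'' ++ [e.1])) ++ (e.2 :: (e.1 :: l''.reverse))).length =
          (w'' ++ [a]).length + 2 * (l''.length + 1) := by
        simp
        ring
      have h2 : (l'' ++ [e.1]).length = l''.length + 1 := by simp
      rw [h2] at hlen
      rw [h1, List.length_cons]
      calc (w'' ++ [a]).length + 2 * (l''.length + 1)
          ≤ (1 + M'.length * (2 * K.card + 2)) + 2 * K.card := by omega
        _ ≤ 1 + (M'.length + 1) * (2 * K.card + 2) := by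
            rw [Nat.add_mul]
            omega
    · intro f hf
      rcases List.mem_cons.1 hf with h | h
      · rw [h]
        exact ⟨w'' ++ l'', l''.reverse, hw⟩
      · obtain ⟨l₁, l₂, hl⟩ := hw7 f h
        refine ⟨l₁, l₂ ++ (q ++ (e.2 :: (e.1 :: l''.reverse))), ?_⟩
        have h3 : w'' ++ (l'' ++ [e.1]) = (w'' ++ [a]) ++ q := by
          rw [hq]
          simp
        rw [h3, hl]
        simp

end Pool.CMK
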